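import Pool.Agent.H951.KS.Core
import Pool.Graph.R_seed8.Y249.AC.Stm
import Pool.Graph.R_seed8.W975.HD.Geo1

/-!
# Counting incidences from the moment bound for tubes
-/

set_option autoImplicit false

open MeasureTheory
open scoped Classical ENNReal NNReal

namespace Pool.Agent.H951.KS

open Pool.Agent.W605.HD Pool.Agent.W46.HD Pool.Agent.Y254HK

/-- the vector `(1, u)` -/
noncomputable def wv {d : ℕ} (u : Fin d → ℝ) : EuclideanSpace ℝ (Fin (d + 1)) := pt d 1 u

theorem wv_sq {d : ℕ} (u : Fin d → ℝ) : ‖wv u‖ ^ 2 = 1 + ∑ i, u i ^ 2 := by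
  rw [EuclideanSpace.norm_sq_eq, Fin.sum_univ_succ]
  simp only [wv, pt_zero, pt_succ, Real.norm_eq_abs, sq_abs]
  norm_num

theorem wv_one {d : ℕ} (u : Fin d → ℝ) : 1 ≤ ‖wv u‖ := by
  have h1 := wv_sq u
  have h2 : 0 ≤ ∑ i, u i ^ 2 := Finset.sum_nonneg fun i _ => sq_nonneg _
  have h3 : (1 : ℝ) ^ 2 ≤ ‖wv u‖ ^ 2 := by rw [h1]; linarith
  exact (pow_le_pow_iff_left₀ (by norm_num) (norm_nonneg _) two_ne_zero).1 h3

theorem wv_le {d : ℕ} (u : Fin d → ℝ) (h0 : ∀ i, 0 ≤ u i) (h1 : ∀ i, u i ≤ 1) :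
    ‖wv u‖ ≤ Real.sqrt (d + 1) := by
  apply Real.le_sqrt_of_sq_le
  rw [wv_sq]
  have h2 : ∑ i : Fin d, u i ^ 2 ≤ ∑ _i : Fin d, (1 : ℝ) :=
    Finset.sum_le_sum fun i _ => by nlinarith [h0 i, h1 i]
  rw [Finset.sum_const, Finset.card_univ, Fintype.card_fin, nsmul_eq_mul, mul_one] at h2
  linarith

/-- the unit vector in the direction `(1, u)` -/
noncomputable def ev {d : ℕ} (u : Fin d → ℝ) : EuclideanSpace ℝ (Fin (d + 1)) :=
  (‖wv u‖⁻¹ : ℝ) • wv u

theorem ev_norm {d : ℕ} (u : Fin d → ℝ) : ‖ev u‖ = 1 := by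
  have h := wv_one u
  unfold ev
  rw [norm_smul, norm_inv, norm_norm, inv_mul_cancel₀ (by linarith)]

theorem ev_zero {d : ℕ} (u : Fin d → ℝ) : ev u 0 = ‖wv u‖⁻¹ := by
  simp only [ev, wv, PiLp.smul_apply, pt_zero, smul_eq_mul, mul_one]

theorem ev_succ {d : ℕ} (u : Fin d → ℝ) (i : Fin d) : ev u (Fin.succ i) = ‖wv u‖⁻¹ * u i := by
  simp only [ev, wv, PiLp.smul_apply, pt_succ, smul_eq_mul]

theorem coord_le {n : ℕ} (x : EuclideanSpace ℝ (Fin n)) (i : Fin n) : |x i| ≤ ‖x‖ := by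
  have h := EuclideanSpace.norm_sq_eq x
  have h1 : x i ^ 2 ≤ ‖x‖ ^ 2 := by
    rw [h]
    have h2 := Finset.single_le_sum (f := fun j => ‖x j‖ ^ 2) (fun j _ => sq_nonneg _)
      (Finset.mem_univ i)
    simp only [Real.norm_eq_abs, sq_abs] at h2 ⊢
    exact h2
  exact abs_le_of_sq_le_sq h1 (norm_nonneg _)

theorem ev_sep {d : ℕ} (u u' : Fin d → ℝ) (h0 : ∀ i, 0 ≤ u' i) (h1 : ∀ i, u' i ≤ 1) (i : Fin d) :
    |u i - u' i| ≤ 2 * ‖wv u‖ * ‖ev u - ev u'‖ := by
  have hw := wv_one u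
  have hw' := wv_one u'
  have e1 : u i - u' i = ‖wv u‖ * (ev u (Fin.succ i) - ev u' (Fin.succ i)) +
      (‖wv u‖ * (ev u' 0 - ev u 0)) * u' i := by
    rw [ev_succ, ev_succ, ev_zero, ev_zero]
    have h2 : ‖wv u‖ ≠ 0 := by linarith
    have h3 : ‖wv u'‖ ≠ 0 := by linarith
    field_simp
    ring
  have h4 : |ev u (Fin.succ i) - ev u' (Fin.succ i)| ≤ ‖ev u - ev u'‖ :=
    coord_le (ev u - ev u') (Fin.succ i)
  have h5 : |ev u' 0 - ev u 0| ≤ ‖ev u - ev u'‖ := by
    rw [abs_sub_comm]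
    exact coord_le (ev u - ev u') 0
  have hw0 : 0 ≤ ‖wv u‖ := norm_nonneg _
  rw [e1]
  refine (abs_add_le _ _).trans ?_
  rw [abs_mul, abs_mul, abs_mul, abs_of_nonneg hw0, abs_of_nonneg (h0 i)]
  have h6 : ‖wv u‖ * |ev u (Fin.succ i) - ev u' (Fin.succ i)| ≤ ‖wv u‖ * ‖ev u - ev u'‖ :=
    mul_le_mul_of_nonneg_left h4 hw0
  have h7 : ‖wv u‖ * |ev u' 0 - ev u 0| * u' i ≤ ‖wv u‖ * ‖ev u - ev u'‖ * 1 :=
    mul_le_mul (mul_le_mul_of_nonneg_left h5 hw0) (h1 i) (h0 i) (by positivity)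
  linarith

/-- the box of the cell `z` at the height `j`, in the scale `h` -/
def bx {d n : ℕ} (h : ℝ) (y : Fin n × (Fin d → ℤ)) : Set (EuclideanSpace ℝ (Fin (d + 1))) :=
  {x | ((y.1 : ℕ) : ℝ) * h ≤ x 0 ∧ x 0 < (((y.1 : ℕ) : ℝ) + 1) * h ∧
    ∀ i : Fin d, (y.2 i : ℝ) * h ≤ x (Fin.succ i) ∧ x (Fin.succ i) < ((y.2 i : ℝ) + 1) * h}

theorem bx_disj {d n : ℕ} (h : ℝ) (hh : 0 < h) (y y' : Fin n × (Fin d → ℤ)) (hne : y ≠ y') :
    Disjoint (bx h y) (bx h y') := by
  rw [Set.disjoint_left]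
  rintro x ⟨h1, h2, h3⟩ ⟨h1', h2', h3'⟩
  apply hne
  have a1 : ((y.1 : ℕ) : ℝ) < ((y'.1 : ℕ) : ℝ) + 1 := lt_of_mul_lt_mul_right (h1.trans_lt h2') hh.le
  have a2 : ((y'.1 : ℕ) : ℝ) < ((y.1 : ℕ) : ℝ) + 1 := lt_of_mul_lt_mul_right (h1'.trans_lt h2) hh.le
  have b1 : (y.1 : ℕ) < (y'.1 : ℕ) + 1 := by exact_mod_cast a1
  have b2 : (y'.1 : ℕ) < (y.1 : ℕ) + 1 := by exact_mod_cast a2
  refine Prod.ext (Fin.ext (by omega)) (funext fun i => ?_)
  have c1 : (y.2 i : ℝ) < (y'.2 i : ℝ) + 1 :=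
    lt_of_mul_lt_mul_right ((h3 i).1.trans_lt (h3' i).2) hh.le
  have c2 : (y'.2 i : ℝ) < (y.2 i : ℝ) + 1 :=
    lt_of_mul_lt_mul_right ((h3' i).1.trans_lt (h3 i).2) hh.le
  have d1 : y.2 i < y'.2 i + 1 := by exact_mod_cast c1
  have d2 : y'.2 i < y.2 i + 1 := by exact_mod_cast c2
  omega

theorem bx_eq {d n : ℕ} (h : ℝ) (y : Fin n × (Fin d → ℤ)) :
    bx h y = (WithLp.ofLp : EuclideanSpace ℝ (Fin (d + 1)) → _) ⁻¹' Set.pi Set.univ
      (Fin.cons (Set.Ico (((y.1 : ℕ) : ℝ) * h) ((((y.1 : ℕ) : ℝ) + 1) * h))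
        (fun i => Set.Ico ((y.2 i : ℝ) * h) (((y.2 i : ℝ) + 1) * h)) :
          (_ : Fin (d + 1)) → Set ℝ) := by
  ext x
  simp only [bx, Set.mem_ofPred_eq, Set.mem_preimage, Set.mem_univ_pi, Fin.forall_fin_succ,
    Fin.cons_zero, Fin.cons_succ, Set.mem_Ico, and_assoc]

theorem bxp_meas {d n : ℕ} (h : ℝ) (y : Fin n × (Fin d → ℤ)) : MeasurableSet (Set.pi Set.univ
      (Fin.cons (Set.Ico (((y.1 : ℕ) : ℝ) * h) ((((y.1 : ℕ) : ℝ) + 1) * h))
        (fun i => Set.Ico ((y.2 i : ℝ) * h) (((y.2 i : ℝ) + 1) * h)) :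
          (_ : Fin (d + 1)) → Set ℝ)) := by
  refine MeasurableSet.univ_pi fun l => ?_
  refine Fin.cases ?_ (fun i => ?_) l
  · exact measurableSet_Ico
  · exact measurableSet_Ico

theorem bx_meas {d n : ℕ} (h : ℝ) (y : Fin n × (Fin d → ℤ)) : MeasurableSet (bx h y) := by
  rw [bx_eq]
  exact (PiLp.volume_preserving_ofLp (Fin (d + 1))).measurable (bxp_meas h y)

theorem bx_vol {d n : ℕ} (h : ℝ) (hh : 0 < h) (y : Fin n × (Fin d → ℤ)) :
    volume (bx h y) = ENNReal.ofReal (h ^ (d + 1)) := by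
  rw [bx_eq, (PiLp.volume_preserving_ofLp (Fin (d + 1))).measure_preimage
    (bxp_meas h y).nullMeasurableSet, volume_pi_pi, Fin.prod_univ_succ]
  simp only [Fin.cons_zero, Fin.cons_succ, Real.volume_Ico]
  have e1 : (((y.1 : ℕ) : ℝ) + 1) * h - ((y.1 : ℕ) : ℝ) * h = h := by ring
  have e2 : ∀ i, ((y.2 i : ℝ) + 1) * h - (y.2 i : ℝ) * h = h := fun i => by ring
  simp only [e1, e2]
  rw [Finset.prod_const, Finset.card_univ, Fintype.card_fin, ← ENNReal.ofReal_pow hh.le,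
    ← ENNReal.ofReal_mul hh.le, ← pow_succ']

/-- incidences of lines whose slopes are `1 / n`-separated -/
theorem cnt_sep {d : ℕ} (hd : 1 ≤ d) {c : ℝ} (hc : 0 < c) (hT : Pool.Agent.Y249.AC.TubeB d c) :
    ∃ K : ℝ, ∀ (n : ℕ) (Ω : Type) [Fintype Ω] (A D : Ω → Fin d → ℝ), IsFam n D →
      (∀ ω ω', ω ≠ ω' → ∃ i, 1 / (n : ℝ) ≤ |D ω i - D ω' i|) →
      ∀ E : Finset (Ω × Fin n), E.Nonempty →
        Real.log E.card ≤ K + d * Real.log n + c / (d + c) *
          Real.log ((E.image fun z => (z.2, cell A D z.2 z.1)).card) := by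
  obtain ⟨C, hC, h⟩ := hT
  have hd0 : (0 : ℝ) < d := by exact_mod_cast hd
  obtain ⟨R, hR⟩ : ∃ R : ℝ, R = 4 * (d + 1) := ⟨_, rfl⟩
  have hR0 : 0 < R := by rw [hR]; positivity
  obtain ⟨sq, hsq⟩ : ∃ x : ℝ, x = Real.sqrt (d + 1) := ⟨_, rfl⟩
  have hsq1 : 1 ≤ sq := by
    rw [hsq]
    exact Real.one_le_sqrt.2 (by linarith)
  have hsqsq : sq * sq = d + 1 := by rw [hsq]; exact Real.mul_self_sqrt (by positivity)
  refine ⟨(d + 1) * Real.log R + d / (d + c) * (Real.log C + d * (Real.log sq - Real.log R)) +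
    (d + c - 1) / (d + c) * d - c / (d + c) * ((d + 1) * Real.log R), ?_⟩
  intro n Ω _ A D hfam hsep E hE
  have hn1 : 1 ≤ n := hfam.pos
  have hn0 : (0 : ℝ) < n := by exact_mod_cast hn1
  have hn1R : (1 : ℝ) ≤ n := by exact_mod_cast hn1
  obtain ⟨x, hx⟩ : ∃ x : ℝ, x = 1 / (R * n) := ⟨_, rfl⟩
  have hx0 : 0 < x := by rw [hx]; positivity
  obtain ⟨δ, hδ⟩ : ∃ δ : ℝ, δ = sq * x := ⟨_, rfl⟩
  have hδ0 : 0 < δ := by rw [hδ]; positivity
  have hδn : δ * (4 * sq * n) = 1 := by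
    rw [hδ, hx, hR, ← hsqsq]
    have : sq ≠ 0 := by linarith
    field_simp
  have hδ1 : δ ≤ 1 / 4 := by
    have h1 : (4 : ℝ) ≤ 4 * sq * n := by nlinarith
    have h2 : δ * 4 ≤ δ * (4 * sq * n) := mul_le_mul_of_nonneg_left h1 hδ0.le
    linarith
  let a : Ω → EuclideanSpace ℝ (Fin (d + 1)) := fun ω =>
    pt d (1 / (2 * R)) (fun i => A ω i * x + D ω i / (2 * R))
  let e : Ω → EuclideanSpace ℝ (Fin (d + 1)) := fun ω => ev (D ω)
  obtain ⟨U, hU⟩ : ∃ U : Finset (Fin n × (Fin d → ℤ)),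
    U = E.image fun z => (z.2, cell A D z.2 z.1) := ⟨_, rfl⟩
  rw [← hU]
  -- the boxes are contained in the tubes
  have hbox : ∀ ω (j : Fin n), bx x (j, cell A D j ω) ⊆
      Pool.Agent.W46.KK.tube δ (a ω) (e ω) := by
    intro ω j y hy
    obtain ⟨h1, h2, h3⟩ := hy
    have hw1 := wv_one (D ω)
    have hw2 : ‖wv (D ω)‖ ≤ sq := by rw [hsq]; exact wv_le _ (hfam.lo ω) (hfam.hi ω)
    have hj1 : (((j : ℕ) : ℝ)) ≤ n := by exact_mod_cast j.2.le
    have hj0 : (0 : ℝ) ≤ ((j : ℕ) : ℝ) := Nat.cast_nonneg _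
    refine Pool.Agent.W46.KK.near_axis (a ω) (e ω) y (ev_norm _)
      ((((j : ℕ) : ℝ) / n - 1 / 2) / R * ‖wv (D ω)‖) δ ?_ le_rfl ?_
    · have h4 : |((j : ℕ) : ℝ) / n - 1 / 2| ≤ 1 / 2 := by
        rw [abs_le]
        have h5 : ((j : ℕ) : ℝ) / n ≤ 1 := by rw [div_le_one hn0]; exact hj1
        have h6 : 0 ≤ ((j : ℕ) : ℝ) / n := by positivity
        constructor <;> linarith
      rw [abs_mul, abs_div, abs_of_pos hR0, abs_of_nonneg (norm_nonneg _)]
      have h7 : |((j : ℕ) : ℝ) / n - 1 / 2| / R * ‖wv (D ω)‖ ≤ 1 / 2 / R * sq :=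
        mul_le_mul (div_le_div_of_nonneg_right h4 hR0.le) hw2 (norm_nonneg _) (by positivity)
      have h8 : 1 / 2 / R * sq ≤ 1 / 4 := by
        rw [hR, ← hsqsq]
        have : sq ≠ 0 := by linarith
        have e8 : 1 / 2 / (4 * (sq * sq)) * sq = 1 / (8 * sq) := by field_simp; norm_num
        rw [e8, div_le_div_iff₀ (by positivity) (by norm_num)]
        linarith
      linarith
    · have e1 : a ω + ((((j : ℕ) : ℝ) / n - 1 / 2) / R * ‖wv (D ω)‖) • e ω =
          pt d (((j : ℕ) : ℝ) * x) (fun i => (A ω i + ((j : ℕ) : ℝ) * D ω i) * x) := by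
        have hwn : ‖wv (D ω)‖ ≠ 0 := by linarith
        ext l
        refine Fin.cases ?_ (fun i => ?_) l
        · simp only [PiLp.add_apply, PiLp.smul_apply, smul_eq_mul, a, e, pt_zero, ev_zero, hx]
          field_simp
          ring
        · simp only [PiLp.add_apply, PiLp.smul_apply, smul_eq_mul, a, e, pt_succ, ev_succ, hx]
          field_simp
          ring
      rw [e1]
      have h4 : ‖y - pt d (((j : ℕ) : ℝ) * x) (fun i => (A ω i + ((j : ℕ) : ℝ) * D ω i) * x)‖ ^ 2 ≤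
          δ ^ 2 := by
        rw [EuclideanSpace.norm_sq_eq, Fin.sum_univ_succ]
        simp only [PiLp.sub_apply, pt_zero, pt_succ, Real.norm_eq_abs, sq_abs]
        have h5 : (y 0 - ((j : ℕ) : ℝ) * x) ^ 2 ≤ x ^ 2 := by
          apply sq_le_sq'
          · linarith
          · simp only at h2
            linarith
        have h6 : ∀ i : Fin d, (y (Fin.succ i) - (A ω i + ((j : ℕ) : ℝ) * D ω i) * x) ^ 2 ≤
            x ^ 2 := by
          intro i
          have h7 := (h3 i).1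
          have h8 := (h3 i).2
          have h9 : ((cell A D j ω i : ℤ) : ℝ) ≤ A ω i + ((j : ℕ) : ℝ) * D ω i := Int.floor_le _
          have h10 : A ω i + ((j : ℕ) : ℝ) * D ω i < (cell A D j ω i : ℤ) + 1 :=
            Int.lt_floor_add_one _
          simp only at h7 h8
          have h11 := mul_le_mul_of_nonneg_right h9 hx0.le
          have h12 := mul_lt_mul_of_pos_right h10 hx0
          apply sq_le_sq'
          · linarith
          · linarith
        have h7 : ∑ i : Fin d, (y (Fin.succ i) - (A ω i + ((j : ℕ) : ℝ) * D ω i) * x) ^ 2 ≤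
            ∑ _i : Fin d, x ^ 2 := Finset.sum_le_sum fun i _ => h6 i
        rw [Finset.sum_const, Finset.card_univ, Fintype.card_fin, nsmul_eq_mul] at h7
        have h8 : δ ^ 2 = (d + 1) * x ^ 2 := by
          rw [hδ, mul_pow, pow_two sq, hsqsq]
        rw [h8]
        linarith
      exact (pow_le_pow_iff_left₀ (norm_nonneg _) hδ0.le two_ne_zero).1 h4
  -- the directions are separated
  have hdir : ∀ ω ω', ω ≠ ω' → δ ≤ ‖e ω - e ω'‖ := by
    intro ω ω' hne
    obtain ⟨i, hi⟩ := hsep ω ω' hne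
    have h1 := ev_sep (D ω) (D ω') (hfam.lo ω') (hfam.hi ω') i
    have hw2 : ‖wv (D ω)‖ ≤ sq := by rw [hsq]; exact wv_le _ (hfam.lo ω) (hfam.hi ω)
    have h2 : 1 / (n : ℝ) ≤ 2 * sq * ‖ev (D ω) - ev (D ω')‖ := by
      refine hi.trans (h1.trans ?_)
      have := norm_nonneg (ev (D ω) - ev (D ω'))
      nlinarith
    rw [div_le_iff₀ hn0] at h2
    change δ ≤ ‖ev (D ω) - ev (D ω')‖
    have h3 : 0 < 4 * sq * n := by positivity
    have h4 : δ * (4 * sq * n) ≤ ‖ev (D ω) - ev (D ω')‖ * (4 * sq * n) := by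
      rw [hδn]
      nlinarith [norm_nonneg (ev (D ω) - ev (D ω'))]
    exact le_of_mul_le_mul_right h4 h3
  have hmain := h δ hδ0 (by linarith) Ω a e (fun ω => ev_norm _) hdir
  obtain ⟨f, hf⟩ : ∃ f : EuclideanSpace ℝ (Fin (d + 1)) → ℝ≥0∞, f = fun y => ∑ i,
    (Pool.Agent.W46.KK.tube δ (a i) (e i)).indicator (fun _ => (1 : ℝ≥0∞)) y := ⟨_, rfl⟩
  have hfm : Measurable f := by
    rw [hf]
    exact Finset.measurable_sum _ fun i _ => measurable_const.indicator
      (Pool.Agent.W46.KK.tube_isClosed _ _ _).measurableSet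
  have hmain2 : ∫⁻ y, f y ^ (1 + c / (d : ℝ)) ≤ ENNReal.ofReal (C * δ ^ (d : ℝ) *
      (Fintype.card Ω : ℝ) ^ (1 + c / (d : ℝ) - 1 / (d : ℝ))) := by
    rw [hf]
    exact hmain
  obtain ⟨S, hS⟩ : ∃ S : Set (EuclideanSpace ℝ (Fin (d + 1))), S = ⋃ y ∈ U, bx x y := ⟨_, rfl⟩
  have hSm : MeasurableSet S := by
    rw [hS]
    exact Finset.measurableSet_biUnion _ fun y _ => bx_meas x y
  have hSv : volume S ≤ ENNReal.ofReal (U.card * x ^ (d + 1)) := by
    rw [hS]
    refine (measure_biUnion_finset_le _ _).trans ?_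
    rw [Finset.sum_congr rfl fun y _ => bx_vol x hx0 y, Finset.sum_const, nsmul_eq_mul,
      ENNReal.ofReal_mul (Nat.cast_nonneg _), ENNReal.ofReal_natCast]
  have hlow : ENNReal.ofReal (E.card * x ^ (d + 1)) ≤ ∫⁻ y in S, f y := by
    rw [hS, lintegral_biUnion_finset (fun y _ y' _ hne => bx_disj x hx0 y y' hne)
      (fun y _ => bx_meas x y)]
    have h1 : (E.card : ℝ) = ∑ y ∈ U, ((E.filter fun z => (z.2, cell A D z.2 z.1) = y).card : ℝ) := by
      rw [hU]
      exact_mod_cast Finset.card_eq_sum_card_image _ E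
    rw [h1, Finset.sum_mul, ENNReal.ofReal_sum_of_nonneg fun y _ => by positivity]
    refine Finset.sum_le_sum fun y _ => ?_
    rw [ENNReal.ofReal_mul (Nat.cast_nonneg _), ENNReal.ofReal_natCast, ← bx_vol x hx0 y,
      ← setLIntegral_const]
    refine setLIntegral_mono' (bx_meas x y) fun w hw => ?_
    rw [hf]
    have h2 : ((E.filter fun z => (z.2, cell A D z.2 z.1) = y).card : ℝ≥0∞) =
        ((((E.filter fun z => (z.2, cell A D z.2 z.1) = y).image Prod.fst).card : ℕ) : ℝ≥0∞) := by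
      rw [Finset.card_image_of_injOn]
      intro z hz z' hz' hzz
      have g1 := (Finset.mem_filter.1 (Finset.mem_coe.1 hz)).2
      have g2 := (Finset.mem_filter.1 (Finset.mem_coe.1 hz')).2
      have g3 : z.2 = z'.2 := by
        have := congrArg Prod.fst (g1.trans g2.symm)
        exact this
      exact Prod.ext hzz g3
    rw [h2]
    calc ((((E.filter fun z => (z.2, cell A D z.2 z.1) = y).image Prod.fst).card : ℕ) : ℝ≥0∞) =
          ∑ i ∈ (E.filter fun z => (z.2, cell A D z.2 z.1) = y).image Prod.fst, 1 := by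
          rw [Finset.sum_const, nsmul_eq_mul, mul_one]
      _ ≤ ∑ i ∈ (E.filter fun z => (z.2, cell A D z.2 z.1) = y).image Prod.fst,
          (Pool.Agent.W46.KK.tube δ (a i) (e i)).indicator (fun _ => (1 : ℝ≥0∞)) w := by
          refine Finset.sum_le_sum fun i hi => ?_
          obtain ⟨z, hz, rfl⟩ := Finset.mem_image.1 hi
          have g1 := (Finset.mem_filter.1 hz).2
          rw [Set.indicator_of_mem]
          apply hbox z.1 z.2
          rw [g1]
          exact hw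
      _ ≤ _ := Finset.sum_le_sum_of_subset (Finset.subset_univ _)
  have hdc : 0 < d + c := by positivity
  have hconj : (1 + c / (d : ℝ)).HolderConjugate ((d + c) / c) := by
    rw [Real.holderConjugate_iff]
    refine ⟨by linarith [div_pos hc hd0], ?_⟩
    field_simp
  have hup : ∫⁻ y in S, f y ≤ (ENNReal.ofReal (C * δ ^ (d : ℝ) *
      (Fintype.card Ω : ℝ) ^ (1 + c / (d : ℝ) - 1 / (d : ℝ)))) ^ (1 / (1 + c / (d : ℝ))) *
      (ENNReal.ofReal (U.card * x ^ (d + 1))) ^ (1 / ((d + c) / c)) := by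
    have h1 := ENNReal.lintegral_mul_le_Lp_mul_Lq volume hconj hfm.aemeasurable
      ((measurable_const (a := (1 : ℝ≥0∞))).indicator hSm).aemeasurable
    have h2 : ∫⁻ y in S, f y = ∫⁻ y, (f * S.indicator fun _ => (1 : ℝ≥0∞)) y := by
      rw [← lintegral_indicator hSm]
      refine lintegral_congr fun y => ?_
      rw [Pi.mul_apply]
      by_cases hy : y ∈ S
      · rw [Set.indicator_of_mem hy, Set.indicator_of_mem hy, mul_one]
      · rw [Set.indicator_of_notMem hy, Set.indicator_of_notMem hy, mul_zero]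
    have h3 : ∫⁻ y, (S.indicator (fun _ => (1 : ℝ≥0∞)) y) ^ ((d + c) / c) = volume S := by
      rw [← lintegral_indicator_one hSm]
      refine lintegral_congr fun y => ?_
      by_cases hy : y ∈ S
      · rw [Set.indicator_of_mem hy, Set.indicator_of_mem hy, ENNReal.one_rpow]
        rfl
      · rw [Set.indicator_of_notMem hy, Set.indicator_of_notMem hy,
          ENNReal.zero_rpow_of_pos (by positivity)]
    rw [h2]
    refine h1.trans ?_
    rw [h3]
    exact mul_le_mul' (ENNReal.rpow_le_rpow hmain2 (by positivity))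
      (ENNReal.rpow_le_rpow hSv (by positivity))
  have hΩ : 0 < Fintype.card Ω := by
    obtain ⟨z, hz⟩ := hE
    exact Fintype.card_pos_iff.2 ⟨z.1⟩
  have hΩR : (0 : ℝ) < Fintype.card Ω := by exact_mod_cast hΩ
  have hUpos : (0 : ℝ) < U.card := by
    rw [hU]
    exact_mod_cast Finset.card_pos.2 (hE.image _)
  have hEpos : (0 : ℝ) < E.card := by exact_mod_cast Finset.card_pos.2 hE
  have hreal : (E.card : ℝ) * x ^ (d + 1) ≤ (C * δ ^ (d : ℝ) *
      (Fintype.card Ω : ℝ) ^ (1 + c / (d : ℝ) - 1 / (d : ℝ))) ^ (1 / (1 + c / (d : ℝ))) *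
      (U.card * x ^ (d + 1)) ^ (1 / ((d + c) / c)) := by
    have h1 := hlow.trans hup
    rw [ENNReal.ofReal_rpow_of_nonneg (by positivity) (by positivity),
      ENNReal.ofReal_rpow_of_nonneg (by positivity) (by positivity),
      ← ENNReal.ofReal_mul (by positivity)] at h1
    exact (ENNReal.ofReal_le_ofReal_iff (by positivity)).1 h1
  have hlog := Real.log_le_log (by positivity) hreal
  have hG0 := Pool.Agent.W975.HD.G0 d n Ω D hfam
  rw [Real.log_mul hEpos.ne' (by positivity), Real.log_pow, Real.log_mul (by positivity)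
    (by positivity), Real.log_rpow (by positivity), Real.log_rpow (by positivity),
    Real.log_mul (by positivity) (by positivity), Real.log_mul (by positivity) (by positivity),
    Real.log_rpow hδ0, Real.log_rpow hΩR, Real.log_mul hUpos.ne' (by positivity),
    Real.log_pow] at hlog
  have elx : Real.log x = -(Real.log R + Real.log n) := by
    rw [hx, Real.log_div one_ne_zero (by positivity), Real.log_one,
      Real.log_mul hR0.ne' hn0.ne', zero_sub]
  have elδ : Real.log δ = Real.log sq - (Real.log R + Real.log n) := by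
    rw [hδ, Real.log_mul (by linarith) hx0.ne', elx]
    ring
  rw [elδ, elx] at hlog
  have c1 : 1 / (1 + c / (d : ℝ)) = d / (d + c) := by field_simp
  have c2 : 1 / ((d + c) / c) = c / (d + c) := by field_simp
  have c3 : 1 + c / (d : ℝ) - 1 / (d : ℝ) = (d + c - 1) / d := by field_simp
  rw [c1, c2, c3] at hlog
  have hd1 : (1 : ℝ) ≤ d := by exact_mod_cast hd
  have hG1 : (d + c - 1) / (d + c) * Real.log (Fintype.card Ω) ≤
      (d + c - 1) / (d + c) * (d * (1 + Real.log n)) :=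
    mul_le_mul_of_nonneg_left hG0 (div_nonneg (by linarith) hdc.le)
  have e2 : d / (d + c) * (Real.log C + ↑d * (Real.log sq - (Real.log R + Real.log n)) +
      (d + c - 1) / d * Real.log (Fintype.card Ω)) = d / (d + c) * (Real.log C +
      ↑d * (Real.log sq - (Real.log R + Real.log n))) +
      (d + c - 1) / (d + c) * Real.log (Fintype.card Ω) := by
    field_simp
  rw [e2] at hlog
  have e3 : (d + 1) * (Real.log R + Real.log n) + d / (d + c) * (Real.log C +
      d * (Real.log sq - (Real.log R + Real.log n))) +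
      (d + c - 1) / (d + c) * (d * (1 + Real.log n)) +
      c / (d + c) * (Real.log U.card + (d + 1) * -(Real.log R + Real.log n)) =
      (d + 1) * Real.log R + d / (d + c) * (Real.log C + d * (Real.log sq - Real.log R)) +
    (d + c - 1) / (d + c) * d - c / (d + c) * ((d + 1) * Real.log R) + d * Real.log n +
      c / (d + c) * Real.log U.card := by
    field_simp
    ring
  push_cast at hlog
  linarith

end Pool.Agent.H951.KS
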