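import Pool.Agent.H951.KS.Cnt

/-!
# Counting incidences for all families
-/

set_option autoImplicit false

open MeasureTheory
open scoped Classical ENNReal NNReal

namespace Pool.Agent.H951.KS

open Pool.Agent.W605.HD Pool.Agent.W46.HD Pool.Agent.Y254HK

/-- The counting inequality for incidences, with the exponent `c / (d + c)`. -/
def CntP (d : ℕ) (c : ℝ) : Prop :=
  ∃ K : ℝ, ∀ (n : ℕ) (Ω : Type) [Fintype Ω] (A D : Ω → Fin d → ℝ), IsFam n D →
    ∀ E : Finset (Ω × Fin n), E.Nonempty →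
      Real.log E.card ≤ K + d * Real.log n + c / (d + c) *
        Real.log ((E.image fun z => (z.2, cell A D z.2 z.1)).card)

theorem cnt_all {d : ℕ} (hd : 1 ≤ d) {c : ℝ} (hc : 0 < c) (hT : Pool.Agent.Y249.AC.TubeB d c) :
    CntP d c := by
  obtain ⟨K, hK⟩ := cnt_sep hd hc hT
  have hd0 : (0 : ℝ) < d := by exact_mod_cast hd
  refine ⟨K + d * Real.log 2, ?_⟩
  intro n Ω _ A D hfam E hE
  have hn1 : 1 ≤ n := hfam.pos
  have hn0 : (0 : ℝ) < n := by exact_mod_cast hn1
  let κ : Ω → Fin d → Bool := fun ω i => decide (⌊(n : ℝ) * D ω i⌋ % 2 = 0)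
  have hπ : ∃ π : Fin d → Bool, (E.card : ℝ) ≤
      2 ^ d * ((E.filter fun z => κ z.1 = π).card : ℝ) := by
    by_contra hno
    push Not at hno
    have h1 : (E.card : ℝ) = ∑ π : Fin d → Bool, ((E.filter fun z => κ z.1 = π).card : ℝ) := by
      have := Finset.card_eq_sum_card_fiberwise (f := fun z : Ω × Fin n => κ z.1) (s := E)
        (t := Finset.univ) (fun _ _ => Finset.mem_coe.2 (Finset.mem_univ _))
      exact_mod_cast this
    have h2 : ∑ π : Fin d → Bool, 2 ^ d * ((E.filter fun z => κ z.1 = π).card : ℝ) <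
        ∑ _π : Fin d → Bool, (E.card : ℝ) :=
      Finset.sum_lt_sum_of_nonempty Finset.univ_nonempty fun π _ => hno π
    rw [← Finset.mul_sum, ← h1, Finset.sum_const, Finset.card_univ, nsmul_eq_mul] at h2
    have h3 : (Fintype.card (Fin d → Bool) : ℝ) = 2 ^ d := by
      rw [Fintype.card_fun, Fintype.card_bool, Fintype.card_fin]
      push_cast
      rfl
    rw [h3] at h2
    exact lt_irrefl _ h2
  obtain ⟨π, hπ⟩ := hπ
  let E' : Finset ({ω // κ ω = π} × Fin n) := Finset.univ.filter fun z => (z.1.1, z.2) ∈ E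
  have hcard : E'.card = (E.filter fun z => κ z.1 = π).card := by
    have h1 : E'.image (fun z => (z.1.1, z.2)) = E.filter fun z => κ z.1 = π := by
      ext z
      constructor
      · intro hz
        obtain ⟨y, hy, rfl⟩ := Finset.mem_image.1 hz
        exact Finset.mem_filter.2 ⟨(Finset.mem_filter.1 hy).2, y.1.2⟩
      · intro hz
        obtain ⟨h2, h3⟩ := Finset.mem_filter.1 hz
        exact Finset.mem_image.2 ⟨(⟨z.1, h3⟩, z.2), Finset.mem_filter.2 ⟨Finset.mem_univ _, h2⟩,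
          rfl⟩
    rw [← h1, Finset.card_image_of_injective]
    intro y y' hyy
    have g1 := congrArg Prod.fst hyy
    have g2 := congrArg Prod.snd hyy
    exact Prod.ext (Subtype.ext g1) g2
  have hEpos : (0 : ℝ) < E.card := by exact_mod_cast Finset.card_pos.2 hE
  have hE'pos : 0 < E'.card := by
    rw [hcard]
    by_contra h0
    have h1 : (E.filter fun z => κ z.1 = π).card = 0 := by omega
    rw [h1] at hπ
    push_cast at hπ
    linarith
  have hE'ne : E'.Nonempty := Finset.card_pos.1 hE'pos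
  have hfam' : IsFam n (fun ω : {ω // κ ω = π} => D ω.1) := ⟨hfam.pos, fun ω i => hfam.lo _ i,
    fun ω i => hfam.hi _ i, fun ω ω' h => Subtype.ext (hfam.inj _ _ h)⟩
  have hsep : ∀ ω ω' : {ω // κ ω = π}, ω ≠ ω' → ∃ i, 1 / (n : ℝ) ≤ |D ω.1 i - D ω'.1 i| := by
    intro ω ω' hne
    by_contra hno
    push Not at hno
    apply hne
    apply Subtype.ext
    apply hfam.inj
    intro i
    have h1 := hno i
    rw [lt_div_iff₀ hn0, abs_sub_comm] at h1
    have h2 : |(n : ℝ) * D ω'.1 i - n * D ω.1 i| < 1 := by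
      rw [← mul_sub, abs_mul, abs_of_pos hn0, mul_comm]
      exact h1
    have h3 := abs_lt.1 h2
    have f1 := Int.floor_le ((n : ℝ) * D ω.1 i)
    have f2 := Int.lt_floor_add_one ((n : ℝ) * D ω.1 i)
    have f3 := Int.floor_le ((n : ℝ) * D ω'.1 i)
    have f4 := Int.lt_floor_add_one ((n : ℝ) * D ω'.1 i)
    have g1 : ⌊(n : ℝ) * D ω.1 i⌋ < ⌊(n : ℝ) * D ω'.1 i⌋ + 2 := by
      have : ((⌊(n : ℝ) * D ω.1 i⌋ : ℤ) : ℝ) < ((⌊(n : ℝ) * D ω'.1 i⌋ + 2 : ℤ) : ℝ) := by
        push_cast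
        linarith [h3.1]
      exact_mod_cast this
    have g2 : ⌊(n : ℝ) * D ω'.1 i⌋ < ⌊(n : ℝ) * D ω.1 i⌋ + 2 := by
      have : ((⌊(n : ℝ) * D ω'.1 i⌋ : ℤ) : ℝ) < ((⌊(n : ℝ) * D ω.1 i⌋ + 2 : ℤ) : ℝ) := by
        push_cast
        linarith [h3.2]
      exact_mod_cast this
    have g3 : κ ω.1 i = κ ω'.1 i := by rw [ω.2, ω'.2]
    have g4 : (⌊(n : ℝ) * D ω.1 i⌋ % 2 = 0) ↔ (⌊(n : ℝ) * D ω'.1 i⌋ % 2 = 0) := by
      have := g3
      simp only [κ, decide_eq_decide] at this
      exact this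
    omega
  have hmain := hK n {ω // κ ω = π} (fun ω => A ω.1) (fun ω => D ω.1) hfam' hsep E' hE'ne
  have hsub : (E'.image fun z => (z.2, cell (fun ω : {ω // κ ω = π} => A ω.1)
      (fun ω => D ω.1) z.2 z.1)).card ≤ (E.image fun z => (z.2, cell A D z.2 z.1)).card := by
    apply Finset.card_le_card
    intro y hy
    obtain ⟨z, hz, rfl⟩ := Finset.mem_image.1 hy
    exact Finset.mem_image.2 ⟨(z.1.1, z.2), (Finset.mem_filter.1 hz).2, rfl⟩
  have hsubpos : (0 : ℝ) < (E'.image fun z => (z.2, cell (fun ω : {ω // κ ω = π} => A ω.1)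
      (fun ω => D ω.1) z.2 z.1)).card := by
    exact_mod_cast Finset.card_pos.2 (hE'ne.image _)
  have h1 := Real.log_le_log hsubpos (Nat.cast_le (α := ℝ).2 hsub)
  have h2 : Real.log E.card ≤ d * Real.log 2 + Real.log E'.card := by
    have h3 : (E.card : ℝ) ≤ 2 ^ d * (E'.card : ℝ) := by rw [hcard]; exact hπ
    have h4 := Real.log_le_log hEpos h3
    rw [Real.log_mul (by positivity) (by exact_mod_cast hE'pos.ne'), Real.log_pow] at h4
    exact h4
  have h5 := mul_le_mul_of_nonneg_left h1 (by positivity : 0 ≤ c / (d + c))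
  linarith

end Pool.Agent.H951.KS
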