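import Pool.Agent.H951.KS.Rep

/-!
# Separated heights with small covers
-/

set_option autoImplicit false
set_option maxHeartbeats 1000000

open MeasureTheory
open scoped Classical ENNReal NNReal

namespace Pool.Agent.H951.KS

open Pool.Agent.W605.HD Pool.Agent.W46.HD Pool.Agent.Y254HK

/-- The bound from the counting inequality. -/
theorem con1 {d k : ℕ} (hd : 1 ≤ d) {c : ℝ} (hc : 0 < c) {K : ℝ}
    (hK : ∀ (n : ℕ) (Ω : Type) [Fintype Ω] (A D : Ω → Fin d → ℝ), IsFam n D →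
      ∀ E : Finset (Ω × Fin n), E.Nonempty →
        Real.log E.card ≤ K + d * Real.log n + c / (d + c) *
          Real.log ((E.image fun z => (z.2, cell A D z.2 z.1)).card))
    {Ω : Type*} [MeasurableSpace Ω] (μ : Measure Ω) (b v : Ω → Fin d → ℝ)
    (hv : Measurable v) (hv1 : ∀ ω i, 0 ≤ v ω i ∧ v ω i ≤ 1) (M x B : ℝ) (hM : 0 < M)
    (hx : 0 < x) (hB : 1 ≤ B)
    (hQ : ∀ q : Fin d → ℤ, μ {ω | ∀ i, ⌊(2 : ℝ) ^ k * v ω i⌋ = q i} ≤
      ENNReal.ofReal (M / ((2 : ℝ) ^ k) ^ d))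
    (P : Finset ℝ) (hPne : P.Nonempty) (hP : ∀ t ∈ P, 0 ≤ t ∧ t < 1)
    (hsep : ∀ t ∈ P, ∀ t' ∈ P, t ≠ t' → 1 / (2 : ℝ) ^ k ≤ |t - t'|)
    (Z : ℝ → Finset (Fin d → ℤ)) (hZ : ∀ t ∈ P, ((Z t).card : ℝ) ≤ B)
    (W : ℝ → Set Ω) (hWm : ∀ t ∈ P, MeasurableSet (W t)) (hWx : ∀ t ∈ P, ENNReal.ofReal x ≤ μ (W t))
    (hWZ : ∀ t ∈ P, ∀ ω ∈ W t, ∃ z ∈ Z t, ∀ i, |(2 : ℝ) ^ k * (b ω i + t * v ω i) - z i| < 3) :
    Real.log P.card ≤ ((d + c) / d) * (Real.log M + K - Real.log x) +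
      (c / d) * Real.log (8 ^ d * B) := by
  obtain ⟨Λ, hΛ, A, D, J, E, hfam, hcount, -, hEJ, hY⟩ := rep μ b v hv hv1 M x B hM hx
    (by linarith) hQ P hP hsep Z hZ W hWm hWx hWZ
  have hd0 : (0 : ℝ) < d := by exact_mod_cast hd
  have h2k : (0 : ℝ) < (2 : ℝ) ^ k := by positivity
  have hPc : 0 < (P.card : ℝ) := by exact_mod_cast hPne.card_pos
  have hEc : 0 < (E.card : ℝ) := by
    by_contra hno
    have h1 : (E.card : ℝ) ≤ 0 := not_lt.1 hno
    have h2 : 0 < (P.card : ℝ) * x * ((2 : ℝ) ^ k) ^ d := by positivity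
    nlinarith
  have hEne : E.Nonempty := Finset.card_pos.1 (by exact_mod_cast hEc)
  have h1 := hK (2 ^ k) Λ A D hfam E hEne
  choose Y hYc hYm using hY
  have h2 : ((E.image fun z => (z.2, cell A D z.2 z.1)).card : ℝ) ≤ P.card * (8 ^ d * B) := by
    have h3 : (E.image fun z => (z.2, cell A D z.2 z.1)) ⊆
        (P.image J).biUnion fun j => (Y j).image fun y => (j, y) := by
      intro w hw
      obtain ⟨z, hz, rfl⟩ := Finset.mem_image.1 hw
      obtain ⟨t, ht, h4⟩ := hEJ z hz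
      exact Finset.mem_biUnion.2 ⟨z.2, Finset.mem_image.2 ⟨t, ht, h4.symm⟩,
        Finset.mem_image.2 ⟨_, hYm z.2 z.1 hz, rfl⟩⟩
    have h4 : ((E.image fun z => (z.2, cell A D z.2 z.1)).card) ≤
        ∑ j ∈ P.image J, (Y j).card := by
      refine (Finset.card_le_card h3).trans (Finset.card_biUnion_le.trans ?_)
      exact Finset.sum_le_sum fun j _ => Finset.card_image_le
    have h5 : ((E.image fun z => (z.2, cell A D z.2 z.1)).card : ℝ) ≤
        ∑ j ∈ P.image J, ((Y j).card : ℝ) := by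
      exact_mod_cast h4
    refine h5.trans ?_
    refine (Finset.sum_le_sum fun j _ => hYc j).trans ?_
    rw [Finset.sum_const, nsmul_eq_mul]
    refine mul_le_mul_of_nonneg_right ?_ (by positivity)
    exact_mod_cast Finset.card_image_le
  have h3 : 0 < ((E.image fun z => (z.2, cell A D z.2 z.1)).card : ℝ) := by
    exact_mod_cast (hEne.image _).card_pos
  have h4 := Real.log_le_log h3 h2
  have hBpos : (0 : ℝ) < 8 ^ d * B := by positivity
  rw [Real.log_mul hPc.ne' hBpos.ne'] at h4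
  have h5 := Real.log_le_log (by positivity) hcount
  rw [Real.log_mul (by positivity) (by positivity), Real.log_mul hPc.ne' hx.ne',
    Real.log_mul hM.ne' hEc.ne', Real.log_pow] at h5
  have h6 : Real.log ((2 ^ k : ℕ) : ℝ) = Real.log ((2 : ℝ) ^ k) := by push_cast; rfl
  rw [h6] at h1
  have hθ : 0 < c / (d + c) := by positivity
  have h7 := mul_le_mul_of_nonneg_left h4 hθ.le
  have h8 : Real.log P.card * (1 - c / (d + c)) ≤ Real.log M + K - Real.log x +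
      c / (d + c) * Real.log (8 ^ d * B) := by
    nlinarith
  have h9 : 1 - c / (d + c) = d / (d + c) := by
    field_simp
    ring
  rw [h9] at h8
  have h10 : Real.log P.card = ((d + c) / d) * (Real.log P.card * (d / (d + c))) := by
    field_simp
  rw [h10]
  have h11 := mul_le_mul_of_nonneg_left h8 (by positivity : (0 : ℝ) ≤ (d + c) / d)
  refine h11.trans (le_of_eq ?_)
  field_simp

theorem bonf {Ω : Type*} [MeasurableSpace Ω] (μ : Measure Ω) (W : ℝ → Set Ω) (η : ℝ≥0∞)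
    (P : Finset ℝ) : (∀ t ∈ P, MeasurableSet (W t)) →
    (∀ t ∈ P, ∀ t' ∈ P, t ≠ t' → μ (W t ∩ W t') ≤ η) →
    ∑ t ∈ P, μ (W t) ≤ μ (⋃ t ∈ P, W t) + (P.card : ℝ≥0∞) ^ 2 * η := by
  refine Finset.induction_on P (fun _ _ => by simp) ?_
  intro t P htP ih hW hη
  have h1 := ih (fun t ht => hW t (Finset.mem_insert_of_mem ht))
    (fun s hs s' hs' hne => hη s (Finset.mem_insert_of_mem hs) s' (Finset.mem_insert_of_mem hs') hne)
  have hUm : MeasurableSet (⋃ s ∈ P, W s) :=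
    Finset.measurableSet_biUnion _ fun s hs => hW s (Finset.mem_insert_of_mem hs)
  have h2 := measure_union_add_inter (μ := μ) (W t) hUm
  have h3 : μ (W t ∩ ⋃ s ∈ P, W s) ≤ (P.card : ℝ≥0∞) * η := by
    rw [Set.inter_iUnion₂]
    refine (measure_biUnion_finset_le P _).trans ?_
    rw [← nsmul_eq_mul, ← Finset.sum_const]
    refine Finset.sum_le_sum fun s hs => ?_
    refine hη t (Finset.mem_insert_self _ _) s (Finset.mem_insert_of_mem hs) ?_
    rintro rfl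
    exact htP hs
  rw [Finset.sum_insert htP, Finset.card_insert_of_notMem htP, Finset.set_biUnion_insert]
  calc μ (W t) + ∑ s ∈ P, μ (W s) ≤ μ (W t) + (μ (⋃ s ∈ P, W s) + (P.card : ℝ≥0∞) ^ 2 * η) :=
        add_le_add_right h1 _
    _ = (μ (W t ∪ ⋃ s ∈ P, W s) + μ (W t ∩ ⋃ s ∈ P, W s)) + (P.card : ℝ≥0∞) ^ 2 * η := by
        rw [h2, add_assoc]
    _ ≤ (μ (W t ∪ ⋃ s ∈ P, W s) + (P.card : ℝ≥0∞) * η) + (P.card : ℝ≥0∞) ^ 2 * η := by
        gcongr
    _ = μ (W t ∪ ⋃ s ∈ P, W s) + ((P.card : ℝ≥0∞) + (P.card : ℝ≥0∞) ^ 2) * η := by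
        ring
    _ ≤ μ (W t ∪ ⋃ s ∈ P, W s) + (((P.card + 1 : ℕ)) : ℝ≥0∞) ^ 2 * η := by
        gcongr
        have : P.card + P.card ^ 2 ≤ (P.card + 1) ^ 2 := by nlinarith
        exact_mod_cast this

end Pool.Agent.H951.KS
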