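import Pool.Agent.H951.KS.Exc2

/-!
# The dimension of the set of exceptional heights: slopes in the unit cube
-/

set_option autoImplicit false
set_option maxHeartbeats 1000000

open MeasureTheory Filter Topology
open scoped Classical ENNReal NNReal

namespace Pool.Agent.H951.KS

open Pool.Agent.W605.HD Pool.Agent.W46.HD Pool.Agent.Y254HK

theorem EA (d : ℕ) (hd : 1 ≤ d) (c : ℝ) (hc : 0 < c) (hT : CntP d c) {Ω : Type*}
    [MeasurableSpace Ω] (μ : Measure Ω) [IsFiniteMeasure μ]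
    (b v : Ω → Fin d → ℝ) (hb : Measurable b) (hv : Measurable v)
    (hv1 : ∀ ω i, 0 ≤ v ω i ∧ v ω i ≤ 1) (hac : μ.map v ≪ (volume : Measure (Fin d → ℝ)))
    (α : ℝ≥0) (τ0 : ℝ) (hτ : c * α / d < τ0) (δ : ℝ) (hδ : 0 < δ) :
    dimH {τ : ℝ | τ ∈ Set.Ico (0 : ℝ) 1 ∧ ∃ A : Set (Fin d → ℝ), dimH A < α ∧
      ENNReal.ofReal δ < μ {ω | (fun i => b ω i + τ * v ω i) ∈ A}} ≤ ENNReal.ofReal τ0 := by
  obtain ⟨K, hK⟩ := hT
  obtain ⟨M, μ', hM, hfin, hQ, hkey⟩ := setup d μ b v hv hac α δ hδ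
  have hd0 : (0 : ℝ) < d := by exact_mod_cast hd
  have hα0 : (0 : ℝ) ≤ α := α.2
  have hlog : 0 < Real.log 2 := Real.log_pos (by norm_num)
  have hgap : 0 < τ0 - c * α / d := by linarith
  have hτ0 : 0 ≤ τ0 := by
    have : 0 ≤ c * α / d := by positivity
    linarith
  obtain ⟨ε, hε⟩ : ∃ ε : ℝ, ε = (τ0 - c * α / d) * Real.log 2 * (d / (d + c)) / 2 := ⟨_, rfl⟩
  have hε0 : 0 < ε := by rw [hε]; positivity
  have hρ1 : Real.exp (-ε) < 1 := Real.exp_lt_one_iff.2 (by linarith)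
  refine dim_cover _ (GG μ' b v α δ (Real.exp (-ε))) (1 / 2) _ _ τ0 (by norm_num) (by norm_num)
    (Real.exp_pos _).le (Real.exp_pos _).le hτ0 ?_
    (hkey (Real.exp (-ε)) (Real.exp_pos _) hρ1) 0
    (fun k _ P hP hsep => sepA hd hc hK μ' b v hb hv hv1 M hM hQ α hα0 δ (Real.exp (-ε)) hδ
      (Real.exp_pos _) hρ1 k P hP hsep)
  rw [Real.log_exp, Real.rpow_def_of_pos (by norm_num), ← Real.exp_add]
  refine Real.exp_lt_one_iff.2 ?_
  have h1 : Real.log (1 / 2) = -Real.log 2 := by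
    rw [one_div, Real.log_inv]
  rw [h1]
  have h2 : ((d + c) / d) * ε = (τ0 - c * α / d) * Real.log 2 / 2 := by
    rw [hε]
    field_simp
  have h3 : -((d + c) / d) * -ε + c / d * (α * Real.log 2) + -Real.log 2 * τ0 =
      ((d + c) / d) * ε - (τ0 - c * α / d) * Real.log 2 := by
    ring
  rw [h3, h2]
  have h4 : 0 < (τ0 - c * α / d) * Real.log 2 := by positivity
  linarith

theorem sepB {d : ℕ} {Ω : Type*} [MeasurableSpace Ω] (μ : Measure Ω) [IsFiniteMeasure μ]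
    (b v : Ω → Fin d → ℝ) (hb : Measurable b)
    (hv : Measurable v) (M : ℝ) (hM : 0 < M)
    (hQ : ∀ (k : ℕ) (q : Fin d → ℤ), μ {ω | ∀ i, ⌊(2 : ℝ) ^ k * v ω i⌋ = q i} ≤
      ENNReal.ofReal (M / ((2 : ℝ) ^ k) ^ d))
    (α : ℝ) (δ ρ : ℝ) (hδ : 0 < δ) (hρ0 : 0 < ρ) (hρ1 : ρ < 1) (k : ℕ)
    (P : Finset ℝ) (hP : (P : Set ℝ) ⊆ GG μ b v α δ ρ k) (r : ℝ) (hr : 0 < r) (hr1 : r ≤ 1)
    (hsep : ∀ t ∈ P, ∀ t' ∈ P, t ≠ t' → r ≤ |t - t'|)
    (hk : 6 * (μ Set.univ).toReal * (((2 : ℝ) ^ (α * (k + 1))) ^ 2 * (14 / r) ^ d *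
      (M / ((2 : ℝ) ^ k) ^ d)) < (δ * (1 - ρ) / 4 * ρ ^ k) ^ 2) :
    (P.card : ℝ) ≤ 3 * (μ Set.univ).toReal / (δ * (1 - ρ) / 4 * ρ ^ k) := by
  have hρ : 0 < 1 - ρ := by linarith
  by_contra hno
  rw [not_le] at hno
  have hex : ∀ t : ℝ, ∃ Z : Finset (Fin d → ℤ), t ∈ P → (Z.card : ℝ) ≤ (2 : ℝ) ^ (α * (k + 1)) ∧
      ENNReal.ofReal (δ * (1 - ρ) / 4 * ρ ^ k) ≤
        μ {ω | ∃ z ∈ Z, ∀ i, |(2 : ℝ) ^ k * (b ω i + t * v ω i) - z i| < 3} := by
    intro t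
    by_cases ht : t ∈ P
    · obtain ⟨-, Z, hZ1, hZ2⟩ := hP ht
      exact ⟨Z, fun _ => ⟨hZ1, hZ2⟩⟩
    · exact ⟨∅, fun h => absurd h ht⟩
  choose Z hZ using hex
  have hx : 0 < δ * (1 - ρ) / 4 * ρ ^ k := by positivity
  have h1 := con2 (k := k) μ b v M (δ * (1 - ρ) / 4 * ρ ^ k)
    ((2 : ℝ) ^ (α * (k + 1))) r hM.le hx (by positivity) hr hr1 (hQ k) P hsep
    Z (fun t ht => (hZ t ht).1)
    (fun t => {ω | ∃ z ∈ Z t, ∀ i, |(2 : ℝ) ^ k * (b ω i + t * v ω i) - z i| < 3})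
    (fun t _ => Wmeas b v hb hv k t (Z t)) (fun t ht => (hZ t ht).2) (fun t _ ω hω => hω) hno
  exact absurd h1 (not_le.2 hk)

theorem EB (d : ℕ) (hd : 1 ≤ d) {Ω : Type*}
    [MeasurableSpace Ω] (μ : Measure Ω) [IsFiniteMeasure μ]
    (b v : Ω → Fin d → ℝ) (hb : Measurable b) (hv : Measurable v)
    (hac : μ.map v ≪ (volume : Measure (Fin d → ℝ)))
    (α : ℝ≥0) (τ0 : ℝ) (hα : 2 * (α : ℝ) < d) (hτ : 0 < τ0) (δ : ℝ) (hδ : 0 < δ) :
    dimH {τ : ℝ | τ ∈ Set.Ico (0 : ℝ) 1 ∧ ∃ A : Set (Fin d → ℝ), dimH A < α ∧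
      ENNReal.ofReal δ < μ {ω | (fun i => b ω i + τ * v ω i) ∈ A}} ≤ ENNReal.ofReal τ0 := by
  obtain ⟨M, μ', hM, hfin, hQ, hkey⟩ := setup d μ b v hv hac α δ hδ
  have hd0 : (1 : ℝ) ≤ d := by exact_mod_cast hd
  have hα0 : (0 : ℝ) ≤ α := α.2
  obtain ⟨h, hh⟩ : ∃ h : ℝ, h = Real.log 2 := ⟨_, rfl⟩
  have hh0 : 0 < h := by rw [hh]; exact Real.log_pos (by norm_num)
  obtain ⟨β, hβ⟩ : ∃ β : ℝ, β = (1 - 2 * α / d) / 2 := ⟨_, rfl⟩
  have hβd : 2 * (β * d) = d - 2 * α := by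
    rw [hβ]
    field_simp
  have hβ0 : 0 < β := by
    by_contra hle
    have h1 : β ≤ 0 := not_lt.1 hle
    nlinarith
  obtain ⟨ε, hε⟩ : ∃ ε : ℝ, ε = β * h * min τ0 1 / 4 := ⟨_, rfl⟩
  have hmin0 : 0 < min τ0 1 := lt_min hτ one_pos
  have hε0 : 0 < ε := by rw [hε]; positivity
  have hε1 : ε < β * h * τ0 := by
    rw [hε]
    have h1 : β * h * min τ0 1 ≤ β * h * τ0 := mul_le_mul_of_nonneg_left (min_le_left _ _)
      (by positivity)
    have h2 : 0 < β * h * min τ0 1 := by positivity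
    linarith
  have hε2 : 2 * ε < β * d * h := by
    rw [hε]
    have h1 : β * h * min τ0 1 ≤ β * h * 1 := mul_le_mul_of_nonneg_left (min_le_right _ _)
      (by positivity)
    have h2 : β * h * 1 ≤ β * h * d := mul_le_mul_of_nonneg_left hd0 (by positivity)
    have h3 : 0 < β * h * d := by positivity
    linarith
  have hρ1 : Real.exp (-ε) < 1 := Real.exp_lt_one_iff.2 (by linarith)
  have hρ : 0 < 1 - Real.exp (-ε) := by linarith
  obtain ⟨x0, hx0⟩ : ∃ x0 : ℝ, x0 = δ * (1 - Real.exp (-ε)) / 4 := ⟨_, rfl⟩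
  have hx00 : 0 < x0 := by rw [hx0]; positivity
  have hζ1 : Real.exp (-(β * h)) < 1 := Real.exp_lt_one_iff.2 (by
    have : 0 < β * h := by positivity
    linarith)
  obtain ⟨κ, hκ⟩ : ∃ κ : ℝ, κ = β * d * h - 2 * ε := ⟨_, rfl⟩
  have hκ0 : 0 < κ := by rw [hκ]; linarith
  obtain ⟨C, hC⟩ : ∃ C : ℝ, C = 6 * (μ' Set.univ).toReal *
    (Real.exp (2 * α * h) * 14 ^ d * M) := ⟨_, rfl⟩
  have hlim : Tendsto (fun k : ℕ => C * Real.exp (-κ) ^ k) atTop (𝓝 (C * 0)) :=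
    (tendsto_pow_atTop_nhds_zero_of_lt_one (Real.exp_pos _).le
      (Real.exp_lt_one_iff.2 (by linarith))).const_mul C
  rw [mul_zero] at hlim
  obtain ⟨k1, hk1⟩ := eventually_atTop.1 (hlim.eventually (gt_mem_nhds (pow_pos hx00 2)))
  refine dim_cover _ (GG μ' b v α δ (Real.exp (-ε))) (Real.exp (-(β * h)))
    (3 * (μ' Set.univ).toReal / x0) (Real.exp ε) τ0 (Real.exp_pos _) hζ1
    (by positivity) (Real.exp_pos _).le hτ.le ?_
    (hkey (Real.exp (-ε)) (Real.exp_pos _) hρ1) k1 ?_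
  · rw [Real.rpow_def_of_pos (Real.exp_pos _), Real.log_exp, ← Real.exp_add]
    refine Real.exp_lt_one_iff.2 ?_
    linarith
  · intro k hk P hP hsep
    have h1 := sepB μ' b v hb hv M hM hQ α δ (Real.exp (-ε)) hδ (Real.exp_pos _) hρ1 k P hP
      (Real.exp (-(β * h)) ^ k) (pow_pos (Real.exp_pos _) _)
      (pow_le_one₀ (Real.exp_pos _).le hζ1.le) hsep (by
        rw [← hx0]
        have e1 : ((2 : ℝ) ^ ((α : ℝ) * (k + 1))) ^ 2 = Real.exp (2 * (α * h * (k + 1))) := by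
          rw [Real.rpow_def_of_pos (by norm_num), ← hh, ← Real.exp_nat_mul]
          congr 1
          push_cast
          ring
        have e2 : (14 / Real.exp (-(β * h)) ^ k) ^ d = 14 ^ d * Real.exp (β * h * k * d) := by
          rw [← Real.exp_nat_mul, div_pow, ← Real.exp_nat_mul, div_eq_mul_inv, ← Real.exp_neg]
          congr 2
          ring
        have e3 : M / ((2 : ℝ) ^ k) ^ d = M * Real.exp (-(h * k * d)) := by
          have : ((2 : ℝ) ^ k) ^ d = Real.exp (h * k * d) := by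
            rw [← pow_mul, ← Real.exp_log (by norm_num : (0 : ℝ) < 2), ← hh, ← Real.exp_nat_mul]
            congr 1
            push_cast
            ring
          rw [this, Real.exp_neg, div_eq_mul_inv]
        have e4 : (x0 * Real.exp (-ε) ^ k) ^ 2 = x0 ^ 2 * Real.exp (-(2 * ε * k)) := by
          rw [mul_pow, ← Real.exp_nat_mul, ← Real.exp_nat_mul]
          congr 2
          push_cast
          ring
        rw [e1, e2, e3, e4]
        have e5 : 6 * (μ' Set.univ).toReal * (Real.exp (2 * (α * h * (k + 1))) *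
            (14 ^ d * Real.exp (β * h * k * d)) * (M * Real.exp (-(h * k * d)))) =
            (C * Real.exp (-κ) ^ k) * Real.exp (-(2 * ε * k)) := by
          rw [hC, ← Real.exp_nat_mul]
          have e6 : Real.exp (2 * (α * h * (k + 1))) * Real.exp (β * h * k * d) *
              Real.exp (-(h * k * d)) = Real.exp (2 * α * h) * Real.exp ((k : ℝ) * -κ) *
                Real.exp (-(2 * ε * k)) := by
            rw [← Real.exp_add, ← Real.exp_add, ← Real.exp_add, ← Real.exp_add]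
            congr 1
            rw [hκ]
            have e7 : (d : ℝ) = 2 * (β * d) + 2 * α := by linarith
            linear_combination (-(h * k)) * e7
          calc 6 * (μ' Set.univ).toReal * (Real.exp (2 * (α * h * (k + 1))) *
            (14 ^ d * Real.exp (β * h * k * d)) * (M * Real.exp (-(h * k * d)))) =
              6 * (μ' Set.univ).toReal * 14 ^ d * M * (Real.exp (2 * (α * h * (k + 1))) *
                Real.exp (β * h * k * d) * Real.exp (-(h * k * d))) := by ring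
            _ = _ := by
              rw [e6]
              ring
        rw [e5]
        exact mul_lt_mul_of_pos_right (hk1 k hk) (Real.exp_pos _))
    refine h1.trans (le_of_eq ?_)
    rw [← hx0]
    have e8 : Real.exp (-ε) ^ k = (Real.exp ε ^ k)⁻¹ := by
      rw [Real.exp_neg, inv_pow]
    rw [e8]
    field_simp

end Pool.Agent.H951.KS
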