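import Pool.Agent.H951.KS.CntB

/-!
# One line for each cell of slopes
-/

set_option autoImplicit false
set_option maxHeartbeats 1000000

open MeasureTheory
open scoped Classical ENNReal NNReal

namespace Pool.Agent.H951.KS

open Pool.Agent.W605.HD Pool.Agent.W46.HD Pool.Agent.Y254HK

theorem sum_inter {Ω : Type*} [MeasurableSpace Ω] (μ : Measure Ω) (P : Finset ℝ) (W : ℝ → Set Ω)
    (hW : ∀ t ∈ P, MeasurableSet (W t)) (B : Set Ω) (hB : MeasurableSet B) (m : ℕ)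
    (hm : ∀ ω ∈ B, (P.filter fun t => ω ∈ W t).card ≤ m) :
    ∑ t ∈ P, μ (W t ∩ B) ≤ m * μ B := by
  have h1 : ∀ t ∈ P, μ (W t ∩ B) = ∫⁻ ω in B, (W t).indicator 1 ω ∂μ := by
    intro t ht
    rw [lintegral_indicator_one (hW t ht), Measure.restrict_apply (hW t ht)]
  rw [Finset.sum_congr rfl h1, ← lintegral_finsetSum' _ (fun t ht =>
    ((measurable_one).indicator (hW t ht)).aemeasurable), ← setLIntegral_const]
  refine setLIntegral_mono' hB fun ω hω => ?_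
  have h2 : ∑ t ∈ P, (W t).indicator (1 : Ω → ℝ≥0∞) ω =
      (((P.filter fun t => ω ∈ W t).card : ℕ) : ℝ≥0∞) := by
    rw [Finset.card_filter]
    push_cast
    refine Finset.sum_congr rfl fun t _ => ?_
    by_cases h : ω ∈ W t
    · rw [Set.indicator_of_mem h, if_pos h]
      rfl
    · rw [Set.indicator_of_notMem h, if_neg h]
  rw [h2]
  exact_mod_cast hm ω hω

theorem exists_best {Ω : Type*} (S : Set Ω) (hS : S.Nonempty) (m : Ω → ℕ) (b : ℕ)
    (hb : ∀ ω, m ω ≤ b) : ∃ ω ∈ S, ∀ ω' ∈ S, m ω' ≤ m ω := by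
  have hne : (m '' S).Nonempty := hS.image m
  have hbd : BddAbove (m '' S) := ⟨b, by rintro _ ⟨ω, _, rfl⟩; exact hb ω⟩
  obtain ⟨ω, hω, h1⟩ := Nat.sSup_mem hne hbd
  refine ⟨ω, hω, fun ω' hω' => ?_⟩
  rw [h1]
  exact le_csSup hbd ⟨ω', hω', rfl⟩

theorem cast_ineq {a b : ℕ} {M x N : ℝ} (hN : 0 < N) (hM : 0 ≤ M)
    (h : (a : ℝ≥0∞) * ENNReal.ofReal x ≤ (b : ℝ≥0∞) * ENNReal.ofReal (M / N)) :
    (a : ℝ) * x * N ≤ M * b := by
  rw [← ENNReal.ofReal_natCast, ← ENNReal.ofReal_natCast, ← ENNReal.ofReal_mul (Nat.cast_nonneg _),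
    ← ENNReal.ofReal_mul (Nat.cast_nonneg _)] at h
  have h1 : (0 : ℝ) ≤ b * (M / N) := by positivity
  have h2 := (ENNReal.ofReal_le_ofReal_iff h1).1 h
  rw [mul_div_assoc', le_div_iff₀ hN] at h2
  linarith

/-- Representatives of the cells of slopes, with their incidences. -/
theorem rep {d k : ℕ} {Ω : Type*} [MeasurableSpace Ω] (μ : Measure Ω) (b v : Ω → Fin d → ℝ)
    (hv : Measurable v) (hv1 : ∀ ω i, 0 ≤ v ω i ∧ v ω i ≤ 1) (M x B : ℝ) (hM : 0 < M)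
    (hx : 0 < x) (hB : 0 ≤ B)
    (hQ : ∀ q : Fin d → ℤ, μ {ω | ∀ i, ⌊(2 : ℝ) ^ k * v ω i⌋ = q i} ≤
      ENNReal.ofReal (M / ((2 : ℝ) ^ k) ^ d))
    (P : Finset ℝ) (hP : ∀ t ∈ P, 0 ≤ t ∧ t < 1)
    (hsep : ∀ t ∈ P, ∀ t' ∈ P, t ≠ t' → 1 / (2 : ℝ) ^ k ≤ |t - t'|)
    (Z : ℝ → Finset (Fin d → ℤ)) (hZ : ∀ t ∈ P, ((Z t).card : ℝ) ≤ B)
    (W : ℝ → Set Ω) (hWm : ∀ t ∈ P, MeasurableSet (W t)) (hWx : ∀ t ∈ P, ENNReal.ofReal x ≤ μ (W t))
    (hWZ : ∀ t ∈ P, ∀ ω ∈ W t, ∃ z ∈ Z t, ∀ i, |(2 : ℝ) ^ k * (b ω i + t * v ω i) - z i| < 3) :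
    ∃ (Λ : Type) (_ : Fintype Λ) (A D : Λ → Fin d → ℝ) (J : ℝ → Fin (2 ^ k))
      (E : Finset (Λ × Fin (2 ^ k))),
      IsFam (2 ^ k) D ∧ (P.card : ℝ) * x * ((2 : ℝ) ^ k) ^ d ≤ M * E.card ∧
      (∀ t ∈ P, (((J t : ℕ) : ℝ)) ≤ 2 ^ k * t ∧ 2 ^ k * t < ((J t : ℕ) : ℝ) + 1) ∧
      (∀ z ∈ E, ∃ t ∈ P, z.2 = J t) ∧
      ∀ j : Fin (2 ^ k), ∃ Y : Finset (Fin d → ℤ), (Y.card : ℝ) ≤ 8 ^ d * B ∧
        ∀ l, (l, j) ∈ E → cell A D j l ∈ Y := by
  have h2k : (0 : ℝ) < (2 : ℝ) ^ k := by positivity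
  have h2kN : 0 < 2 ^ k := by positivity
  have hcast : (((2 ^ k : ℕ)) : ℝ) = (2 : ℝ) ^ k := by push_cast; rfl
  let I : Finset (Fin d → ℤ) := (Fintype.piFinset fun _ => Finset.Icc (0 : ℤ) (2 ^ k)).filter
    fun q => ∃ ω, ∀ i, ⌊(2 : ℝ) ^ k * v ω i⌋ = q i
  have hI : ∀ ω, (fun i => ⌊(2 : ℝ) ^ k * v ω i⌋) ∈ I := by
    intro ω
    refine Finset.mem_filter.2 ⟨Fintype.mem_piFinset.2 fun i => Finset.mem_Icc.2 ⟨?_, ?_⟩, ω,
      fun i => rfl⟩
    · exact Int.floor_nonneg.2 (mul_nonneg h2k.le (hv1 ω i).1)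
    · rw [← Int.lt_add_one_iff, Int.floor_lt]
      push_cast
      have := mul_le_mul_of_nonneg_left (hv1 ω i).2 h2k.le
      linarith
  have hbest : ∀ q : {q // q ∈ I}, ∃ ω : Ω, (∀ i, ⌊(2 : ℝ) ^ k * v ω i⌋ = q.1 i) ∧
      ∀ ω', (∀ i, ⌊(2 : ℝ) ^ k * v ω' i⌋ = q.1 i) →
        (P.filter fun t => ω' ∈ W t).card ≤ (P.filter fun t => ω ∈ W t).card := by
    intro q
    exact exists_best {ω | ∀ i, ⌊(2 : ℝ) ^ k * v ω i⌋ = q.1 i} (Finset.mem_filter.1 q.2).2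
      (fun ω => (P.filter fun t => ω ∈ W t).card) P.card (fun ω => Finset.card_filter_le _ _)
  choose σ hσ1 hσ2 using hbest
  let J : ℝ → Fin (2 ^ k) := fun t => ⟨⌊(2 : ℝ) ^ k * t⌋.toNat % 2 ^ k, Nat.mod_lt _ h2kN⟩
  have hJv : ∀ t ∈ P, ((((J t : Fin (2 ^ k)) : ℕ) : ℤ)) = ⌊(2 : ℝ) ^ k * t⌋ := by
    intro t ht
    have h1 : 0 ≤ ⌊(2 : ℝ) ^ k * t⌋ := Int.floor_nonneg.2 (mul_nonneg h2k.le (hP t ht).1)
    have h2 : ⌊(2 : ℝ) ^ k * t⌋ < ((2 ^ k : ℕ) : ℤ) := by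
      rw [Int.floor_lt]
      push_cast
      have := mul_lt_mul_of_pos_left (hP t ht).2 h2k
      linarith
    have h3 : ⌊(2 : ℝ) ^ k * t⌋.toNat < 2 ^ k := by omega
    change ((⌊(2 : ℝ) ^ k * t⌋.toNat % 2 ^ k : ℕ) : ℤ) = _
    rw [Nat.mod_eq_of_lt h3]
    exact Int.toNat_of_nonneg h1
  have hJ : ∀ t ∈ P, (((J t : ℕ) : ℝ)) ≤ 2 ^ k * t ∧ 2 ^ k * t < ((J t : ℕ) : ℝ) + 1 := by
    intro t ht
    have h1 : (((J t : ℕ) : ℝ)) = ((⌊(2 : ℝ) ^ k * t⌋ : ℤ) : ℝ) := by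
      have := hJv t ht
      exact_mod_cast this
    rw [h1]
    exact ⟨Int.floor_le _, Int.lt_floor_add_one _⟩
  have hJinj : ∀ t ∈ P, ∀ t' ∈ P, J t = J t' → t = t' := by
    intro t ht t' ht' h
    by_contra hne
    have h1 := hsep t ht t' ht' hne
    have h2 := hJ t ht
    have h3 := hJ t' ht'
    rw [← h] at h3
    have h4 : |(2 : ℝ) ^ k * (t - t')| < 1 := by
      rw [abs_lt]
      constructor <;> linarith [h2.1, h2.2, h3.1, h3.2]
    rw [abs_mul, abs_of_pos h2k] at h4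
    rw [div_le_iff₀ h2k] at h1
    linarith
  let A : {q // q ∈ I} → Fin d → ℝ := fun q i => (2 : ℝ) ^ k * b (σ q) i
  let D : {q // q ∈ I} → Fin d → ℝ := fun q => v (σ q)
  let E : Finset ({q // q ∈ I} × Fin (2 ^ k)) :=
    Finset.univ.filter fun z => ∃ t ∈ P, z.2 = J t ∧ σ z.1 ∈ W t
  refine ⟨{q // q ∈ I}, inferInstance, A, D, J, E, ?_, ?_, hJ, ?_, ?_⟩
  · refine ⟨Nat.one_le_two_pow, fun q i => (hv1 _ i).1, fun q i => (hv1 _ i).2, ?_⟩
    intro q q' h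
    apply Subtype.ext
    funext i
    rw [← hσ1 q i, ← hσ1 q' i, ← hcast]
    exact h i
  · -- the number of incidences
    have h1 : ∀ q : {q // q ∈ I}, (P.filter fun t => σ q ∈ W t).card ≤
        (Finset.univ.filter fun j : Fin (2 ^ k) => (q, j) ∈ E).card := by
      intro q
      refine Finset.card_le_card_of_injOn J ?_ ?_
      · intro t ht
        obtain ⟨ht1, ht2⟩ := Finset.mem_filter.1 (Finset.mem_coe.1 ht)
        exact Finset.mem_coe.2 (Finset.mem_filter.2 ⟨Finset.mem_univ _,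
          Finset.mem_filter.2 ⟨Finset.mem_univ _, t, ht1, rfl, ht2⟩⟩)
      · intro t ht t' ht' h
        exact hJinj t (Finset.mem_filter.1 (Finset.mem_coe.1 ht)).1 t'
          (Finset.mem_filter.1 (Finset.mem_coe.1 ht')).1 h
    have h2 : ∑ q : {q // q ∈ I}, (Finset.univ.filter fun j : Fin (2 ^ k) => (q, j) ∈ E).card =
        E.card := by
      rw [← Finset.card_sigma]
      refine Finset.card_bij (fun z _ => (z.1, z.2)) ?_ ?_ ?_
      · intro z hz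
        exact (Finset.mem_filter.1 (Finset.mem_sigma.1 hz).2).2
      · rintro ⟨q, j⟩ _ ⟨q', j'⟩ _ h
        simp only [Prod.mk.injEq] at h
        obtain ⟨rfl, rfl⟩ := h
        rfl
      · intro z hz
        exact ⟨⟨z.1, z.2⟩, Finset.mem_sigma.2 ⟨Finset.mem_univ _, Finset.mem_filter.2
          ⟨Finset.mem_univ _, hz⟩⟩, rfl⟩
    have h3 : ∑ t ∈ P, μ (W t) ≤ ∑ q : {q // q ∈ I},
        (((P.filter fun t => σ q ∈ W t).card : ℕ) : ℝ≥0∞) *
          ENNReal.ofReal (M / ((2 : ℝ) ^ k) ^ d) := by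
      calc ∑ t ∈ P, μ (W t) ≤ ∑ t ∈ P, ∑ q : {q // q ∈ I},
            μ (W t ∩ {ω | ∀ i, ⌊(2 : ℝ) ^ k * v ω i⌋ = q.1 i}) := by
            refine Finset.sum_le_sum fun t _ => ?_
            refine (measure_mono ?_).trans (measure_iUnion_fintype_le μ _)
            intro ω hω
            exact Set.mem_iUnion.2 ⟨⟨_, hI ω⟩, hω, fun i => rfl⟩
        _ = ∑ q : {q // q ∈ I}, ∑ t ∈ P,
            μ (W t ∩ {ω | ∀ i, ⌊(2 : ℝ) ^ k * v ω i⌋ = q.1 i}) := Finset.sum_comm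
        _ ≤ _ := by
            refine Finset.sum_le_sum fun q _ => ?_
            have hms : MeasurableSet {ω | ∀ i, ⌊(2 : ℝ) ^ k * v ω i⌋ = q.1 i} := by
              have : {ω | ∀ i, ⌊(2 : ℝ) ^ k * v ω i⌋ = q.1 i} =
                  ⋂ i, {ω | ⌊(2 : ℝ) ^ k * v ω i⌋ = q.1 i} := by
                ext ω
                simp
              rw [this]
              refine MeasurableSet.iInter fun i => ?_
              have hm : Measurable fun ω => ⌊(2 : ℝ) ^ k * v ω i⌋ :=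
                Int.measurable_floor.comp (((measurable_pi_apply i).comp hv).const_mul _)
              exact hm (measurableSet_singleton _)
            refine (sum_inter μ P W hWm _ hms _ (fun ω hω => hσ2 q ω hω)).trans ?_
            exact mul_le_mul' le_rfl (hQ q.1)
    have h4 : (P.card : ℝ≥0∞) * ENNReal.ofReal x ≤ ∑ t ∈ P, μ (W t) := by
      rw [← nsmul_eq_mul, ← Finset.sum_const]
      exact Finset.sum_le_sum fun t ht => hWx t ht
    have h6 : (∑ q : {q // q ∈ I}, (P.filter fun t => σ q ∈ W t).card) ≤ E.card := by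
      rw [← h2]
      exact Finset.sum_le_sum fun q _ => h1 q
    have h7 : ∑ q : {q // q ∈ I}, (((P.filter fun t => σ q ∈ W t).card : ℕ) : ℝ≥0∞) *
          ENNReal.ofReal (M / ((2 : ℝ) ^ k) ^ d) ≤ (E.card : ℝ≥0∞) *
          ENNReal.ofReal (M / ((2 : ℝ) ^ k) ^ d) := by
      rw [← Finset.sum_mul]
      refine mul_le_mul' ?_ le_rfl
      exact_mod_cast h6
    exact cast_ineq (by positivity) hM.le (h4.trans (h3.trans h7))
  · intro z hz
    obtain ⟨t, ht, h1, -⟩ := (Finset.mem_filter.1 hz).2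
    exact ⟨t, ht, h1⟩
  · intro j
    by_cases hex : ∃ t ∈ P, j = J t
    · obtain ⟨t, ht, rfl⟩ := hex
      refine ⟨(Z t).biUnion fun z => Fintype.piFinset fun i => Finset.Icc (z i - 4) (z i + 3),
        ?_, ?_⟩
      · have hc2 : ((Z t).biUnion fun z => Fintype.piFinset fun i =>
            Finset.Icc (z i - 4) (z i + 3)).card ≤ (Z t).card * 8 ^ d := by
          refine Finset.card_biUnion_le.trans ?_
          rw [← smul_eq_mul, ← Finset.sum_const]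
          refine Finset.sum_le_sum fun z _ => ?_
          rw [Fintype.card_piFinset]
          have : ∀ i : Fin d, (Finset.Icc (z i - 4) (z i + 3)).card = 8 := by
            intro i
            rw [Int.card_Icc]
            omega
          rw [Finset.prod_congr rfl fun i _ => this i, Finset.prod_const, Finset.card_univ,
            Fintype.card_fin]
        have hc3 : ((((Z t).biUnion fun z => Fintype.piFinset fun i =>
            Finset.Icc (z i - 4) (z i + 3)).card : ℕ) : ℝ) ≤ ((Z t).card : ℝ) * 8 ^ d := by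
          exact_mod_cast hc2
        have hc4 := mul_le_mul_of_nonneg_right (hZ t ht) (pow_nonneg (by norm_num : (0:ℝ) ≤ 8) d)
        linarith
      · intro q hq
        obtain ⟨t', ht', h1, h2⟩ := (Finset.mem_filter.1 hq).2
        have htt : t = t' := hJinj t ht t' ht' h1
        subst htt
        obtain ⟨z, hz, hz2⟩ := hWZ t ht _ h2
        refine Finset.mem_biUnion.2 ⟨z, hz, Fintype.mem_piFinset.2 fun i => ?_⟩
        have h3 := abs_lt.1 (hz2 i)
        have h4 := hJ t ht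
        have h5 := hv1 (σ q) i
        have h6 : A q i + ((J t : ℕ) : ℝ) * D q i = (2 : ℝ) ^ k * (b (σ q) i + t * v (σ q) i) -
            ((2 : ℝ) ^ k * t - ((J t : ℕ) : ℝ)) * v (σ q) i := by
          simp only [A, D]
          ring
        have h7 : 0 ≤ ((2 : ℝ) ^ k * t - ((J t : ℕ) : ℝ)) * v (σ q) i :=
          mul_nonneg (by linarith [h4.1]) h5.1
        have h8 : ((2 : ℝ) ^ k * t - ((J t : ℕ) : ℝ)) * v (σ q) i ≤ 1 * 1 :=
          mul_le_mul (by linarith [h4.2]) h5.2 h5.1 (by norm_num)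
        rw [Finset.mem_Icc]
        unfold cell
        rw [h6]
        constructor
        · rw [Int.le_floor]
          push_cast
          linarith [h3.1]
        · rw [← Int.lt_add_one_iff, Int.floor_lt]
          push_cast
          linarith [h3.2]
    · refine ⟨∅, ?_, ?_⟩
      · rw [Finset.card_empty]
        push_cast
        positivity
      · intro l hl
        obtain ⟨t, ht, h2, -⟩ := (Finset.mem_filter.1 hl).2
        exact absurd ⟨t, ht, h2⟩ hex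

end Pool.Agent.H951.KS
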