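import Pool.Agent.H951.KS.Fh1
import Pool.Agent.H951.FH.Stm4
import Pool.Agent.H951.FH.FRO
import Pool.Agent.H951.FH.DIM

/-!
# The dimension of the set of exceptional heights: the bound from the hairbrush argument
-/

set_option autoImplicit false
set_option maxHeartbeats 1000000

open MeasureTheory Filter Topology
open scoped Classical ENNReal NNReal

namespace Pool.Agent.H951.KS

open Pool.Agent.W605.HD Pool.Agent.W46.HD Pool.Agent.Y254HK Pool.Agent.H951.FH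

/-- half of the points are separated -/
theorem half_sep (k : ℕ) (P : Finset ℝ) (h0 : ∀ t ∈ P, 0 ≤ t)
    (h1 : ∀ t ∈ P, ∀ t' ∈ P, ⌊(2 : ℝ) ^ k * t⌋₊ = ⌊(2 : ℝ) ^ k * t'⌋₊ → t = t') :
    ∃ P' ⊆ P, (P.card : ℝ) / 2 ≤ P'.card ∧
      ∀ t ∈ P', ∀ t' ∈ P', t ≠ t' → 1 / (2 : ℝ) ^ k ≤ |t - t'| := by
  have hk : (0 : ℝ) < (2 : ℝ) ^ k := by positivity
  have hsep : ∀ e : ℕ, ∀ t ∈ P.filter (fun t => ⌊(2 : ℝ) ^ k * t⌋₊ % 2 = e),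
      ∀ t' ∈ P.filter (fun t => ⌊(2 : ℝ) ^ k * t⌋₊ % 2 = e), t ≠ t' →
        1 / (2 : ℝ) ^ k ≤ |t - t'| := by
    intro e t ht t' ht' hne
    obtain ⟨ht1, ht2⟩ := Finset.mem_filter.1 ht
    obtain ⟨ht1', ht2'⟩ := Finset.mem_filter.1 ht'
    have h2 : ⌊(2 : ℝ) ^ k * t⌋₊ ≠ ⌊(2 : ℝ) ^ k * t'⌋₊ := fun h => hne (h1 t ht1 t' ht1' h)
    have f1 := Nat.floor_le (show 0 ≤ (2 : ℝ) ^ k * t from mul_nonneg hk.le (h0 t ht1))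
    have f2 := Nat.lt_floor_add_one ((2 : ℝ) ^ k * t)
    have f3 := Nat.floor_le (show 0 ≤ (2 : ℝ) ^ k * t' from mul_nonneg hk.le (h0 t' ht1'))
    have f4 := Nat.lt_floor_add_one ((2 : ℝ) ^ k * t')
    rw [div_le_iff₀ hk]
    have e1 : |t - t'| * (2 : ℝ) ^ k = |(2 : ℝ) ^ k * t - (2 : ℝ) ^ k * t'| := by
      rw [← mul_sub, abs_mul, abs_of_pos hk, mul_comm]
    rw [e1]
    rcases lt_or_gt_of_ne h2 with h | h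
    · have h3 : ⌊(2 : ℝ) ^ k * t⌋₊ + 2 ≤ ⌊(2 : ℝ) ^ k * t'⌋₊ := by omega
      have h4 : ((⌊(2 : ℝ) ^ k * t⌋₊ : ℕ) : ℝ) + 2 ≤ ((⌊(2 : ℝ) ^ k * t'⌋₊ : ℕ) : ℝ) := by
        exact_mod_cast h3
      rw [abs_sub_comm]
      exact le_trans (by linarith) (le_abs_self _)
    · have h3 : ⌊(2 : ℝ) ^ k * t'⌋₊ + 2 ≤ ⌊(2 : ℝ) ^ k * t⌋₊ := by omega
      have h4 : ((⌊(2 : ℝ) ^ k * t'⌋₊ : ℕ) : ℝ) + 2 ≤ ((⌊(2 : ℝ) ^ k * t⌋₊ : ℕ) : ℝ) := by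
        exact_mod_cast h3
      exact le_trans (by linarith) (le_abs_self _)
  have hcard : P.card = (P.filter fun t => ⌊(2 : ℝ) ^ k * t⌋₊ % 2 = 0).card +
      (P.filter fun t => ⌊(2 : ℝ) ^ k * t⌋₊ % 2 = 1).card := by
    have h2 := Finset.card_filter_add_card_filter_not (s := P) (fun t => ⌊(2 : ℝ) ^ k * t⌋₊ % 2 = 0)
    rw [← h2]
    congr 1
    congr 1
    refine Finset.filter_congr fun t _ => ?_
    omega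
  rcases le_total (P.filter fun t => ⌊(2 : ℝ) ^ k * t⌋₊ % 2 = 0).card
    (P.filter fun t => ⌊(2 : ℝ) ^ k * t⌋₊ % 2 = 1).card with h | h
  · refine ⟨_, Finset.filter_subset _ _, ?_, hsep 1⟩
    have h3 : (P.card : ℝ) ≤ 2 * ((P.filter fun t => ⌊(2 : ℝ) ^ k * t⌋₊ % 2 = 1).card : ℝ) := by
      exact_mod_cast (by omega : P.card ≤ 2 * (P.filter fun t => ⌊(2 : ℝ) ^ k * t⌋₊ % 2 = 1).card)
    linarith
  · refine ⟨_, Finset.filter_subset _ _, ?_, hsep 0⟩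
    have h3 : (P.card : ℝ) ≤ 2 * ((P.filter fun t => ⌊(2 : ℝ) ^ k * t⌋₊ % 2 = 0).card : ℝ) := by
      exact_mod_cast (by omega : P.card ≤ 2 * (P.filter fun t => ⌊(2 : ℝ) ^ k * t⌋₊ % 2 = 0).card)
    linarith

theorem EC (hNA : S_NA) (d : ℕ) (hd : 1 ≤ d) {Ω : Type*}
    [MeasurableSpace Ω] (μ : Measure Ω) [IsFiniteMeasure μ]
    (b v : Ω → Fin d → ℝ) (hb : Measurable b) (hv : Measurable v)
    (hv1 : ∀ ω i, 0 ≤ v ω i ∧ v ω i ≤ 1) (hac : μ.map v ≪ (volume : Measure (Fin d → ℝ)))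
    (α : ℝ≥0) (τ0 : ℝ) (hα : (α : ℝ) - ((d : ℝ) - 1) / 2 < τ0) (hτ : 0 < τ0) (δ : ℝ) (hδ : 0 < δ) :
    dimH {τ : ℝ | τ ∈ Set.Ico (0 : ℝ) 1 ∧ ∃ A : Set (Fin d → ℝ), dimH A < α ∧
      ENNReal.ofReal δ < μ {ω | (fun i => b ω i + τ * v ω i) ∈ A}} ≤ ENNReal.ofReal τ0 := by
  rcases le_or_gt τ0 1 with hτ1 | hτ1
  swap
  · refine (dimH_mono (Set.subset_univ _)).trans ?_
    rw [Real.dimH_univ]
    rw [← ENNReal.ofReal_one]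
    exact ENNReal.ofReal_le_ofReal hτ1.le
  have hα0 : (0 : ℝ) ≤ α := α.2
  obtain ⟨M, μ', hM, hfin, hQ, hkey⟩ := setup d μ b v hv hac α δ hδ
  obtain ⟨ρ, β, hρ0, hρ1, hβ0, hβ1, hnum⟩ := hNA d τ0 α hd hτ hτ1 hα0 (by linarith)
  have hρ : 0 < 1 - ρ := by linarith
  obtain ⟨x0, hx0⟩ : ∃ x0 : ℝ, x0 = δ * (1 - ρ) / 4 := ⟨_, rfl⟩
  have hx00 : 0 < x0 := by rw [hx0]; positivity
  obtain ⟨k1, hk1⟩ := hnum x0 M (1800000000 * 98304 ^ d) hx00 hM (by positivity)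
  refine Pool.Agent.H599.FH.t_DIM _ (GG μ' b v α δ ρ) τ0 β k1 hτ hβ0 hβ1
    (hkey ρ hρ0 hρ1) fun k hk => ?_
  obtain ⟨P0, C, hP0G, hP0f, -, hcov, hsum⟩ := Pool.Agent.H233.FH.t_FRO τ0 k (GG μ' b v α δ ρ k)
    hτ hτ1 (fun t ht => ht.1)
  refine ⟨C, hcov, ?_⟩
  by_contra hno
  rw [not_le] at hno
  have hk2 : (0 : ℝ) < ((2 : ℝ) ^ k) ^ τ0 := by positivity
  have hP0c : β ^ k * ((2 : ℝ) ^ k) ^ τ0 / 2 ≤ P0.card := by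
    have h1 := hno.le.trans hsum
    rw [le_div_iff₀ hk2] at h1
    linarith
  have hinj : ∀ t ∈ P0, ∀ t' ∈ P0, ⌊(2 : ℝ) ^ k * t⌋₊ = ⌊(2 : ℝ) ^ k * t'⌋₊ → t = t' := by
    intro t ht t' ht' he
    exact Pool.Agent.H17.FH.inj_floor (Λ := Unit) k (fun _ => P0) τ0
      (fun _ t ht => (hP0G ht).1) (fun _ => hP0f) () ht ht' he
  obtain ⟨P, hPP, hPc, hsep⟩ := half_sep k P0 (fun t ht => (hP0G ht).1.1) hinj
  have hPc2 : β ^ k * ((2 : ℝ) ^ k) ^ τ0 / 4 ≤ P.card := by linarith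
  have hPpos : 0 < (P.card : ℝ) := lt_of_lt_of_le (by positivity) hPc2
  have hPne : P.Nonempty := Finset.card_pos.1 (by exact_mod_cast hPpos)
  have hPG : ∀ t ∈ P, t ∈ GG μ' b v α δ ρ k := fun t ht => hP0G (hPP ht)
  obtain ⟨r, hr1, hrk, hfar, hlt⟩ := hk1 k hk
  have hex : ∀ t : ℝ, ∃ Z : Finset (Fin d → ℤ), t ∈ P → (Z.card : ℝ) ≤ (2 : ℝ) ^ ((α : ℝ) * (k + 1)) ∧
      ENNReal.ofReal (δ * (1 - ρ) / 4 * ρ ^ k) ≤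
        μ' {ω | ∃ z ∈ Z, ∀ i, |(2 : ℝ) ^ k * (b ω i + t * v ω i) - z i| < 3} := by
    intro t
    by_cases ht : t ∈ P
    · obtain ⟨-, Z, hZ1, hZ2⟩ := hPG t ht
      exact ⟨Z, fun _ => ⟨hZ1, hZ2⟩⟩
    · exact ⟨∅, fun h => absurd h ht⟩
  choose Z hZ using hex
  have hmain := con3 (k := k) hd μ' b v hv hv1 M (x0 * ρ ^ k) ((2 : ℝ) ^ ((α : ℝ) * (k + 1))) hM
    (by positivity) (by positivity) (hQ k) P hPne (fun t ht => (hPG t ht).1) hsep τ0 hτ hτ1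
    (fun l hl p => by
      refine le_trans ?_ (hP0f l hl p)
      exact_mod_cast Finset.card_le_card (Finset.filter_subset_filter _ hPP))
    Z (fun t ht => (hZ t ht).1)
    (fun t => {ω | ∃ z ∈ Z t, ∀ i, |(2 : ℝ) ^ k * (b ω i + t * v ω i) - z i| < 3})
    (fun t _ => Wmeas b v hb hv k t (Z t)) (fun t ht => by rw [hx0]; exact (hZ t ht).2)
    (fun t _ ω hω => hω) r hr1 hrk (hfar.trans (by gcongr))
  have h2 : (β ^ k * ((2 : ℝ) ^ k) ^ τ0 / 4) ^ 2 * (x0 * ρ ^ k) ^ 4 * (r : ℝ) ^ d ≤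
      (P.card : ℝ) ^ 2 * (x0 * ρ ^ k) ^ 4 * (r : ℝ) ^ d := by
    gcongr
  linarith

end Pool.Agent.H951.KS
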