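import Pool.Agent.H951.KS.ExcC

/-!
# Exceptional points of segments: all directions of the slices at once
-/

set_option autoImplicit false
set_option maxHeartbeats 1000000

open MeasureTheory Filter Topology
open scoped Classical ENNReal NNReal

namespace Pool.Agent.H951.KS

open Pool.Agent.W605.HD Pool.Agent.W46.HD Pool.Agent.Y254HK Pool.Agent.Y674.HK

/-- the pairs in `U` which give a segment of `K` -/
def SG (d : ℕ) (K : Set (EuclideanSpace ℝ (Fin (d + 1)))) (q : ℝ)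
    (U : Set (EuclideanSpace ℝ (Fin (d + 1)) × EuclideanSpace ℝ (Fin (d + 1)))) :
    Set (EuclideanSpace ℝ (Fin (d + 1)) × EuclideanSpace ℝ (Fin (d + 1))) :=
  {z | z ∈ U ∧ ∀ θ ∈ Set.Icc (0 : ℝ) 1, z.1 + (θ * q) • z.2 ∈ K}

theorem SG_compact (d : ℕ) (K : Set (EuclideanSpace ℝ (Fin (d + 1)))) (hK : IsClosed K) (q : ℝ)
    (U : Set (EuclideanSpace ℝ (Fin (d + 1)) × EuclideanSpace ℝ (Fin (d + 1))))
    (hU : IsCompact U) : IsCompact (SG d K q U) := by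
  have h : SG d K q U = U ∩ ⋂ θ ∈ Set.Icc (0 : ℝ) 1, {z | z.1 + (θ * q) • z.2 ∈ K} := by
    ext z
    simp only [SG, Set.mem_ofPred_eq, Set.mem_inter_iff, Set.mem_iInter]
  rw [h]
  exact hU.inter_right (isClosed_biInter fun θ _ => hK.preimage (by fun_prop))

/-- the heights at which all the segments have interior points -/
def Thr (d : ℕ) (q : ℝ)
    (L : EuclideanSpace ℝ (Fin (d + 1)) ≃ₗᵢ[ℝ] EuclideanSpace ℝ (Fin (d + 1)))
    (U : Set (EuclideanSpace ℝ (Fin (d + 1)) × EuclideanSpace ℝ (Fin (d + 1)))) : Set ℝ :=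
  {t | ∀ z ∈ U, 0 < (t - (L z.1) 0) * (q * (L z.2) 0) ∧
    (t - (L z.1) 0) * (q * (L z.2) 0) < (q * (L z.2) 0) ^ 2}

/-- the exceptional heights -/
def TXH (d : ℕ) (K : Set (EuclideanSpace ℝ (Fin (d + 1)))) (q : ℝ)
    (L : EuclideanSpace ℝ (Fin (d + 1)) ≃ₗᵢ[ℝ] EuclideanSpace ℝ (Fin (d + 1)))
    (U : Set (EuclideanSpace ℝ (Fin (d + 1)) × EuclideanSpace ℝ (Fin (d + 1)))) (s : ℝ) : Set ℝ :=
  {t | t ∈ Thr d q L U ∧ dimH (slice d (L '' K) t) < ENNReal.ofReal s}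

theorem T_sub (d : ℕ) (K : Set (EuclideanSpace ℝ (Fin (d + 1)))) (hK : IsClosed K) (q : ℝ)
    (U : Set (EuclideanSpace ℝ (Fin (d + 1)) × EuclideanSpace ℝ (Fin (d + 1))))
    (hU : IsCompact U)
    (L : EuclideanSpace ℝ (Fin (d + 1)) ≃ₗᵢ[ℝ] EuclideanSpace ℝ (Fin (d + 1))) :
    ∃ X : EuclideanSpace ℝ (Fin (d + 1)) → Fin d → ℝ, Measurable X ∧
      ∀ t ∈ Thr d q L U, ∀ f ∈ Prod.snd '' SG d K q U,
        (fun i => X f i + t * sl d (L f) i) ∈ slice d (L '' K) t := by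
  rcases (SG d K q U).eq_empty_or_nonempty with he | hne
  · refine ⟨fun _ _ => 0, measurable_const, fun t _ f hf => ?_⟩
    rw [he, Set.image_empty] at hf
    exact absurd hf (Set.notMem_empty _)
  have hc := SG_compact d K hK q U hU
  let φ := EuclideanSpace.equiv (Fin (d + 1)) ℝ
  have hφ : Continuous (Prod.map φ φ) := φ.continuous.prodMap φ.continuous
  obtain ⟨b, hb, hbL⟩ := sel (Prod.map φ φ '' SG d K q U) (hc.image hφ) (hne.image _)
  obtain ⟨a, ha⟩ : ∃ a : EuclideanSpace ℝ (Fin (d + 1)) → EuclideanSpace ℝ (Fin (d + 1)),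
    a = fun f => φ.symm (b (φ f)) := ⟨_, rfl⟩
  have ham : Measurable a := by
    rw [ha]
    exact φ.symm.continuous.measurable.comp (hb.comp φ.continuous.measurable)
  have haz : ∀ f ∈ Prod.snd '' SG d K q U, (a f, f) ∈ SG d K q U := by
    rintro f ⟨z, hz, rfl⟩
    have h1 : φ z.2 ∈ Prod.snd '' (Prod.map φ φ '' SG d K q U) :=
      ⟨_, ⟨z, hz, rfl⟩, rfl⟩
    obtain ⟨w, hw, hw2⟩ := hbL _ h1
    have h2 : φ w.1 = b (φ z.2) := congrArg Prod.fst hw2
    have h3 : φ w.2 = φ z.2 := congrArg Prod.snd hw2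
    have h4 : w.2 = z.2 := φ.injective h3
    have h5 : a z.2 = w.1 := by
      rw [ha]
      change φ.symm (b (φ z.2)) = w.1
      rw [← h2, ContinuousLinearEquiv.symm_apply_apply]
    rw [h5, ← h4]
    exact hw
  have hLm : Measurable fun f => L f := L.continuous.measurable
  refine ⟨fun f i => (L (a f)) i.succ - (L (a f)) 0 * sl d (L f) i, ?_, ?_⟩
  · refine measurable_pi_lambda _ fun i => ?_
    have h1 : Measurable fun f => (L (a f)) i.succ :=
      (measurable_coord (Fin.succ i)).comp (hLm.comp ham)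
    have h2 : Measurable fun f => (L (a f)) 0 := (measurable_coord 0).comp (hLm.comp ham)
    have h3 : Measurable fun f => sl d (L f) i :=
      (measurable_pi_apply i).comp ((measurable_sl d).comp hLm)
    exact h1.sub (h2.mul h3)
  · intro t ht f hf
    obtain ⟨hU1, hseg⟩ := haz f hf
    obtain ⟨h1, h2⟩ := ht _ hU1
    simp only at h1 h2 hseg
    obtain ⟨x, hx⟩ : ∃ x : ℝ, x = (L f) 0 := ⟨_, rfl⟩
    obtain ⟨α, hα⟩ : ∃ α : ℝ, α = (L (a f)) 0 := ⟨_, rfl⟩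
    rw [← hx, ← hα] at h1 h2
    have hqx : q * x ≠ 0 := by
      intro h0
      rw [h0, mul_zero] at h1
      exact lt_irrefl _ h1
    have hq0 : q ≠ 0 := left_ne_zero_of_mul hqx
    have hx0 : x ≠ 0 := right_ne_zero_of_mul hqx
    have hsq : 0 < (q * x) ^ 2 := by positivity
    have hθ : (t - α) / (q * x) = (t - α) * (q * x) / (q * x) ^ 2 := by
      field_simp
    have hθ1 : (t - α) / (q * x) ∈ Set.Icc (0 : ℝ) 1 := by
      rw [hθ]
      exact ⟨(div_pos h1 hsq).le, (div_le_one hsq).2 h2.le⟩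
    have h3 := hseg _ hθ1
    refine ⟨_, h3, ?_⟩
    have h4 : (t - α) / (q * x) * q = (t - α) / x := by
      field_simp
    rw [h4]
    ext l
    refine Fin.cases ?_ (fun i => ?_) l
    · rw [map_add, map_smul]
      simp only [PiLp.add_apply, PiLp.smul_apply, smul_eq_mul, pt_zero]
      rw [← hα, ← hx]
      field_simp
      ring
    · rw [map_add, map_smul]
      simp only [PiLp.add_apply, PiLp.smul_apply, smul_eq_mul, pt_succ, sl]
      rw [← hα, ← hx]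
      field_simp
      ring

/-- the positive measure case -/
theorem N1 (d : ℕ) (hd : 1 ≤ d) (c : ℝ) (hc : 0 < c) (hT : CntP d c)
    (K : Set (EuclideanSpace ℝ (Fin (d + 1)))) (hK : IsClosed K) (q : ℝ)
    (U : Set (EuclideanSpace ℝ (Fin (d + 1)) × EuclideanSpace ℝ (Fin (d + 1))))
    (hU : IsCompact U)
    (L : EuclideanSpace ℝ (Fin (d + 1)) ≃ₗᵢ[ℝ] EuclideanSpace ℝ (Fin (d + 1))) (s : ℝ)
    (hvol : volume (Prod.snd '' SG d K q U) ≠ 0) :
    dimH (TXH d K q L U s) ≤ ENNReal.ofReal (c * s / d) ∧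
    dimH (TXH d K q L U s) ≤ ENNReal.ofReal (s - ((d : ℝ) - 1) / 2) ∧
    (2 * s ≤ d → dimH (TXH d K q L U s) = 0) := by
  obtain ⟨X, hX, hXL⟩ := T_sub d K hK q U hU L
  have hD : MeasurableSet (Prod.snd '' SG d K q U) :=
    ((SG_compact d K hK q U hU).image continuous_snd).measurableSet
  have hVm : Measurable fun f => sl d (L f) := (measurable_sl d).comp L.continuous.measurable
  have hac : (volume.restrict (Prod.snd '' SG d K q U)).map (fun f => sl d (L f)) ≪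
      (volume : Measure (Fin d → ℝ)) := by
    refine Measure.AbsolutelyContinuous.mk fun N hN h0 => ?_
    rw [Measure.map_apply hVm hN]
    refine le_antisymm ((Measure.restrict_apply_le _ _).trans ?_) zero_le
    have h1 := cone_null d hN h0
    have h2 : volume (L ⁻¹' cone d N) = 0 :=
      L.measurePreserving.quasiMeasurePreserving.preimage_null h1
    refine (measure_mono ?_).trans h2.le
    intro f hf
    exact Or.inr hf
  have h1 := E3 d hd c hc hT (volume.restrict (Prod.snd '' SG d K q U)) X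
    (fun f => sl d (L f)) hX hVm hac s
  have hsub : TXH d K q L U s ⊆ {t : ℝ | ∃ A : Set (Fin d → ℝ), dimH A < ENNReal.ofReal s ∧
      (volume.restrict (Prod.snd '' SG d K q U))
        {ω | (fun i => X ω i + t * sl d (L ω) i) ∈ A} ≠ 0} := by
    rintro t ⟨ht, hdim⟩
    refine ⟨slice d (L '' K) t, hdim, fun h0 => hvol ?_⟩
    rw [Measure.restrict_apply' hD] at h0
    refine measure_mono_null ?_ h0
    intro u hu
    exact ⟨hXL t ht u hu, hu⟩
  refine ⟨(dimH_mono hsub).trans h1.1, (dimH_mono hsub).trans h1.2.1, fun hs => ?_⟩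
  exact le_antisymm ((dimH_mono hsub).trans (h1.2.2 hs).le) zero_le

/-- a countable base of balls -/
def UU (d : ℕ) (j : ℕ × ℕ) :
    Set (EuclideanSpace ℝ (Fin (d + 1)) × EuclideanSpace ℝ (Fin (d + 1))) :=
  Metric.closedBall (TopologicalSpace.denseSeq
    (EuclideanSpace ℝ (Fin (d + 1)) × EuclideanSpace ℝ (Fin (d + 1))) j.1) (1 / ((j.2 : ℝ) + 1))

theorem UU_compact (d : ℕ) (j : ℕ × ℕ) : IsCompact (UU d j) := isCompact_closedBall _ _

theorem UU_base (d : ℕ)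
    (O : Set (EuclideanSpace ℝ (Fin (d + 1)) × EuclideanSpace ℝ (Fin (d + 1)))) (hO : IsOpen O)
    (z : EuclideanSpace ℝ (Fin (d + 1)) × EuclideanSpace ℝ (Fin (d + 1))) (hz : z ∈ O) :
    ∃ j, z ∈ UU d j ∧ UU d j ⊆ O := by
  obtain ⟨ε, hε, hball⟩ := Metric.isOpen_iff.1 hO z hz
  obtain ⟨m, hm⟩ := exists_nat_one_div_lt (show 0 < ε / 2 by positivity)
  have hm0 : (0 : ℝ) < 1 / ((m : ℝ) + 1) := by positivity
  obtain ⟨y, hy, hyz⟩ := Metric.dense_iff.1 (TopologicalSpace.denseRange_denseSeq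
    (EuclideanSpace ℝ (Fin (d + 1)) × EuclideanSpace ℝ (Fin (d + 1)))) z _ hm0
  obtain ⟨k, rfl⟩ := hyz
  refine ⟨(k, m), ?_, ?_⟩
  · rw [UU, Metric.mem_closedBall, dist_comm]
    exact (Metric.mem_ball.1 hy).le
  · intro w hw
    apply hball
    rw [UU, Metric.mem_closedBall] at hw
    rw [Metric.mem_ball] at hy ⊢
    have := dist_triangle w (TopologicalSpace.denseSeq
      (EuclideanSpace ℝ (Fin (d + 1)) × EuclideanSpace ℝ (Fin (d + 1))) k) z
    simp only at hw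
    linarith

theorem cover_lemma (d : ℕ) (K : Set (EuclideanSpace ℝ (Fin (d + 1))))
    (e a : EuclideanSpace ℝ (Fin (d + 1))) (r : ℝ) (hseg : segment ℝ a (a + r • e) ⊆ K)
    (L : EuclideanSpace ℝ (Fin (d + 1)) ≃ₗᵢ[ℝ] EuclideanSpace ℝ (Fin (d + 1)))
    (he : (L e) 0 ≠ 0) (s : ℝ) :
    ∃ (ln : ℝ → EuclideanSpace ℝ (Fin (d + 1))) (κ : ℝ≥0), LipschitzWith κ ln ∧
      {x ∈ segment ℝ a (a + r • e) | dimH (slice d (L '' K) ((L x) 0)) < ENNReal.ofReal s} ⊆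
        {a, a + r • e} ∪ ⋃ j : ℚ × (ℕ × ℕ), ⋃ _ : e ∈ Prod.snd '' SG d K j.1 (UU d j.2),
          ln '' TXH d K j.1 L (UU d j.2) s := by
  let ln : ℝ → EuclideanSpace ℝ (Fin (d + 1)) := fun t => a + ((t - (L a) 0) / (L e) 0) • e
  have hlip : LipschitzWith (‖e‖₊ * ‖((L e) 0)⁻¹‖₊) ln := by
    refine LipschitzWith.of_dist_le_mul fun t t' => ?_
    rw [dist_eq_norm, Real.dist_eq]
    have e1 : ln t - ln t' = ((t - t') * ((L e) 0)⁻¹) • e := by
      simp only [ln]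
      rw [add_sub_add_left_eq_sub, ← sub_smul]
      congr 1
      rw [div_eq_mul_inv, div_eq_mul_inv]
      ring
    rw [e1, norm_smul, norm_mul, Real.norm_eq_abs]
    push_cast
    exact le_of_eq (by ring)
  refine ⟨ln, _, hlip, ?_⟩
  rintro x ⟨hx, hdim⟩
  rw [segment_eq_image'] at hx
  obtain ⟨θ, hθ, rfl⟩ := hx
  rcases eq_or_ne θ 0 with rfl | hθ0
  · left
    simp
  rcases eq_or_ne θ 1 with rfl | hθ1
  · left
    simp
  rcases eq_or_ne r 0 with rfl | hr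
  · left
    simp
  right
  simp only [add_sub_cancel_left] at hdim ⊢
  have hθ' : θ ∈ Set.Ioo (0 : ℝ) 1 :=
    ⟨lt_of_le_of_ne hθ.1 hθ0.symm, lt_of_le_of_ne hθ.2 hθ1⟩
  -- the parameter of the point
  obtain ⟨u, hu⟩ : ∃ u : ℝ, u = θ * r := ⟨_, rfl⟩
  have hxu : a + θ • r • e = a + u • e := by rw [smul_smul, hu]
  have hopen : IsOpen {u : ℝ | u / r ∈ Set.Ioo (0 : ℝ) 1} := isOpen_Ioo.preimage (by fun_prop)
  have hmem : u ∈ {u : ℝ | u / r ∈ Set.Ioo (0 : ℝ) 1} := by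
    change u / r ∈ Set.Ioo (0 : ℝ) 1
    have : u / r = θ := by
      rw [hu]
      field_simp
    rw [this]
    exact hθ'
  obtain ⟨ε, hε, hball⟩ := Metric.isOpen_iff.1 hopen u hmem
  obtain ⟨p1, hp1, hp2⟩ := exists_rat_btwn (show u - ε < u by linarith)
  obtain ⟨p2, hq1, hq2⟩ := exists_rat_btwn (show u < u + ε by linarith)
  have hp12 : (0 : ℝ) < (p2 : ℝ) - p1 := by linarith
  -- the height of the point
  obtain ⟨y, hy⟩ : ∃ y : ℝ, y = (L e) 0 := ⟨_, rfl⟩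
  obtain ⟨α, hα⟩ : ∃ α : ℝ, α = (L a) 0 := ⟨_, rfl⟩
  have hy0 : y ≠ 0 := by rw [hy]; exact he
  have hht : ∀ w : ℝ, (L (a + w • e)) 0 = α + w * y := by
    intro w
    rw [map_add, map_smul, hy, hα]
    simp only [PiLp.add_apply, PiLp.smul_apply, smul_eq_mul]
  -- the open set
  obtain ⟨t, ht⟩ : ∃ t : ℝ, t = α + u * y := ⟨_, rfl⟩
  have hc0 : ∀ i : Fin (d + 1), Continuous fun w : EuclideanSpace ℝ (Fin (d + 1)) => (L w) i :=
    fun i => (EuclideanSpace.proj (𝕜 := ℝ) i).continuous.comp L.continuous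
  have hO : IsOpen {z : EuclideanSpace ℝ (Fin (d + 1)) × EuclideanSpace ℝ (Fin (d + 1)) |
      0 < (t - (L z.1) 0) * (((p2 : ℝ) - p1) * (L z.2) 0) ∧
      (t - (L z.1) 0) * (((p2 : ℝ) - p1) * (L z.2) 0) < (((p2 : ℝ) - p1) * (L z.2) 0) ^ 2} := by
    have h1 : Continuous fun z : EuclideanSpace ℝ (Fin (d + 1)) ×
        EuclideanSpace ℝ (Fin (d + 1)) => (L z.1) 0 := (hc0 0).comp continuous_fst
    have h2 : Continuous fun z : EuclideanSpace ℝ (Fin (d + 1)) ×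
        EuclideanSpace ℝ (Fin (d + 1)) => (L z.2) 0 := (hc0 0).comp continuous_snd
    have h3 := (continuous_const.sub h1 : Continuous fun z : EuclideanSpace ℝ (Fin (d + 1)) ×
        EuclideanSpace ℝ (Fin (d + 1)) => t - (L z.1) 0).mul
      ((continuous_const.mul h2 : Continuous fun z : EuclideanSpace ℝ (Fin (d + 1)) ×
        EuclideanSpace ℝ (Fin (d + 1)) => ((p2 : ℝ) - p1) * (L z.2) 0))
    have h4 := (continuous_const.mul h2 : Continuous fun z : EuclideanSpace ℝ (Fin (d + 1)) ×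
        EuclideanSpace ℝ (Fin (d + 1)) => ((p2 : ℝ) - p1) * (L z.2) 0).pow 2
    exact (isOpen_lt continuous_const h3).inter (isOpen_lt h3 h4)
  have hz0 : ((a + (p1 : ℝ) • e, e) : EuclideanSpace ℝ (Fin (d + 1)) ×
      EuclideanSpace ℝ (Fin (d + 1))) ∈ {z : EuclideanSpace ℝ (Fin (d + 1)) ×
        EuclideanSpace ℝ (Fin (d + 1)) |
      0 < (t - (L z.1) 0) * (((p2 : ℝ) - p1) * (L z.2) 0) ∧
      (t - (L z.1) 0) * (((p2 : ℝ) - p1) * (L z.2) 0) < (((p2 : ℝ) - p1) * (L z.2) 0) ^ 2} := by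
    simp only [Set.mem_ofPred_eq]
    rw [hht, ← hy, ht]
    have hyy : 0 < y ^ 2 := by positivity
    have hup : 0 < u - p1 := by linarith
    constructor
    · have : (α + u * y - (α + p1 * y)) * (((p2 : ℝ) - p1) * y) =
          (u - p1) * ((p2 : ℝ) - p1) * y ^ 2 := by ring
      rw [this]
      positivity
    · have h1 : (((p2 : ℝ) - p1) * y) ^ 2 - (α + u * y - (α + p1 * y)) * (((p2 : ℝ) - p1) * y) =
          ((p2 : ℝ) - u) * ((p2 : ℝ) - p1) * y ^ 2 := by ring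
      have h2 : 0 < ((p2 : ℝ) - u) * ((p2 : ℝ) - p1) * y ^ 2 := by
        have : 0 < (p2 : ℝ) - u := by linarith
        positivity
      linarith
  obtain ⟨j, hj1, hj2⟩ := UU_base d _ hO _ hz0
  have hcast : ((p2 - p1 : ℚ) : ℝ) = (p2 : ℝ) - p1 := by push_cast; ring
  refine Set.mem_iUnion₂.2 ⟨(p2 - p1, j), ?_, t, ⟨?_, ?_⟩, ?_⟩
  · refine ⟨(a + (p1 : ℝ) • e, e), ⟨hj1, fun θ' hθ' => hseg ?_⟩, rfl⟩
    simp only
    rw [hcast]
    have h1 : (p1 : ℝ) + θ' * ((p2 : ℝ) - p1) ∈ Metric.ball u ε := by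
      rw [Metric.mem_ball, Real.dist_eq, abs_lt]
      have h2 : 0 ≤ θ' * ((p2 : ℝ) - p1) := mul_nonneg hθ'.1 hp12.le
      have h3 : θ' * ((p2 : ℝ) - p1) ≤ 1 * ((p2 : ℝ) - p1) :=
        mul_le_mul_of_nonneg_right hθ'.2 hp12.le
      constructor
      · linarith
      · linarith
    have h2 := hball h1
    rw [segment_eq_image']
    refine ⟨((p1 : ℝ) + θ' * ((p2 : ℝ) - p1)) / r, ⟨h2.1.le, h2.2.le⟩, ?_⟩
    simp only [add_sub_cancel_left]
    rw [smul_smul, div_mul_cancel₀ _ hr, add_smul, add_assoc]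
  · intro z hz
    have := hj2 hz
    simp only [Set.mem_ofPred_eq] at this
    simp only [hcast]
    exact this
  · rw [ht, ← hht, ← hxu]
    exact hdim
  · simp only [ln]
    rw [← hy, ← hα, ht, hxu]
    congr 2
    field_simp
    ring

/-- the exceptional points in terms of the heights -/
theorem slice_dim (d : ℕ) (K : Set (EuclideanSpace ℝ (Fin (d + 1))))
    (L : EuclideanSpace ℝ (Fin (d + 1)) ≃ₗᵢ[ℝ] EuclideanSpace ℝ (Fin (d + 1)))
    (ν : EuclideanSpace ℝ (Fin (d + 1))) (ρ : ℝ) (hρ : ρ ≠ 0)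
    (hL : ∀ x, (L x) 0 = ρ * inner ℝ x ν) (x : EuclideanSpace ℝ (Fin (d + 1))) :
    dimH (slice d (L '' K) ((L x) 0)) ≤ dimH (K ∩ {y | inner ℝ y ν = inner ℝ x ν}) := by
  refine (dimH_slice_le d (L '' K) ((L x) 0)).trans ?_
  have h6 : L '' K ∩ {y | y 0 = (L x) 0} ⊆ L '' (K ∩ {y | inner ℝ y ν = inner ℝ x ν}) := by
    rintro _ ⟨⟨y, hy, rfl⟩, hy2⟩
    refine ⟨y, ⟨hy, ?_⟩, rfl⟩
    change (L y) 0 = (L x) 0 at hy2
    rw [hL, hL] at hy2
    exact mul_left_cancel₀ hρ hy2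
  refine (dimH_mono h6).trans ?_
  rw [L.isometry.dimH_image]

theorem exists_rot2 (d : ℕ) (ν : EuclideanSpace ℝ (Fin (d + 1))) (hν : ν ≠ 0) :
    ∃ (L : EuclideanSpace ℝ (Fin (d + 1)) ≃ₗᵢ[ℝ] EuclideanSpace ℝ (Fin (d + 1))) (ρ : ℝ),
      ρ ≠ 0 ∧ ∀ x, (L x) 0 = ρ * inner ℝ x ν := by
  have h0 : ‖ν‖ ≠ 0 := norm_ne_zero_iff.2 hν
  obtain ⟨L, hL⟩ := exists_rot d (‖ν‖⁻¹ • ν) (by
    rw [norm_smul, norm_inv, norm_norm]
    exact inv_mul_cancel₀ h0)
  refine ⟨L, ‖ν‖⁻¹, inv_ne_zero h0, fun x => ?_⟩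
  rw [hL, inner_smul_right]

/-- almost all vectors, all segments, all directions of the slices -/
theorem N2 (d : ℕ) (hd : 1 ≤ d) (c : ℝ) (hc : 0 < c) (hT : CntP d c)
    (K : Set (EuclideanSpace ℝ (Fin (d + 1)))) (hK : IsClosed K) :
    ∀ᵐ e : EuclideanSpace ℝ (Fin (d + 1)), ∀ (a : EuclideanSpace ℝ (Fin (d + 1))) (r : ℝ),
      segment ℝ a (a + r • e) ⊆ K → ∀ ν : EuclideanSpace ℝ (Fin (d + 1)), inner ℝ e ν ≠ 0 →
      ∀ s : ℝ,
      dimH {x ∈ segment ℝ a (a + r • e) | dimH (K ∩ {y | inner ℝ y ν = inner ℝ x ν}) <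
        ENNReal.ofReal s} ≤ ENNReal.ofReal (c * s / d) ∧
      dimH {x ∈ segment ℝ a (a + r • e) | dimH (K ∩ {y | inner ℝ y ν = inner ℝ x ν}) <
        ENNReal.ofReal s} ≤ ENNReal.ofReal (s - ((d : ℝ) - 1) / 2) ∧
      (2 * s ≤ d → dimH {x ∈ segment ℝ a (a + r • e) |
        dimH (K ∩ {y | inner ℝ y ν = inner ℝ x ν}) < ENNReal.ofReal s} = 0) := by
  have hN : volume (⋃ j : ℚ × (ℕ × ℕ), ⋃ _ : volume (Prod.snd '' SG d K j.1 (UU d j.2)) = 0,
      Prod.snd '' SG d K j.1 (UU d j.2)) = 0 :=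
    measure_iUnion_null fun j => measure_iUnion_null fun hj => hj
  rw [ae_iff]
  refine measure_mono_null ?_ hN
  intro e he
  by_contra hcone
  refine he ?_
  intro a r hseg ν hν s
  have hν0 : ν ≠ 0 := by
    rintro rfl
    exact hν (inner_zero_right _)
  obtain ⟨L, ρ, hρ, hL⟩ := exists_rot2 d ν hν0
  have he0 : (L e) 0 ≠ 0 := by
    rw [hL]
    exact mul_ne_zero hρ hν
  obtain ⟨ln, κ, hln, hcov⟩ := cover_lemma d K e a r hseg L he0 s
  have hcov2 : {x ∈ segment ℝ a (a + r • e) |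
      dimH (K ∩ {y | inner ℝ y ν = inner ℝ x ν}) < ENNReal.ofReal s} ⊆
      {a, a + r • e} ∪ ⋃ j : ℚ × (ℕ × ℕ), ⋃ _ : e ∈ Prod.snd '' SG d K j.1 (UU d j.2),
          ln '' TXH d K j.1 L (UU d j.2) s := by
    refine Set.Subset.trans ?_ hcov
    rintro x ⟨hx, hdim⟩
    exact ⟨hx, lt_of_le_of_lt (slice_dim d K L ν ρ hρ hL x) hdim⟩
  have hfin : dimH ({a, a + r • e} : Set (EuclideanSpace ℝ (Fin (d + 1)))) = 0 :=
    (Set.toFinite _).dimH_zero
  have hvol : ∀ j : ℚ × (ℕ × ℕ), e ∈ Prod.snd '' SG d K j.1 (UU d j.2) →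
      volume (Prod.snd '' SG d K j.1 (UU d j.2)) ≠ 0 := fun j hj h0 =>
    hcone (Set.mem_iUnion₂.2 ⟨j, h0, hj⟩)
  have hgen : ∀ B : ℝ≥0∞, (∀ j : ℚ × (ℕ × ℕ), e ∈ Prod.snd '' SG d K j.1 (UU d j.2) →
      dimH (TXH d K j.1 L (UU d j.2) s) ≤ B) →
      dimH {x ∈ segment ℝ a (a + r • e) | dimH (K ∩ {y | inner ℝ y ν = inner ℝ x ν}) <
        ENNReal.ofReal s} ≤ B := by
    intro B hB
    refine (dimH_mono hcov2).trans ?_
    rw [dimH_union, hfin]
    refine max_le zero_le ?_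
    rw [dimH_iUnion]
    refine iSup_le fun j => ?_
    rw [dimH_iUnion]
    refine iSup_le fun hj => ?_
    exact (hln.dimH_image_le _).trans (hB j hj)
  refine ⟨hgen _ fun j hj => (N1 d hd c hc hT K hK j.1 _ (UU_compact d j.2) L s (hvol j hj)).1,
    hgen _ fun j hj => (N1 d hd c hc hT K hK j.1 _ (UU_compact d j.2) L s (hvol j hj)).2.1,
    fun hs => ?_⟩
  exact le_antisymm (hgen 0 fun j hj =>
    ((N1 d hd c hc hT K hK j.1 _ (UU_compact d j.2) L s (hvol j hj)).2.2 hs).le) zero_le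

end Pool.Agent.H951.KS
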