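import Pool.Agent.H951.KS.ExcC
import Pool.Graph.R_seed8.Y249.AC.Src
import Pool.Graph.R_seed8.Y249.AC.SrcH
import Pool.Graph.R_seed8.Y254.HK.Sets

/-!
# The admissible coefficients
-/

set_option autoImplicit false
set_option maxHeartbeats 1000000

open MeasureTheory Filter Topology
open scoped Classical ENNReal NNReal

namespace Pool.Agent.H951.KS

/-- the admissible coefficients -/
theorem cnt_cond {n : ℕ} (hn : 3 ≤ n) {c : ℝ} (hc1 : 1 ≤ c)
    (h : 2 * ((n : ℝ) - 1) / n ≤ c ∨ (10 ≤ n ∧ 0 ≤ c ^ 3 - 4 * c + 2) ∨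
      (15 ≤ n ∧ 0 ≤ ((n : ℝ) - 1) * (c ^ 3 - 4 * c + 2) + c * (3 * c - 1 - c ^ 2))) :
    ∀ c' : ℝ, c < c' → CntP (n - 1) c' := by
  intro c' hcc
  have e1 : (((n - 1 : ℕ)) : ℝ) = (n : ℝ) - 1 := by
    rw [Nat.cast_sub (by omega)]
    norm_num
  refine cnt_all (by omega) (by linarith) ?_
  rcases h with h | ⟨hn10, h⟩ | ⟨hn15, h⟩
  · refine Pool.Agent.Y249.AC.tubeB_wolff (by omega) ?_
    rw [e1]
    have e2 : 2 * ((n : ℝ) - 1) / ((n : ℝ) - 1 + 1) = 2 * ((n : ℝ) - 1) / n := by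
      rw [sub_add_cancel]
    rw [e2]
    linarith
  · refine Pool.Agent.Y249.AC.tubeB_arith (by omega) (by linarith) ?_
    have h1 : 4 < c' ^ 2 + c * c' + c ^ 2 := by nlinarith
    nlinarith [mul_pos (sub_pos.2 hcc) (sub_pos.2 h1)]
  · have hd : (14 : ℝ) ≤ (n : ℝ) - 1 := by
      have : (15 : ℝ) ≤ n := by exact_mod_cast hn15
      linarith
    have hc16 : (8 / 5 : ℝ) < c := by
      by_contra hle
      rw [not_lt] at hle
      have h2 : c ^ 3 - 4 * c + 2 ≤ -(3 / 10) := by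
        nlinarith [mul_nonneg (sub_nonneg.2 hc1) (sub_nonneg.2 hle),
          mul_nonneg (mul_nonneg (sub_nonneg.2 hc1) (sub_nonneg.2 hle)) (by linarith : 0 ≤ c)]
      have h3 : c * (3 * c - 1 - c ^ 2) ≤ 2 := by
        nlinarith [mul_nonneg (sub_nonneg.2 hc1) (sub_nonneg.2 hle),
          mul_nonneg (mul_nonneg (sub_nonneg.2 hc1) (sub_nonneg.2 hle)) (by linarith : 0 ≤ c)]
      nlinarith
    have hg := Pool.Agent.Y254HK.gg_pos (d := n - 1) (by omega) hc1 (c := c) (by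
      unfold Pool.Agent.Y254HK.gg
      rw [e1]
      exact h) hcc
    unfold Pool.Agent.Y254HK.gg at hg
    refine Pool.Agent.Y249.AC.tubeB_mix (by omega) (x := 1) ⟨zero_le_one, le_rfl, by linarith,
      ?_, ?_⟩
    · rw [one_mul]
      exact hg
    · rw [e1]
      have hc' : (8 / 5 : ℝ) < c' := by linarith
      have h4 : 14 * (c' ^ 2 - 1) ≤ ((n : ℝ) - 1) * (c' ^ 2 - 1) :=
        mul_le_mul_of_nonneg_right hd (by nlinarith)
      nlinarith

theorem limit_le {x : ℝ≥0∞} {c y : ℝ} (h : ∀ c' : ℝ, c < c' → x ≤ ENNReal.ofReal (c' * y)) :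
    x ≤ ENNReal.ofReal (c * y) := by
  have h1 : Tendsto (fun c' : ℝ => ENNReal.ofReal (c' * y)) (𝓝[>] c)
      (𝓝 (ENNReal.ofReal (c * y))) := by
    refine (ENNReal.continuous_ofReal.comp (continuous_id.mul continuous_const)).continuousAt.tendsto.mono_left
      nhdsWithin_le_nhds
  refine ge_of_tendsto h1 ?_
  filter_upwards [self_mem_nhdsWithin] with c' hc'
  exact h c' hc'

theorem limit_nat {x : ℝ≥0∞} {c y : ℝ}
    (h : ∀ m : ℕ, x ≤ ENNReal.ofReal ((c + 1 / ((m : ℝ) + 1)) * y)) :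
    x ≤ ENNReal.ofReal (c * y) := by
  have h0 : Tendsto (fun m : ℕ => (c + 1 / ((m : ℝ) + 1)) * y) atTop (𝓝 ((c + 0) * y)) :=
    (tendsto_const_nhds.add tendsto_one_div_add_atTop_nhds_zero_nat).mul_const y
  rw [add_zero] at h0
  exact ge_of_tendsto (ENNReal.tendsto_ofReal h0) (Eventually.of_forall h)

end Pool.Agent.H951.KS
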