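import Pool.Graph.R_seed8.W605.HD.Cov

/-!
# Finite covers of the slices of a compact set, chosen measurably
-/

set_option autoImplicit false

open MeasureTheory
open scoped Classical ENNReal NNReal

namespace Pool.Agent.H951.KS

open Pool.Agent.W605.HD

/-- an open cube of side `6 * 2 ^ (-k)` -/
def oc {d : ℕ} (p : ℕ × (Fin d → ℤ)) : Set (Fin d → ℝ) :=
  {y | ∀ i, |(2 : ℝ) ^ p.1 * y i - p.2 i| < 3}

/-- the union of finitely many cubes -/
def OC {d : ℕ} (C : Finset (ℕ × (Fin d → ℤ))) : Set (Fin d → ℝ) := {y | ∃ p ∈ C, y ∈ oc p}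

/-- finite families with at most `2 ^ (α (k + 1))` cubes of each level `k`, all levels `≥ k0` -/
def Good {d : ℕ} (α : ℝ) (k0 : ℕ) (C : Finset (ℕ × (Fin d → ℤ))) : Prop :=
  (∀ p ∈ C, k0 ≤ p.1) ∧ ∀ k : ℕ, ((C.filter fun p => p.1 = k).card : ℝ) ≤ (2 : ℝ) ^ (α * (k + 1))

theorem isOpen_oc {d : ℕ} (p : ℕ × (Fin d → ℤ)) : IsOpen (oc p) := by
  have h : oc p = ⋂ i : Fin d, {y : Fin d → ℝ | |(2 : ℝ) ^ p.1 * y i - p.2 i| < 3} := by
    ext y
    simp [oc]
  rw [h]
  exact isOpen_iInter_of_finite fun i => isOpen_lt (by fun_prop) continuous_const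

theorem isOpen_OC {d : ℕ} (C : Finset (ℕ × (Fin d → ℤ))) : IsOpen (OC C) := by
  have h : OC C = ⋃ p ∈ C, oc p := by
    ext y
    simp [OC]
  rw [h]
  exact isOpen_biUnion fun p _ => isOpen_oc p

/-- a compact set of small dimension has good finite covers -/
theorem cov_compact {d : ℕ} (S : Set (Fin d → ℝ)) (hS : IsCompact S) (α : ℝ≥0) (h : dimH S < α)
    (k0 : ℕ) : ∃ C : Finset (ℕ × (Fin d → ℤ)), Good (α : ℝ) k0 C ∧ S ⊆ OC C := by
  obtain ⟨t, κ, ht1, ht2, ht3, ht4⟩ := cover S α h k0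
  let x : ℕ → Fin d → ℝ := fun i => if h : (t i).Nonempty then h.some else 0
  have hx : ∀ i, (t i).Nonempty → x i ∈ t i := by
    intro i h
    simp only [x, dif_pos h]
    exact h.some_mem
  let q : ℕ → ℕ × (Fin d → ℤ) := fun i => (κ i, fun l => ⌊(2 : ℝ) ^ κ i * x i l⌋)
  have hsub : ∀ i, t i ⊆ oc (q i) := by
    intro i y hy l
    have h1 := hx i ⟨y, hy⟩
    have h2 := ht3 i _ hy _ h1
    have h3 : |y l - x i l| ≤ (1 / 2 : ℝ) ^ κ i := by
      rw [← Real.dist_eq]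
      exact (dist_le_pi_dist y (x i) l).trans h2
    have hp : (0 : ℝ) < (2 : ℝ) ^ κ i := by positivity
    have h4 : |(2 : ℝ) ^ κ i * (y l - x i l)| ≤ 1 := by
      rw [abs_mul, abs_of_pos hp]
      calc (2 : ℝ) ^ κ i * |y l - x i l| ≤ (2 : ℝ) ^ κ i * (1 / 2 : ℝ) ^ κ i :=
            mul_le_mul_of_nonneg_left h3 hp.le
        _ = 1 := by rw [← mul_pow]; norm_num
    have h5 := Int.floor_le ((2 : ℝ) ^ κ i * x i l)
    have h6 := Int.lt_floor_add_one ((2 : ℝ) ^ κ i * x i l)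
    have h7 := abs_le.1 h4
    change |(2 : ℝ) ^ κ i * y l - ((⌊(2 : ℝ) ^ κ i * x i l⌋ : ℤ) : ℝ)| < 3
    rw [abs_lt]
    constructor <;> linarith [h7.1, h7.2]
  have hcov : S ⊆ ⋃ i, oc (q i) := ht1.trans (Set.iUnion_mono hsub)
  obtain ⟨I, hI⟩ := hS.elim_finite_subcover (fun i => oc (q i)) (fun i => isOpen_oc _) hcov
  refine ⟨I.image q, ⟨?_, ?_⟩, ?_⟩
  · intro p hp
    obtain ⟨i, -, rfl⟩ := Finset.mem_image.1 hp
    exact ht2 i
  · intro k
    have h1 : (I.image q).filter (fun p => p.1 = k) ⊆ (I.filter fun i => κ i = k).image q := by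
      intro p hp
      obtain ⟨hp1, hp2⟩ := Finset.mem_filter.1 hp
      obtain ⟨i, hi, rfl⟩ := Finset.mem_image.1 hp1
      exact Finset.mem_image.2 ⟨i, Finset.mem_filter.2 ⟨hi, hp2⟩, rfl⟩
    have h2 := (Finset.card_le_card h1).trans Finset.card_image_le
    have h3 := ht4 k (I.filter fun i => κ i = k) (fun i hi => (Finset.mem_filter.1 hi).2)
    exact le_trans (by exact_mod_cast h2) h3
  · intro y hy
    obtain ⟨i, hi, hyi⟩ := Set.mem_iUnion₂.1 (hI hy)
    exact ⟨q i, Finset.mem_image.2 ⟨i, hi, rfl⟩, hyi⟩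

/-- the coordinates other than the height -/
def tl (d : ℕ) (x : EuclideanSpace ℝ (Fin (d + 1))) : Fin d → ℝ := fun i => x i.succ

theorem continuous_tl (d : ℕ) : Continuous (tl d) :=
  continuous_pi fun i => (EuclideanSpace.proj (𝕜 := ℝ) (Fin.succ i)).continuous

theorem pt_tl (d : ℕ) (x : EuclideanSpace ℝ (Fin (d + 1))) : pt d (x 0) (tl d x) = x := by
  ext l
  refine Fin.cases ?_ (fun i => ?_) l
  · rfl
  · rfl

theorem tl_pt (d : ℕ) (t : ℝ) (y : Fin d → ℝ) : tl d (pt d t y) = y := by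
  funext i
  rfl

/-- the slice at the height `t` -/
def slice (d : ℕ) (K : Set (EuclideanSpace ℝ (Fin (d + 1)))) (t : ℝ) : Set (Fin d → ℝ) :=
  {y | pt d t y ∈ K}

theorem slice_compact (d : ℕ) (K : Set (EuclideanSpace ℝ (Fin (d + 1)))) (hK : IsCompact K)
    (t : ℝ) : IsCompact (slice d K t) := by
  have h1 : slice d K t = tl d '' (K ∩ {x | x 0 = t}) := by
    ext y
    constructor
    · intro hy
      exact ⟨pt d t y, ⟨hy, rfl⟩, tl_pt d t y⟩
    · rintro ⟨x, ⟨hx, rfl⟩, rfl⟩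
      change pt d (x 0) (tl d x) ∈ K
      rw [pt_tl]
      exact hx
  rw [h1]
  refine (hK.inter_right ?_).image (continuous_tl d)
  exact isClosed_eq (EuclideanSpace.proj (𝕜 := ℝ) (0 : Fin (d + 1))).continuous continuous_const

/-- the heights whose slice is covered by a given open set are an open set -/
theorem isOpen_cov (d : ℕ) (K : Set (EuclideanSpace ℝ (Fin (d + 1)))) (hK : IsCompact K)
    (O : Set (Fin d → ℝ)) (hO : IsOpen O) : IsOpen {t : ℝ | slice d K t ⊆ O} := by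
  rw [← isClosed_compl_iff]
  have h1 : {t : ℝ | slice d K t ⊆ O}ᶜ =
      (fun x : EuclideanSpace ℝ (Fin (d + 1)) => x 0) '' (K ∩ (tl d ⁻¹' Oᶜ)) := by
    ext t
    constructor
    · intro ht
      simp only [Set.mem_compl_iff, Set.mem_ofPred_eq, Set.not_subset] at ht
      obtain ⟨y, hy1, hy2⟩ := ht
      exact ⟨pt d t y, ⟨hy1, by rw [Set.mem_preimage, tl_pt]; exact hy2⟩, rfl⟩
    · rintro ⟨x, ⟨hx1, hx2⟩, rfl⟩ hcon
      refine hx2 (hcon ?_)
      change pt d (x 0) (tl d x) ∈ K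
      rw [pt_tl]
      exact hx1
  rw [h1]
  exact ((hK.inter_right (hO.isClosed_compl.preimage (continuous_tl d))).image
    (EuclideanSpace.proj (𝕜 := ℝ) (0 : Fin (d + 1))).continuous).isClosed

/-- the heights with arbitrarily fine good covers -/
def Bad (d : ℕ) (K : Set (EuclideanSpace ℝ (Fin (d + 1)))) (α : ℝ) : Set ℝ :=
  {t | ∀ k0 : ℕ, ∃ C : Finset (ℕ × (Fin d → ℤ)), Good α k0 C ∧ slice d K t ⊆ OC C}

theorem bad_of_dim (d : ℕ) (K : Set (EuclideanSpace ℝ (Fin (d + 1)))) (hK : IsCompact K)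
    (α : ℝ≥0) (t : ℝ) (h : dimH (slice d K t) < α) : t ∈ Bad d K α :=
  fun k0 => cov_compact _ (slice_compact d K hK t) α h k0

theorem measurable_bad (d : ℕ) (K : Set (EuclideanSpace ℝ (Fin (d + 1)))) (hK : IsCompact K)
    (α : ℝ) : MeasurableSet (Bad d K α) := by
  have h1 : Bad d K α = ⋂ k0 : ℕ, ⋃ C : Finset (ℕ × (Fin d → ℤ)), ⋃ _ : Good α k0 C,
      {t : ℝ | slice d K t ⊆ OC C} := by
    ext t
    simp [Bad]
  rw [h1]
  exact MeasurableSet.iInter fun k0 => (isOpen_iUnion fun C => isOpen_iUnion fun _ =>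
    isOpen_cov d K hK _ (isOpen_OC C)).measurableSet

/-- a measurable choice of good covers -/
theorem choice (d : ℕ) (K : Set (EuclideanSpace ℝ (Fin (d + 1)))) (hK : IsCompact K)
    (α : ℝ) (k0 : ℕ) : ∃ (D : ℕ → Set ℝ) (e : ℕ → Finset (ℕ × (Fin d → ℤ))),
      (∀ m, MeasurableSet (D m)) ∧ Pairwise (Function.onFun Disjoint D) ∧
      (∀ m t, t ∈ D m → Good α k0 (e m) ∧ slice d K t ⊆ OC (e m)) ∧
      ∀ t, (∃ C : Finset (ℕ × (Fin d → ℤ)), Good α k0 C ∧ slice d K t ⊆ OC C) → ∃ m, t ∈ D m := by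
  obtain ⟨e, he⟩ := exists_surjective_nat (Finset (ℕ × (Fin d → ℤ)))
  let O : ℕ → Set ℝ := fun m => {t | Good α k0 (e m) ∧ slice d K t ⊆ OC (e m)}
  have hO : ∀ m, MeasurableSet (O m) := by
    intro m
    by_cases h : Good α k0 (e m)
    · have : O m = {t | slice d K t ⊆ OC (e m)} := by
        ext t
        simp [O, h]
      rw [this]
      exact (isOpen_cov d K hK _ (isOpen_OC _)).measurableSet
    · have : O m = ∅ := by
        ext t
        simp [O, h]
      rw [this]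
      exact MeasurableSet.empty
  refine ⟨disjointed O, e, fun m => MeasurableSet.disjointed hO m, disjoint_disjointed O,
    fun m t ht => disjointed_subset O m ht, ?_⟩
  rintro t ⟨C, hC⟩
  obtain ⟨m, rfl⟩ := he C
  have h1 : t ∈ ⋃ m, O m := Set.mem_iUnion.2 ⟨m, hC⟩
  rw [← iUnion_disjointed] at h1
  exact Set.mem_iUnion.1 h1

end Pool.Agent.H951.KS
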