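import Mathlib

/-!
# A common offset of the heights
-/

set_option autoImplicit false

open MeasureTheory
open scoped Classical ENNReal

namespace Pool.Agent.H951.KS

theorem vol_piece (n : ℕ) (hn : 1 ≤ n) (E : Set ℝ) (j : ℕ) :
    volume {s : ℝ | s ∈ Set.Ico (0 : ℝ) 1 ∧ ((j : ℝ) + s) / n ∈ E} =
      ENNReal.ofReal n * volume (E ∩ Set.Ico ((j : ℝ) / n) (((j : ℝ) + 1) / n)) := by
  have hn0 : (0 : ℝ) < n := by exact_mod_cast hn
  have h1 : {s : ℝ | s ∈ Set.Ico (0 : ℝ) 1 ∧ ((j : ℝ) + s) / n ∈ E} =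
      (fun s : ℝ => (j : ℝ) + s) ⁻¹' ((fun x : ℝ => x * (n : ℝ)⁻¹) ⁻¹'
        (E ∩ Set.Ico ((j : ℝ) / n) (((j : ℝ) + 1) / n))) := by
    ext s
    simp only [Set.mem_preimage, Set.mem_inter_iff, Set.mem_Ico, ← div_eq_mul_inv]
    constructor
    · rintro ⟨⟨h1, h2⟩, h3⟩
      refine ⟨h3, ?_, ?_⟩
      · exact div_le_div_of_nonneg_right (by linarith) hn0.le
      · exact div_lt_div_of_pos_right (by linarith) hn0
    · rintro ⟨h3, h4, h5⟩
      rw [div_le_div_iff_of_pos_right hn0] at h4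
      rw [div_lt_div_iff_of_pos_right hn0] at h5
      exact ⟨⟨by linarith, by linarith⟩, h3⟩
  rw [h1, measure_preimage_add, Real.volume_preimage_mul_right (inv_ne_zero hn0.ne'), inv_inv,
    abs_of_pos hn0]

theorem vol_sum (n : ℕ) (hn : 1 ≤ n) (E : Set ℝ) (hE : MeasurableSet E)
    (hE1 : E ⊆ Set.Ico (0 : ℝ) 1) :
    ∑ j : Fin n, volume {s : ℝ | s ∈ Set.Ico (0 : ℝ) 1 ∧ (((j : ℕ) : ℝ) + s) / n ∈ E} =
      ENNReal.ofReal n * volume E := by
  have hn0 : (0 : ℝ) < n := by exact_mod_cast hn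
  rw [Finset.sum_congr rfl (fun (j : Fin n) _ => vol_piece n hn E (j : ℕ)), ← Finset.mul_sum]
  congr 1
  have h1 : E = ⋃ j ∈ (Finset.univ : Finset (Fin n)),
      E ∩ Set.Ico (((j : ℕ) : ℝ) / n) ((((j : ℕ) : ℝ) + 1) / n) := by
    ext τ
    constructor
    · intro hτ
      have h3 := hE1 hτ
      have h4 : 0 ≤ (n : ℝ) * τ := mul_nonneg hn0.le h3.1
      have h5 : (n : ℝ) * τ < n := by nlinarith [h3.2]
      have h6 : ⌊(n : ℝ) * τ⌋₊ < n := (Nat.floor_lt h4).2 h5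
      refine Set.mem_iUnion₂.2 ⟨⟨⌊(n : ℝ) * τ⌋₊, h6⟩, Finset.mem_univ _, hτ, ?_, ?_⟩
      · rw [div_le_iff₀ hn0]
        have h7 : ((⌊(n : ℝ) * τ⌋₊ : ℕ) : ℝ) ≤ n * τ := Nat.floor_le h4
        linarith
      · rw [lt_div_iff₀ hn0]
        have h7 : (n : ℝ) * τ < ((⌊(n : ℝ) * τ⌋₊ : ℕ) : ℝ) + 1 := Nat.lt_floor_add_one _
        linarith
    · intro h
      obtain ⟨j, -, h⟩ := Set.mem_iUnion₂.1 h
      exact h.1
  conv_rhs => rw [h1]
  rw [measure_biUnion_finset]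
  · intro i _ j _ hij
    rw [Function.onFun, Set.disjoint_left]
    rintro τ ⟨-, h3, h4⟩ ⟨-, h5, h6⟩
    apply hij
    rw [div_le_iff₀ hn0] at h3 h5
    rw [lt_div_iff₀ hn0] at h4 h6
    apply Fin.ext
    have h7 : ((i : ℕ) : ℝ) < ((j : ℕ) : ℝ) + 1 := by linarith
    have h8 : ((j : ℕ) : ℝ) < ((i : ℕ) : ℝ) + 1 := by linarith
    have h9 : (i : ℕ) < (j : ℕ) + 1 := by exact_mod_cast h7
    have h10 : (j : ℕ) < (i : ℕ) + 1 := by exact_mod_cast h8
    omega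
  · intro j _
    exact hE.inter measurableSet_Ico

/-- a common offset for finitely many sets of heights -/
theorem offset {Ω : Type} [Fintype Ω] (n : ℕ) (hn : 1 ≤ n) (E : Ω → Set ℝ)
    (hE : ∀ ω, MeasurableSet (E ω)) (hE1 : ∀ ω, E ω ⊆ Set.Ico (0 : ℝ) 1) (l : ℝ)
    (hl : ∀ ω, ENNReal.ofReal l ≤ volume (E ω)) :
    ∃ (s : ℝ) (F : Ω → Finset (Fin n)), (∀ ω j, j ∈ F ω ↔ (((j : ℕ) : ℝ) + s) / n ∈ E ω) ∧
      (Fintype.card Ω : ℝ) * (n * l) ≤ ∑ ω, ((F ω).card : ℝ) := by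
  suffices h : ∃ s : ℝ, (Fintype.card Ω : ℝ) * (n * l) ≤
      ∑ ω, ((Finset.univ.filter fun j : Fin n => (((j : ℕ) : ℝ) + s) / n ∈ E ω).card : ℝ) by
    obtain ⟨s, hs⟩ := h
    exact ⟨s, fun ω => Finset.univ.filter fun j : Fin n => (((j : ℕ) : ℝ) + s) / n ∈ E ω,
      fun ω j => by simp, hs⟩
  have hn0 : (0 : ℝ) < n := by exact_mod_cast hn
  rcases le_or_gt l 0 with hl0 | hl0
  · refine ⟨0, le_trans ?_ (Finset.sum_nonneg fun ω _ => Nat.cast_nonneg _)⟩
    exact mul_nonpos_of_nonneg_of_nonpos (Nat.cast_nonneg _)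
      (mul_nonpos_of_nonneg_of_nonpos hn0.le hl0)
  let f : ℝ → ℝ≥0∞ := fun s => ∑ ω, ∑ j : Fin n,
    Set.indicator {s : ℝ | (((j : ℕ) : ℝ) + s) / n ∈ E ω} (fun _ => (1 : ℝ≥0∞)) s
  have hms : ∀ ω (j : Fin n), MeasurableSet {s : ℝ | (((j : ℕ) : ℝ) + s) / n ∈ E ω} := by
    intro ω j
    have hm : Measurable fun s : ℝ => (((j : ℕ) : ℝ) + s) / n := by fun_prop
    exact hm (hE ω)
  have hf : ∀ s, f s = ENNReal.ofReal
      (∑ ω, ((Finset.univ.filter fun j : Fin n => (((j : ℕ) : ℝ) + s) / n ∈ E ω).card : ℝ)) := by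
    intro s
    rw [ENNReal.ofReal_sum_of_nonneg fun ω _ => Nat.cast_nonneg _]
    refine Finset.sum_congr rfl fun ω _ => ?_
    rw [ENNReal.ofReal_natCast, Finset.card_filter]
    push_cast
    refine Finset.sum_congr rfl fun j _ => ?_
    by_cases h : (((j : ℕ) : ℝ) + s) / n ∈ E ω
    · simp [Set.indicator, h]
    · simp [Set.indicator, h]
  have hint : ∫⁻ s in Set.Ico (0 : ℝ) 1, f s = ∑ ω, ENNReal.ofReal n * volume (E ω) := by
    simp only [f]
    rw [lintegral_finsetSum]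
    · refine Finset.sum_congr rfl fun ω _ => ?_
      rw [lintegral_finsetSum]
      · rw [← vol_sum n hn (E ω) (hE ω) (hE1 ω)]
        refine Finset.sum_congr rfl fun j _ => ?_
        rw [lintegral_indicator (hms ω j), Measure.restrict_restrict (hms ω j)]
        simp only [lintegral_const, one_mul]
        rw [Measure.restrict_apply MeasurableSet.univ, Set.univ_inter]
        congr 1
        ext s
        simp only [Set.mem_inter_iff, Set.mem_ofPred_eq]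
        exact and_comm
      · intro j _
        exact measurable_const.indicator (hms ω j)
    · intro ω _
      exact Finset.measurable_sum _ fun j _ => measurable_const.indicator (hms ω j)
  have hvol1 : (volume : Measure ℝ) (Set.Ico (0 : ℝ) 1) = 1 := by
    rw [Real.volume_Ico]; norm_num
  have hfin : ∫⁻ s in Set.Ico (0 : ℝ) 1, f s ≠ ⊤ := by
    rw [hint]
    refine ENNReal.sum_ne_top.2 fun ω _ => ENNReal.mul_ne_top ENNReal.ofReal_ne_top ?_
    exact ne_top_of_le_ne_top (by rw [hvol1]; exact ENNReal.one_ne_top) (measure_mono (hE1 ω))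
  obtain ⟨s, hs, hfs⟩ := exists_setLAverage_le (μ := (volume : Measure ℝ))
    (s := Set.Ico (0 : ℝ) 1) (f := f) (by rw [hvol1]; exact one_ne_zero)
    measurableSet_Ico.nullMeasurableSet hfin
  rw [setLAverage_eq, hvol1, div_one, hint, hf s] at hfs
  refine ⟨s, ?_⟩
  have h1 : ENNReal.ofReal ((Fintype.card Ω : ℝ) * (n * l)) ≤ ∑ ω, ENNReal.ofReal n *
      volume (E ω) := by
    calc ENNReal.ofReal ((Fintype.card Ω : ℝ) * (n * l)) = ∑ _ω : Ω, ENNReal.ofReal n *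
          ENNReal.ofReal l := by
          rw [Finset.sum_const, Finset.card_univ, nsmul_eq_mul,
            ENNReal.ofReal_mul (Nat.cast_nonneg _), ENNReal.ofReal_mul hn0.le,
            ENNReal.ofReal_natCast]
      _ ≤ _ := Finset.sum_le_sum fun ω _ => mul_le_mul_right (hl ω) _
  exact (ENNReal.ofReal_le_ofReal_iff (Finset.sum_nonneg fun ω _ => Nat.cast_nonneg _)).1
    (h1.trans hfs)

end Pool.Agent.H951.KS
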