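import Pool.Graph.R_seed8.Y254.HK.StmG
import Pool.Graph.R_seed8.W605.HD.Haus
import Pool.Agent.H951.KS.Cover
import Pool.Agent.H951.KS.Off

/-!
# The counting argument for the slices
-/

set_option autoImplicit false

open MeasureTheory
open scoped Classical ENNReal NNReal

namespace Pool.Agent.H951.KS

open Pool.Agent.W605.HD Pool.Agent.W46.HD Pool.Agent.Y254HK

theorem numericS {c C γ α ε η ρ L x1 x2 N S : ℝ} {d k n : ℕ} (hn : n = 2 ^ k) (hc : 0 ≤ c)
    (hC : 0 ≤ C) (hα : 0 ≤ α)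
    (hγ : γ = d - c * α - ε) (hη : η = γ * Real.log 2 / (2 * (2 + C)))
    (hρ : ρ = Real.exp (-η)) (hx1 : 0 < x1) (hx2 : 0 < x2)
    (hL : L = c * (d * Real.log 6 + α * Real.log 2) + C * (1 + Real.log 2 - Real.log x2) -
      Real.log (x1 * x2 / 2))
    (hk : L < γ * Real.log 2 / 2 * k)
    (hN : x2 * ρ ^ k / 2 * (x1 * ρ ^ k * ((2 : ℝ) ^ k) ^ d) ≤ N)
    (hS0 : 0 ≤ S) (hS : S / (n : ℝ) ≤ 6 ^ d * (2 : ℝ) ^ (α * (k + 1)))
    (hD : Real.log N ≤ c * Real.log (S / (n : ℝ)) + ε * Real.log (n : ℝ) +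
      C * (1 + Real.log (1 / (x2 * ρ ^ k / 2)))) : False := by
  subst hn
  have hρ0 : 0 < ρ := by rw [hρ]; exact Real.exp_pos _
  have hlρ : Real.log (ρ ^ k) = -(k * η) := by
    rw [Real.log_pow, hρ, Real.log_exp]; ring
  have hlog2 : 0 < Real.log 2 := Real.log_pos (by norm_num)
  have hlog6 : 0 < Real.log 6 := Real.log_pos (by norm_num)
  have h1 : Real.log (x1 * x2 / 2) - 2 * (k * η) + d * (k * Real.log 2) ≤ Real.log N := by
    have h2 := Real.log_le_log (by positivity) hN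
    have e : x2 * ρ ^ k / 2 * (x1 * ρ ^ k * ((2 : ℝ) ^ k) ^ d) =
        (x1 * x2 / 2) * (ρ ^ k * (ρ ^ k * ((2 : ℝ) ^ k) ^ d)) := by ring
    rw [e, Real.log_mul (by positivity) (by positivity),
      Real.log_mul (by positivity) (by positivity), Real.log_mul (by positivity) (by positivity),
      hlρ, Real.log_pow, Real.log_pow] at h2
    linarith
  have h2 : Real.log (S / ((2 ^ k : ℕ) : ℝ)) ≤ d * Real.log 6 + α * (k + 1) * Real.log 2 := by
    have hb : 0 ≤ d * Real.log 6 + α * (k + 1) * Real.log 2 := by positivity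
    rcases hS0.eq_or_lt with h0 | h0
    · rw [← h0, zero_div, Real.log_zero]
      exact hb
    · have h3 := Real.log_le_log (by positivity) hS
      rw [Real.log_mul (by positivity) (by positivity), Real.log_pow,
        Real.log_rpow (by norm_num)] at h3
      exact h3
  have h3 : Real.log (1 / (x2 * ρ ^ k / 2)) = Real.log 2 - Real.log x2 + k * η := by
    rw [one_div, Real.log_inv, Real.log_div (by positivity) (by norm_num),
      Real.log_mul hx2.ne' (by positivity), hlρ]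
    ring
  have h3' : Real.log ((2 ^ k : ℕ) : ℝ) = k * Real.log 2 := by
    push_cast
    rw [Real.log_pow]
  rw [h3, h3'] at hD
  have h4 := mul_le_mul_of_nonneg_left h2 hc
  have h5 : (2 + C) * η = γ * Real.log 2 / 2 := by
    rw [hη]
    have : (2 + C) ≠ 0 := by linarith
    field_simp
  have h6 : γ * Real.log 2 * k ≤ k * ((2 + C) * η) + L := by
    rw [hL, hγ]
    nlinarith
  rw [h5] at h6
  nlinarith

/-- representatives of the grid cubes which meet `W` -/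
theorem disc (d k : ℕ) (W : Set (Fin d → ℝ)) (hW : ∀ v ∈ W, ∀ i, 0 ≤ v i ∧ v i ≤ 1) (x1 : ℝ)
    (h1 : ENNReal.ofReal x1 ≤ volume W) :
    ∃ (Ω : Type) (_ : Fintype Ω) (D : Ω → Fin d → ℝ), (∀ ω, D ω ∈ W) ∧ IsFam (2 ^ k) D ∧
      x1 * ((2 : ℝ) ^ k) ^ d ≤ (Fintype.card Ω : ℝ) := by
  obtain ⟨n, hn⟩ : ∃ n : ℕ, n = 2 ^ k := ⟨_, rfl⟩
  have hn1 : 1 ≤ n := by rw [hn]; exact Nat.one_le_two_pow
  have hn0 : (0 : ℝ) < n := by exact_mod_cast hn1
  have hnR : (n : ℝ) = (2 : ℝ) ^ k := by rw [hn]; push_cast; rfl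
  rw [← hn, ← hnR]
  let fl : (Fin d → ℝ) → Fin d → ℤ := fun v i => ⌊(n : ℝ) * v i⌋
  have hfin : (fl '' W).Finite := by
    apply Set.Finite.subset (Fintype.piFinset (fun _ : Fin d => Finset.Icc (0 : ℤ) n)).finite_toSet
    rintro g ⟨v, hv, rfl⟩
    rw [Finset.mem_coe, Fintype.mem_piFinset]
    intro i
    rw [Finset.mem_Icc]
    have h3 := hW v hv i
    constructor
    · exact Int.floor_nonneg.2 (mul_nonneg hn0.le h3.1)
    · have h4 : (n : ℝ) * v i ≤ (n : ℤ) := by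
        push_cast
        nlinarith
      exact Int.cast_le.1 ((Int.floor_le _).trans h4)
  obtain ⟨G, hG⟩ : ∃ G : Finset (Fin d → ℤ), G = hfin.toFinset := ⟨_, rfl⟩
  have hmemG : ∀ g, g ∈ G ↔ ∃ v ∈ W, fl v = g := by
    intro g
    rw [hG, Set.Finite.mem_toFinset]
    rfl
  have hex : ∀ ω : {g // g ∈ G}, ∃ v ∈ W, fl v = ω.1 := fun ω => (hmemG ω.1).1 ω.2
  choose D hDW hDfl using hex
  have hfam : IsFam n D := ⟨hn1, fun ω i => (hW _ (hDW ω) i).1, fun ω i => (hW _ (hDW ω) i).2,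
    fun ω ω' h => by
      apply Subtype.ext
      rw [← hDfl ω, ← hDfl ω']
      exact funext h⟩
  have hcardG : x1 * (n : ℝ) ^ d ≤ (Fintype.card {g // g ∈ G} : ℝ) := by
    have hsub : W ⊆ ⋃ g ∈ G, {v : Fin d → ℝ | ∀ i, ⌊(n : ℝ) * v i⌋ = g i} := by
      intro v hv
      rw [Set.mem_iUnion₂]
      exact ⟨fl v, (hmemG _).2 ⟨v, hv, rfl⟩, fun i => rfl⟩
    have h3 : ENNReal.ofReal x1 ≤ ENNReal.ofReal ((G.card : ℝ) * (1 / (n : ℝ)) ^ d) := by
      calc ENNReal.ofReal x1 ≤ volume W := h1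
        _ ≤ volume (⋃ g ∈ G, {v : Fin d → ℝ | ∀ i, ⌊(n : ℝ) * v i⌋ = g i}) := measure_mono hsub
        _ ≤ ∑ g ∈ G, volume {v : Fin d → ℝ | ∀ i, ⌊(n : ℝ) * v i⌋ = g i} :=
            measure_biUnion_finset_le _ _
        _ ≤ ∑ _g ∈ G, ENNReal.ofReal ((1 / (n : ℝ)) ^ d) :=
            Finset.sum_le_sum fun g _ => vol_cube d n hn1 g
        _ = _ := by
            rw [Finset.sum_const, nsmul_eq_mul, ENNReal.ofReal_mul (by positivity),
              ENNReal.ofReal_natCast]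
    have h4 := (ENNReal.ofReal_le_ofReal_iff (by positivity)).1 h3
    rw [Fintype.card_coe]
    calc x1 * (n : ℝ) ^ d ≤ ((G.card : ℝ) * (1 / (n : ℝ)) ^ d) * (n : ℝ) ^ d :=
          mul_le_mul_of_nonneg_right h4 (by positivity)
      _ = (G.card : ℝ) * ((1 / (n : ℝ)) * n) ^ d := by rw [mul_pow]; ring
      _ = G.card := by
          rw [one_div, inv_mul_cancel₀ hn0.ne', one_pow, mul_one]
  exact ⟨{g // g ∈ G}, inferInstance, D, hDW, hfam, hcardG⟩

/-- the cells at one height -/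
theorem cells (d k : ℕ) (α : ℝ) (k0 : ℕ)
    (C : Finset (ℕ × (Fin d → ℤ))) (hC : Good α k0 C) :
    ∃ Z : Finset (Fin d → ℤ), (Z.card : ℝ) ≤ 6 ^ d * (2 : ℝ) ^ (α * (k + 1)) ∧
      ∀ u : Fin d → ℝ, (∃ p ∈ C, p.1 = k ∧ u ∈ oc p) → (fun i => ⌊(2 : ℝ) ^ k * u i⌋) ∈ Z := by
  obtain ⟨Z, hZ⟩ : ∃ Z : Finset (Fin d → ℤ), Z = (C.filter fun p => p.1 = k).biUnion
    (fun p => Fintype.piFinset (fun i => Finset.Icc (p.2 i - 3) (p.2 i + 2))) := ⟨_, rfl⟩
  have hZcard : Z.card ≤ (C.filter fun p => p.1 = k).card * 6 ^ d := by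
    rw [hZ]
    refine Finset.card_biUnion_le.trans ?_
    have h3 : ∀ p ∈ C.filter (fun p => p.1 = k),
        (Fintype.piFinset (fun i => Finset.Icc (p.2 i - 3) (p.2 i + 2))).card = 6 ^ d := by
      intro p _
      rw [Fintype.card_piFinset]
      have h4 : ∀ i : Fin d, (Finset.Icc (p.2 i - 3) (p.2 i + 2)).card = 6 := by
        intro i
        rw [Int.card_Icc]
        have : p.2 i + 2 + 1 - (p.2 i - 3) = 6 := by ring
        rw [this]
        rfl
      rw [Finset.prod_congr rfl fun i _ => h4 i, Finset.prod_const, Finset.card_univ,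
        Fintype.card_fin]
    rw [Finset.sum_congr rfl h3, Finset.sum_const, smul_eq_mul]
  refine ⟨Z, ?_, ?_⟩
  · have h2 : (Z.card : ℝ) ≤ ((C.filter fun p => p.1 = k).card : ℝ) * 6 ^ d := by
      exact_mod_cast hZcard
    refine h2.trans ?_
    rw [mul_comm]
    exact mul_le_mul_of_nonneg_left (hC.2 k) (by positivity)
  · rintro u ⟨p, hp, hpk, hup⟩
    rw [hZ, Finset.mem_biUnion]
    refine ⟨p, Finset.mem_filter.2 ⟨hp, hpk⟩, ?_⟩
    rw [Fintype.mem_piFinset]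
    intro i
    rw [Finset.mem_Icc]
    have h1 := abs_lt.1 (hup i)
    rw [hpk] at h1
    have h5 := Int.floor_le ((2 : ℝ) ^ k * u i)
    have h6 := Int.lt_floor_add_one ((2 : ℝ) ^ k * u i)
    constructor
    · have h9 : (((p.2 i - 3 : ℤ)) : ℝ) < ((⌊(2 : ℝ) ^ k * u i⌋ + 1 : ℤ) : ℝ) := by
        push_cast
        linarith [h1.1]
      have := Int.cast_lt.1 h9
      omega
    · have h9 : ((⌊(2 : ℝ) ^ k * u i⌋ : ℤ) : ℝ) < ((p.2 i + 3 : ℤ) : ℝ) := by
        push_cast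
        linarith [h1.2]
      have := Int.cast_lt.1 h9
      omega

end Pool.Agent.H951.KS
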