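import Mathlib

/-!
# Dimension from the size of separated sets
-/

set_option autoImplicit false
set_option maxHeartbeats 1000000

open MeasureTheory Filter Topology
open scoped Classical ENNReal NNReal

namespace Pool.Agent.H951.KS

theorem ediam_ball (p s : ℝ) : Metric.ediam (Metric.closedBall p s) ≤ ENNReal.ofReal (2 * s) := by
  refine Metric.ediam_le fun x hx y hy => ?_
  rw [edist_dist]
  refine ENNReal.ofReal_le_ofReal ?_
  have h1 := dist_triangle_right x y p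
  have h2 : dist x p ≤ s := hx
  have h3 : dist y p ≤ s := hy
  linarith

/-- maximal separated sets -/
theorem exists_net (S : Set ℝ) (s b : ℝ) (hs : 0 < s)
    (h : ∀ P : Finset ℝ, (P : Set ℝ) ⊆ S → (∀ t ∈ P, ∀ t' ∈ P, t ≠ t' → s ≤ |t - t'|) →
      (P.card : ℝ) ≤ b) :
    ∃ P : Finset ℝ, (P.card : ℝ) ≤ b ∧ S ⊆ ⋃ p ∈ P, Metric.closedBall p s := by
  let Q : Set ℕ := {n | ∃ P : Finset ℝ, (P : Set ℝ) ⊆ S ∧
    (∀ t ∈ P, ∀ t' ∈ P, t ≠ t' → s ≤ |t - t'|) ∧ P.card = n}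
  have hQ0 : Q.Nonempty := ⟨0, ∅, by simp, by simp, rfl⟩
  have hQb : BddAbove Q := by
    refine ⟨⌊b⌋₊, ?_⟩
    rintro n ⟨P, h1, h2, rfl⟩
    exact Nat.le_floor (h P h1 h2)
  obtain ⟨P, hP1, hP2, hP3⟩ := Nat.sSup_mem hQ0 hQb
  refine ⟨P, h P hP1 hP2, fun t ht => ?_⟩
  by_contra hno
  have h3 : ∀ p ∈ P, s < |t - p| := by
    intro p hp
    by_contra hle
    refine hno (Set.mem_iUnion₂.2 ⟨p, hp, ?_⟩)
    rw [Metric.mem_closedBall, Real.dist_eq]
    exact not_lt.1 hle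
  have htP : t ∉ P := by
    intro htP
    have := h3 t htP
    rw [sub_self, abs_zero] at this
    linarith
  have h4 : (insert t P).card ∈ Q := by
    refine ⟨insert t P, ?_, ?_, rfl⟩
    · rw [Finset.coe_insert]
      exact Set.insert_subset ht hP1
    · intro x hx y hy hne
      rcases Finset.mem_insert.1 hx with rfl | hx'
      · rcases Finset.mem_insert.1 hy with rfl | hy'
        · exact absurd rfl hne
        · exact (h3 y hy').le
      · rcases Finset.mem_insert.1 hy with rfl | hy'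
        · rw [abs_sub_comm]
          exact (h3 x hx').le
        · exact hP2 x hx' y hy' hne
  have h5 := le_csSup hQb h4
  rw [Finset.card_insert_of_notMem htP, hP3] at h5
  omega

theorem dim_cover (G : Set ℝ) (Gk : ℕ → Set ℝ) (ζ L Γ τ : ℝ) (hζ0 : 0 < ζ) (hζ1 : ζ < 1)
    (hL : 0 ≤ L) (hΓ : 0 ≤ Γ) (hτ : 0 ≤ τ) (hlt : Γ * ζ ^ τ < 1)
    (hcov : ∀ k0 : ℕ, ∀ t ∈ G, ∃ k, k0 ≤ k ∧ t ∈ Gk k) (k1 : ℕ)
    (hsep : ∀ k, k1 ≤ k → ∀ P : Finset ℝ, (P : Set ℝ) ⊆ Gk k →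
      (∀ t ∈ P, ∀ t' ∈ P, t ≠ t' → ζ ^ k ≤ |t - t'|) → (P.card : ℝ) ≤ L * Γ ^ k) :
    dimH G ≤ ENNReal.ofReal τ := by
  have hnet : ∀ k, ∃ P : Finset ℝ, k1 ≤ k → (P.card : ℝ) ≤ L * Γ ^ k ∧
      Gk k ⊆ ⋃ p ∈ P, Metric.closedBall p (ζ ^ k) := by
    intro k
    by_cases hk : k1 ≤ k
    · obtain ⟨P, h1, h2⟩ := exists_net (Gk k) (ζ ^ k) (L * Γ ^ k) (by positivity) (hsep k hk)
      exact ⟨P, fun _ => ⟨h1, h2⟩⟩
    · exact ⟨∅, fun h => absurd h hk⟩
  choose P hP using hnet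
  have hζτ : 0 < ζ ^ τ := Real.rpow_pos_of_pos hζ0 τ
  obtain ⟨y, hy⟩ : ∃ y : ℝ, y = Γ * ζ ^ τ := ⟨_, rfl⟩
  have hy0 : 0 ≤ y := by rw [hy]; positivity
  have hy1 : y < 1 := by rw [hy]; exact hlt
  obtain ⟨L2, hL2⟩ : ∃ L2 : ℝ, L2 = L * 2 ^ τ := ⟨_, rfl⟩
  have hL20 : 0 ≤ L2 := by rw [hL2]; positivity
  -- the sum for one level
  have hlev : ∀ k, k1 ≤ k → ∑ p : {p // p ∈ P k},
      (Metric.ediam (Metric.closedBall (p : ℝ) (ζ ^ k))) ^ τ ≤ ENNReal.ofReal (L2 * y ^ k) := by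
    intro k hk
    have h1 : ∀ p : {p // p ∈ P k}, (Metric.ediam (Metric.closedBall (p : ℝ) (ζ ^ k))) ^ τ ≤
        ENNReal.ofReal ((2 * ζ ^ k) ^ τ) := by
      intro p
      rw [← ENNReal.ofReal_rpow_of_nonneg (by positivity) hτ]
      exact ENNReal.rpow_le_rpow (ediam_ball _ _) hτ
    refine (Finset.sum_le_sum fun p _ => h1 p).trans ?_
    rw [Finset.sum_const, nsmul_eq_mul, Finset.card_univ, Fintype.card_coe,
      ← ENNReal.ofReal_natCast, ← ENNReal.ofReal_mul (Nat.cast_nonneg _)]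
    refine ENNReal.ofReal_le_ofReal ?_
    have h2 : (2 * ζ ^ k) ^ τ = 2 ^ τ * (ζ ^ τ) ^ k := by
      rw [Real.mul_rpow (by norm_num) (by positivity), ← Real.rpow_natCast ζ k,
        ← Real.rpow_mul hζ0.le, ← Real.rpow_natCast (ζ ^ τ) k, ← Real.rpow_mul hζ0.le,
        mul_comm (k : ℝ) τ]
    rw [h2]
    calc ((P k).card : ℝ) * (2 ^ τ * (ζ ^ τ) ^ k) ≤ (L * Γ ^ k) * (2 ^ τ * (ζ ^ τ) ^ k) :=
          mul_le_mul_of_nonneg_right (hP k hk).1 (by positivity)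
      _ = L2 * y ^ k := by
          rw [hL2, hy, mul_pow]
          ring
  have hmain : μH[((⟨τ, hτ⟩ : ℝ≥0) : ℝ)] G ≠ ⊤ := by
    have h1 := Measure.hausdorffMeasure_le_liminf_tsum (X := ℝ) τ G (l := atTop)
      (fun N : ℕ => ENNReal.ofReal (2 * ζ ^ N)) (by
        have h2 : Tendsto (fun N : ℕ => 2 * ζ ^ N) atTop (𝓝 (2 * 0)) :=
          (tendsto_pow_atTop_nhds_zero_of_lt_one hζ0.le hζ1).const_mul 2
        rw [mul_zero] at h2
        have h3 := ENNReal.tendsto_ofReal h2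
        rwa [ENNReal.ofReal_zero] at h3)
      (fun (N : ℕ) (i : Σ j : ℕ, {p // p ∈ P (N + j)}) =>
        Metric.closedBall (i.2 : ℝ) (ζ ^ (N + i.1)))
      (Eventually.of_forall fun N i => by
        refine (ediam_ball _ _).trans (ENNReal.ofReal_le_ofReal ?_)
        have : ζ ^ (N + i.1) ≤ ζ ^ N := pow_le_pow_of_le_one hζ0.le hζ1.le (by omega)
        linarith)
      ((eventually_ge_atTop k1).mono fun N hN t ht => by
        obtain ⟨k, hk, h2⟩ := hcov N t ht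
        obtain ⟨p, hp, h3⟩ := Set.mem_iUnion₂.1 ((hP k (hN.trans hk)).2 h2)
        obtain ⟨j, rfl⟩ := Nat.exists_eq_add_of_le hk
        exact Set.mem_iUnion.2 ⟨⟨j, p, hp⟩, h3⟩)
    refine ne_top_of_le_ne_top (b := ENNReal.ofReal (L2 / (1 - y))) ENNReal.ofReal_ne_top
      (h1.trans ?_)
    refine (liminf_le_liminf (v := fun _ => ENNReal.ofReal (L2 / (1 - y))) ?_).trans ?_
    · filter_upwards [eventually_ge_atTop k1] with N hN
      rw [ENNReal.tsum_sigma']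
      have h2 : ∀ j : ℕ, ∑' p : {p // p ∈ P (N + j)},
          (Metric.ediam (Metric.closedBall (p : ℝ) (ζ ^ (N + j)))) ^ τ ≤
          ENNReal.ofReal (L2 * y ^ j) := by
        intro j
        rw [tsum_fintype]
        refine (hlev (N + j) (by omega)).trans (ENNReal.ofReal_le_ofReal ?_)
        refine mul_le_mul_of_nonneg_left ?_ hL20
        exact pow_le_pow_of_le_one hy0 hy1.le (by omega)
      refine (ENNReal.tsum_le_tsum h2).trans ?_
      rw [← ENNReal.ofReal_tsum_of_nonneg (fun j => by positivity)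
        ((summable_geometric_of_lt_one hy0 hy1).mul_left _), tsum_mul_left,
        tsum_geometric_of_lt_one hy0 hy1, ← div_eq_mul_inv]
    · rw [liminf_const]
  have h2 := dimH_le_of_hausdorffMeasure_ne_top hmain
  refine h2.trans (le_of_eq ?_)
  rw [ENNReal.ofReal, Real.toNNReal_of_nonneg hτ]
  rfl

end Pool.Agent.H951.KS
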