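import Pool.Agent.H951.KS.Meas

/-!
# Measurable families of lines: all heights and all slopes
-/

set_option autoImplicit false

open MeasureTheory
open scoped Classical ENNReal NNReal

namespace Pool.Agent.H951.KS

open Pool.Agent.W605.HD Pool.Agent.W46.HD Pool.Agent.Y254HK

theorem null_of_ac {d : ℕ} {Ω : Type*} [MeasurableSpace Ω] (μ : Measure Ω)
    (v : Ω → Fin d → ℝ) (hv : Measurable v) (hac : μ.map v ≪ (volume : Measure (Fin d → ℝ)))
    (E : Set (Fin d → ℝ)) (hE : volume E = 0) : μ {ω | v ω ∈ E} = 0 := by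
  have h1 : volume (toMeasurable volume E) = 0 := by rw [measure_toMeasurable, hE]
  have h2 := hac h1
  rw [Measure.map_apply hv (measurableSet_toMeasurable _ _)] at h2
  refine measure_mono_null (fun ω hω => ?_) h2
  exact subset_toMeasurable volume E hω

theorem B1 (d : ℕ) (c : ℝ) (hc : 1 ≤ c) (hD : ∀ c' : ℝ, c < c' → DenseG d c')
    {Ω : Type*} [MeasurableSpace Ω] (μ : Measure Ω) [IsFiniteMeasure μ]
    (b v : Ω → Fin d → ℝ) (hb : Measurable b) (hv : Measurable v)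
    (hac : μ.map v ≪ (volume : Measure (Fin d → ℝ)))
    (α : ℝ≥0) (hα : (α : ℝ) < d / c) :
    volume {τ : ℝ | τ ∈ Set.Ico (0 : ℝ) 1 ∧ ∃ A : Set (Fin d → ℝ), dimH A < α ∧
      μ {ω | (fun i => b ω i + τ * v ω i) ∈ A} ≠ 0} = 0 := by
  obtain ⟨w, hw⟩ : ∃ w : Ω → Fin d → ℝ, w = fun ω i => Int.fract (v ω i) := ⟨_, rfl⟩
  have hwm : Measurable w := by
    rw [hw]
    exact measurable_pi_lambda _ fun i => measurable_fract.comp ((measurable_pi_apply i).comp hv)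
  have hw1 : ∀ ω i, 0 ≤ w ω i ∧ w ω i ≤ 1 := by
    intro ω i
    rw [hw]
    exact ⟨Int.fract_nonneg _, (Int.fract_lt_one _).le⟩
  have hwac : μ.map w ≪ (volume : Measure (Fin d → ℝ)) := by
    refine Measure.AbsolutelyContinuous.mk fun E hE hE0 => ?_
    rw [Measure.map_apply hwm hE]
    have h1 : w ⁻¹' E ⊆ ⋃ g : Fin d → ℤ, {ω | v ω ∈
        (fun u : Fin d → ℝ => u + fun i => -(g i : ℝ)) ⁻¹' E} := by
      intro ω hω
      refine Set.mem_iUnion.2 ⟨fun i => ⌊v ω i⌋, ?_⟩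
      have h2 : (v ω + fun i => -((⌊v ω i⌋ : ℤ) : ℝ)) = w ω := by
        funext i
        rw [hw]
        simp only [Pi.add_apply]
        rw [← sub_eq_add_neg, Int.self_sub_floor]
      change (v ω + fun i => -((⌊v ω i⌋ : ℤ) : ℝ)) ∈ E
      rw [h2]
      exact hω
    refine measure_mono_null h1 (measure_iUnion_null fun g => ?_)
    refine null_of_ac μ v hv hac _ ?_
    rw [measure_preimage_add_right]
    exact hE0
  refine measure_mono_null ?_ (B0 d c hc hD μ b w hb hwm hw1 hwac α hα)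
  rintro τ ⟨hτ, A, hA, h0⟩
  refine ⟨hτ, ?_⟩
  have hcov : {ω | (fun i => b ω i + τ * v ω i) ∈ A} ⊆ ⋃ g : Fin d → ℤ,
      {ω | (fun i => b ω i + τ * w ω i) ∈
        (fun y : Fin d → ℝ => y + fun i => -(τ * (g i : ℝ))) '' A} := by
    intro ω hω
    refine Set.mem_iUnion.2 ⟨fun i => ⌊v ω i⌋, _, hω, ?_⟩
    funext i
    simp only [Pi.add_apply]
    have h1 : w ω i = v ω i - ⌊v ω i⌋ := by
      rw [hw]
      exact (Int.self_sub_floor _).symm
    rw [h1]
    ring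
  obtain ⟨g, hg⟩ : ∃ g : Fin d → ℤ, μ {ω | (fun i => b ω i + τ * w ω i) ∈
      (fun y : Fin d → ℝ => y + fun i => -(τ * (g i : ℝ))) '' A} ≠ 0 := by
    by_contra hno
    push Not at hno
    exact h0 (measure_mono_null hcov (measure_iUnion_null hno))
  refine ⟨_, ?_, hg⟩
  have h2 := (IsometryEquiv.addRight (fun i : Fin d => -(τ * (g i : ℝ)))).isometry.dimH_image A
  exact lt_of_eq_of_lt h2 hA

theorem B2 (d : ℕ) (c : ℝ) (hc : 1 ≤ c) (hD : ∀ c' : ℝ, c < c' → DenseG d c')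
    {Ω : Type*} [MeasurableSpace Ω] (μ : Measure Ω) [IsFiniteMeasure μ]
    (b v : Ω → Fin d → ℝ) (hb : Measurable b) (hv : Measurable v)
    (hac : μ.map v ≪ (volume : Measure (Fin d → ℝ)))
    (α : ℝ≥0) (hα : (α : ℝ) < d / c) :
    volume {t : ℝ | ∃ A : Set (Fin d → ℝ), dimH A < α ∧
      μ {ω | (fun i => b ω i + t * v ω i) ∈ A} ≠ 0} = 0 := by
  have hcov : {t : ℝ | ∃ A : Set (Fin d → ℝ), dimH A < α ∧
      μ {ω | (fun i => b ω i + t * v ω i) ∈ A} ≠ 0} ⊆ ⋃ m : ℤ,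
      (fun t : ℝ => t + (-(m : ℝ))) ⁻¹' {τ : ℝ | τ ∈ Set.Ico (0 : ℝ) 1 ∧
        ∃ A : Set (Fin d → ℝ), dimH A < α ∧
          μ {ω | (fun i => (fun ω i => b ω i + m * v ω i) ω i + τ * v ω i) ∈ A} ≠ 0} := by
    rintro t ⟨A, hA, h0⟩
    refine Set.mem_iUnion.2 ⟨⌊t⌋, ⟨?_, ?_⟩, A, hA, ?_⟩
    · have := Int.floor_le t
      change 0 ≤ t + (-((⌊t⌋ : ℤ) : ℝ))
      linarith
    · have := Int.lt_floor_add_one t
      change t + (-((⌊t⌋ : ℤ) : ℝ)) < 1
      linarith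
    · have h1 : {ω | (fun i => (fun ω i => b ω i + (⌊t⌋ : ℤ) * v ω i) ω i +
          (t + (-((⌊t⌋ : ℤ) : ℝ))) * v ω i) ∈ A} = {ω | (fun i => b ω i + t * v ω i) ∈ A} := by
        ext ω
        have h2 : (fun i => (fun ω i => b ω i + (⌊t⌋ : ℤ) * v ω i) ω i +
            (t + (-((⌊t⌋ : ℤ) : ℝ))) * v ω i) = fun i => b ω i + t * v ω i := by
          funext i
          ring
        change _ ∈ A ↔ _ ∈ A
        rw [h2]
      rw [h1]
      exact h0
  refine measure_mono_null hcov (measure_iUnion_null fun m => ?_)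
  rw [measure_preimage_add_right]
  refine B1 d c hc hD μ _ v ?_ hv hac α hα
  refine measurable_pi_lambda _ fun i => ?_
  exact ((measurable_pi_apply i).comp hb).add
    (measurable_const.mul ((measurable_pi_apply i).comp hv))

theorem B3 (d : ℕ) (c : ℝ) (hc : 1 ≤ c) (hD : ∀ c' : ℝ, c < c' → DenseG d c')
    {Ω : Type*} [MeasurableSpace Ω] (μ : Measure Ω) [SFinite μ]
    (b v : Ω → Fin d → ℝ) (hb : Measurable b) (hv : Measurable v)
    (hac : μ.map v ≪ (volume : Measure (Fin d → ℝ))) :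
    ∀ᵐ t : ℝ, ∀ A : Set (Fin d → ℝ), dimH A < ENNReal.ofReal (d / c) →
      μ {ω | (fun i => b ω i + t * v ω i) ∈ A} = 0 := by
  rw [ae_iff]
  have hcov : {t : ℝ | ¬ ∀ A : Set (Fin d → ℝ), dimH A < ENNReal.ofReal (d / c) →
      μ {ω | (fun i => b ω i + t * v ω i) ∈ A} = 0} ⊆ ⋃ j : ℕ, ⋃ q : ℕ × ℕ,
      ⋃ _ : ((((q.1 : ℝ≥0) / ((q.2 : ℝ≥0) + 1) : ℝ≥0)) : ℝ) < d / c,
        {t : ℝ | ∃ A : Set (Fin d → ℝ), dimH A < ((q.1 : ℝ≥0) / ((q.2 : ℝ≥0) + 1) : ℝ≥0) ∧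
          (sfiniteSeq μ j) {ω | (fun i => b ω i + t * v ω i) ∈ A} ≠ 0} := by
    intro t ht
    obtain ⟨A, hA⟩ := not_forall.1 ht
    obtain ⟨hA1, hA2⟩ := Classical.not_imp.1 hA
    obtain ⟨q, hq1, hq2⟩ := exists_mid _ _ hA1
    obtain ⟨j, hj⟩ : ∃ j, (sfiniteSeq μ j) {ω | (fun i => b ω i + t * v ω i) ∈ A} ≠ 0 := by
      by_contra hno
      push Not at hno
      apply hA2
      rw [← sum_sfiniteSeq μ, Measure.sum_apply_eq_zero]
      exact hno
    exact Set.mem_iUnion.2 ⟨j, Set.mem_iUnion₂.2 ⟨q, hq2, A, hq1, hj⟩⟩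
  refine measure_mono_null hcov (measure_iUnion_null fun j => measure_iUnion_null fun q =>
    measure_iUnion_null fun hq => ?_)
  refine B2 d c hc hD (sfiniteSeq μ j) b v hb hv ?_ _ hq
  refine Measure.AbsolutelyContinuous.mk fun E hE hE0 => ?_
  have h1 := hac hE0
  rw [Measure.map_apply hv hE] at h1 ⊢
  exact le_antisymm ((sfiniteSeq_le μ j _).trans h1.le) zero_le

/-- random vectors -/
theorem B4 (d : ℕ) (c : ℝ) (hc : 1 ≤ c) (hD : ∀ c' : ℝ, c < c' → DenseG d c')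
    {Ω : Type*} [MeasurableSpace Ω] (μ : Measure Ω) [SFinite μ]
    (X V : Ω → EuclideanSpace ℝ (Fin d)) (hX : Measurable X) (hV : Measurable V)
    (hac : μ.map V ≪ (volume : Measure (EuclideanSpace ℝ (Fin d)))) :
    ∀ᵐ t : ℝ, ∀ A : Set (EuclideanSpace ℝ (Fin d)), dimH A < ENNReal.ofReal (d / c) →
      μ {ω | X ω + t • V ω ∈ A} = 0 := by
  have hm : MeasurePreserving (EuclideanSpace.equiv (Fin d) ℝ)
      (volume : Measure (EuclideanSpace ℝ (Fin d))) (volume : Measure (Fin d → ℝ)) :=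
    PiLp.volume_preserving_ofLp (Fin d)
  have h1 := B3 d c hc hD μ (fun ω => EuclideanSpace.equiv (Fin d) ℝ (X ω))
    (fun ω => EuclideanSpace.equiv (Fin d) ℝ (V ω)) (hm.measurable.comp hX)
    (hm.measurable.comp hV) (by
      have h2 := hac.map hm.measurable
      rw [hm.map_eq, Measure.map_map hm.measurable hV] at h2
      exact h2)
  filter_upwards [h1] with t ht A hA
  have h3 := ht (EuclideanSpace.equiv (Fin d) ℝ '' A) (by
    rw [ContinuousLinearEquiv.dimH_image]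
    exact hA)
  refine measure_mono_null ?_ h3
  intro ω hω
  exact ⟨_, hω, rfl⟩

end Pool.Agent.H951.KS
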