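import Pool.Agent.H951.KS.Sep2
import Pool.Agent.H951.KS.Haus
import Pool.Agent.H951.KS.MeasB

/-!
# The dimension of the set of exceptional heights
-/

set_option autoImplicit false
set_option maxHeartbeats 1000000

open MeasureTheory Filter Topology
open scoped Classical ENNReal NNReal

namespace Pool.Agent.H951.KS

open Pool.Agent.W605.HD Pool.Agent.W46.HD Pool.Agent.Y254HK

/-- restriction to slopes of bounded density -/
theorem trunc {d : ℕ} {Ω : Type*} [MeasurableSpace Ω] (μ : Measure Ω) [IsFiniteMeasure μ]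
    (v : Ω → Fin d → ℝ) (hv : Measurable v) (hac : μ.map v ≪ (volume : Measure (Fin d → ℝ)))
    (y : ℝ≥0∞) (hy : y ≠ 0) :
    ∃ (M : ℝ) (S : Set Ω), 0 < M ∧ MeasurableSet S ∧ μ Sᶜ < y ∧
      ∀ Q : Set (Fin d → ℝ), MeasurableSet Q → μ (v ⁻¹' Q ∩ S) ≤ ENNReal.ofReal M * volume Q := by
  have : IsFiniteMeasure (μ.map v) := Measure.isFiniteMeasure_map μ v
  obtain ⟨f, hf⟩ : ∃ f : (Fin d → ℝ) → ℝ≥0∞, f = (μ.map v).rnDeriv volume := ⟨_, rfl⟩
  have hfm : Measurable f := by rw [hf]; exact Measure.measurable_rnDeriv _ _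
  have hft : ∀ᵐ u, f u < ⊤ := by rw [hf]; exact Measure.rnDeriv_lt_top _ _
  have hQ : ∀ Q : Set (Fin d → ℝ), ∫⁻ u in Q, f u = (μ.map v) Q := by
    intro Q
    rw [hf]
    exact Measure.setLIntegral_rnDeriv hac Q
  let A : ℕ → Set (Fin d → ℝ) := fun n => {u | (n : ℝ≥0∞) < f u}
  have hAm : ∀ n, MeasurableSet (A n) := fun n => measurableSet_lt measurable_const hfm
  have hA0 : (μ.map v) (⋂ n, A n) = 0 := by
    refine hac ?_
    rw [ae_iff] at hft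
    refine measure_mono_null ?_ hft
    intro u hu hlt
    obtain ⟨n, hn⟩ := ENNReal.exists_nat_gt hlt.ne
    exact absurd (Set.mem_iInter.1 hu n) (not_lt.2 hn.le)
  have hanti : Antitone A := by
    intro n m hnm u hu
    have h1 : (n : ℝ≥0∞) ≤ m := by exact_mod_cast hnm
    exact h1.trans_lt hu
  have hlim := tendsto_measure_iInter_atTop (μ := μ.map v) (fun n => (hAm n).nullMeasurableSet)
    hanti ⟨0, measure_ne_top _ _⟩
  rw [hA0] at hlim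
  obtain ⟨n, hn⟩ := ((hlim.eventually (gt_mem_nhds (pos_iff_ne_zero.2 hy))).exists)
  refine ⟨(n : ℝ) + 1, (v ⁻¹' (A n))ᶜ, by positivity, (hv (hAm n)).compl, ?_, ?_⟩
  · rw [compl_compl, ← Measure.map_apply hv (hAm n)]
    exact hn
  · intro Q hQm
    have h1 : v ⁻¹' Q ∩ (v ⁻¹' (A n))ᶜ = v ⁻¹' (Q ∩ (A n)ᶜ) := by
      rw [Set.preimage_inter, Set.preimage_compl]
    rw [h1, ← Measure.map_apply hv (hQm.inter (hAm n).compl), ← hQ]
    calc ∫⁻ u in Q ∩ (A n)ᶜ, f u ≤ ∫⁻ _ in Q ∩ (A n)ᶜ, ENNReal.ofReal ((n : ℝ) + 1) := by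
          refine setLIntegral_mono' (hQm.inter (hAm n).compl) fun u hu => ?_
          have h2 : f u ≤ (n : ℝ≥0∞) := not_lt.1 hu.2
          refine h2.trans ?_
          rw [← ENNReal.ofReal_natCast]
          exact ENNReal.ofReal_le_ofReal (by linarith)
      _ = ENNReal.ofReal ((n : ℝ) + 1) * volume (Q ∩ (A n)ᶜ) := setLIntegral_const _ _
      _ ≤ ENNReal.ofReal ((n : ℝ) + 1) * volume Q :=
          mul_le_mul' le_rfl (measure_mono Set.inter_subset_left)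

theorem cell_meas {d : ℕ} (k : ℕ) (q : Fin d → ℤ) :
    MeasurableSet {u : Fin d → ℝ | ∀ i, ⌊(2 : ℝ) ^ k * u i⌋ = q i} ∧
    volume {u : Fin d → ℝ | ∀ i, ⌊(2 : ℝ) ^ k * u i⌋ = q i} =
      ENNReal.ofReal (1 / ((2 : ℝ) ^ k) ^ d) := by
  have hp : (0 : ℝ) < (2 : ℝ) ^ k := by positivity
  have h1 : {u : Fin d → ℝ | ∀ i, ⌊(2 : ℝ) ^ k * u i⌋ = q i} =
      Set.pi Set.univ fun i => Set.Ico ((q i : ℝ) / (2 : ℝ) ^ k) (((q i : ℝ) + 1) / (2 : ℝ) ^ k) := by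
    ext u
    simp only [Set.mem_pi, Set.mem_univ, forall_true_left, Set.mem_Ico]
    constructor
    · intro h i
      have h2 := Int.floor_le ((2 : ℝ) ^ k * u i)
      have h3 := Int.lt_floor_add_one ((2 : ℝ) ^ k * u i)
      rw [h i] at h2 h3
      rw [div_le_iff₀ hp, lt_div_iff₀ hp]
      constructor <;> linarith
    · intro h i
      obtain ⟨h2, h3⟩ := h i
      rw [div_le_iff₀ hp] at h2
      rw [lt_div_iff₀ hp] at h3
      rw [Int.floor_eq_iff]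
      constructor <;> linarith
  rw [h1]
  refine ⟨MeasurableSet.univ_pi fun i => measurableSet_Ico, ?_⟩
  rw [Real.volume_pi_Ico]
  have h2 : ∀ i : Fin d, ENNReal.ofReal (((q i : ℝ) + 1) / (2 : ℝ) ^ k - (q i : ℝ) / (2 : ℝ) ^ k) =
      ENNReal.ofReal (1 / (2 : ℝ) ^ k) := by
    intro i
    congr 1
    ring
  rw [Finset.prod_congr rfl fun i _ => h2 i, Finset.prod_const, Finset.card_univ, Fintype.card_fin,
    ← ENNReal.ofReal_pow (by positivity), one_div_pow]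

/-- one level of a good cover -/
theorem lev {d : ℕ} {Ω : Type*} [MeasurableSpace Ω] (μ : Measure Ω) (F : Ω → Fin d → ℝ) (α : ℝ)
    (k0 : ℕ) (C : Finset (ℕ × (Fin d → ℤ))) (hC : Good α k0 C) (x0 ρ : ℝ) (hx0 : 0 ≤ x0)
    (hρ0 : 0 ≤ ρ) (hρ1 : ρ < 1) (h : ENNReal.ofReal (x0 / (1 - ρ)) < μ {ω | F ω ∈ OC C}) :
    ∃ k, k0 ≤ k ∧ ∃ Z : Finset (Fin d → ℤ), (Z.card : ℝ) ≤ (2 : ℝ) ^ (α * (k + 1)) ∧
      ENNReal.ofReal (x0 * ρ ^ k) ≤ μ {ω | ∃ z ∈ Z, ∀ i, |(2 : ℝ) ^ k * F ω i - z i| < 3} := by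
  by_contra hno
  push Not at hno
  refine absurd h (not_lt.2 ?_)
  let Zk : ℕ → Finset (Fin d → ℤ) := fun k => (C.filter fun p => p.1 = k).image Prod.snd
  have hZ : ∀ k, ((Zk k).card : ℝ) ≤ (2 : ℝ) ^ (α * (k + 1)) := by
    intro k
    refine le_trans ?_ (hC.2 k)
    exact_mod_cast Finset.card_image_le
  have hcov : {ω | F ω ∈ OC C} ⊆ ⋃ k ∈ C.image Prod.fst,
      {ω | ∃ z ∈ Zk k, ∀ i, |(2 : ℝ) ^ k * F ω i - z i| < 3} := by
    rintro ω ⟨p, hp, h2⟩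
    refine Set.mem_iUnion₂.2 ⟨p.1, Finset.mem_image.2 ⟨p, hp, rfl⟩, p.2, ?_, h2⟩
    exact Finset.mem_image.2 ⟨p, Finset.mem_filter.2 ⟨hp, rfl⟩, rfl⟩
  refine (measure_mono hcov).trans ((measure_biUnion_finset_le _ _).trans ?_)
  calc ∑ k ∈ C.image Prod.fst, μ {ω | ∃ z ∈ Zk k, ∀ i, |(2 : ℝ) ^ k * F ω i - z i| < 3} ≤
        ∑ k ∈ C.image Prod.fst, ENNReal.ofReal (x0 * ρ ^ k) := by
        refine Finset.sum_le_sum fun k hk => ?_
        obtain ⟨p, hp, rfl⟩ := Finset.mem_image.1 hk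
        exact (hno p.1 (hC.1 p hp) (Zk p.1) (hZ p.1)).le
    _ ≤ ∑' k : ℕ, ENNReal.ofReal (x0 * ρ ^ k) := ENNReal.sum_le_tsum _
    _ = ENNReal.ofReal (x0 / (1 - ρ)) := by
        rw [← ENNReal.ofReal_tsum_of_nonneg (fun j => by positivity)
          ((summable_geometric_of_lt_one hρ0 hρ1).mul_left _), tsum_mul_left,
          tsum_geometric_of_lt_one hρ0 hρ1, ← div_eq_mul_inv]

end Pool.Agent.H951.KS
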