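import Pool.Agent.H951.KS.Exc

/-!
# The dimension of the set of exceptional heights: slopes in the unit cube
-/

set_option autoImplicit false
set_option maxHeartbeats 1000000

open MeasureTheory Filter Topology
open scoped Classical ENNReal NNReal

namespace Pool.Agent.H951.KS

open Pool.Agent.W605.HD Pool.Agent.W46.HD Pool.Agent.Y254HK

/-- the heights at which one level carries a large part of the measure -/
def GG {d : ℕ} {Ω : Type*} [MeasurableSpace Ω] (μ : Measure Ω) (b v : Ω → Fin d → ℝ)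
    (α δ ρ : ℝ) (k : ℕ) : Set ℝ :=
  {τ | τ ∈ Set.Ico (0 : ℝ) 1 ∧ ∃ Z : Finset (Fin d → ℤ), (Z.card : ℝ) ≤ (2 : ℝ) ^ (α * (k + 1)) ∧
    ENNReal.ofReal (δ * (1 - ρ) / 4 * ρ ^ k) ≤
      μ {ω | ∃ z ∈ Z, ∀ i, |(2 : ℝ) ^ k * (b ω i + τ * v ω i) - z i| < 3}}

theorem setup (d : ℕ) {Ω : Type*} [MeasurableSpace Ω] (μ : Measure Ω) [IsFiniteMeasure μ]
    (b v : Ω → Fin d → ℝ) (hv : Measurable v)
    (hac : μ.map v ≪ (volume : Measure (Fin d → ℝ))) (α : ℝ≥0) (δ : ℝ) (hδ : 0 < δ) :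
    ∃ (M : ℝ) (μ' : Measure Ω), 0 < M ∧ IsFiniteMeasure μ' ∧
      (∀ (k : ℕ) (q : Fin d → ℤ), μ' {ω | ∀ i, ⌊(2 : ℝ) ^ k * v ω i⌋ = q i} ≤
        ENNReal.ofReal (M / ((2 : ℝ) ^ k) ^ d)) ∧
      ∀ ρ : ℝ, 0 < ρ → ρ < 1 → ∀ k0 : ℕ, ∀ τ ∈ {τ : ℝ | τ ∈ Set.Ico (0 : ℝ) 1 ∧
        ∃ A : Set (Fin d → ℝ), dimH A < α ∧
          ENNReal.ofReal δ < μ {ω | (fun i => b ω i + τ * v ω i) ∈ A}},
        ∃ k, k0 ≤ k ∧ τ ∈ GG μ' b v α δ ρ k := by
  obtain ⟨M, S, hM, hS, hSc, hQ⟩ := trunc μ v hv hac (ENNReal.ofReal (δ / 2)) (by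
    rw [Ne, ENNReal.ofReal_eq_zero, not_le]
    positivity)
  refine ⟨M, μ.restrict S, hM, inferInstance, ?_, ?_⟩
  · intro k q
    obtain ⟨h1, h2⟩ := cell_meas k q
    have h3 := hQ _ h1
    rw [h2, ← ENNReal.ofReal_mul hM.le, mul_one_div] at h3
    have h4 : MeasurableSet {ω | ∀ i, ⌊(2 : ℝ) ^ k * v ω i⌋ = q i} := hv h1
    rw [Measure.restrict_apply h4]
    exact h3
  · rintro ρ hρ0 hρ1 k0 τ ⟨hτ, A, hA, hμ⟩
    obtain ⟨C, hC1, hC2⟩ := cov_meas μ (fun ω i => b ω i + τ * v ω i) A α hA k0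
      (ENNReal.ofReal δ) hμ
    have hρ : 0 < 1 - ρ := by linarith
    obtain ⟨k, hk, Z, hZ1, hZ2⟩ := lev (μ.restrict S) (fun ω i => b ω i + τ * v ω i) α k0 C hC1
      (δ * (1 - ρ) / 4) ρ (by positivity) hρ0.le hρ1 (by
        have e1 : δ * (1 - ρ) / 4 / (1 - ρ) = δ / 4 := by
          field_simp
        rw [e1]
        by_contra hle
        rw [not_lt, Measure.restrict_apply' hS] at hle
        have h1 : μ {ω | (fun i => b ω i + τ * v ω i) ∈ OC C} ≤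
            μ ({ω | (fun i => b ω i + τ * v ω i) ∈ OC C} ∩ S) + μ Sᶜ := by
          refine (measure_mono ?_).trans (measure_union_le _ _)
          intro ω hω
          by_cases h : ω ∈ S
          · exact Or.inl ⟨hω, h⟩
          · exact Or.inr h
        have h2 := hC2.trans_le (h1.trans (add_le_add hle hSc.le))
        rw [← ENNReal.ofReal_add (by positivity) (by positivity),
          ENNReal.ofReal_lt_ofReal_iff (by positivity)] at h2
        linarith)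
    exact ⟨k, hk, hτ, Z, hZ1, hZ2⟩

theorem Wmeas {d : ℕ} {Ω : Type*} [MeasurableSpace Ω] (b v : Ω → Fin d → ℝ) (hb : Measurable b)
    (hv : Measurable v) (k : ℕ) (t : ℝ) (Z : Finset (Fin d → ℤ)) :
    MeasurableSet {ω | ∃ z ∈ Z, ∀ i, |(2 : ℝ) ^ k * (b ω i + t * v ω i) - z i| < 3} := by
  have h1 : {ω | ∃ z ∈ Z, ∀ i, |(2 : ℝ) ^ k * (b ω i + t * v ω i) - z i| < 3} =
      ⋃ z ∈ Z, ⋂ i, {ω | |(2 : ℝ) ^ k * (b ω i + t * v ω i) - z i| < 3} := by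
    ext ω
    simp
  rw [h1]
  refine Finset.measurableSet_biUnion _ fun z _ => MeasurableSet.iInter fun i => ?_
  have h2 : Measurable fun ω => |(2 : ℝ) ^ k * (b ω i + t * v ω i) - z i| := by
    have h3 : Measurable fun ω => b ω i := (measurable_pi_apply i).comp hb
    have h4 : Measurable fun ω => v ω i := (measurable_pi_apply i).comp hv
    exact ((((h3.add (h4.const_mul t)).const_mul ((2 : ℝ) ^ k)).sub_const _)).abs
  exact measurableSet_lt h2 measurable_const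

/-- the size of separated sets, from the counting inequality -/
theorem sepA {d : ℕ} (hd : 1 ≤ d) {c : ℝ} (hc : 0 < c) {K : ℝ}
    (hK : ∀ (n : ℕ) (Ω : Type) [Fintype Ω] (A D : Ω → Fin d → ℝ), IsFam n D →
      ∀ E : Finset (Ω × Fin n), E.Nonempty →
        Real.log E.card ≤ K + d * Real.log n + c / (d + c) *
          Real.log ((E.image fun z => (z.2, cell A D z.2 z.1)).card))
    {Ω : Type*} [MeasurableSpace Ω] (μ : Measure Ω) (b v : Ω → Fin d → ℝ) (hb : Measurable b)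
    (hv : Measurable v) (hv1 : ∀ ω i, 0 ≤ v ω i ∧ v ω i ≤ 1) (M : ℝ) (hM : 0 < M)
    (hQ : ∀ (k : ℕ) (q : Fin d → ℤ), μ {ω | ∀ i, ⌊(2 : ℝ) ^ k * v ω i⌋ = q i} ≤
      ENNReal.ofReal (M / ((2 : ℝ) ^ k) ^ d))
    (α : ℝ) (hα : 0 ≤ α) (δ ρ : ℝ) (hδ : 0 < δ) (hρ0 : 0 < ρ) (hρ1 : ρ < 1) (k : ℕ)
    (P : Finset ℝ) (hP : (P : Set ℝ) ⊆ GG μ b v α δ ρ k)
    (hsep : ∀ t ∈ P, ∀ t' ∈ P, t ≠ t' → (1 / 2 : ℝ) ^ k ≤ |t - t'|) :
    (P.card : ℝ) ≤ Real.exp (((d + c) / d) * (Real.log M + K - Real.log (δ * (1 - ρ) / 4)) +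
      (c / d) * (d * Real.log 8 + α * Real.log 2)) *
      Real.exp (-((d + c) / d) * Real.log ρ + (c / d) * (α * Real.log 2)) ^ k := by
  rcases P.eq_empty_or_nonempty with rfl | hPne
  · rw [Finset.card_empty]
    push_cast
    positivity
  have hd0 : (0 : ℝ) < d := by exact_mod_cast hd
  have hρ : 0 < 1 - ρ := by linarith
  have hex : ∀ t : ℝ, ∃ Z : Finset (Fin d → ℤ), t ∈ P → (Z.card : ℝ) ≤ (2 : ℝ) ^ (α * (k + 1)) ∧
      ENNReal.ofReal (δ * (1 - ρ) / 4 * ρ ^ k) ≤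
        μ {ω | ∃ z ∈ Z, ∀ i, |(2 : ℝ) ^ k * (b ω i + t * v ω i) - z i| < 3} := by
    intro t
    by_cases ht : t ∈ P
    · obtain ⟨-, Z, hZ1, hZ2⟩ := hP ht
      exact ⟨Z, fun _ => ⟨hZ1, hZ2⟩⟩
    · exact ⟨∅, fun h => absurd h ht⟩
  choose Z hZ using hex
  have hB : (1 : ℝ) ≤ (2 : ℝ) ^ (α * (k + 1)) :=
    Real.one_le_rpow (by norm_num) (by positivity)
  have hx : 0 < δ * (1 - ρ) / 4 * ρ ^ k := by positivity
  have h1 := con1 (k := k) hd hc hK μ b v hv hv1 M (δ * (1 - ρ) / 4 * ρ ^ k)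
    ((2 : ℝ) ^ (α * (k + 1))) hM hx hB (hQ k) P hPne (fun t ht => (hP ht).1)
    (fun t ht t' ht' hne => by
      have := hsep t ht t' ht' hne
      rwa [one_div_pow] at this)
    Z (fun t ht => (hZ t ht).1)
    (fun t => {ω | ∃ z ∈ Z t, ∀ i, |(2 : ℝ) ^ k * (b ω i + t * v ω i) - z i| < 3})
    (fun t _ => Wmeas b v hb hv k t (Z t)) (fun t ht => (hZ t ht).2) (fun t _ ω hω => hω)
  have hPc : 0 < (P.card : ℝ) := by exact_mod_cast hPne.card_pos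
  rw [← Real.exp_nat_mul, ← Real.exp_add, ← Real.log_le_iff_le_exp hPc]
  refine h1.trans (le_of_eq ?_)
  have hp : (0 : ℝ) < (2 : ℝ) ^ (α * (k + 1)) := by positivity
  rw [Real.log_mul (by positivity) (by positivity), Real.log_mul (by positivity) hp.ne',
    Real.log_pow, Real.log_pow, Real.log_rpow (by norm_num)]
  ring

end Pool.Agent.H951.KS
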