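import Pool.Agent.H951.KS.Fh2
import Pool.Agent.H951.FH.NA

/-!
# The dimension of the set of exceptional heights: general families
-/

set_option autoImplicit false
set_option maxHeartbeats 1000000

open MeasureTheory Filter Topology
open scoped Classical ENNReal NNReal

namespace Pool.Agent.H951.KS

open Pool.Agent.W605.HD Pool.Agent.W46.HD Pool.Agent.Y254HK

/-- admissible bounds for the dimension of the exceptional set -/
def Adm (d : ℕ) (c α τ0 : ℝ) : Prop :=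
  c * α / d < τ0 ∨ (2 * α < d ∧ 0 < τ0) ∨ (α - ((d : ℝ) - 1) / 2 < τ0 ∧ 0 < τ0)

theorem E0 (d : ℕ) (hd : 1 ≤ d) (c : ℝ) (hc : 0 < c) (hT : CntP d c) {Ω : Type*}
    [MeasurableSpace Ω] (μ : Measure Ω) [IsFiniteMeasure μ]
    (b v : Ω → Fin d → ℝ) (hb : Measurable b) (hv : Measurable v)
    (hv1 : ∀ ω i, 0 ≤ v ω i ∧ v ω i ≤ 1) (hac : μ.map v ≪ (volume : Measure (Fin d → ℝ)))
    (α : ℝ≥0) (τ0 : ℝ) (hτ : Adm d c α τ0) :
    dimH {τ : ℝ | τ ∈ Set.Ico (0 : ℝ) 1 ∧ ∃ A : Set (Fin d → ℝ), dimH A < α ∧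
      μ {ω | (fun i => b ω i + τ * v ω i) ∈ A} ≠ 0} ≤ ENNReal.ofReal τ0 := by
  have hcov : {τ : ℝ | τ ∈ Set.Ico (0 : ℝ) 1 ∧ ∃ A : Set (Fin d → ℝ), dimH A < α ∧
      μ {ω | (fun i => b ω i + τ * v ω i) ∈ A} ≠ 0} ⊆
      ⋃ q : ℕ, {τ : ℝ | τ ∈ Set.Ico (0 : ℝ) 1 ∧ ∃ A : Set (Fin d → ℝ), dimH A < α ∧
        ENNReal.ofReal (1 / ((q : ℝ) + 1)) < μ {ω | (fun i => b ω i + τ * v ω i) ∈ A}} := by
    rintro τ ⟨hτ, A, hA, h0⟩
    have hpos := ENNReal.toReal_pos h0 (measure_ne_top μ _)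
    obtain ⟨q, hq⟩ := exists_nat_one_div_lt hpos
    refine Set.mem_iUnion.2 ⟨q, hτ, A, hA, ?_⟩
    exact ((ENNReal.ofReal_lt_ofReal_iff hpos).2 hq).trans_le ENNReal.ofReal_toReal_le
  refine (dimH_mono hcov).trans ?_
  rw [dimH_iUnion]
  refine iSup_le fun q => ?_
  rcases hτ with h | ⟨h1, h2⟩ | ⟨h1, h2⟩
  · exact EA d hd c hc hT μ b v hb hv hv1 hac α τ0 h _ (by positivity)
  · exact EB d hd μ b v hb hv hac α τ0 h1 h2 _ (by positivity)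
  · exact EC Pool.Agent.H924.FHA.t_NA d hd μ b v hb hv hv1 hac α τ0 h1 h2 _ (by positivity)

theorem E1 (d : ℕ) (hd : 1 ≤ d) (c : ℝ) (hc : 0 < c) (hT : CntP d c)
    {Ω : Type*} [MeasurableSpace Ω] (μ : Measure Ω) [IsFiniteMeasure μ]
    (b v : Ω → Fin d → ℝ) (hb : Measurable b) (hv : Measurable v)
    (hac : μ.map v ≪ (volume : Measure (Fin d → ℝ)))
    (α : ℝ≥0) (τ0 : ℝ) (hτ0 : Adm d c α τ0) :
    dimH {τ : ℝ | τ ∈ Set.Ico (0 : ℝ) 1 ∧ ∃ A : Set (Fin d → ℝ), dimH A < α ∧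
      μ {ω | (fun i => b ω i + τ * v ω i) ∈ A} ≠ 0} ≤ ENNReal.ofReal τ0 := by
  obtain ⟨w, hw⟩ : ∃ w : Ω → Fin d → ℝ, w = fun ω i => Int.fract (v ω i) := ⟨_, rfl⟩
  have hwm : Measurable w := by
    rw [hw]
    exact measurable_pi_lambda _ fun i => measurable_fract.comp ((measurable_pi_apply i).comp hv)
  have hw1 : ∀ ω i, 0 ≤ w ω i ∧ w ω i ≤ 1 := by
    intro ω i
    rw [hw]
    exact ⟨Int.fract_nonneg _, (Int.fract_lt_one _).le⟩
  have hwac : μ.map w ≪ (volume : Measure (Fin d → ℝ)) := by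
    refine Measure.AbsolutelyContinuous.mk fun E hE hE0 => ?_
    rw [Measure.map_apply hwm hE]
    have h1 : w ⁻¹' E ⊆ ⋃ g : Fin d → ℤ, {ω | v ω ∈
        (fun u : Fin d → ℝ => u + fun i => -(g i : ℝ)) ⁻¹' E} := by
      intro ω hω
      refine Set.mem_iUnion.2 ⟨fun i => ⌊v ω i⌋, ?_⟩
      have h2 : (v ω + fun i => -((⌊v ω i⌋ : ℤ) : ℝ)) = w ω := by
        funext i
        rw [hw]
        simp only [Pi.add_apply]
        rw [← sub_eq_add_neg, Int.self_sub_floor]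
      change (v ω + fun i => -((⌊v ω i⌋ : ℤ) : ℝ)) ∈ E
      rw [h2]
      exact hω
    refine measure_mono_null h1 (measure_iUnion_null fun g => ?_)
    refine null_of_ac μ v hv hac _ ?_
    rw [measure_preimage_add_right]
    exact hE0
  refine (dimH_mono ?_).trans (E0 d hd c hc hT μ b w hb hwm hw1 hwac α τ0 hτ0)
  rintro τ ⟨hτ, A, hA, h0⟩
  refine ⟨hτ, ?_⟩
  have hcov : {ω | (fun i => b ω i + τ * v ω i) ∈ A} ⊆ ⋃ g : Fin d → ℤ,
      {ω | (fun i => b ω i + τ * w ω i) ∈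
        (fun y : Fin d → ℝ => y + fun i => -(τ * (g i : ℝ))) '' A} := by
    intro ω hω
    refine Set.mem_iUnion.2 ⟨fun i => ⌊v ω i⌋, _, hω, ?_⟩
    funext i
    simp only [Pi.add_apply]
    have h1 : w ω i = v ω i - ⌊v ω i⌋ := by
      rw [hw]
      exact (Int.self_sub_floor _).symm
    rw [h1]
    ring
  obtain ⟨g, hg⟩ : ∃ g : Fin d → ℤ, μ {ω | (fun i => b ω i + τ * w ω i) ∈
      (fun y : Fin d → ℝ => y + fun i => -(τ * (g i : ℝ))) '' A} ≠ 0 := by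
    by_contra hno
    push Not at hno
    exact h0 (measure_mono_null hcov (measure_iUnion_null hno))
  refine ⟨_, ?_, hg⟩
  have h2 := (IsometryEquiv.addRight (fun i : Fin d => -(τ * (g i : ℝ)))).isometry.dimH_image A
  exact lt_of_eq_of_lt h2 hA

theorem E2 (d : ℕ) (hd : 1 ≤ d) (c : ℝ) (hc : 0 < c) (hT : CntP d c)
    {Ω : Type*} [MeasurableSpace Ω] (μ : Measure Ω) [IsFiniteMeasure μ]
    (b v : Ω → Fin d → ℝ) (hb : Measurable b) (hv : Measurable v)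
    (hac : μ.map v ≪ (volume : Measure (Fin d → ℝ)))
    (α : ℝ≥0) (τ0 : ℝ) (hτ0 : Adm d c α τ0) :
    dimH {t : ℝ | ∃ A : Set (Fin d → ℝ), dimH A < α ∧
      μ {ω | (fun i => b ω i + t * v ω i) ∈ A} ≠ 0} ≤ ENNReal.ofReal τ0 := by
  have hcov : {t : ℝ | ∃ A : Set (Fin d → ℝ), dimH A < α ∧
      μ {ω | (fun i => b ω i + t * v ω i) ∈ A} ≠ 0} ⊆ ⋃ m : ℤ,
      (IsometryEquiv.addRight ((m : ℝ))) '' {τ : ℝ | τ ∈ Set.Ico (0 : ℝ) 1 ∧
        ∃ A : Set (Fin d → ℝ), dimH A < α ∧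
          μ {ω | (fun i => (fun ω i => b ω i + m * v ω i) ω i + τ * v ω i) ∈ A} ≠ 0} := by
    rintro t ⟨A, hA, h0⟩
    refine Set.mem_iUnion.2 ⟨⌊t⌋, t - ⌊t⌋, ⟨⟨?_, ?_⟩, A, hA, ?_⟩, ?_⟩
    · have := Int.floor_le t
      linarith
    · have := Int.lt_floor_add_one t
      linarith
    · have h1 : {ω | (fun i => (fun ω i => b ω i + (⌊t⌋ : ℤ) * v ω i) ω i +
          (t - ((⌊t⌋ : ℤ) : ℝ)) * v ω i) ∈ A} = {ω | (fun i => b ω i + t * v ω i) ∈ A} := by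
        ext ω
        have h2 : (fun i => (fun ω i => b ω i + (⌊t⌋ : ℤ) * v ω i) ω i +
            (t - ((⌊t⌋ : ℤ) : ℝ)) * v ω i) = fun i => b ω i + t * v ω i := by
          funext i
          ring
        change _ ∈ A ↔ _ ∈ A
        rw [h2]
      rw [h1]
      exact h0
    · change t - ((⌊t⌋ : ℤ) : ℝ) + ((⌊t⌋ : ℤ) : ℝ) = t
      ring
  refine (dimH_mono hcov).trans ?_
  rw [dimH_iUnion]
  refine iSup_le fun m => ?_
  rw [(IsometryEquiv.addRight ((m : ℝ))).isometry.dimH_image]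
  refine E1 d hd c hc hT μ _ v ?_ hv hac α τ0 hτ0
  refine measurable_pi_lambda _ fun i => ?_
  exact ((measurable_pi_apply i).comp hb).add
    (measurable_const.mul ((measurable_pi_apply i).comp hv))

theorem E3 (d : ℕ) (hd : 1 ≤ d) (c : ℝ) (hc : 0 < c) (hT : CntP d c)
    {Ω : Type*} [MeasurableSpace Ω] (μ : Measure Ω) [SFinite μ]
    (b v : Ω → Fin d → ℝ) (hb : Measurable b) (hv : Measurable v)
    (hac : μ.map v ≪ (volume : Measure (Fin d → ℝ))) (s : ℝ) :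
    dimH {t : ℝ | ∃ A : Set (Fin d → ℝ), dimH A < ENNReal.ofReal s ∧
      μ {ω | (fun i => b ω i + t * v ω i) ∈ A} ≠ 0} ≤ ENNReal.ofReal (c * s / d) ∧
    dimH {t : ℝ | ∃ A : Set (Fin d → ℝ), dimH A < ENNReal.ofReal s ∧
      μ {ω | (fun i => b ω i + t * v ω i) ∈ A} ≠ 0} ≤ ENNReal.ofReal (s - ((d : ℝ) - 1) / 2) ∧
    (2 * s ≤ d → dimH {t : ℝ | ∃ A : Set (Fin d → ℝ), dimH A < ENNReal.ofReal s ∧
      μ {ω | (fun i => b ω i + t * v ω i) ∈ A} ≠ 0} = 0) := by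
  have hd0 : (0 : ℝ) < d := by exact_mod_cast hd
  have hcov : {t : ℝ | ∃ A : Set (Fin d → ℝ), dimH A < ENNReal.ofReal s ∧
      μ {ω | (fun i => b ω i + t * v ω i) ∈ A} ≠ 0} ⊆ ⋃ j : ℕ, ⋃ q : ℕ × ℕ,
      ⋃ _ : ((((q.1 : ℝ≥0) / ((q.2 : ℝ≥0) + 1) : ℝ≥0)) : ℝ) < s,
        {t : ℝ | ∃ A : Set (Fin d → ℝ), dimH A < ((q.1 : ℝ≥0) / ((q.2 : ℝ≥0) + 1) : ℝ≥0) ∧
          (sfiniteSeq μ j) {ω | (fun i => b ω i + t * v ω i) ∈ A} ≠ 0} := by
    rintro t ⟨A, hA1, hA2⟩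
    obtain ⟨q, hq1, hq2⟩ := exists_mid _ _ hA1
    obtain ⟨j, hj⟩ : ∃ j, (sfiniteSeq μ j) {ω | (fun i => b ω i + t * v ω i) ∈ A} ≠ 0 := by
      by_contra hno
      push Not at hno
      apply hA2
      rw [← sum_sfiniteSeq μ, Measure.sum_apply_eq_zero]
      exact hno
    exact Set.mem_iUnion.2 ⟨j, Set.mem_iUnion₂.2 ⟨q, hq2, A, hq1, hj⟩⟩
  have hac' : ∀ j, (sfiniteSeq μ j).map v ≪ (volume : Measure (Fin d → ℝ)) := by
    intro j
    refine Measure.AbsolutelyContinuous.mk fun E hE hE0 => ?_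
    have h1 := hac hE0
    rw [Measure.map_apply hv hE] at h1 ⊢
    exact le_antisymm ((sfiniteSeq_le μ j _).trans h1.le) zero_le
  have hgen : ∀ τ0 : ℝ, (∀ α : ℝ, 0 ≤ α → α < s → Adm d c α τ0) →
      dimH {t : ℝ | ∃ A : Set (Fin d → ℝ), dimH A < ENNReal.ofReal s ∧
        μ {ω | (fun i => b ω i + t * v ω i) ∈ A} ≠ 0} ≤ ENNReal.ofReal τ0 := by
    intro τ0 h
    refine (dimH_mono hcov).trans ?_
    rw [dimH_iUnion]
    refine iSup_le fun j => ?_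
    rw [dimH_iUnion]
    refine iSup_le fun q => ?_
    rw [dimH_iUnion]
    refine iSup_le fun hq => ?_
    exact E2 d hd c hc hT (sfiniteSeq μ j) b v hb hv (hac' j) _ τ0 (h _ (NNReal.coe_nonneg _) hq)
  have hzero : 2 * s ≤ d → dimH {t : ℝ | ∃ A : Set (Fin d → ℝ), dimH A < ENNReal.ofReal s ∧
      μ {ω | (fun i => b ω i + t * v ω i) ∈ A} ≠ 0} = 0 := by
    intro hs
    refine le_antisymm ?_ zero_le
    refine ENNReal.le_of_forall_pos_le_add fun ε hε _ => ?_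
    rw [zero_add]
    have h1 := hgen (ε : ℝ) fun α hα0 hαs =>
      Or.inr (Or.inl ⟨by linarith, by exact_mod_cast hε⟩)
    rwa [ENNReal.ofReal_coe_nnreal] at h1
  refine ⟨hgen _ fun α hα0 hαs => Or.inl ?_, ?_, hzero⟩
  · exact div_lt_div_of_pos_right (mul_lt_mul_of_pos_left hαs hc) hd0
  · rcases lt_or_ge 0 (s - ((d : ℝ) - 1) / 2) with h | h
    · exact hgen _ fun α hα0 hαs => Or.inr (Or.inr ⟨by linarith, h⟩)
    · rw [hzero (by linarith)]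
      exact zero_le

theorem E4 (d : ℕ) (hd : 1 ≤ d) (c : ℝ) (hc : 0 < c) (hT : CntP d c)
    {Ω : Type*} [MeasurableSpace Ω] (μ : Measure Ω) [SFinite μ]
    (X V : Ω → EuclideanSpace ℝ (Fin d)) (hX : Measurable X) (hV : Measurable V)
    (hac : μ.map V ≪ (volume : Measure (EuclideanSpace ℝ (Fin d)))) (s : ℝ) :
    dimH {t : ℝ | ∃ A : Set (EuclideanSpace ℝ (Fin d)), dimH A < ENNReal.ofReal s ∧
      μ {ω | X ω + t • V ω ∈ A} ≠ 0} ≤ ENNReal.ofReal (c * s / d) ∧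
    dimH {t : ℝ | ∃ A : Set (EuclideanSpace ℝ (Fin d)), dimH A < ENNReal.ofReal s ∧
      μ {ω | X ω + t • V ω ∈ A} ≠ 0} ≤ ENNReal.ofReal (s - ((d : ℝ) - 1) / 2) ∧
    (2 * s ≤ d → dimH {t : ℝ | ∃ A : Set (EuclideanSpace ℝ (Fin d)), dimH A < ENNReal.ofReal s ∧
      μ {ω | X ω + t • V ω ∈ A} ≠ 0} = 0) := by
  have hm : MeasurePreserving (EuclideanSpace.equiv (Fin d) ℝ)
      (volume : Measure (EuclideanSpace ℝ (Fin d))) (volume : Measure (Fin d → ℝ)) :=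
    PiLp.volume_preserving_ofLp (Fin d)
  have h1 := E3 d hd c hc hT μ (fun ω => EuclideanSpace.equiv (Fin d) ℝ (X ω))
    (fun ω => EuclideanSpace.equiv (Fin d) ℝ (V ω)) (hm.measurable.comp hX)
    (hm.measurable.comp hV) (by
      have h2 := hac.map hm.measurable
      rw [hm.map_eq, Measure.map_map hm.measurable hV] at h2
      exact h2) s
  have hsub : {t : ℝ | ∃ A : Set (EuclideanSpace ℝ (Fin d)), dimH A < ENNReal.ofReal s ∧
      μ {ω | X ω + t • V ω ∈ A} ≠ 0} ⊆ {t : ℝ | ∃ A : Set (Fin d → ℝ),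
        dimH A < ENNReal.ofReal s ∧ μ {ω | (fun i => EuclideanSpace.equiv (Fin d) ℝ (X ω) i +
          t * EuclideanSpace.equiv (Fin d) ℝ (V ω) i) ∈ A} ≠ 0} := by
    rintro t ⟨A, hA, h0⟩
    refine ⟨EuclideanSpace.equiv (Fin d) ℝ '' A, ?_, fun h3 => h0 (measure_mono_null ?_ h3)⟩
    · rw [ContinuousLinearEquiv.dimH_image]
      exact hA
    · intro ω hω
      exact ⟨_, hω, rfl⟩
  refine ⟨(dimH_mono hsub).trans h1.1, (dimH_mono hsub).trans h1.2.1, fun hs => ?_⟩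
  exact le_antisymm ((dimH_mono hsub).trans (h1.2.2 hs).le) zero_le

end Pool.Agent.H951.KS
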