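import Mathlib

/-!
# A measurable selection for compact families
-/

set_option autoImplicit false
set_option maxHeartbeats 1000000

open MeasureTheory Filter Topology
open scoped Classical ENNReal NNReal

namespace Pool.Agent.H951.KS

theorem sel {d : ℕ} (L : Set ((Fin d → ℝ) × (Fin d → ℝ))) (hL : IsCompact L) (hne : L.Nonempty) :
    ∃ b : (Fin d → ℝ) → Fin d → ℝ, Measurable b ∧ ∀ u ∈ Prod.snd '' L, (b u, u) ∈ L := by
  have : CompactSpace L := isCompact_iff_compactSpace.1 hL
  have : Nonempty L := hne.to_subtype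
  obtain ⟨g, hg, hgs⟩ := exists_nat_bool_continuous_surjective_of_compact L
  let φ : cantorSet ≃ₜ (ℕ → Bool) := cantorSetHomeomorphNatToBool
  have : CompactSpace cantorSet := isCompact_iff_compactSpace.1 isCompact_cantorSet
  let G : cantorSet → (Fin d → ℝ) × (Fin d → ℝ) := fun x => (g (φ x)).1
  have hG : Continuous G := continuous_subtype_val.comp (hg.comp φ.continuous)
  have hGL : ∀ x, G x ∈ L := fun x => (g (φ x)).2
  have hGs : ∀ p ∈ L, ∃ x, G x = p := by
    intro p hp
    obtain ⟨y, hy⟩ := hgs ⟨p, hp⟩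
    refine ⟨φ.symm y, ?_⟩
    change (g (φ (φ.symm y))).1 = p
    rw [φ.apply_symm_apply, hy]
  let h : cantorSet → Fin d → ℝ := fun x => (G x).2
  have hh : Continuous h := continuous_snd.comp hG
  have hrange : Set.range h = Prod.snd '' L := by
    ext u
    constructor
    · rintro ⟨x, rfl⟩
      exact ⟨G x, hGL x, rfl⟩
    · rintro ⟨p, hp, rfl⟩
      obtain ⟨x, hx⟩ := hGs p hp
      exact ⟨x, by change (G x).2 = p.2; rw [hx]⟩
  let fib : (Fin d → ℝ) → Set ℝ := fun u => Subtype.val '' (h ⁻¹' {u})
  have hfibc : ∀ u, IsCompact (fib u) := fun u =>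
    ((isClosed_singleton.preimage hh).isCompact).image continuous_subtype_val
  let s : (Fin d → ℝ) → ℝ := fun u => sInf (fib u)
  have hs1 : ∀ u ∈ Set.range h, s u ∈ fib u := by
    rintro u ⟨x, hx⟩
    exact (hfibc u).sInf_mem ⟨x.1, x, hx, rfl⟩
  have hs2 : ∀ u, u ∉ Set.range h → s u = 0 := by
    intro u hu
    have h1 : fib u = ∅ := by
      rw [Set.eq_empty_iff_forall_notMem]
      rintro _ ⟨x, hx, rfl⟩
      exact hu ⟨x, hx⟩
    change sInf (fib u) = 0
    rw [h1, Real.sInf_empty]
  have hs3 : ∀ u, s u ∈ cantorSet := by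
    intro u
    by_cases hu : u ∈ Set.range h
    · obtain ⟨x, -, hx⟩ := hs1 u hu
      rw [← hx]
      exact x.2
    · rw [hs2 u hu]
      exact zero_mem_cantorSet
  have hsm : Measurable s := by
    refine measurable_of_Iic fun a => ?_
    have h1 : s ⁻¹' Set.Iic a = h '' {x | x.1 ≤ a} ∪ ((Set.range h)ᶜ ∩ {_u | (0 : ℝ) ≤ a}) := by
      ext u
      constructor
      · intro hu
        by_cases hr : u ∈ Set.range h
        · left
          obtain ⟨x, hx1, hx2⟩ := hs1 u hr
          refine ⟨x, ?_, hx1⟩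
          change x.1 ≤ a
          rw [hx2]
          exact hu
        · right
          refine ⟨hr, ?_⟩
          have h2 : s u ≤ a := hu
          rw [hs2 u hr] at h2
          exact h2
      · rintro (⟨x, hx, rfl⟩ | ⟨hr, ha⟩)
        · have h3 : x.1 ≤ a := hx
          have h4 : s (h x) ≤ x.1 := csInf_le (hfibc _).bddBelow ⟨x, rfl, rfl⟩
          exact h4.trans h3
        · change s u ≤ a
          rw [hs2 u hr]
          exact ha
    rw [h1]
    refine MeasurableSet.union ?_ (MeasurableSet.inter ?_ (MeasurableSet.const _))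
    · have hc : IsClosed {x : cantorSet | x.1 ≤ a} := isClosed_le continuous_subtype_val
        continuous_const
      exact (hc.isCompact.image hh).measurableSet
    · exact (isCompact_range hh).measurableSet.compl
  refine ⟨fun u => (G ⟨s u, hs3 u⟩).1, ?_, ?_⟩
  · exact (continuous_fst.comp hG).measurable.comp (hsm.subtype_mk)
  · intro u hu
    rw [← hrange] at hu
    obtain ⟨x, hx1, hx2⟩ := hs1 u hu
    have h1 : (⟨s u, hs3 u⟩ : cantorSet) = x := Subtype.ext hx2.symm
    have h2 : (G x).2 = u := hx1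
    change ((G ⟨s u, hs3 u⟩).1, u) ∈ L
    rw [h1]
    have h3 : ((G x).1, u) = G x := by rw [← h2]
    rw [h3]
    exact hGL x

end Pool.Agent.H951.KS
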