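import Pool.Agent.H951.KS.Exc4
import Pool.Agent.H951.KS.Sel

/-!
# The dimension of the set of exceptional points of a segment
-/

set_option autoImplicit false
set_option maxHeartbeats 1000000

open MeasureTheory Filter Topology
open scoped Classical ENNReal NNReal

namespace Pool.Agent.H951.KS

open Pool.Agent.W605.HD Pool.Agent.W46.HD Pool.Agent.Y254HK Pool.Agent.Y674.HK

/-- the bounded lines which lie in `K` over the interval `[p, q]` -/
def LL (d : ℕ) (K : Set (EuclideanSpace ℝ (Fin (d + 1)))) (p q : ℝ) (R : ℕ) :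
    Set ((Fin d → ℝ) × (Fin d → ℝ)) :=
  Metric.closedBall 0 (R : ℝ) ∩ ⋂ t ∈ Set.Icc p q, {z | pt d t (fun i => z.1 i + t * z.2 i) ∈ K}

theorem LL_compact (d : ℕ) (K : Set (EuclideanSpace ℝ (Fin (d + 1)))) (hK : IsCompact K) (p q : ℝ)
    (R : ℕ) : IsCompact (LL d K p q R) := by
  refine (isCompact_closedBall _ _).inter_right (isClosed_biInter fun t _ => ?_)
  refine hK.isClosed.preimage ?_
  have h : (fun z : (Fin d → ℝ) × (Fin d → ℝ) => pt d t (fun i => z.1 i + t * z.2 i)) = fun z =>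
      (WithLp.toLp 2 (Fin.cons t (fun i => z.1 i + t * z.2 i) : Fin (d + 1) → ℝ)) := rfl
  rw [h]
  refine (PiLp.continuous_toLp 2 _).comp (continuous_pi fun l => ?_)
  refine Fin.cases ?_ (fun i => ?_) l
  · simp only [Fin.cons_zero]
    exact continuous_const
  · simp only [Fin.cons_succ]
    fun_prop

/-- the exceptional heights of `K` -/
def XH (d : ℕ) (K : Set (EuclideanSpace ℝ (Fin (d + 1)))) (s p q : ℝ) : Set ℝ :=
  {t | t ∈ Set.Icc p q ∧ dimH (slice d K t) < ENNReal.ofReal s}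

theorem C1 (d : ℕ) (hd : 1 ≤ d) (c : ℝ) (hc : 0 < c) (hT : CntP d c)
    (K : Set (EuclideanSpace ℝ (Fin (d + 1)))) (hK : IsCompact K) (p q : ℝ) (R : ℕ)
    (hvol : volume (Prod.snd '' LL d K p q R) ≠ 0) (s : ℝ) :
    dimH (XH d K s p q) ≤ ENNReal.ofReal (c * s / d) ∧
    dimH (XH d K s p q) ≤ ENNReal.ofReal (s - ((d : ℝ) - 1) / 2) ∧
    (2 * s ≤ d → dimH (XH d K s p q) = 0) := by
  have hL := LL_compact d K hK p q R
  have hne : (LL d K p q R).Nonempty := by
    by_contra hno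
    rw [Set.not_nonempty_iff_eq_empty] at hno
    rw [hno, Set.image_empty, measure_empty] at hvol
    exact hvol rfl
  obtain ⟨b, hb, hbL⟩ := sel (LL d K p q R) hL hne
  have hV : MeasurableSet (Prod.snd '' LL d K p q R) := (hL.image continuous_snd).measurableSet
  have h1 := E3 d hd c hc hT (volume.restrict (Prod.snd '' LL d K p q R)) b
    (fun u : Fin d → ℝ => u) hb measurable_id (by
      have : (fun u : Fin d → ℝ => u) = id := rfl
      rw [this, Measure.map_id]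
      exact Measure.absolutelyContinuous_of_le Measure.restrict_le_self) s
  have hsub : XH d K s p q ⊆ {t : ℝ | ∃ A : Set (Fin d → ℝ), dimH A < ENNReal.ofReal s ∧
      (volume.restrict (Prod.snd '' LL d K p q R)) {ω | (fun i => b ω i + t * ω i) ∈ A} ≠ 0} := by
    rintro t ⟨ht, hdim⟩
    refine ⟨slice d K t, hdim, fun h0 => hvol ?_⟩
    rw [Measure.restrict_apply' hV] at h0
    refine measure_mono_null ?_ h0
    intro u hu
    refine ⟨?_, hu⟩
    have h2 := (hbL u hu).2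
    exact Set.mem_iInter₂.1 h2 t ht
  refine ⟨(dimH_mono hsub).trans h1.1, (dimH_mono hsub).trans h1.2.1, fun hs => ?_⟩
  exact le_antisymm ((dimH_mono hsub).trans (h1.2.2 hs).le) zero_le

/-- The property of a vector `e`: the exceptional points of each segment parallel to `e`. -/
def HorX (d : ℕ) (c : ℝ) (K : Set (EuclideanSpace ℝ (Fin (d + 1))))
    (e : EuclideanSpace ℝ (Fin (d + 1))) : Prop :=
  ∀ (a : EuclideanSpace ℝ (Fin (d + 1))) (r : ℝ), segment ℝ a (a + r • e) ⊆ K → ∀ s : ℝ,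
    dimH {x ∈ segment ℝ a (a + r • e) | dimH (K ∩ {y | y 0 = x 0}) < ENNReal.ofReal s} ≤
      ENNReal.ofReal (c * s / d) ∧
    dimH {x ∈ segment ℝ a (a + r • e) | dimH (K ∩ {y | y 0 = x 0}) < ENNReal.ofReal s} ≤
      ENNReal.ofReal (s - ((d : ℝ) - 1) / 2) ∧
    (2 * s ≤ d → dimH {x ∈ segment ℝ a (a + r • e) | dimH (K ∩ {y | y 0 = x 0}) <
      ENNReal.ofReal s} = 0)

theorem C2 (d : ℕ) (hd : 1 ≤ d) (c : ℝ) (hc : 0 < c) (hT : CntP d c)
    (K : Set (EuclideanSpace ℝ (Fin (d + 1)))) (hK : IsCompact K) :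
    ∀ᵐ e : EuclideanSpace ℝ (Fin (d + 1)), HorX d c K e := by
  obtain ⟨N, hN⟩ : ∃ N : Set (Fin d → ℝ), N = toMeasurable volume (⋃ j : ℚ × ℚ × ℕ,
    ⋃ _ : volume (Prod.snd '' LL d K j.1 j.2.1 j.2.2) = 0,
      Prod.snd '' LL d K j.1 j.2.1 j.2.2) := ⟨_, rfl⟩
  have hNm : MeasurableSet N := by rw [hN]; exact measurableSet_toMeasurable _ _
  have hN0 : volume N = 0 := by
    rw [hN, measure_toMeasurable]
    exact measure_iUnion_null fun j => measure_iUnion_null fun hj => hj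
  have h0 := cone_null d hNm hN0
  rw [ae_iff]
  refine measure_mono_null ?_ h0
  intro e he
  by_contra hcone
  refine he ?_
  have he0 : e 0 ≠ 0 := fun h => hcone (Or.inl h)
  have heN : sl d e ∉ N := fun h => hcone (Or.inr h)
  intro a r hseg s
  -- the change of variable
  obtain ⟨b, hb⟩ : ∃ b : Fin d → ℝ, b = fun i => a (Fin.succ i) - a 0 * sl d e i := ⟨_, rfl⟩
  let ln : ℝ → EuclideanSpace ℝ (Fin (d + 1)) := fun t => a + ((t - a 0) / e 0) • e
  have hpt : ∀ t : ℝ, ln t = pt d t (fun i => b i + t * sl d e i) := by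
    intro t
    ext l
    refine Fin.cases ?_ (fun i => ?_) l
    · simp only [ln, PiLp.add_apply, PiLp.smul_apply, smul_eq_mul, pt_zero]
      field_simp
      ring
    · simp only [ln, PiLp.add_apply, PiLp.smul_apply, smul_eq_mul, pt_succ, sl, hb]
      field_simp
      ring
  have hlip : LipschitzWith (‖e‖₊ * ‖(e 0)⁻¹‖₊) ln := by
    refine LipschitzWith.of_dist_le_mul fun t t' => ?_
    rw [dist_eq_norm, Real.dist_eq]
    have e1 : ln t - ln t' = ((t - t') * (e 0)⁻¹) • e := by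
      simp only [ln]
      rw [add_sub_add_left_eq_sub, ← sub_smul]
      congr 1
      rw [div_eq_mul_inv, div_eq_mul_inv]
      ring
    rw [e1, norm_smul, norm_mul, Real.norm_eq_abs]
    push_cast
    exact le_of_eq (by ring)
  have hcov : {x ∈ segment ℝ a (a + r • e) | dimH (K ∩ {y | y 0 = x 0}) < ENNReal.ofReal s} ⊆
      {a, a + r • e} ∪ ⋃ j : ℚ × ℚ × ℕ, ⋃ _ : volume (Prod.snd '' LL d K j.1 j.2.1 j.2.2) ≠ 0,
        ln '' XH d K s j.1 j.2.1 := by
    rintro x ⟨hx, hdim⟩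
    rw [segment_eq_image'] at hx
    obtain ⟨θ, hθ, rfl⟩ := hx
    rcases eq_or_ne θ 0 with rfl | hθ0
    · left
      simp
    rcases eq_or_ne θ 1 with rfl | hθ1
    · left
      simp
    rcases eq_or_ne r 0 with rfl | hr
    · left
      simp
    right
    simp only [add_sub_cancel_left] at hdim ⊢
    have hθ' : θ ∈ Set.Ioo (0 : ℝ) 1 :=
      ⟨lt_of_le_of_ne hθ.1 hθ0.symm, lt_of_le_of_ne hθ.2 hθ1⟩
    obtain ⟨t, ht⟩ : ∃ t : ℝ, t = a 0 + θ * (r * e 0) := ⟨_, rfl⟩
    have hre : r * e 0 ≠ 0 := mul_ne_zero hr he0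
    have hxt : a + θ • r • e = ln t := by
      simp only [ln]
      rw [smul_smul, ht]
      congr 2
      field_simp
      ring
    have hopen : IsOpen {t : ℝ | (t - a 0) / (r * e 0) ∈ Set.Ioo (0 : ℝ) 1} :=
      isOpen_Ioo.preimage (by fun_prop)
    have hmem : t ∈ {t : ℝ | (t - a 0) / (r * e 0) ∈ Set.Ioo (0 : ℝ) 1} := by
      change (t - a 0) / (r * e 0) ∈ Set.Ioo (0 : ℝ) 1
      have : (t - a 0) / (r * e 0) = θ := by
        rw [ht]
        field_simp
        ring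
      rw [this]
      exact hθ'
    obtain ⟨ε, hε, hball⟩ := Metric.isOpen_iff.1 hopen t hmem
    obtain ⟨p, hp1, hp2⟩ := exists_rat_btwn (show t - ε < t by linarith)
    obtain ⟨q, hq1, hq2⟩ := exists_rat_btwn (show t < t + ε by linarith)
    obtain ⟨R, hR⟩ := exists_nat_ge ‖((b, sl d e) : (Fin d → ℝ) × (Fin d → ℝ))‖
    have hLL : ((b, sl d e) : (Fin d → ℝ) × (Fin d → ℝ)) ∈ LL d K p q R := by
      refine ⟨by rw [mem_closedBall_zero_iff]; exact hR, Set.mem_iInter₂.2 fun t' ht' => ?_⟩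
      change pt d t' (fun i => b i + t' * sl d e i) ∈ K
      rw [← hpt]
      have h1 : t' ∈ Metric.ball t ε := by
        rw [Metric.mem_ball, Real.dist_eq, abs_lt]
        constructor
        · linarith [ht'.1]
        · linarith [ht'.2]
      have h2 : (t' - a 0) / (r * e 0) ∈ Set.Ioo (0 : ℝ) 1 := hball h1
      refine hseg ?_
      rw [segment_eq_image']
      refine ⟨(t' - a 0) / (r * e 0), ⟨h2.1.le, h2.2.le⟩, ?_⟩
      simp only [add_sub_cancel_left, ln]
      rw [smul_smul]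
      congr 2
      field_simp
    have hvol : volume (Prod.snd '' LL d K p q R) ≠ 0 := by
      intro hv
      refine heN ?_
      rw [hN]
      apply subset_toMeasurable
      exact Set.mem_iUnion₂.2 ⟨(p, q, R), hv, _, hLL, rfl⟩
    refine Set.mem_iUnion₂.2 ⟨(p, q, R), hvol, t, ⟨⟨hp2.le, hq1.le⟩, ?_⟩, hxt.symm⟩
    refine lt_of_le_of_lt (dimH_slice_le d K t) ?_
    have hx0 : (a + θ • r • e) 0 = t := by
      rw [hxt, hpt]
      rfl
    rw [hx0] at hdim
    exact hdim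
  have hfin : dimH ({a, a + r • e} : Set (EuclideanSpace ℝ (Fin (d + 1)))) = 0 :=
    (Set.toFinite _).dimH_zero
  have hgen : ∀ B : ℝ≥0∞, (∀ j : ℚ × ℚ × ℕ, volume (Prod.snd '' LL d K j.1 j.2.1 j.2.2) ≠ 0 →
      dimH (XH d K s j.1 j.2.1) ≤ B) →
      dimH {x ∈ segment ℝ a (a + r • e) | dimH (K ∩ {y | y 0 = x 0}) < ENNReal.ofReal s} ≤ B := by
    intro B hB
    refine (dimH_mono hcov).trans ?_
    rw [dimH_union, hfin]
    refine max_le zero_le ?_
    rw [dimH_iUnion]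
    refine iSup_le fun j => ?_
    rw [dimH_iUnion]
    refine iSup_le fun hj => ?_
    exact (hlip.dimH_image_le _).trans (hB j hj)
  refine ⟨hgen _ fun j hj => (C1 d hd c hc hT K hK j.1 j.2.1 j.2.2 hj s).1,
    hgen _ fun j hj => (C1 d hd c hc hT K hK j.1 j.2.1 j.2.2 hj s).2.1, fun hs => ?_⟩
  exact le_antisymm (hgen 0 fun j hj =>
    ((C1 d hd c hc hT K hK j.1 j.2.1 j.2.2 hj s).2.2 hs).le) zero_le

/-- all directions of the slices, closed sets -/
theorem C3 (d : ℕ) (hd : 1 ≤ d) (c : ℝ) (hc : 0 < c) (hT : CntP d c)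
    (K : Set (EuclideanSpace ℝ (Fin (d + 1)))) (hK : IsClosed K)
    (ν : EuclideanSpace ℝ (Fin (d + 1))) (hν : ‖ν‖ = 1) :
    ∀ᵐ e : EuclideanSpace ℝ (Fin (d + 1)), ∀ (a : EuclideanSpace ℝ (Fin (d + 1))) (r : ℝ),
      segment ℝ a (a + r • e) ⊆ K → ∀ s : ℝ,
      dimH {x ∈ segment ℝ a (a + r • e) | dimH (K ∩ {y | inner ℝ y ν = inner ℝ x ν}) <
        ENNReal.ofReal s} ≤ ENNReal.ofReal (c * s / d) ∧
      dimH {x ∈ segment ℝ a (a + r • e) | dimH (K ∩ {y | inner ℝ y ν = inner ℝ x ν}) <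
        ENNReal.ofReal s} ≤ ENNReal.ofReal (s - ((d : ℝ) - 1) / 2) ∧
      (2 * s ≤ d → dimH {x ∈ segment ℝ a (a + r • e) |
        dimH (K ∩ {y | inner ℝ y ν = inner ℝ x ν}) < ENNReal.ofReal s} = 0) := by
  obtain ⟨L, hL⟩ := exists_rot d ν hν
  have hKj : ∀ j : ℕ, IsCompact (K ∩ Metric.closedBall 0 (j : ℝ)) := fun j =>
    (isCompact_closedBall _ _).inter_left hK
  have h1 : ∀ᵐ e : EuclideanSpace ℝ (Fin (d + 1)), ∀ j : ℕ,
      HorX d c (L '' (K ∩ Metric.closedBall 0 (j : ℝ))) (L e) := by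
    rw [ae_all_iff]
    intro j
    have h2 := C2 d hd c hc hT (L '' (K ∩ Metric.closedBall 0 (j : ℝ)))
      ((hKj j).image L.continuous)
    exact L.measurePreserving.quasiMeasurePreserving.ae h2
  filter_upwards [h1] with e he a r hseg s
  obtain ⟨j, hj⟩ := exists_nat_ge (max ‖a‖ ‖a + r • e‖)
  have hsegj : segment ℝ a (a + r • e) ⊆ K ∩ Metric.closedBall 0 (j : ℝ) := by
    refine Set.subset_inter hseg ((convex_closedBall _ _).segment_subset ?_ ?_)
    · rw [mem_closedBall_zero_iff]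
      exact (le_max_left _ _).trans hj
    · rw [mem_closedBall_zero_iff]
      exact (le_max_right _ _).trans hj
  have hLseg : segment ℝ (L a) (L a + r • L e) = L '' segment ℝ a (a + r • e) := by
    have h3 := image_segment ℝ (L.toLinearIsometry.toLinearMap.toAffineMap) a (a + r • e)
    have h4 : (L.toLinearIsometry.toLinearMap.toAffineMap) (a + r • e) = L a + r • L e := by
      change L (a + r • e) = L a + r • L e
      rw [map_add, map_smul]
    rw [h4] at h3
    exact h3.symm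
  have h5 := he j (L a) r (by rw [hLseg]; exact Set.image_mono hsegj) s
  have hsub : L '' {x ∈ segment ℝ a (a + r • e) |
      dimH (K ∩ {y | inner ℝ y ν = inner ℝ x ν}) < ENNReal.ofReal s} ⊆
      {x ∈ segment ℝ (L a) (L a + r • L e) |
        dimH (L '' (K ∩ Metric.closedBall 0 (j : ℝ)) ∩ {y | y 0 = x 0}) < ENNReal.ofReal s} := by
    rintro _ ⟨x, ⟨hx, hdim⟩, rfl⟩
    refine ⟨by rw [hLseg]; exact ⟨x, hx, rfl⟩, lt_of_le_of_lt ?_ hdim⟩
    have h6 : L '' (K ∩ Metric.closedBall 0 (j : ℝ)) ∩ {y | y 0 = (L x) 0} ⊆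
        L '' (K ∩ {y | inner ℝ y ν = inner ℝ x ν}) := by
      rintro _ ⟨⟨y, hy, rfl⟩, hy2⟩
      refine ⟨y, ⟨hy.1, ?_⟩, rfl⟩
      change (L y) 0 = (L x) 0 at hy2
      rw [hL, hL] at hy2
      exact hy2
    refine (dimH_mono h6).trans ?_
    rw [L.isometry.dimH_image]
  have h7 := dimH_mono hsub
  rw [L.isometry.dimH_image] at h7
  exact ⟨h7.trans h5.1, h7.trans h5.2.1,
    fun hs => le_antisymm (h7.trans (h5.2.2 hs).le) zero_le⟩

end Pool.Agent.H951.KS
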