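import Pool.Agent.H951.KS.Exc3
import Pool.Agent.H951.FH.Asm
import Pool.Agent.H951.FH.ONE

/-!
# Separated heights with small covers: the bound from the hairbrush argument
-/

set_option autoImplicit false
set_option maxHeartbeats 1000000

open MeasureTheory
open scoped Classical ENNReal NNReal

namespace Pool.Agent.H951.KS

open Pool.Agent.W605.HD Pool.Agent.W46.HD Pool.Agent.Y254HK Pool.Agent.H951.FH

/-- The bound from the discrete inequality. -/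
theorem con3 {d k : ℕ} (hd : 1 ≤ d) {Ω : Type*} [MeasurableSpace Ω] (μ : Measure Ω)
    (b v : Ω → Fin d → ℝ) (hv : Measurable v) (hv1 : ∀ ω i, 0 ≤ v ω i ∧ v ω i ≤ 1)
    (M x B : ℝ) (hM : 0 < M) (hx : 0 < x) (hB : 0 ≤ B)
    (hQ : ∀ q : Fin d → ℤ, μ {ω | ∀ i, ⌊(2 : ℝ) ^ k * v ω i⌋ = q i} ≤
      ENNReal.ofReal (M / ((2 : ℝ) ^ k) ^ d))
    (P : Finset ℝ) (hPne : P.Nonempty) (hP : ∀ t ∈ P, 0 ≤ t ∧ t < 1)
    (hsep : ∀ t ∈ P, ∀ t' ∈ P, t ≠ t' → 1 / (2 : ℝ) ^ k ≤ |t - t'|)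
    (τ : ℝ) (hτ0 : 0 < τ) (hτ1 : τ ≤ 1)
    (hfro : ∀ l ≤ k, ∀ p : ℕ, ((P.filter fun t => (p : ℝ) / 2 ^ l ≤ t ∧
      t < ((p : ℝ) + 1) / 2 ^ l).card : ℝ) ≤ ((2 : ℝ) ^ (k - l)) ^ τ)
    (Z : ℝ → Finset (Fin d → ℤ)) (hZ : ∀ t ∈ P, ((Z t).card : ℝ) ≤ B)
    (W : ℝ → Set Ω) (hWm : ∀ t ∈ P, MeasurableSet (W t)) (hWx : ∀ t ∈ P, ENNReal.ofReal x ≤ μ (W t))
    (hWZ : ∀ t ∈ P, ∀ ω ∈ W t, ∃ z ∈ Z t, ∀ i, |(2 : ℝ) ^ k * (b ω i + t * v ω i) - z i| < 3)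
    (r : ℕ) (hr1 : 1 ≤ r) (hrk : r ≤ 2 ^ k)
    (hfar : 3 * (2 * r : ℝ) ^ τ ≤ P.card * x / (4 ^ d * M * (64 * ((k : ℝ) + 1) ^ 3))) :
    (P.card : ℝ) ^ 2 * x ^ 4 * (r : ℝ) ^ d ≤
      (1800000000 * 98304 ^ d) * ((k : ℝ) + 1) ^ 11 * M ^ 4 * (2 : ℝ) ^ k * B ^ 2 := by
  obtain ⟨Λ, hΛ, A, D, J, E, hfam, hcount, hJ, hEJ, hY⟩ := rep μ b v hv hv1 M x B hM hx
    hB hQ P hP hsep Z hZ W hWm hWx hWZ
  obtain ⟨n, hn⟩ : ∃ n : ℝ, n = (2 : ℝ) ^ k := ⟨_, rfl⟩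
  have hn0 : 0 < n := by rw [hn]; positivity
  have hn1 : 1 ≤ n := by rw [hn]; exact one_le_pow₀ (by norm_num)
  have hnN : ((2 ^ k : ℕ) : ℝ) = n := by rw [hn]; push_cast; rfl
  rw [← hn] at hcount
  have hPc : 0 < (P.card : ℝ) := by exact_mod_cast hPne.card_pos
  have hEc : 0 < (E.card : ℝ) := by
    by_contra hno
    have h1 : (E.card : ℝ) ≤ 0 := not_lt.1 hno
    have h2 : 0 < (P.card : ℝ) * x * n ^ d := by positivity
    nlinarith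
  -- the shading with natural numbers
  obtain ⟨E', hE'⟩ : ∃ E' : Finset (Λ × ℕ), E' = E.image fun z => (z.1, (z.2 : ℕ)) := ⟨_, rfl⟩
  have hEE : E'.card = E.card := by
    rw [hE', Finset.card_image_of_injective]
    rintro ⟨w, j⟩ ⟨w', j'⟩ h
    simp only [Prod.mk.injEq] at h
    exact Prod.ext h.1 (Fin.ext h.2)
  have hfam' : Fam (2 ^ k) D := ⟨hfam.pos, hfam.lo, hfam.hi, hfam.inj⟩
  have hfl : ∀ t ∈ P, ((J t : ℕ)) = ⌊(2 : ℝ) ^ k * t⌋₊ := by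
    intro t ht
    have h1 := hJ t ht
    symm
    rw [Nat.floor_eq_iff (by have := (hP t ht).1; positivity)]
    exact h1
  have hPs : (P : Set ℝ) ⊆ Set.Ico 0 1 := fun t ht => hP t ht
  have hshd : Shd (2 ^ k) 3 τ E' := by
    have h1 := Pool.Agent.H17.FH.shd (Λ := Λ) k (fun _ => P) τ (fun _ => hPs) (fun _ => hfro) hτ0
    have hsub : E' ⊆ Pool.Agent.H17.FH.EE k (fun _ : Λ => P) := by
      intro z hz
      rw [hE'] at hz
      obtain ⟨y, hy, rfl⟩ := Finset.mem_image.1 hz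
      rw [Pool.Agent.H17.FH.mem_EE]
      obtain ⟨t, ht, h2⟩ := hEJ y hy
      refine ⟨y.2.2, t, ht, ?_⟩
      rw [← hfl t ht]
      change _ = ((y.2 : Fin (2 ^ k)) : ℕ)
      rw [h2]
    refine ⟨fun z hz => h1.lt z (hsub hz), fun w a m hm => ?_⟩
    refine le_trans ?_ (h1.fro w a m hm)
    exact_mod_cast Finset.card_le_card (Finset.filter_subset_filter _ hsub)
  have hL : (Fintype.card Λ : ℝ) ≤ (4 * n) ^ d := by
    have h1 := cnt Λ d (2 ^ k) D hfam' 0 1 (by norm_num)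
    have h2 : (Finset.univ.filter fun w => dist (D w) 0 ≤ 1) = (Finset.univ : Finset Λ) := by
      refine Finset.filter_true_of_mem fun w _ => ?_
      rw [dist_pi_le_iff (by norm_num)]
      intro i
      rw [Real.dist_eq, Pi.zero_apply, sub_zero, abs_of_nonneg (hfam.lo w i)]
      exact hfam.hi w i
    rw [h2, Finset.card_univ, hnN] at h1
    refine h1.trans (pow_le_pow_left₀ (by positivity) (by linarith) d)
  have hLpos : 0 < (Fintype.card Λ : ℝ) := by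
    obtain ⟨z, hz⟩ := Finset.card_pos.1 (by exact_mod_cast hEc : 0 < E.card)
    exact_mod_cast Fintype.card_pos_iff.2 ⟨z.1⟩
  have hne : E'.Nonempty := Finset.card_pos.1 (by rw [hEE]; exact_mod_cast hEc)
  obtain ⟨S, hS⟩ : ∃ S : ℝ, S = ((E'.image fun z => (z.2, cel A D z.2 z.1)).card : ℝ) := ⟨_, rfl⟩
  have hSB : S ≤ P.card * (8 ^ d * B) := by
    choose Y hYc hYm using hY
    have h3 : (E'.image fun z => (z.2, cel A D z.2 z.1)) ⊆
        (P.image J).biUnion fun j => (Y j).image fun y => ((j : ℕ), y) := by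
      intro w hw
      obtain ⟨z', hz', rfl⟩ := Finset.mem_image.1 hw
      rw [hE'] at hz'
      obtain ⟨z, hz, rfl⟩ := Finset.mem_image.1 hz'
      obtain ⟨t, ht, h4⟩ := hEJ z hz
      exact Finset.mem_biUnion.2 ⟨z.2, Finset.mem_image.2 ⟨t, ht, h4.symm⟩,
        Finset.mem_image.2 ⟨_, hYm z.2 z.1 hz, rfl⟩⟩
    have h4 : ((E'.image fun z => (z.2, cel A D z.2 z.1)).card) ≤
        ∑ j ∈ P.image J, (Y j).card := by
      refine (Finset.card_le_card h3).trans (Finset.card_biUnion_le.trans ?_)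
      exact Finset.sum_le_sum fun j _ => Finset.card_image_le
    have h5 : S ≤ ∑ j ∈ P.image J, ((Y j).card : ℝ) := by
      rw [hS]
      exact_mod_cast h4
    refine h5.trans ?_
    refine (Finset.sum_le_sum fun j _ => hYc j).trans ?_
    rw [Finset.sum_const, nsmul_eq_mul]
    refine mul_le_mul_of_nonneg_right ?_ (by positivity)
    exact_mod_cast Finset.card_image_le
  have hS0 : 0 ≤ S := by rw [hS]; positivity
  -- the far condition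
  have hE1 : (P.card : ℝ) * x * n ^ d / M ≤ E.card := by
    rw [div_le_iff₀ hM]
    linarith
  have hfar' : (3 : ℝ) * (2 * r : ℝ) ^ τ ≤
      (E'.card : ℝ) / (64 * ((k : ℝ) + 1) ^ 3 * Fintype.card Λ) := by
    refine hfar.trans ?_
    rw [hEE, div_le_div_iff₀ (by positivity) (by positivity)]
    have h1 : (P.card : ℝ) * x * (64 * ((k : ℝ) + 1) ^ 3 * Fintype.card Λ) ≤
        (P.card : ℝ) * x * (64 * ((k : ℝ) + 1) ^ 3 * (4 * n) ^ d) := by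
      gcongr
    refine h1.trans ?_
    have h2 : (P.card : ℝ) * x * (64 * ((k : ℝ) + 1) ^ 3 * (4 * n) ^ d) =
        ((P.card : ℝ) * x * n ^ d / M) * (4 ^ d * M * (64 * ((k : ℝ) + 1) ^ 3)) := by
      rw [mul_pow]
      field_simp
    rw [h2]
    exact mul_le_mul_of_nonneg_right hE1 (by positivity)
  have hmain := dh Λ d (2 ^ k) k r 3 τ A D E' hd hfam' hshd hτ0 hτ1 (by norm_num) le_rfl
    (by omega) hne hr1 hrk hfar'
  rw [← hS, hEE, hnN] at hmain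
  have hr0 : (0 : ℝ) < r := by exact_mod_cast hr1
  -- the computation
  obtain ⟨p, hp⟩ : ∃ p : ℝ, p = P.card := ⟨_, rfl⟩
  obtain ⟨κ, hκ⟩ : ∃ κ : ℝ, κ = (k : ℝ) + 1 := ⟨_, rfl⟩
  rw [← hp] at hSB hE1 hPc ⊢
  rw [← hκ] at hmain ⊢
  have hκ0 : 0 < κ := by rw [hκ]; positivity
  rw [← hn]
  have h1 : (p * x * n ^ d / M) ^ 4 * (r : ℝ) ^ d ≤ 200000000 * 96 ^ d * κ ^ 11 * 3 ^ 2 *
      n ^ (1 + 2 * d) * ((4 * n) ^ d) ^ 2 * (p * (8 ^ d * B)) ^ 2 := by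
    calc (p * x * n ^ d / M) ^ 4 * (r : ℝ) ^ d ≤ (E.card : ℝ) ^ 4 * (r : ℝ) ^ d := by
          gcongr
      _ ≤ _ := hmain
      _ ≤ _ := by gcongr
  have h2 : (p * x * n ^ d / M) ^ 4 * (r : ℝ) ^ d =
      (p ^ 2 * x ^ 4 * (r : ℝ) ^ d) * (p ^ 2 * (n ^ d) ^ 4 / M ^ 4) := by
    rw [div_pow]
    ring
  have h3 : 200000000 * 96 ^ d * κ ^ 11 * 3 ^ 2 *
      n ^ (1 + 2 * d) * ((4 * n) ^ d) ^ 2 * (p * (8 ^ d * B)) ^ 2 =
      ((1800000000 * 98304 ^ d) * κ ^ 11 * M ^ 4 * n * B ^ 2) *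
        (p ^ 2 * (n ^ d) ^ 4 / M ^ 4) := by
    have e1 : n ^ (1 + 2 * d) = n * (n ^ d) ^ 2 := by
      rw [pow_add, pow_one, mul_comm 2 d, pow_mul]
    have e2 : (98304 : ℝ) ^ d = 96 ^ d * ((4 : ℝ) ^ d) ^ 2 * ((8 : ℝ) ^ d) ^ 2 := by
      rw [← pow_mul, ← pow_mul, mul_comm d 2, pow_mul, pow_mul, ← mul_pow, ← mul_pow]
      norm_num
    rw [e1, e2, mul_pow 4 n d]
    field_simp
    ring
  rw [h2, h3] at h1
  exact le_of_mul_le_mul_right h1 (by positivity)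

end Pool.Agent.H951.KS
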