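import Pool.Agent.H951.KS.Core

/-!
# Almost no slice of small dimension
-/

set_option autoImplicit false

open MeasureTheory
open scoped Classical ENNReal NNReal

namespace Pool.Agent.H951.KS

open Pool.Agent.W605.HD Pool.Agent.W46.HD Pool.Agent.Y254HK

/-- Data at the scale `k0`: lines `B v + τ v`, `v ∈ V`, meet in the heights `τ ∈ T v` the sets with
the good covers `e m`, where `m` depends on the height only. -/
def Sys (d : ℕ) (α y1 y2 : ℝ) (k0 : ℕ) : Prop :=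
  ∃ (V : Set (Fin d → ℝ)) (B : (Fin d → ℝ) → Fin d → ℝ) (T : (Fin d → ℝ) → Set ℝ)
    (Dd : ℕ → Set ℝ) (e : ℕ → Finset (ℕ × (Fin d → ℤ))),
    (∀ v ∈ V, ∀ i, 0 ≤ v i ∧ v i ≤ 1) ∧ ENNReal.ofReal y1 ≤ volume V ∧
    (∀ v ∈ V, MeasurableSet (T v)) ∧ (∀ v ∈ V, T v ⊆ Set.Ico (0 : ℝ) 1) ∧
    (∀ v ∈ V, ENNReal.ofReal y2 ≤ volume (T v)) ∧
    (∀ m, MeasurableSet (Dd m)) ∧ Pairwise (Function.onFun Disjoint Dd) ∧
    (∀ m t, t ∈ Dd m → Good α k0 (e m)) ∧
    ∀ v ∈ V, ∀ τ ∈ T v, ∃ m, τ ∈ Dd m ∧ (fun i => B v i + τ * v i) ∈ OC (e m)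

theorem core (d : ℕ) (c : ℝ) (hc : 1 ≤ c) (hD : ∀ c' : ℝ, c < c' → DenseG d c')
    (α : ℝ) (hα0 : 0 ≤ α) (hα : α < d / c) (y1 y2 : ℝ) (hy1pos : 0 < y1) (hy2 : 0 < y2)
    (hsys : ∀ k0, Sys d α y1 y2 k0) : False := by
  have hc0 : (0 : ℝ) < c := by linarith
  have hαd : c * α < d := by
    rw [lt_div_iff₀ hc0] at hα
    linarith
  have hlog2 : 0 < Real.log 2 := Real.log_pos (by norm_num)
  obtain ⟨c', hc'⟩ : ∃ c' : ℝ, c' = c + (d - c * α) / (2 * (α + 1)) := ⟨_, rfl⟩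
  have hcc : c < c' := by
    rw [hc']
    have : 0 < (d - c * α) / (2 * (α + 1)) := div_pos (by linarith) (by linarith)
    linarith
  have hc'α : c' * α < d := by
    have h1 : (d - c * α) / (2 * (α + 1)) * α < d - c * α := by
      rw [div_mul_eq_mul_div, div_lt_iff₀ (by linarith)]
      nlinarith
    rw [hc', add_mul]
    linarith
  obtain ⟨ε, hε⟩ : ∃ ε : ℝ, ε = (d - c' * α) / 2 := ⟨_, rfl⟩
  have hε0 : 0 < ε := by rw [hε]; linarith
  obtain ⟨C, hC0, hC⟩ := hD c' hcc ε hε0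
  obtain ⟨γ, hγ⟩ : ∃ γ : ℝ, γ = d - c' * α - ε := ⟨_, rfl⟩
  have hγ0 : 0 < γ := by rw [hγ, hε]; linarith
  obtain ⟨η, hη⟩ : ∃ η : ℝ, η = γ * Real.log 2 / (2 * (2 + C)) := ⟨_, rfl⟩
  have hη0 : 0 < η := by rw [hη]; positivity
  obtain ⟨ρ, hρ⟩ : ∃ ρ : ℝ, ρ = Real.exp (-η) := ⟨_, rfl⟩
  have hρ0 : 0 < ρ := by rw [hρ]; exact Real.exp_pos _
  have hρ1 : ρ < 1 := by
    rw [hρ, Real.exp_lt_one_iff]
    linarith
  have h1ρ : 0 < 1 - ρ := by linarith
  obtain ⟨x1, hx1⟩ : ∃ x : ℝ, x = y1 * (1 - ρ) / 2 := ⟨_, rfl⟩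
  obtain ⟨x2, hx2⟩ : ∃ x : ℝ, x = y2 * (1 - ρ) / 2 := ⟨_, rfl⟩
  have hx1pos : 0 < x1 := by rw [hx1]; positivity
  have hx2pos : 0 < x2 := by rw [hx2]; positivity
  obtain ⟨L, hL⟩ : ∃ L : ℝ, L = c' * (d * Real.log 6 + α * Real.log 2) +
    C * (1 + Real.log 2 - Real.log x2) - Real.log (x1 * x2 / 2) := ⟨_, rfl⟩
  obtain ⟨k0, hk0⟩ : ∃ k0 : ℕ, L < γ * Real.log 2 / 2 * k0 := by
    have hpos : 0 < γ * Real.log 2 / 2 := by positivity
    obtain ⟨m, hm⟩ := exists_nat_gt (L / (γ * Real.log 2 / 2))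
    refine ⟨m, ?_⟩
    rw [div_lt_iff₀ hpos] at hm
    linarith
  obtain ⟨V, B, T, Dd, e, hV01, hy1V, hT, hT1, hTy, hDm, hDdis, hDgood, hTC⟩ := hsys k0
  let E : ℕ → (Fin d → ℝ) → Set ℝ := fun k v => {τ | τ ∈ T v ∧ ∃ m, τ ∈ Dd m ∧
    ∃ p ∈ e m, p.1 = k ∧ (fun i => B v i + τ * v i) ∈ oc p}
  have hEmeas : ∀ k v, v ∈ V → MeasurableSet (E k v) := by
    intro k v hv
    have h1 : E k v = T v ∩ ⋃ m, (Dd m ∩
        ⋃ p ∈ (e m).filter (fun p => p.1 = k), (fun τ : ℝ => (fun i => B v i + τ * v i)) ⁻¹' oc p) := by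
      ext τ
      simp only [E, Set.mem_ofPred_eq, Set.mem_inter_iff, Set.mem_iUnion, Set.mem_preimage,
        Finset.mem_filter, exists_prop, and_assoc]
    rw [h1]
    refine (hT v hv).inter (MeasurableSet.iUnion fun m => MeasurableSet.inter (hDm m) ?_)
    refine Finset.measurableSet_biUnion _ fun p _ => ?_
    refine IsOpen.measurableSet ((isOpen_oc p).preimage ?_)
    fun_prop
  have hcovE : ∀ v ∈ V, T v ⊆ ⋃ k, E k v := by
    intro v hv τ hτ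
    obtain ⟨m, hm, p, hp, hp2⟩ := hTC v hv τ hτ
    exact Set.mem_iUnion.2 ⟨p.1, hτ, m, hm, p, hp, rfl, hp2⟩
  obtain ⟨k, hk⟩ := pigeon volume V (fun k => {v | v ∈ V ∧
    ENNReal.ofReal (x2 * ρ ^ k) ≤ volume (E k v)}) (by
      intro v hv
      obtain ⟨k, hk⟩ := pigeon volume (T v) (fun k => E k v) (hcovE v hv) y2 ρ
        hy2 hρ0 hρ1 (hTy v hv)
      rw [← hx2] at hk
      exact Set.mem_iUnion.2 ⟨k, hv, hk⟩) y1 ρ hy1pos hρ0 hρ1 hy1V
  rw [← hx1] at hk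
  have hx1k : 0 < x1 * ρ ^ k := by positivity
  have hx2k : 0 < x2 * ρ ^ k := by positivity
  have hkk0 : k0 ≤ k := by
    have hne : ({v | v ∈ V ∧ ENNReal.ofReal (x2 * ρ ^ k) ≤ volume (E k v)} :
        Set (Fin d → ℝ)).Nonempty := by
      apply nonempty_of_measure_ne_zero (μ := volume)
      intro h
      rw [h, nonpos_iff_eq_zero, ENNReal.ofReal_eq_zero] at hk
      linarith
    obtain ⟨v, hv, hvE⟩ := hne
    have hne2 : (E k v).Nonempty := by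
      apply nonempty_of_measure_ne_zero (μ := volume)
      intro h
      rw [h, nonpos_iff_eq_zero, ENNReal.ofReal_eq_zero] at hvE
      linarith
    obtain ⟨τ, -, m, hm, p, hp, hpk, -⟩ := hne2
    rw [← hpk]
    exact (hDgood m _ hm).1 p hp
  obtain ⟨n, hn⟩ : ∃ n : ℕ, n = 2 ^ k := ⟨_, rfl⟩
  have hn1 : 1 ≤ n := by rw [hn]; exact Nat.one_le_two_pow
  have hn0 : (0 : ℝ) < n := by exact_mod_cast hn1
  have hnR : (n : ℝ) = (2 : ℝ) ^ k := by rw [hn]; push_cast; rfl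
  obtain ⟨Ω, _, D, hDW, hfam, hcard⟩ := disc d k
    {v | v ∈ V ∧ ENNReal.ofReal (x2 * ρ ^ k) ≤ volume (E k v)} (fun v hv => hV01 v hv.1)
    (x1 * ρ ^ k) hk
  rw [← hn] at hfam
  obtain ⟨l, hl⟩ : ∃ l : ℝ, l = x2 * ρ ^ k := ⟨_, rfl⟩
  have hl0 : 0 < l := by rw [hl]; exact hx2k
  rw [← hl] at hDW
  obtain ⟨s, F, hF, hsumF⟩ := offset n hn1 (fun ω => E k (D ω))
    (fun ω => hEmeas k _ (hDW ω).1) (fun ω τ hτ => hT1 _ (hDW ω).1 hτ.1) l (fun ω => (hDW ω).2)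
  have hFn : ∀ ω, ((F ω).card : ℝ) ≤ n := by
    intro ω
    have := Finset.card_le_univ (F ω)
    rw [Fintype.card_fin] at this
    exact_mod_cast this
  -- the lines with many heights
  let P : Ω → Prop := fun ω => l / 2 * n ≤ ((F ω).card : ℝ)
  have hcardP : (Fintype.card Ω : ℝ) * (l / 2) ≤ (Fintype.card {ω // P ω} : ℝ) := by
    have h1 : ∑ ω, ((F ω).card : ℝ) ≤ ∑ ω, ((if P ω then (n : ℝ) else 0) + l / 2 * n) := by
      refine Finset.sum_le_sum fun ω _ => ?_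
      by_cases h : P ω
      · rw [if_pos h]
        have := hFn ω
        have : 0 ≤ l / 2 * n := by positivity
        linarith
      · rw [if_neg h, zero_add]
        exact (not_le.1 h).le
    rw [Finset.sum_add_distrib, ← Finset.sum_filter, Finset.sum_const, Finset.sum_const,
      Finset.card_univ, nsmul_eq_mul, nsmul_eq_mul, ← Fintype.card_subtype] at h1
    have h2 := hsumF.trans h1
    have h3 : ((Fintype.card Ω : ℝ) * (l / 2)) * n ≤ (Fintype.card {ω // P ω} : ℝ) * n := by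
      nlinarith
    exact le_of_mul_le_mul_right h3 hn0
  have hΩpos : (0 : ℝ) < Fintype.card Ω := lt_of_lt_of_le (by positivity) hcard
  have hPpos : (0 : ℝ) < (Fintype.card {ω // P ω} : ℝ) :=
    lt_of_lt_of_le (by positivity) hcardP
  have hPne : Nonempty {ω // P ω} := by
    rw [← Fintype.card_pos_iff]
    exact_mod_cast hPpos
  have hfam' : IsFam n (fun ω : {ω // P ω} => D ω.1) := ⟨hfam.pos, fun ω i => hfam.lo _ i,
    fun ω i => hfam.hi _ i, fun ω ω' h => Subtype.ext (hfam.inj _ _ h)⟩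
  have hDk := hC n {ω // P ω} (fun ω i => n * B (D ω.1) i + s * D ω.1 i) (fun ω => D ω.1) hfam'
    (fun ω => F ω.1) (l / 2) (by positivity) (fun ω => ω.2)
  -- the number of cells at one height
  have hone : ∀ j : Fin n, (((Finset.univ.filter fun ω : {ω // P ω} => j ∈ F ω.1).image
      (cell (fun (ω : {ω // P ω}) i => n * B (D ω.1) i + s * D ω.1 i)
        (fun ω => D ω.1) (j : ℕ))).card : ℝ) ≤ 6 ^ d * (2 : ℝ) ^ (α * (k + 1)) := by
    intro j
    obtain ⟨τ, hτ⟩ : ∃ τ : ℝ, τ = (((j : ℕ) : ℝ) + s) / n := ⟨_, rfl⟩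
    by_cases hex : ∃ m, τ ∈ Dd m
    · obtain ⟨m, hm⟩ := hex
      obtain ⟨Z, hZ1, hZ2⟩ := cells d k α k0 (e m) (hDgood m _ hm)
      refine le_trans ?_ hZ1
      have hsub : ((Finset.univ.filter fun ω : {ω // P ω} => j ∈ F ω.1).image
          (cell (fun (ω : {ω // P ω}) i => n * B (D ω.1) i + s * D ω.1 i)
            (fun ω => D ω.1) (j : ℕ))) ⊆ Z := by
        intro z hz
        obtain ⟨ω, hω, rfl⟩ := Finset.mem_image.1 hz
        have h3 := (Finset.mem_filter.1 hω).2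
        obtain ⟨-, m', hm', p, hp, hpk, hpo⟩ := (hF _ _).1 h3
        rw [← hτ] at hm' hpo
        have hmm : m' = m := by
          by_contra hne
          exact Set.disjoint_left.1 (hDdis hne) hm' hm
        rw [hmm] at hp
        have h2 : cell (fun (ω : {ω // P ω}) i => n * B (D ω.1) i + s * D ω.1 i)
            (fun ω => D ω.1) (j : ℕ) ω =
              (fun i => ⌊(2 : ℝ) ^ k * (B (D ω.1) i + τ * D ω.1 i)⌋) := by
          funext i
          unfold cell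
          congr 1
          rw [hτ, ← hnR]
          field_simp
          ring
        rw [h2]
        exact hZ2 _ ⟨p, hp, hpk, hpo⟩
      exact_mod_cast Finset.card_le_card hsub
    · have h1 : (Finset.univ.filter fun ω : {ω // P ω} => j ∈ F ω.1) = ∅ := by
        rw [Finset.filter_eq_empty_iff]
        intro ω _ hω
        obtain ⟨-, m', hm', -⟩ := (hF _ _).1 hω
        rw [← hτ] at hm'
        exact hex ⟨m', hm'⟩
      rw [h1, Finset.image_empty, Finset.card_empty]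
      push_cast
      positivity
  obtain ⟨S, hS⟩ : ∃ S : ℝ, S = ∑ j : Fin n,
    (((Finset.univ.filter fun ω : {ω // P ω} => j ∈ F ω.1).image
      (cell (fun (ω : {ω // P ω}) i => n * B (D ω.1) i + s * D ω.1 i)
        (fun ω => D ω.1) (j : ℕ))).card : ℝ) := ⟨_, rfl⟩
  rw [← hS] at hDk
  have hS0 : 0 ≤ S := by
    rw [hS]
    exact Finset.sum_nonneg fun j _ => Nat.cast_nonneg _
  have hSn : S / (n : ℝ) ≤ 6 ^ d * (2 : ℝ) ^ (α * (k + 1)) := by
    rw [div_le_iff₀ hn0, hS]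
    refine (Finset.sum_le_sum fun j _ => hone j).trans ?_
    rw [Finset.sum_const, Finset.card_univ, Fintype.card_fin, nsmul_eq_mul, mul_comm]
  obtain ⟨N, hN⟩ : ∃ N : ℝ, N = (Fintype.card {ω // P ω} : ℝ) := ⟨_, rfl⟩
  rw [← hN] at hDk hcardP
  rw [hl] at hDk hcardP
  refine numericS (N := N) (S := S) (k := k) (d := d) hn (by linarith)
    hC0 hα0 hγ hη hρ hx1pos hx2pos hL ?_ ?_ hS0 hSn hDk
  · refine hk0.trans_le (mul_le_mul_of_nonneg_left ?_ (by positivity))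
    exact_mod_cast hkk0
  · have h1 := mul_le_mul_of_nonneg_right hcard (by positivity : 0 ≤ x2 * ρ ^ k / 2)
    calc x2 * ρ ^ k / 2 * (x1 * ρ ^ k * ((2 : ℝ) ^ k) ^ d) =
          x1 * ρ ^ k * ((2 : ℝ) ^ k) ^ d * (x2 * ρ ^ k / 2) := by ring
      _ ≤ _ := h1
      _ ≤ _ := hcardP

end Pool.Agent.H951.KS
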