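import Pool.Agent.H951.KS.SliceB

/-!
# Measurable families of lines
-/

set_option autoImplicit false

open MeasureTheory
open scoped Classical ENNReal NNReal

namespace Pool.Agent.H951.KS

open Pool.Agent.W605.HD Pool.Agent.W46.HD Pool.Agent.Y254HK

/-- a set of small dimension is covered by an increasing sequence of good finite families -/
theorem cov_any {d : ℕ} (A : Set (Fin d → ℝ)) (α : ℝ≥0) (h : dimH A < α) (k0 : ℕ) :
    ∃ C : ℕ → Finset (ℕ × (Fin d → ℤ)), (∀ n, Good (α : ℝ) k0 (C n)) ∧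
      (∀ n m, n ≤ m → OC (C n) ⊆ OC (C m)) ∧ A ⊆ ⋃ n, OC (C n) := by
  obtain ⟨t, κ, ht1, ht2, ht3, ht4⟩ := cover A α h k0
  let x : ℕ → Fin d → ℝ := fun i => if h : (t i).Nonempty then h.some else 0
  have hx : ∀ i, (t i).Nonempty → x i ∈ t i := by
    intro i h
    simp only [x, dif_pos h]
    exact h.some_mem
  let q : ℕ → ℕ × (Fin d → ℤ) := fun i => (κ i, fun l => ⌊(2 : ℝ) ^ κ i * x i l⌋)
  have hsub : ∀ i, t i ⊆ oc (q i) := by
    intro i y hy l
    have h1 := hx i ⟨y, hy⟩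
    have h2 := ht3 i _ hy _ h1
    have h3 : |y l - x i l| ≤ (1 / 2 : ℝ) ^ κ i := by
      rw [← Real.dist_eq]
      exact (dist_le_pi_dist y (x i) l).trans h2
    have hp : (0 : ℝ) < (2 : ℝ) ^ κ i := by positivity
    have h4 : |(2 : ℝ) ^ κ i * (y l - x i l)| ≤ 1 := by
      rw [abs_mul, abs_of_pos hp]
      calc (2 : ℝ) ^ κ i * |y l - x i l| ≤ (2 : ℝ) ^ κ i * (1 / 2 : ℝ) ^ κ i :=
            mul_le_mul_of_nonneg_left h3 hp.le
        _ = 1 := by rw [← mul_pow]; norm_num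
    have h5 := Int.floor_le ((2 : ℝ) ^ κ i * x i l)
    have h6 := Int.lt_floor_add_one ((2 : ℝ) ^ κ i * x i l)
    have h7 := abs_le.1 h4
    change |(2 : ℝ) ^ κ i * y l - ((⌊(2 : ℝ) ^ κ i * x i l⌋ : ℤ) : ℝ)| < 3
    rw [abs_lt]
    constructor <;> linarith [h7.1, h7.2]
  refine ⟨fun n => (Finset.range n).image q, fun n => ⟨?_, ?_⟩, ?_, ?_⟩
  · intro p hp
    obtain ⟨i, -, rfl⟩ := Finset.mem_image.1 hp
    exact ht2 i
  · intro k
    have h1 : ((Finset.range n).image q).filter (fun p => p.1 = k) ⊆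
        ((Finset.range n).filter fun i => κ i = k).image q := by
      intro p hp
      obtain ⟨hp1, hp2⟩ := Finset.mem_filter.1 hp
      obtain ⟨i, hi, rfl⟩ := Finset.mem_image.1 hp1
      exact Finset.mem_image.2 ⟨i, Finset.mem_filter.2 ⟨hi, hp2⟩, rfl⟩
    have h2 := (Finset.card_le_card h1).trans Finset.card_image_le
    have h3 := ht4 k ((Finset.range n).filter fun i => κ i = k)
      (fun i hi => (Finset.mem_filter.1 hi).2)
    exact le_trans (by exact_mod_cast h2) h3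
  · rintro n m hnm y ⟨p, hp, hy⟩
    obtain ⟨i, hi, rfl⟩ := Finset.mem_image.1 hp
    exact ⟨q i, Finset.mem_image.2 ⟨i, Finset.mem_range.2 ((Finset.mem_range.1 hi).trans_le hnm),
      rfl⟩, hy⟩
  · intro y hy
    obtain ⟨i, hi⟩ := Set.mem_iUnion.1 (ht1 hy)
    exact Set.mem_iUnion.2 ⟨i + 1, q i, Finset.mem_image.2 ⟨i, Finset.mem_range.2 (by omega), rfl⟩,
      hsub i hi⟩

theorem cov_meas {d : ℕ} {Ω : Type*} [MeasurableSpace Ω] (μ : Measure Ω) (F : Ω → Fin d → ℝ)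
    (A : Set (Fin d → ℝ)) (α : ℝ≥0) (h : dimH A < α) (k0 : ℕ) (r : ℝ≥0∞)
    (hr : r < μ {ω | F ω ∈ A}) :
    ∃ C : Finset (ℕ × (Fin d → ℤ)), Good (α : ℝ) k0 C ∧ r < μ {ω | F ω ∈ OC C} := by
  obtain ⟨C, hC1, hC2, hC3⟩ := cov_any A α h k0
  have hmono : Monotone fun n => {ω | F ω ∈ OC (C n)} := fun n m hnm ω hω => hC2 n m hnm hω
  have h1 : {ω | F ω ∈ A} ⊆ ⋃ n, {ω | F ω ∈ OC (C n)} := by
    intro ω hω
    obtain ⟨n, hn⟩ := Set.mem_iUnion.1 (hC3 hω)
    exact Set.mem_iUnion.2 ⟨n, hn⟩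
  have h2 : r < ⨆ n, μ {ω | F ω ∈ OC (C n)} := by
    rw [← hmono.measure_iUnion]
    exact hr.trans_le (measure_mono h1)
  obtain ⟨n, hn⟩ := lt_iSup_iff.1 h2
  exact ⟨C n, hC1 n, hn⟩

/-- small sets have small measure -/
theorem ac_eps {d : ℕ} (ν : Measure (Fin d → ℝ)) [IsFiniteMeasure ν]
    (hν : ν ≪ (volume : Measure (Fin d → ℝ))) (y : ℝ≥0∞) (hy : y ≠ 0) :
    ∃ x : ℝ, 0 < x ∧ ∀ E : Set (Fin d → ℝ), MeasurableSet E → volume E < ENNReal.ofReal x →
      ν E < y := by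
  have h1 : ∫⁻ z, ν.rnDeriv volume z ∂(volume : Measure (Fin d → ℝ)) ≠ ⊤ :=
    (Measure.lintegral_rnDeriv_lt_top ν volume).ne
  obtain ⟨δ, hδ, h2⟩ := exists_pos_setLIntegral_lt_of_measure_lt h1 hy
  obtain ⟨x, hx0, hx⟩ : ∃ x : ℝ, 0 < x ∧ ENNReal.ofReal x ≤ δ := by
    by_cases ht : δ = ⊤
    · exact ⟨1, one_pos, by rw [ht]; exact le_top⟩
    · exact ⟨δ.toReal, ENNReal.toReal_pos hδ.ne' ht, ENNReal.ofReal_toReal_le⟩
  refine ⟨x, hx0, fun E hE hEx => ?_⟩
  have h3 := h2 E (hEx.trans_le hx)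
  rwa [Measure.setLIntegral_rnDeriv hν] at h3

theorem B0 (d : ℕ) (c : ℝ) (hc : 1 ≤ c) (hD : ∀ c' : ℝ, c < c' → DenseG d c')
    {Ω : Type*} [MeasurableSpace Ω] (μ : Measure Ω) [IsFiniteMeasure μ]
    (b v : Ω → Fin d → ℝ) (hb : Measurable b) (hv : Measurable v)
    (hv1 : ∀ ω i, 0 ≤ v ω i ∧ v ω i ≤ 1) (hac : μ.map v ≪ (volume : Measure (Fin d → ℝ)))
    (α : ℝ≥0) (hα : (α : ℝ) < d / c) :
    volume {τ : ℝ | τ ∈ Set.Ico (0 : ℝ) 1 ∧ ∃ A : Set (Fin d → ℝ), dimH A < α ∧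
      μ {ω | (fun i => b ω i + τ * v ω i) ∈ A} ≠ 0} = 0 := by
  by_contra hcon
  have hcov : {τ : ℝ | τ ∈ Set.Ico (0 : ℝ) 1 ∧ ∃ A : Set (Fin d → ℝ), dimH A < α ∧
      μ {ω | (fun i => b ω i + τ * v ω i) ∈ A} ≠ 0} ⊆
      ⋃ q : ℕ, {τ : ℝ | τ ∈ Set.Ico (0 : ℝ) 1 ∧ ∃ A : Set (Fin d → ℝ), dimH A < α ∧
        ENNReal.ofReal (1 / ((q : ℝ) + 1)) < μ {ω | (fun i => b ω i + τ * v ω i) ∈ A}} := by
    rintro τ ⟨hτ, A, hA, h0⟩
    have hpos := ENNReal.toReal_pos h0 (measure_ne_top μ _)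
    obtain ⟨q, hq⟩ := exists_nat_one_div_lt hpos
    refine Set.mem_iUnion.2 ⟨q, hτ, A, hA, ?_⟩
    exact ((ENNReal.ofReal_lt_ofReal_iff hpos).2 hq).trans_le ENNReal.ofReal_toReal_le
  obtain ⟨q, hq⟩ : ∃ q : ℕ, volume {τ : ℝ | τ ∈ Set.Ico (0 : ℝ) 1 ∧ ∃ A : Set (Fin d → ℝ),
      dimH A < α ∧ ENNReal.ofReal (1 / ((q : ℝ) + 1)) <
        μ {ω | (fun i => b ω i + τ * v ω i) ∈ A}} ≠ 0 := by
    by_contra hno
    push Not at hno
    exact hcon (measure_mono_null hcov (measure_iUnion_null hno))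
  obtain ⟨δ, hδ⟩ : ∃ δ : ℝ, δ = 1 / ((q : ℝ) + 1) := ⟨_, rfl⟩
  have hδ0 : 0 < δ := by rw [hδ]; positivity
  rw [← hδ] at hq
  -- the line map
  let F : Ω × ℝ → Fin d → ℝ := fun p i => b p.1 i + p.2 * v p.1 i
  have hF : Measurable F := by
    refine measurable_pi_lambda _ fun i => ?_
    have h1 : Measurable fun p : Ω × ℝ => b p.1 i :=
      (measurable_pi_apply i).comp (hb.comp measurable_fst)
    have h2 : Measurable fun p : Ω × ℝ => v p.1 i :=
      (measurable_pi_apply i).comp (hv.comp measurable_fst)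
    exact h1.add (measurable_snd.mul h2)
  let G : Finset (ℕ × (Fin d → ℤ)) → Set ℝ := fun C =>
    {τ | ENNReal.ofReal δ < μ {ω | F (ω, τ) ∈ OC C}}
  have hG : ∀ C, MeasurableSet (G C) := by
    intro C
    have h1 : MeasurableSet (F ⁻¹' OC C) := hF (isOpen_OC C).measurableSet
    exact measurableSet_lt measurable_const (measurable_measure_prodMk_right h1)
  let Θ : Set ℝ := Set.Ico (0 : ℝ) 1 ∩ ⋂ k0 : ℕ, ⋃ C : Finset (ℕ × (Fin d → ℤ)),
    ⋃ _ : Good (α : ℝ) k0 C, G C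
  have hΘm : MeasurableSet Θ := measurableSet_Ico.inter (MeasurableSet.iInter fun k0 =>
    MeasurableSet.iUnion fun C => MeasurableSet.iUnion fun _ => hG C)
  have hΘ0 : volume Θ ≠ 0 := by
    intro h0
    refine hq (measure_mono_null ?_ h0)
    rintro τ ⟨hτ, A, hA, h1⟩
    refine ⟨hτ, Set.mem_iInter.2 fun k0 => ?_⟩
    obtain ⟨C, hC1, hC2⟩ := cov_meas μ (fun ω => F (ω, τ)) A α hA k0 (ENNReal.ofReal δ) h1
    exact Set.mem_iUnion₂.2 ⟨C, hC1, hC2⟩
  have hΘt : volume Θ ≠ ⊤ := by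
    refine ne_top_of_le_ne_top ?_ (measure_mono Set.inter_subset_left)
    rw [Real.volume_Ico]
    exact ENNReal.ofReal_ne_top
  have hθ0 : 0 < (volume Θ).toReal := ENNReal.toReal_pos hΘ0 hΘt
  obtain ⟨y2, hy2⟩ : ∃ y : ℝ, y = δ * (volume Θ).toReal / (2 * ((μ Set.univ).toReal + 1)) :=
    ⟨_, rfl⟩
  have hM : 0 ≤ (μ Set.univ).toReal := ENNReal.toReal_nonneg
  have hy20 : 0 < y2 := by rw [hy2]; positivity
  have : IsFiniteMeasure (μ.map v) := Measure.isFiniteMeasure_map μ v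
  obtain ⟨y1, hy10, hy1⟩ := ac_eps (μ.map v) hac (ENNReal.ofReal (δ * (volume Θ).toReal / 2)) (by
    rw [Ne, ENNReal.ofReal_eq_zero, not_le]
    positivity)
  refine core d c hc hD α α.2 hα y1 y2 hy10 hy20 ?_
  intro k0
  -- the measurable choice
  obtain ⟨e, he⟩ := exists_surjective_nat (Finset (ℕ × (Fin d → ℤ)))
  let O : ℕ → Set ℝ := fun m => {t | Good (α : ℝ) k0 (e m) ∧ t ∈ G (e m)}
  have hO : ∀ m, MeasurableSet (O m) := by
    intro m
    by_cases h : Good (α : ℝ) k0 (e m)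
    · have : O m = G (e m) := by
        ext t
        simp [O, h]
      rw [this]
      exact hG _
    · have : O m = ∅ := by
        ext t
        simp [O, h]
      rw [this]
      exact MeasurableSet.empty
  let Dd : ℕ → Set ℝ := disjointed O
  have hDm : ∀ m, MeasurableSet (Dd m) := fun m => MeasurableSet.disjointed hO m
  have hDs : ∀ m, Dd m ⊆ O m := fun m => disjointed_subset O m
  have hDcov : ∀ τ ∈ Θ, ∃ m, τ ∈ Dd m := by
    rintro τ ⟨-, hτ⟩
    obtain ⟨C, hC1, hC2⟩ := Set.mem_iUnion₂.1 (Set.mem_iInter.1 hτ k0)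
    obtain ⟨m, rfl⟩ := he C
    have h1 : τ ∈ ⋃ m, O m := Set.mem_iUnion.2 ⟨m, hC1, hC2⟩
    rw [← iUnion_disjointed] at h1
    exact Set.mem_iUnion.1 h1
  let S : Set (Ω × ℝ) := (Prod.snd ⁻¹' Θ) ∩ ⋃ m, (Prod.snd ⁻¹' (Dd m)) ∩ F ⁻¹' OC (e m)
  have hS : MeasurableSet S := (measurable_snd hΘm).inter (MeasurableSet.iUnion fun m =>
    (measurable_snd (hDm m)).inter (hF (isOpen_OC _).measurableSet))
  let T : Ω → Set ℝ := fun ω => Prod.mk ω ⁻¹' S
  have hTm : ∀ ω, MeasurableSet (T ω) := fun ω => measurable_prodMk_left hS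
  have hTsub : ∀ ω, T ω ⊆ Set.Ico (0 : ℝ) 1 := fun ω τ hτ => hτ.1.1
  have hTle : ∀ ω, volume (T ω) ≤ 1 := by
    intro ω
    refine (measure_mono (hTsub ω)).trans ?_
    rw [Real.volume_Ico]
    simp
  let W : Set Ω := {ω | ENNReal.ofReal y2 ≤ volume (T ω)}
  have hTmeas : Measurable fun ω => volume (T ω) := measurable_measure_prodMk_left hS
  have hWm : MeasurableSet W := measurableSet_le measurable_const hTmeas
  have hlow : ENNReal.ofReal δ * volume Θ ≤ (μ.prod volume) S := by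
    rw [Measure.prod_apply_symm hS]
    calc ENNReal.ofReal δ * volume Θ = ∫⁻ _ in Θ, ENNReal.ofReal δ := by
          rw [setLIntegral_const]
      _ ≤ ∫⁻ τ in Θ, μ ((fun ω => (ω, τ)) ⁻¹' S) := by
          refine setLIntegral_mono' hΘm fun τ hτ => ?_
          obtain ⟨m, hm⟩ := hDcov τ hτ
          refine ((hDs m hm).2).le.trans (measure_mono ?_)
          intro ω hω
          exact ⟨hτ, Set.mem_iUnion.2 ⟨m, hm, hω⟩⟩
      _ ≤ ∫⁻ τ, μ ((fun ω => (ω, τ)) ⁻¹' S) := setLIntegral_le_lintegral _ _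
  have hup : (μ.prod volume) S ≤ μ W + ENNReal.ofReal y2 * μ Set.univ := by
    rw [Measure.prod_apply hS]
    calc ∫⁻ ω, volume (T ω) ∂μ ≤ ∫⁻ ω, (W.indicator 1 ω + ENNReal.ofReal y2) ∂μ := by
          refine lintegral_mono fun ω => ?_
          by_cases hω : ω ∈ W
          · rw [Set.indicator_of_mem hω]
            exact (hTle ω).trans le_self_add
          · have h1 : volume (T ω) < ENNReal.ofReal y2 := not_le.1 hω
            exact h1.le.trans le_add_self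
      _ = μ W + ENNReal.ofReal y2 * μ Set.univ := by
          rw [lintegral_add_right _ measurable_const, lintegral_indicator_one hWm,
            lintegral_const]
  have hWbig : ENNReal.ofReal (δ * (volume Θ).toReal / 2) ≤ μ W := by
    have h1 := hlow.trans hup
    have h2 := ENNReal.toReal_mono (by
      exact ENNReal.add_ne_top.2 ⟨measure_ne_top _ _, ENNReal.mul_ne_top ENNReal.ofReal_ne_top
        (measure_ne_top _ _)⟩) h1
    rw [ENNReal.toReal_mul, ENNReal.toReal_ofReal hδ0.le, ENNReal.toReal_add (measure_ne_top _ _)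
      (ENNReal.mul_ne_top ENNReal.ofReal_ne_top (measure_ne_top _ _)), ENNReal.toReal_mul,
      ENNReal.toReal_ofReal hy20.le] at h2
    have h3 : y2 * (μ Set.univ).toReal ≤ δ * (volume Θ).toReal / 2 := by
      rw [hy2, div_mul_eq_mul_div, div_le_div_iff₀ (by positivity) two_pos]
      have h4 : 0 ≤ δ * (volume Θ).toReal := by positivity
      nlinarith
    have h5 : δ * (volume Θ).toReal / 2 ≤ (μ W).toReal := by linarith
    exact (ENNReal.ofReal_le_ofReal h5).trans ENNReal.ofReal_toReal_le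
  -- one parameter for each slope
  have hsec : ∀ u : Fin d → ℝ, ∃ ω : Ω, u ∈ v '' W → ω ∈ W ∧ v ω = u := by
    intro u
    by_cases hu : u ∈ v '' W
    · obtain ⟨ω, h1, h2⟩ := hu
      exact ⟨ω, fun _ => ⟨h1, h2⟩⟩
    · have hne : Nonempty Ω := by
        by_contra hem
        rw [not_nonempty_iff] at hem
        have h1 : μ W = 0 := by
          rw [Set.eq_empty_of_isEmpty W, measure_empty]
        rw [h1] at hWbig
        have h2 := ENNReal.ofReal_eq_zero.1 (le_antisymm hWbig zero_le)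
        have h3 : 0 < δ * (volume Θ).toReal / 2 := by positivity
        linarith
      exact ⟨hne.some, fun h => absurd h hu⟩
  choose σ hσ using hsec
  refine ⟨v '' W, fun u => b (σ u), fun u => T (σ u), Dd, e, ?_, ?_, fun u _ => hTm _,
    fun u _ => hTsub _, fun u hu => (hσ u hu).1, hDm, disjoint_disjointed O,
    fun m t ht => (hDs m ht).1, ?_⟩
  · rintro u ⟨ω, -, rfl⟩ i
    exact hv1 ω i
  · by_contra hlt
    rw [not_le, ← measure_toMeasurable] at hlt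
    have h1 := hy1 _ (measurableSet_toMeasurable _ _) hlt
    rw [Measure.map_apply hv (measurableSet_toMeasurable _ _)] at h1
    have h2 : μ W ≤ μ (v ⁻¹' toMeasurable volume (v '' W)) := by
      refine measure_mono fun ω hω => ?_
      exact subset_toMeasurable _ _ ⟨ω, hω, rfl⟩
    exact absurd (hWbig.trans h2) (not_le.2 h1)
  · rintro u hu τ ⟨-, hτ⟩
    obtain ⟨m, hm1, hm2⟩ := Set.mem_iUnion.1 hτ
    refine ⟨m, hm1, ?_⟩
    have h1 : (fun i => b (σ u) i + τ * u i) = F (σ u, τ) := by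
      funext i
      change b (σ u) i + τ * u i = b (σ u) i + τ * v (σ u) i
      rw [(hσ u hu).2]
    change (fun i => b (σ u) i + τ * u i) ∈ OC (e m)
    rw [h1]
    exact hm2

end Pool.Agent.H951.KS
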