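import Pool.Agent.H951.KS.Sep

/-!
# Separated heights with small covers: two slices
-/

set_option autoImplicit false
set_option maxHeartbeats 1000000

open MeasureTheory
open scoped Classical ENNReal NNReal

namespace Pool.Agent.H951.KS

open Pool.Agent.W605.HD Pool.Agent.W46.HD Pool.Agent.Y254HK

theorem pair_le {d k : ℕ} {Ω : Type*} [MeasurableSpace Ω] (μ : Measure Ω)
    (b v : Ω → Fin d → ℝ) (M B r : ℝ) (hM : 0 ≤ M) (hB : 0 ≤ B) (hr : 0 < r) (hr1 : r ≤ 1)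
    (hQ : ∀ q : Fin d → ℤ, μ {ω | ∀ i, ⌊(2 : ℝ) ^ k * v ω i⌋ = q i} ≤
      ENNReal.ofReal (M / ((2 : ℝ) ^ k) ^ d))
    (t t' : ℝ) (ht : r ≤ |t - t'|) (Z Z' : Finset (Fin d → ℤ)) (hZ : (Z.card : ℝ) ≤ B)
    (hZ' : (Z'.card : ℝ) ≤ B) (W W' : Set Ω)
    (hW : ∀ ω ∈ W, ∃ z ∈ Z, ∀ i, |(2 : ℝ) ^ k * (b ω i + t * v ω i) - z i| < 3)
    (hW' : ∀ ω ∈ W', ∃ z ∈ Z', ∀ i, |(2 : ℝ) ^ k * (b ω i + t' * v ω i) - z i| < 3) :
    μ (W ∩ W') ≤ ENNReal.ofReal (B ^ 2 * (14 / r) ^ d * (M / ((2 : ℝ) ^ k) ^ d)) := by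
  let lo : (Fin d → ℤ) → (Fin d → ℤ) → Fin d → ℤ := fun z z' i =>
    ⌊((z i : ℝ) - z' i) / (t - t') - 6 / r⌋
  let hi : (Fin d → ℤ) → (Fin d → ℤ) → Fin d → ℤ := fun z z' i =>
    ⌊((z i : ℝ) - z' i) / (t - t') + 6 / r⌋
  let box : (Fin d → ℤ) → (Fin d → ℤ) → Finset (Fin d → ℤ) := fun z z' =>
    Fintype.piFinset fun i => Finset.Icc (lo z z' i) (hi z z' i)
  have htt : 0 < |t - t'| := lt_of_lt_of_le hr ht
  have htt0 : t - t' ≠ 0 := abs_pos.1 htt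
  have hbox : ∀ z z', ((box z z').card : ℝ) ≤ (14 / r) ^ d := by
    intro z z'
    have h1 : ((box z z').card : ℝ) = ∏ i, (((Finset.Icc (lo z z' i) (hi z z' i)).card : ℕ) : ℝ) := by
      rw [← Nat.cast_prod, ← Fintype.card_piFinset]
    rw [h1]
    have h2 : ∀ i : Fin d, (((Finset.Icc (lo z z' i) (hi z z' i)).card : ℕ) : ℝ) ≤ 14 / r := by
      intro i
      rw [Int.card_Icc]
      have h3 : (hi z z' i : ℝ) ≤ ((z i : ℝ) - z' i) / (t - t') + 6 / r := Int.floor_le _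
      have h4 : ((z i : ℝ) - z' i) / (t - t') - 6 / r < (lo z z' i : ℝ) + 1 :=
        Int.lt_floor_add_one _
      have h5 : lo z z' i ≤ hi z z' i := by
        refine Int.floor_le_floor ?_
        have : 0 < 6 / r := by positivity
        linarith
      have h6 : 0 ≤ hi z z' i + 1 - lo z z' i := by omega
      have h7 : (((hi z z' i + 1 - lo z z' i).toNat : ℕ) : ℝ) =
          ((hi z z' i + 1 - lo z z' i : ℤ) : ℝ) := by
        have := Int.toNat_of_nonneg h6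
        exact_mod_cast this
      rw [h7]
      push_cast
      have h8 : (14 : ℝ) / r = 6 / r + 6 / r + 2 / r := by ring
      have h9 : 2 ≤ 2 / r := by
        rw [le_div_iff₀ hr]
        linarith
      linarith
    calc ∏ i, (((Finset.Icc (lo z z' i) (hi z z' i)).card : ℕ) : ℝ) ≤ ∏ _i : Fin d, (14 / r) :=
          Finset.prod_le_prod (fun i _ => Nat.cast_nonneg _) fun i _ => h2 i
      _ = (14 / r) ^ d := by rw [Finset.prod_const, Finset.card_univ, Fintype.card_fin]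
  let S : Finset (Fin d → ℤ) := Z.biUnion fun z => Z'.biUnion fun z' => box z z'
  have hS : (S.card : ℝ) ≤ B ^ 2 * (14 / r) ^ d := by
    have h1 : (S.card : ℝ) ≤ ∑ z ∈ Z, ∑ z' ∈ Z', ((box z z').card : ℝ) := by
      have h2 : S.card ≤ ∑ z ∈ Z, ∑ z' ∈ Z', (box z z').card := by
        refine Finset.card_biUnion_le.trans (Finset.sum_le_sum fun z _ => ?_)
        exact Finset.card_biUnion_le
      exact_mod_cast h2
    refine h1.trans ?_
    have h3 : ∀ z ∈ Z, ∑ z' ∈ Z', ((box z z').card : ℝ) ≤ B * (14 / r) ^ d := by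
      intro z _
      refine (Finset.sum_le_sum fun z' _ => hbox z z').trans ?_
      rw [Finset.sum_const, nsmul_eq_mul]
      exact mul_le_mul_of_nonneg_right hZ' (by positivity)
    refine (Finset.sum_le_sum h3).trans ?_
    rw [Finset.sum_const, nsmul_eq_mul]
    have h4 := mul_le_mul_of_nonneg_right hZ (by positivity : 0 ≤ B * (14 / r) ^ d)
    linarith
  have hcov : W ∩ W' ⊆ ⋃ q ∈ S, {ω | ∀ i, ⌊(2 : ℝ) ^ k * v ω i⌋ = q i} := by
    rintro ω ⟨h1, h2⟩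
    obtain ⟨z, hz, h3⟩ := hW ω h1
    obtain ⟨z', hz', h4⟩ := hW' ω h2
    refine Set.mem_iUnion₂.2 ⟨fun i => ⌊(2 : ℝ) ^ k * v ω i⌋, ?_, fun i => rfl⟩
    refine Finset.mem_biUnion.2 ⟨z, hz, Finset.mem_biUnion.2 ⟨z', hz', Fintype.mem_piFinset.2
      fun i => ?_⟩⟩
    have h5 := abs_lt.1 (h3 i)
    have h6 := abs_lt.1 (h4 i)
    have h7 : |(t - t') * ((2 : ℝ) ^ k * v ω i - ((z i : ℝ) - z' i) / (t - t'))| < 6 := by
      have e1 : (t - t') * ((2 : ℝ) ^ k * v ω i - ((z i : ℝ) - z' i) / (t - t')) =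
          ((2 : ℝ) ^ k * (b ω i + t * v ω i) - z i) -
            ((2 : ℝ) ^ k * (b ω i + t' * v ω i) - z' i) := by
        field_simp
        ring
      rw [e1, abs_lt]
      constructor <;> linarith [h5.1, h5.2, h6.1, h6.2]
    rw [abs_mul] at h7
    have h8 : |(2 : ℝ) ^ k * v ω i - ((z i : ℝ) - z' i) / (t - t')| < 6 / r := by
      rw [lt_div_iff₀ hr]
      have h9 := mul_le_mul_of_nonneg_right ht
        (abs_nonneg ((2 : ℝ) ^ k * v ω i - ((z i : ℝ) - z' i) / (t - t')))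
      linarith
    have h9 := abs_lt.1 h8
    rw [Finset.mem_Icc]
    exact ⟨Int.floor_le_floor (by linarith [h9.1]), Int.floor_le_floor (by linarith [h9.2])⟩
  refine (measure_mono hcov).trans ((measure_biUnion_finset_le S _).trans ?_)
  refine (Finset.sum_le_sum fun q _ => hQ q).trans ?_
  rw [Finset.sum_const, nsmul_eq_mul, ← ENNReal.ofReal_natCast,
    ← ENNReal.ofReal_mul (Nat.cast_nonneg _)]
  refine ENNReal.ofReal_le_ofReal ?_
  exact mul_le_mul_of_nonneg_right hS (by positivity)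

theorem con2 {d k : ℕ} {Ω : Type*} [MeasurableSpace Ω] (μ : Measure Ω) [IsFiniteMeasure μ]
    (b v : Ω → Fin d → ℝ) (M x B r : ℝ) (hM : 0 ≤ M) (hx : 0 < x) (hB : 0 ≤ B) (hr : 0 < r)
    (hr1 : r ≤ 1)
    (hQ : ∀ q : Fin d → ℤ, μ {ω | ∀ i, ⌊(2 : ℝ) ^ k * v ω i⌋ = q i} ≤
      ENNReal.ofReal (M / ((2 : ℝ) ^ k) ^ d))
    (P : Finset ℝ) (hsep : ∀ t ∈ P, ∀ t' ∈ P, t ≠ t' → r ≤ |t - t'|)
    (Z : ℝ → Finset (Fin d → ℤ)) (hZ : ∀ t ∈ P, ((Z t).card : ℝ) ≤ B)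
    (W : ℝ → Set Ω) (hWm : ∀ t ∈ P, MeasurableSet (W t)) (hWx : ∀ t ∈ P, ENNReal.ofReal x ≤ μ (W t))
    (hWZ : ∀ t ∈ P, ∀ ω ∈ W t, ∃ z ∈ Z t, ∀ i, |(2 : ℝ) ^ k * (b ω i + t * v ω i) - z i| < 3)
    (hbig : 3 * (μ Set.univ).toReal / x < P.card) :
    x ^ 2 ≤ 6 * (μ Set.univ).toReal * (B ^ 2 * (14 / r) ^ d * (M / ((2 : ℝ) ^ k) ^ d)) := by
  obtain ⟨m0, hm0⟩ : ∃ m0 : ℝ, m0 = (μ Set.univ).toReal := ⟨_, rfl⟩
  have hm00 : 0 ≤ m0 := by rw [hm0]; exact ENNReal.toReal_nonneg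
  obtain ⟨η, hη⟩ : ∃ η : ℝ, η = B ^ 2 * (14 / r) ^ d * (M / ((2 : ℝ) ^ k) ^ d) := ⟨_, rfl⟩
  have hη0 : 0 ≤ η := by rw [hη]; positivity
  rw [← hm0] at hbig
  rw [← hη, ← hm0]
  have hPne : P.Nonempty := by
    rw [← Finset.card_pos]
    have h1 : (0 : ℝ) < P.card := lt_of_le_of_lt (by positivity) hbig
    exact_mod_cast h1
  have hμ : μ Set.univ = ENNReal.ofReal m0 := by
    rw [hm0, ENNReal.ofReal_toReal (measure_ne_top _ _)]
  have hxm : x ≤ m0 := by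
    obtain ⟨t, ht⟩ := hPne
    have h1 := (hWx t ht).trans (measure_mono (Set.subset_univ _))
    rw [hμ] at h1
    exact (ENNReal.ofReal_le_ofReal_iff hm00).1 h1
  have hm0pos : 0 < m0 := lt_of_lt_of_le hx hxm
  obtain ⟨m, hm⟩ : ∃ m : ℕ, m = ⌈2 * m0 / x⌉₊ := ⟨_, rfl⟩
  have hm1 : 2 * m0 / x ≤ m := by rw [hm]; exact Nat.le_ceil _
  have hm2 : (m : ℝ) < 2 * m0 / x + 1 := by
    rw [hm]
    exact Nat.ceil_lt_add_one (by positivity)
  have hone : 1 ≤ m0 / x := by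
    rw [le_div_iff₀ hx]
    linarith
  have hm3 : (m : ℝ) ≤ 3 * m0 / x := by
    have e1 : 2 * m0 / x = 2 * (m0 / x) := by ring
    have e2 : 3 * m0 / x = 3 * (m0 / x) := by ring
    rw [e1] at hm2
    rw [e2]
    linarith
  have hmP : m ≤ P.card := by
    have : (m : ℝ) < P.card := lt_of_le_of_lt hm3 hbig
    exact_mod_cast this.le
  obtain ⟨P', hP'1, hP'2⟩ := Finset.exists_subset_card_eq hmP
  have h1 := bonf μ W (ENNReal.ofReal η) P' (fun t ht => hWm t (hP'1 ht)) (by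
    intro t ht t' ht' hne
    rw [hη]
    exact pair_le μ b v M B r hM hB hr hr1 hQ t t' (hsep t (hP'1 ht) t' (hP'1 ht') hne) (Z t) (Z t')
      (hZ t (hP'1 ht)) (hZ t' (hP'1 ht')) (W t) (W t') (hWZ t (hP'1 ht)) (hWZ t' (hP'1 ht')))
  have h2 : (m : ℝ≥0∞) * ENNReal.ofReal x ≤ ∑ t ∈ P', μ (W t) := by
    rw [← hP'2, ← nsmul_eq_mul, ← Finset.sum_const]
    exact Finset.sum_le_sum fun t ht => hWx t (hP'1 ht)
  have h3 : (m : ℝ≥0∞) * ENNReal.ofReal x ≤ ENNReal.ofReal (m0 + (m : ℝ) ^ 2 * η) := by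
    refine (h2.trans h1).trans ?_
    rw [ENNReal.ofReal_add hm00 (by positivity), ENNReal.ofReal_mul (by positivity),
      ENNReal.ofReal_pow (Nat.cast_nonneg _), ENNReal.ofReal_natCast, hP'2, ← hμ]
    exact add_le_add (measure_mono (Set.subset_univ _)) le_rfl
  rw [← ENNReal.ofReal_natCast, ← ENNReal.ofReal_mul (Nat.cast_nonneg _),
    ENNReal.ofReal_le_ofReal_iff (by positivity)] at h3
  have hmpos : (0 : ℝ) < m := lt_of_lt_of_le (by positivity) hm1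
  have h4 : 2 * m0 ≤ m * x := by
    rw [div_le_iff₀ hx] at hm1
    exact hm1
  have h5 : (m : ℝ) * x ≤ 2 * ((m : ℝ) ^ 2 * η) := by linarith
  have h6 : x ≤ 2 * (m * η) := by
    have h7 : (m : ℝ) * x ≤ m * (2 * (m * η)) := by linarith
    exact le_of_mul_le_mul_left h7 hmpos
  have h7 : 2 * (m * η) ≤ 6 * m0 * η / x := by
    have h8 := mul_le_mul_of_nonneg_right hm3 hη0
    have e1 : 6 * m0 * η / x = 2 * (3 * m0 / x * η) := by ring
    rw [e1]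
    linarith
  have h8 := h6.trans h7
  rw [le_div_iff₀ hx] at h8
  linarith

end Pool.Agent.H951.KS
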