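import Mathlib

/-!
# A compact set of segments with small slices at many heights: the digits
-/

set_option autoImplicit false
set_option maxHeartbeats 1000000

open MeasureTheory Filter Topology
open scoped Classical ENNReal NNReal

namespace Pool.Agent.H951.KS

/-- the sequences of the construction -/
structure Seqs (q κ Y : ℕ → ℕ) : Prop where
  q0 : 1 ≤ q 0
  k2 : ∀ k, 2 ≤ κ k
  y1 : ∀ k, 1 ≤ Y k
  step : ∀ k, q (k + 1) = q k * (κ k * Y k)

/-- the digit `k`, as a number in `[0, 1)` -/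
noncomputable def bet (q Y : ℕ → ℕ) (k : ℕ) (v : ℝ) : ℝ :=
  (((⌊(q (k + 1) : ℝ) * v⌋₊ % Y k : ℕ)) : ℝ) / Y k

/-- the position of the line of slope `v` -/
noncomputable def bb (q Y : ℕ → ℕ) (v : ℝ) : ℝ := ∑' k, bet q Y k v / q k

section

variable {q κ Y : ℕ → ℕ}

theorem Seqs.qpos (h : Seqs q κ Y) (k : ℕ) : 1 ≤ q k := by
  induction k with
  | zero => exact h.q0
  | succ k ih =>
    rw [h.step k]
    exact Nat.mul_pos ih (Nat.mul_pos (by have := h.k2 k; omega) (h.y1 k))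

theorem Seqs.qR (h : Seqs q κ Y) (k : ℕ) : (0 : ℝ) < q k := by exact_mod_cast h.qpos k

theorem Seqs.yR (h : Seqs q κ Y) (k : ℕ) : (0 : ℝ) < Y k := by exact_mod_cast h.y1 k

theorem Seqs.kR (h : Seqs q κ Y) (k : ℕ) : (2 : ℝ) ≤ κ k := by exact_mod_cast h.k2 k

theorem Seqs.stepR (h : Seqs q κ Y) (k : ℕ) : (q (k + 1) : ℝ) = q k * (κ k * Y k) := by
  rw [h.step k]
  push_cast
  rfl

theorem Seqs.dbl (h : Seqs q κ Y) (k : ℕ) : 2 * q k ≤ q (k + 1) := by
  rw [h.step k]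
  have h1 : 2 * 1 ≤ κ k * Y k := Nat.mul_le_mul (h.k2 k) (h.y1 k)
  calc 2 * q k = q k * (2 * 1) := by ring
    _ ≤ q k * (κ k * Y k) := Nat.mul_le_mul_left _ h1

theorem Seqs.grow (h : Seqs q κ Y) (k i : ℕ) : 2 ^ i * q k ≤ q (k + i) := by
  induction i with
  | zero => simp
  | succ i ih =>
    have h1 := h.dbl (k + i)
    calc 2 ^ (i + 1) * q k = 2 * (2 ^ i * q k) := by ring
      _ ≤ 2 * q (k + i) := Nat.mul_le_mul_left _ ih
      _ ≤ q (k + i + 1) := h1

theorem Seqs.dvd (h : Seqs q κ Y) (k i : ℕ) : q k ∣ q (k + i) := by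
  induction i with
  | zero => exact dvd_refl _
  | succ i ih => exact ih.trans ⟨κ (k + i) * Y (k + i), h.step (k + i)⟩

theorem bet_nonneg (k : ℕ) (v : ℝ) : 0 ≤ bet q Y k v := by
  unfold bet
  positivity

theorem Seqs.bet_le (h : Seqs q κ Y) (k : ℕ) (v : ℝ) : bet q Y k v ≤ 1 := by
  unfold bet
  rw [div_le_one (h.yR k)]
  exact_mod_cast (Nat.mod_lt _ (h.y1 k)).le

theorem Seqs.term_le (h : Seqs q κ Y) (k i : ℕ) (v : ℝ) :
    bet q Y (i + k) v / q (i + k) ≤ (1 / q k) * (1 / 2) ^ i := by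
  have h1 := h.bet_le (i + k) v
  have h2 := h.grow k i
  have h3 : (2 : ℝ) ^ i * q k ≤ q (i + k) := by
    rw [add_comm i k]
    exact_mod_cast h2
  have h4 := h.qR k
  have h5 := h.qR (i + k)
  calc bet q Y (i + k) v / q (i + k) ≤ 1 / q (i + k) := div_le_div_of_nonneg_right h1 h5.le
    _ ≤ 1 / ((2 : ℝ) ^ i * q k) := one_div_le_one_div_of_le (by positivity) h3
    _ = (1 / q k) * (1 / 2) ^ i := by
        rw [one_div_pow]
        field_simp

theorem Seqs.summ (h : Seqs q κ Y) (k : ℕ) (v : ℝ) :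
    Summable fun i => bet q Y (i + k) v / q (i + k) := by
  refine Summable.of_nonneg_of_le (fun i => ?_) (fun i => h.term_le k i v)
    ((summable_geometric_of_lt_one (by norm_num) (by norm_num)).mul_left _)
  exact div_nonneg (bet_nonneg _ _) (Nat.cast_nonneg _)

theorem Seqs.tail_le (h : Seqs q κ Y) (k : ℕ) (v : ℝ) :
    0 ≤ ∑' i, bet q Y (i + k) v / q (i + k) ∧ ∑' i, bet q Y (i + k) v / q (i + k) ≤ 2 / q k := by
  constructor
  · exact tsum_nonneg fun i => div_nonneg (bet_nonneg _ _) (Nat.cast_nonneg _)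
  · have h1 : Summable fun i : ℕ => (1 / (q k : ℝ)) * (1 / 2) ^ i :=
      (summable_geometric_of_lt_one (by norm_num) (by norm_num)).mul_left _
    refine ((h.summ k v).tsum_le_tsum (fun i => h.term_le k i v) h1).trans (le_of_eq ?_)
    rw [tsum_mul_left, tsum_geometric_of_lt_one (by norm_num) (by norm_num)]
    ring

theorem Seqs.bb_split (h : Seqs q κ Y) (k : ℕ) (v : ℝ) :
    bb q Y v = ∑ i ∈ Finset.range k, bet q Y i v / q i + bet q Y k v / q k +
      ∑' i, bet q Y (i + (k + 1)) v / q (i + (k + 1)) := by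
  have h1 := (h.summ 0 v).sum_add_tsum_nat_add (k + 1)
  simp only [add_zero] at h1
  unfold bb
  rw [← h1, Finset.sum_range_succ]

theorem Seqs.bb_bd (h : Seqs q κ Y) (v : ℝ) : 0 ≤ bb q Y v ∧ bb q Y v ≤ 2 := by
  have h1 := h.tail_le 0 v
  simp only [add_zero] at h1
  refine ⟨h1.1, h1.2.trans ?_⟩
  have h2 : (1 : ℝ) ≤ q 0 := by exact_mod_cast h.q0
  rw [div_le_iff₀ (h.qR 0)]
  linarith

/-- the digits up to the level `k` only depend on the floor -/
noncomputable def cA (q Y : ℕ → ℕ) (k A : ℕ) : ℝ :=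
  ∑ i ∈ Finset.range k, ((((A / (q k / q (i + 1))) % Y i : ℕ)) : ℝ) / Y i / q i

theorem Seqs.digits (h : Seqs q κ Y) (k : ℕ) (v : ℝ) :
    ∑ i ∈ Finset.range k, bet q Y i v / q i = cA q Y k ⌊(q k : ℝ) * v⌋₊ := by
  unfold cA
  refine Finset.sum_congr rfl fun i hi => ?_
  have hik : i + 1 ≤ k := Finset.mem_range.1 hi
  obtain ⟨j, rfl⟩ := Nat.exists_eq_add_of_le hik
  obtain ⟨e, he⟩ := h.dvd (i + 1) j
  have hq1 := h.qpos (i + 1)
  have hq2 := h.qpos (i + 1 + j)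
  have he0 : 0 < e := by
    rcases Nat.eq_zero_or_pos e with h0 | h0
    · rw [h0, mul_zero] at he
      omega
    · exact h0
  have h1 : q (i + 1 + j) / q (i + 1) = e := by
    rw [he]
    exact Nat.mul_div_cancel_left _ hq1
  have h2 : ⌊(q (i + 1) : ℝ) * v⌋₊ = ⌊(q (i + 1 + j) : ℝ) * v⌋₊ / e := by
    rw [← Nat.floor_div_natCast]
    congr 1
    rw [he]
    have : (e : ℝ) ≠ 0 := by exact_mod_cast he0.ne'
    push_cast
    field_simp
  unfold bet
  rw [h1, h2]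

/-- the centres of the cover at the level `k` -/
noncomputable def CC (q κ Y : ℕ → ℕ) (k x : ℕ) : Finset ℝ :=
  ((Finset.range (q k)) ×ˢ (Finset.range (2 * Y k + 1))).image fun z =>
    cA q Y k z.1 + (κ k * x / ((Y k : ℝ) - x)) * z.1 / q k + z.2 / (q k * ((Y k : ℝ) - x))

theorem CC_card (k x : ℕ) : (CC q κ Y k x).card ≤ q k * (2 * Y k + 1) := by
  refine Finset.card_image_le.trans ?_
  rw [Finset.card_product, Finset.card_range, Finset.card_range]

theorem Seqs.cover1 (h : Seqs q κ Y) (k x : ℕ) (hx : x < Y k)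
    (hx2 : (κ k : ℝ) * x ≤ (Y k : ℝ) - x) (t v : ℝ) (hv0 : 0 ≤ v) (hv1 : v < 1)
    (ht : |t - κ k * x / ((Y k : ℝ) - x)| ≤ 2 / q (k + 1)) :
    ∃ y ∈ CC q κ Y k x, |bb q Y v + t * v - y| ≤ 5 / q (k + 1) := by
  obtain ⟨τ, hτ⟩ : ∃ τ : ℝ, τ = κ k * x / ((Y k : ℝ) - x) := ⟨_, rfl⟩
  have hYx : (0 : ℝ) < (Y k : ℝ) - x := by
    have : (x : ℝ) < Y k := by exact_mod_cast hx
    linarith
  have hκ := h.kR k
  have hY := h.yR k
  have hq := h.qR k
  have hq' := h.qR (k + 1)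
  have hstep := h.stepR k
  have hτ1 : τ ≤ 1 := by rw [hτ, div_le_one hYx]; exact hx2
  have hτ0 : 0 ≤ τ := by rw [hτ]; positivity
  rw [← hτ] at ht
  obtain ⟨V, hV⟩ : ∃ V : ℕ, V = ⌊(q (k + 1) : ℝ) * v⌋₊ := ⟨_, rfl⟩
  obtain ⟨A, hA⟩ : ∃ A : ℕ, A = ⌊(q k : ℝ) * v⌋₊ := ⟨_, rfl⟩
  have hκY : 0 < κ k * Y k := Nat.mul_pos (by have := h.k2 k; omega) (h.y1 k)
  have hAV : A = V / (κ k * Y k) := by
    rw [hA, hV, ← Nat.floor_div_natCast]
    congr 1
    rw [hstep]
    have : ((κ k * Y k : ℕ) : ℝ) ≠ 0 := by exact_mod_cast hκY.ne'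
    push_cast at this ⊢
    field_simp
  obtain ⟨r, hr⟩ : ∃ r : ℕ, r = V % (κ k * Y k) := ⟨_, rfl⟩
  have hrlt : r < κ k * Y k := by rw [hr]; exact Nat.mod_lt _ hκY
  have hVr : V = A * (κ k * Y k) + r := by
    rw [hAV, hr, mul_comm]
    exact (Nat.div_add_mod V (κ k * Y k)).symm
  obtain ⟨m, hm⟩ : ∃ m : ℕ, m = r / Y k := ⟨_, rfl⟩
  obtain ⟨j, hj⟩ : ∃ j : ℕ, j = r % Y k := ⟨_, rfl⟩
  have hrmj : r = m * Y k + j := by
    rw [hm, hj, mul_comm]
    exact (Nat.div_add_mod r (Y k)).symm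
  have hmlt : m < κ k := by
    rw [hm]
    exact Nat.div_lt_of_lt_mul (by rw [mul_comm]; exact hrlt)
  have hjlt : j < Y k := by rw [hj]; exact Nat.mod_lt _ (h.y1 k)
  have hVmod : V % Y k = j := by
    rw [hVr, hrmj]
    have e1 : A * (κ k * Y k) + (m * Y k + j) = j + Y k * (A * κ k + m) := by ring
    rw [e1, Nat.add_mul_mod_self_left, Nat.mod_eq_of_lt hjlt]
  have hAlt : A < q k := by
    rw [hA, Nat.floor_lt (by positivity)]
    nlinarith
  refine ⟨cA q Y k A + (κ k * x / ((Y k : ℝ) - x)) * A / q k +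
    ((j + x * m : ℕ) : ℝ) / (q k * ((Y k : ℝ) - x)), ?_, ?_⟩
  · refine Finset.mem_image.2 ⟨(A, j + x * m), Finset.mem_product.2 ⟨Finset.mem_range.2 hAlt,
      Finset.mem_range.2 ?_⟩, rfl⟩
    have h1 : x * m ≤ x * κ k := Nat.mul_le_mul_left _ hmlt.le
    have h2 : κ k * x ≤ Y k := by
      have : (κ k : ℝ) * x ≤ Y k := by
        have : (0 : ℝ) ≤ x := Nat.cast_nonneg _
        linarith
      exact_mod_cast this
    rw [mul_comm x (κ k)] at h1
    change j + x * m < 2 * Y k + 1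
    omega
  · rw [← hτ, h.bb_split k v, h.digits k v, ← hA]
    have hbet : bet q Y k v = (j : ℝ) / Y k := by
      unfold bet
      rw [← hV, hVmod]
    rw [hbet]
    obtain ⟨tl, htl⟩ : ∃ tl : ℝ, tl = ∑' i, bet q Y (i + (k + 1)) v / q (i + (k + 1)) := ⟨_, rfl⟩
    have htl2 := h.tail_le (k + 1) v
    rw [← htl] at htl2 ⊢
    obtain ⟨e, he⟩ : ∃ e : ℝ, e = v - V / q (k + 1) := ⟨_, rfl⟩
    have hfl1 : (V : ℝ) ≤ q (k + 1) * v := by
      rw [hV]
      exact Nat.floor_le (by positivity)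
    have hfl2 : (q (k + 1) : ℝ) * v < V + 1 := by
      rw [hV]
      exact Nat.lt_floor_add_one _
    have he0 : 0 ≤ e := by
      rw [he, sub_nonneg, div_le_iff₀ hq']
      linarith
    have he1 : e ≤ 1 / q (k + 1) := by
      rw [he, sub_le_iff_le_add, ← add_div, le_div_iff₀ hq']
      linarith
    have hVR : (V : ℝ) / q (k + 1) = A / q k + (m * Y k + j) / q (k + 1) := by
      rw [hVr, hrmj, hstep]
      have h1 : (κ k : ℝ) ≠ 0 := by linarith
      have h2 : (Y k : ℝ) ≠ 0 := hY.ne'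
      have h3 : (q k : ℝ) ≠ 0 := hq.ne'
      push_cast
      field_simp
    have hv : v = A / q k + (m * Y k + j) / q (k + 1) + e := by
      rw [← hVR, he]
      ring
    have key : cA q Y k A + (j : ℝ) / Y k / q k + tl + t * v -
        (cA q Y k A + τ * A / q k + ((j + x * m : ℕ) : ℝ) / (q k * ((Y k : ℝ) - x))) =
        tl + (t - τ) * v + τ * e := by
      have h4 : (j : ℝ) / Y k / q k + τ * ((m * Y k + j) / q (k + 1)) =
          ((j + x * m : ℕ) : ℝ) / (q k * ((Y k : ℝ) - x)) := by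
        rw [hτ, hstep]
        have h1 : (κ k : ℝ) ≠ 0 := by linarith
        have h2 : (Y k : ℝ) ≠ 0 := hY.ne'
        have h3 : (q k : ℝ) ≠ 0 := hq.ne'
        have h5 : (Y k : ℝ) - x ≠ 0 := hYx.ne'
        push_cast
        field_simp
        ring
      have h5 : t * v = (t - τ) * v + τ * v := by ring
      rw [h5]
      nth_rewrite 2 [hv]
      rw [← h4]
      ring
    rw [key]
    have h6 : |(t - τ) * v| ≤ 2 / q (k + 1) := by
      rw [abs_mul, abs_of_nonneg hv0]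
      calc |t - τ| * v ≤ (2 / q (k + 1)) * 1 :=
            mul_le_mul ht hv1.le hv0 (by positivity)
        _ = 2 / q (k + 1) := mul_one _
    have h7 : |τ * e| ≤ 1 / q (k + 1) := by
      rw [abs_mul, abs_of_nonneg hτ0, abs_of_nonneg he0]
      calc τ * e ≤ 1 * (1 / q (k + 1)) := mul_le_mul hτ1 he1 he0 (by norm_num)
        _ = 1 / q (k + 1) := one_mul _
    have h8 : |tl| ≤ 2 / q (k + 1) := by
      rw [abs_of_nonneg htl2.1]
      exact htl2.2
    calc |tl + (t - τ) * v + τ * e| ≤ |tl| + |(t - τ) * v| + |τ * e| := abs_add_three _ _ _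
      _ ≤ 2 / q (k + 1) + 2 / q (k + 1) + 1 / q (k + 1) := by linarith
      _ = 5 / q (k + 1) := by ring

end

end Pool.Agent.H951.KS
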