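import Pool.Agent.H951.KS.SliceA

/-!
# Slices in all directions
-/

set_option autoImplicit false

open MeasureTheory
open scoped Classical ENNReal NNReal

namespace Pool.Agent.H951.KS

open Pool.Agent.W605.HD Pool.Agent.W46.HD Pool.Agent.Y254HK Pool.Agent.Y674.HK

theorem dimH_slice_le (d : ℕ) (K : Set (EuclideanSpace ℝ (Fin (d + 1)))) (t : ℝ) :
    dimH (slice d K t) ≤ dimH (K ∩ {x | x 0 = t}) := by
  have h1 : slice d K t = tl d '' (K ∩ {x | x 0 = t}) := by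
    ext y
    constructor
    · intro hy
      exact ⟨pt d t y, ⟨hy, rfl⟩, tl_pt d t y⟩
    · rintro ⟨x, ⟨hx, rfl⟩, rfl⟩
      change pt d (x 0) (tl d x) ∈ K
      rw [pt_tl]
      exact hx
  rw [h1]
  have h2 : LipschitzWith 1 (tl d) := by
    refine LipschitzWith.of_dist_le_mul fun x y => ?_
    rw [NNReal.coe_one, one_mul, dist_pi_le_iff dist_nonneg]
    intro i
    rw [Real.dist_eq]
    exact coord_dist x y (Fin.succ i)
  exact h2.dimH_image_le _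

/-- countable approximation from below -/
theorem exists_mid (x : ℝ≥0∞) (β : ℝ) (hx : x < ENNReal.ofReal β) :
    ∃ q : ℕ × ℕ, x < ((q.1 : ℝ≥0) / ((q.2 : ℝ≥0) + 1) : ℝ≥0) ∧
      ((((q.1 : ℝ≥0) / ((q.2 : ℝ≥0) + 1) : ℝ≥0)) : ℝ) < β := by
  obtain ⟨r, hr1, hr2⟩ := ENNReal.lt_iff_exists_rat_btwn.1 hx
  obtain ⟨hr0, hr2⟩ := hr2
  have hnum : 0 ≤ r.num := Rat.num_nonneg.2 hr1
  obtain ⟨m, hm⟩ : ∃ m : ℕ, r.den = m + 1 := ⟨r.den - 1, by have := r.den_pos; omega⟩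
  have e : (((r.num.toNat : ℕ) : ℝ≥0) / ((m : ℝ≥0) + 1) : ℝ≥0) =
      Real.toNNReal (r : ℝ) := by
    apply NNReal.eq
    rw [Real.coe_toNNReal _ (by exact_mod_cast hr1)]
    have h3 : ((r.num.toNat : ℕ) : ℝ) = (r.num : ℝ) := by
      have : ((r.num.toNat : ℕ) : ℤ) = r.num := Int.toNat_of_nonneg hnum
      exact_mod_cast this
    have h4 : ((m : ℝ) + 1) = (r.den : ℝ) := by
      rw [hm]
      push_cast
      rfl
    have h5 : ((((r.num.toNat : ℕ) : ℝ≥0) / ((m : ℝ≥0) + 1) : ℝ≥0) : ℝ) =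
        ((r.num.toNat : ℕ) : ℝ) / ((m : ℝ) + 1) := by
      push_cast
      rfl
    rw [h5, h3, h4]
    exact (Rat.cast_def r).symm
  refine ⟨(r.num.toNat, m), ?_, ?_⟩
  · rw [e]
    exact hr0
  · rw [e]
    rw [Real.coe_toNNReal _ (by exact_mod_cast hr1)]
    have h4 : ENNReal.ofReal (r : ℝ) < ENNReal.ofReal β := hr2
    exact (ENNReal.ofReal_lt_ofReal_iff_of_nonneg (by exact_mod_cast hr1)).1 h4

/-- The property of a vector `e`: the lines parallel to `e` meet the horizontal slices of small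
dimension in length zero. -/
def Hor (d : ℕ) (K : Set (EuclideanSpace ℝ (Fin (d + 1)))) (β : ℝ)
    (e : EuclideanSpace ℝ (Fin (d + 1))) : Prop :=
  ∀ a : EuclideanSpace ℝ (Fin (d + 1)), ∀ᵐ s : ℝ, a + s • e ∈ K →
    ENNReal.ofReal β ≤ dimH (K ∩ {x | x 0 = (a + s • e) 0})

theorem A2 (d : ℕ) (c : ℝ) (hc : 1 ≤ c) (hD : ∀ c' : ℝ, c < c' → DenseG d c')
    (K : Set (EuclideanSpace ℝ (Fin (d + 1)))) (hK : IsCompact K) :
    ∀ᵐ e : EuclideanSpace ℝ (Fin (d + 1)), Hor d K (d / c) e := by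
  obtain ⟨N, hN⟩ : ∃ N : Set (Fin d → ℝ), N = toMeasurable volume (⋃ q : ℕ × ℕ,
    ⋃ _ : ((((q.1 : ℝ≥0) / ((q.2 : ℝ≥0) + 1) : ℝ≥0)) : ℝ) < d / c,
      NN d K ((q.1 : ℝ≥0) / ((q.2 : ℝ≥0) + 1))) := ⟨_, rfl⟩
  have hNm : MeasurableSet N := by rw [hN]; exact measurableSet_toMeasurable _ _
  have hN0 : volume N = 0 := by
    rw [hN, measure_toMeasurable]
    refine measure_iUnion_null fun q => measure_iUnion_null fun hq => A1 d c hc hD K hK _ hq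
  have h0 := cone_null d hNm hN0
  rw [ae_iff]
  refine measure_mono_null ?_ h0
  intro e he
  change ¬ Hor d K (d / c) e at he
  by_cases he0 : e 0 = 0
  · exact Or.inl he0
  right
  obtain ⟨a, ha⟩ := not_forall.1 he
  rw [ae_iff] at ha
  -- the change of variable
  obtain ⟨b, hb⟩ : ∃ b : Fin d → ℝ, b = fun i => a (Fin.succ i) - a 0 * sl d e i := ⟨_, rfl⟩
  have hpt : ∀ s : ℝ, a + s • e = pt d (a 0 + s * e 0)
      (fun i => b i + (a 0 + s * e 0) * sl d e i) := by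
    intro s
    ext l
    refine Fin.cases ?_ (fun i => ?_) l
    · simp only [PiLp.add_apply, PiLp.smul_apply, smul_eq_mul, pt_zero]
    · simp only [PiLp.add_apply, PiLp.smul_apply, smul_eq_mul, pt_succ, sl, hb]
      field_simp
      ring
  have hsub : {s : ℝ | ¬ (a + s • e ∈ K → ENNReal.ofReal (d / c) ≤
      dimH (K ∩ {x | x 0 = (a + s • e) 0}))} ⊆ ⋃ q : ℕ × ℕ,
      ⋃ _ : ((((q.1 : ℝ≥0) / ((q.2 : ℝ≥0) + 1) : ℝ≥0)) : ℝ) < d / c,
      (fun s : ℝ => s * e 0) ⁻¹' ((fun s : ℝ => a 0 + s) ⁻¹'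
        {t : ℝ | dimH (slice d K t) < ((q.1 : ℝ≥0) / ((q.2 : ℝ≥0) + 1) : ℝ≥0) ∧
          pt d t (fun i => b i + t * sl d e i) ∈ K}) := by
    intro s hs
    change ¬ (a + s • e ∈ K → ENNReal.ofReal (d / c) ≤
      dimH (K ∩ {x | x 0 = (a + s • e) 0})) at hs
    push Not at hs
    obtain ⟨hs1, hs2⟩ := hs
    have hs3 : (a + s • e) 0 = a 0 + s * e 0 := by
      simp only [PiLp.add_apply, PiLp.smul_apply, smul_eq_mul]
    rw [hs3] at hs2
    obtain ⟨q, hq1, hq2⟩ := exists_mid _ _ ((dimH_slice_le d K _).trans_lt hs2)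
    refine Set.mem_iUnion₂.2 ⟨q, hq2, hq1, ?_⟩
    rw [← hpt s]
    exact hs1
  have hex : ∃ q : ℕ × ℕ, ((((q.1 : ℝ≥0) / ((q.2 : ℝ≥0) + 1) : ℝ≥0)) : ℝ) < d / c ∧
      volume ((fun s : ℝ => s * e 0) ⁻¹' ((fun s : ℝ => a 0 + s) ⁻¹'
        {t : ℝ | dimH (slice d K t) < ((q.1 : ℝ≥0) / ((q.2 : ℝ≥0) + 1) : ℝ≥0) ∧
          pt d t (fun i => b i + t * sl d e i) ∈ K})) ≠ 0 := by
    by_contra hno
    push Not at hno
    refine ha (measure_mono_null hsub (measure_iUnion_null fun q => measure_iUnion_null fun hq =>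
      hno q hq))
  obtain ⟨q, hq, hq2⟩ := hex
  rw [Real.volume_preimage_mul_right he0, measure_preimage_add] at hq2
  rw [hN]
  apply subset_toMeasurable
  refine Set.mem_iUnion₂.2 ⟨q, hq, b, ?_⟩
  intro h
  exact hq2 (by rw [h, mul_zero])

/-- a rotation which sends a given unit vector to the first axis -/
theorem exists_rot (d : ℕ) (ν : EuclideanSpace ℝ (Fin (d + 1))) (hν : ‖ν‖ = 1) :
    ∃ L : EuclideanSpace ℝ (Fin (d + 1)) ≃ₗᵢ[ℝ] EuclideanSpace ℝ (Fin (d + 1)),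
      ∀ x, (L x) 0 = inner ℝ x ν := by
  obtain ⟨e0, he0⟩ : ∃ e0 : EuclideanSpace ℝ (Fin (d + 1)),
    e0 = EuclideanSpace.single 0 (1 : ℝ) := ⟨_, rfl⟩
  have hn : ‖e0‖ = 1 := by rw [he0]; simp
  have h1 : ‖ν‖ = ‖e0‖ := by rw [hν, hn]
  obtain ⟨L, hL⟩ : ∃ L : EuclideanSpace ℝ (Fin (d + 1)) ≃ₗᵢ[ℝ] EuclideanSpace ℝ (Fin (d + 1)),
    L = Submodule.reflection (Submodule.span ℝ {ν - e0})ᗮ := ⟨_, rfl⟩
  refine ⟨L, fun x => ?_⟩
  have h2 : L ν = e0 := by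
    rw [hL]
    exact Submodule.reflection_sub h1
  have h3 : ∀ y : EuclideanSpace ℝ (Fin (d + 1)), y 0 = inner ℝ y e0 := by
    intro y
    rw [he0, EuclideanSpace.inner_single_right]
    simp
  have h4 : inner ℝ (L x) e0 = inner ℝ (L x) (L ν) := by rw [h2]
  rw [h3, h4, LinearIsometryEquiv.inner_map_map]

/-- all directions of the slices -/
theorem A3 (d : ℕ) (c : ℝ) (hc : 1 ≤ c) (hD : ∀ c' : ℝ, c < c' → DenseG d c')
    (K : Set (EuclideanSpace ℝ (Fin (d + 1)))) (hK : IsSigmaCompact K)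
    (ν : EuclideanSpace ℝ (Fin (d + 1))) (hν : ‖ν‖ = 1) :
    ∀ᵐ e : EuclideanSpace ℝ (Fin (d + 1)), ∀ a : EuclideanSpace ℝ (Fin (d + 1)), ∀ᵐ s : ℝ,
      a + s • e ∈ K → ENNReal.ofReal (d / c) ≤
        dimH (K ∩ {x | inner ℝ x ν = inner ℝ (a + s • e) ν}) := by
  obtain ⟨Kj, hKj, hKU⟩ := hK
  obtain ⟨L, hL⟩ := exists_rot d ν hν
  have h1 : ∀ᵐ e : EuclideanSpace ℝ (Fin (d + 1)), ∀ j, Hor d (L '' Kj j) (d / c) (L e) := by
    rw [ae_all_iff]
    intro j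
    have h2 := A2 d c hc hD (L '' Kj j) ((hKj j).image L.continuous)
    exact L.measurePreserving.quasiMeasurePreserving.ae h2
  filter_upwards [h1] with e he a
  have h3 : ∀ᵐ s : ℝ, ∀ j, L a + s • L e ∈ L '' Kj j → ENNReal.ofReal (d / c) ≤
      dimH (L '' Kj j ∩ {x | x 0 = (L a + s • L e) 0}) := by
    rw [ae_all_iff]
    intro j
    exact he j (L a)
  filter_upwards [h3] with s hs hmem
  rw [← hKU] at hmem
  obtain ⟨j, hj⟩ := Set.mem_iUnion.1 hmem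
  have e1 : L a + s • L e = L (a + s • e) := by rw [map_add, map_smul]
  have h4 := hs j (by rw [e1]; exact ⟨_, hj, rfl⟩)
  refine h4.trans ?_
  have h5 : L '' Kj j ∩ {x | x 0 = (L a + s • L e) 0} =
      L '' (Kj j ∩ {x | inner ℝ x ν = inner ℝ (a + s • e) ν}) := by
    rw [e1]
    ext y
    constructor
    · rintro ⟨⟨x, hx, rfl⟩, hy⟩
      refine ⟨x, ⟨hx, ?_⟩, rfl⟩
      change (L x) 0 = (L (a + s • e)) 0 at hy
      rw [hL, hL] at hy
      exact hy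
    · rintro ⟨x, ⟨hx, hx2⟩, rfl⟩
      refine ⟨⟨x, hx, rfl⟩, ?_⟩
      change (L x) 0 = (L (a + s • e)) 0
      rw [hL, hL]
      exact hx2
  rw [h5, L.isometry.dimH_image]
  refine dimH_mono (Set.inter_subset_inter_left _ ?_)
  rw [← hKU]
  exact Set.subset_iUnion _ _

end Pool.Agent.H951.KS
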