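import Pool.Agent.H951.KS.Shp1
import Pool.Agent.H951.KS.SliceB

/-!
# A compact set of segments with small slices at many heights: the slices
-/

set_option autoImplicit false
set_option maxHeartbeats 1000000

open MeasureTheory Filter Topology
open scoped Classical ENNReal NNReal

namespace Pool.Agent.H951.KS

open Pool.Agent.W605.HD

/-- the union of the segments -/
def SS (q Y : ℕ → ℕ) (d : ℕ) : Set (EuclideanSpace ℝ (Fin (d + 1))) :=
  {x | ∃ (t : ℝ) (v : Fin d → ℝ), t ∈ Set.Icc (0 : ℝ) 1 ∧ (∀ i, 0 ≤ v i ∧ v i < 1) ∧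
    x = pt d t (fun i => bb q Y (v i) + t * v i)}

/-- the compact set -/
def KK (q Y : ℕ → ℕ) (d : ℕ) : Set (EuclideanSpace ℝ (Fin (d + 1))) := closure (SS q Y d)

variable {q κ Y : ℕ → ℕ}

theorem Seqs.KK_compact (h : Seqs q κ Y) (d : ℕ) : IsCompact (KK q Y d) := by
  refine Metric.isCompact_of_isClosed_isBounded isClosed_closure (Bornology.IsBounded.closure ?_)
  rw [isBounded_iff_forall_norm_le]
  refine ⟨Real.sqrt ((d + 1 : ℕ) * 9), ?_⟩
  rintro x ⟨t, v, ht, hv, rfl⟩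
  apply Real.le_sqrt_of_sq_le
  rw [EuclideanSpace.norm_sq_eq]
  have h1 : ∀ l : Fin (d + 1), ‖(pt d t (fun i => bb q Y (v i) + t * v i)) l‖ ^ 2 ≤ 9 := by
    intro l
    rw [Real.norm_eq_abs, sq_abs]
    refine Fin.cases ?_ (fun i => ?_) l
    · rw [pt_zero]
      nlinarith [ht.1, ht.2]
    · rw [pt_succ]
      have h2 := h.bb_bd (v i)
      have h3 := hv i
      have h4 : 0 ≤ t * v i := mul_nonneg ht.1 h3.1
      have h5 : t * v i ≤ 1 * 1 := mul_le_mul ht.2 h3.2.le h3.1 (by norm_num)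
      nlinarith [h2.1, h2.2]
  refine (Finset.sum_le_sum fun l _ => h1 l).trans (le_of_eq ?_)
  rw [Finset.sum_const, Finset.card_univ, Fintype.card_fin, nsmul_eq_mul]

theorem Seqs.cover2 (h : Seqs q κ Y) (d k x : ℕ) (hx : x < Y k)
    (hx2 : (κ k : ℝ) * x ≤ (Y k : ℝ) - x) (t : ℝ)
    (ht : |t - κ k * x / ((Y k : ℝ) - x)| ≤ 1 / q (k + 1)) (y : Fin d → ℝ)
    (hy : y ∈ slice d (KK q Y d) t) :
    ∃ c ∈ Fintype.piFinset (fun _ : Fin d => CC q κ Y k x), ∀ i, |y i - c i| ≤ 5 / q (k + 1) := by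
  by_contra hno
  push Not at hno
  have hq' := h.qR (k + 1)
  let G : Set (EuclideanSpace ℝ (Fin (d + 1))) := {z | |z 0 - t| < 1 / q (k + 1)} ∩
    ⋂ c ∈ Fintype.piFinset (fun _ : Fin d => CC q κ Y k x), ⋃ i : Fin d,
      {z : EuclideanSpace ℝ (Fin (d + 1)) | 5 / (q (k + 1) : ℝ) < |z i.succ - c i|}
  have hG : IsOpen G := by
    refine IsOpen.inter ?_ (isOpen_biInter_finset fun c _ => isOpen_iUnion fun i => ?_)
    · exact isOpen_lt (((EuclideanSpace.proj (𝕜 := ℝ) (0 : Fin (d + 1))).continuous.sub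
        continuous_const).abs) continuous_const
    · exact isOpen_lt continuous_const (((EuclideanSpace.proj (𝕜 := ℝ)
        (Fin.succ i)).continuous.sub continuous_const).abs)
  have hmem : pt d t y ∈ G := by
    refine ⟨?_, Set.mem_iInter₂.2 fun c hc => ?_⟩
    · change |pt d t y 0 - t| < 1 / q (k + 1)
      rw [pt_zero, sub_self, abs_zero]
      positivity
    · obtain ⟨i, hi⟩ := hno c hc
      exact Set.mem_iUnion.2 ⟨i, hi⟩
  obtain ⟨z, hz1, t', v, ht', hv, rfl⟩ := mem_closure_iff.1 hy G hG hmem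
  obtain ⟨h1, h2⟩ := hz1
  have h1' : |t' - t| < 1 / q (k + 1) := h1
  have h3 : |t' - κ k * x / ((Y k : ℝ) - x)| ≤ 2 / q (k + 1) := by
    have e1 : t' - κ k * x / ((Y k : ℝ) - x) = (t' - t) + (t - κ k * x / ((Y k : ℝ) - x)) := by ring
    rw [e1]
    refine (abs_add_le _ _).trans ?_
    have e2 : (2 : ℝ) / q (k + 1) = 1 / q (k + 1) + 1 / q (k + 1) := by ring
    rw [e2]
    exact add_le_add h1'.le ht
  have h4 : ∀ i : Fin d, ∃ y ∈ CC q κ Y k x, |bb q Y (v i) + t' * v i - y| ≤ 5 / q (k + 1) :=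
    fun i => h.cover1 k x hx hx2 t' (v i) (hv i).1 (hv i).2 h3
  choose c hc1 hc2 using h4
  obtain ⟨i, hi⟩ := Set.mem_iUnion.1 (Set.mem_iInter₂.1 h2 c (Fintype.mem_piFinset.2 hc1))
  have h5 : 5 / (q (k + 1) : ℝ) < |bb q Y (v i) + t' * v i - c i| := hi
  exact absurd (hc2 i) (not_le.2 h5)

theorem ediam_cball {X : Type*} [PseudoMetricSpace X] (p : X) (s : ℝ) :
    Metric.ediam (Metric.closedBall p s) ≤ ENNReal.ofReal (2 * s) := by
  refine Metric.ediam_le fun x hx y hy => ?_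
  rw [edist_dist]
  refine ENNReal.ofReal_le_ofReal ?_
  have h1 := dist_triangle_right x y p
  have h2 : dist x p ≤ s := hx
  have h3 : dist y p ≤ s := hy
  linarith

theorem Seqs.qhalf (h : Seqs q κ Y) (N k : ℕ) (hN : N ≤ k) :
    (1 : ℝ) / q (k + 1) ≤ (1 / 2) ^ N := by
  have h1 := h.grow 0 (k + 1)
  rw [zero_add] at h1
  have h2 : 2 ^ N ≤ q (k + 1) := by
    calc 2 ^ N ≤ 2 ^ (k + 1) := Nat.pow_le_pow_right (by norm_num) (by omega)
      _ = 2 ^ (k + 1) * 1 := (mul_one _).symm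
      _ ≤ 2 ^ (k + 1) * q 0 := Nat.mul_le_mul_left _ h.q0
      _ ≤ q (k + 1) := h1
  have h3 : (2 : ℝ) ^ N ≤ q (k + 1) := by exact_mod_cast h2
  rw [one_div_pow]
  exact one_div_le_one_div_of_le (by positivity) h3

theorem Seqs.dim_slice (h : Seqs q κ Y) (d : ℕ) (σ : ℝ) (hσ : 0 ≤ σ) (B : ℝ)
    (hB : ∀ k, ((q k * (2 * Y k + 1) : ℕ) : ℝ) ^ d * (10 / q (k + 1)) ^ σ ≤ B) (t : ℝ)
    (ht : ∀ k0 : ℕ, ∃ k, k0 ≤ k ∧ ∃ x : ℕ, x < Y k ∧ (κ k : ℝ) * x ≤ (Y k : ℝ) - x ∧
      |t - κ k * x / ((Y k : ℝ) - x)| ≤ 1 / q (k + 1)) :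
    dimH (slice d (KK q Y d) t) ≤ ENNReal.ofReal σ := by
  choose K hK x hx1 hx2 hx3 using ht
  have hmain : μH[((⟨σ, hσ⟩ : ℝ≥0) : ℝ)] (slice d (KK q Y d) t) ≠ ⊤ := by
    have h1 := Measure.hausdorffMeasure_le_liminf_sum (X := Fin d → ℝ) σ (slice d (KK q Y d) t)
      (l := atTop) (fun N : ℕ => ENNReal.ofReal (10 * (1 / 2) ^ N)) (by
        have h2 : Tendsto (fun N : ℕ => (10 : ℝ) * (1 / 2) ^ N) atTop (𝓝 (10 * 0)) :=
          (tendsto_pow_atTop_nhds_zero_of_lt_one (by norm_num) (by norm_num)).const_mul 10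
        rw [mul_zero] at h2
        have h3 := ENNReal.tendsto_ofReal h2
        rwa [ENNReal.ofReal_zero] at h3)
      (fun (N : ℕ) (c : {c // c ∈ Fintype.piFinset (fun _ : Fin d => CC q κ Y (K N) (x N))}) =>
        Metric.closedBall (c : Fin d → ℝ) (5 / q (K N + 1)))
      (Eventually.of_forall fun N c => by
        refine (ediam_cball _ _).trans (ENNReal.ofReal_le_ofReal ?_)
        have h4 := h.qhalf N (K N) (hK N)
        have e1 : 2 * (5 / (q (K N + 1) : ℝ)) = 10 * (1 / q (K N + 1)) := by ring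
        rw [e1]
        linarith)
      (Eventually.of_forall fun N y hy => by
        obtain ⟨c, hc1, hc2⟩ := h.cover2 d (K N) (x N) (hx1 N) (hx2 N) t (hx3 N) y hy
        refine Set.mem_iUnion.2 ⟨⟨c, hc1⟩, ?_⟩
        rw [Metric.mem_closedBall, dist_pi_le_iff (by have := h.qR (K N + 1); positivity)]
        intro i
        rw [Real.dist_eq]
        exact hc2 i)
    refine ne_top_of_le_ne_top (b := ENNReal.ofReal B) ENNReal.ofReal_ne_top (h1.trans ?_)
    refine (liminf_le_liminf (v := fun _ => ENNReal.ofReal B)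
      (Eventually.of_forall fun N => ?_)).trans (le_of_eq (liminf_const _))
    have h5 : ∀ c : {c // c ∈ Fintype.piFinset (fun _ : Fin d => CC q κ Y (K N) (x N))},
        (Metric.ediam (Metric.closedBall (c : Fin d → ℝ) (5 / q (K N + 1)))) ^ σ ≤
          ENNReal.ofReal ((10 / q (K N + 1)) ^ σ) := by
      intro c
      rw [← ENNReal.ofReal_rpow_of_nonneg (by positivity) hσ]
      refine ENNReal.rpow_le_rpow ((ediam_cball _ _).trans (ENNReal.ofReal_le_ofReal ?_)) hσ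
      exact le_of_eq (by ring)
    refine (Finset.sum_le_sum fun c _ => h5 c).trans ?_
    rw [Finset.sum_const, nsmul_eq_mul, Finset.card_univ, Fintype.card_coe, Fintype.card_piFinset,
      Finset.prod_const, Finset.card_univ, Fintype.card_fin, ← ENNReal.ofReal_natCast,
      ← ENNReal.ofReal_mul (Nat.cast_nonneg _)]
    refine ENNReal.ofReal_le_ofReal (le_trans ?_ (hB (K N)))
    refine mul_le_mul_of_nonneg_right ?_ (by positivity)
    have h6 := Nat.pow_le_pow_left (CC_card (q := q) (κ := κ) (Y := Y) (K N) (x N)) d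
    exact_mod_cast h6
  have h2 := dimH_le_of_hausdorffMeasure_ne_top hmain
  refine h2.trans (le_of_eq ?_)
  rw [ENNReal.ofReal, Real.toNNReal_of_nonneg hσ]
  rfl

/-- the slice in the Euclidean space -/
theorem dimH_le_slice (d : ℕ) (K : Set (EuclideanSpace ℝ (Fin (d + 1)))) (t : ℝ) :
    dimH (K ∩ {x | x 0 = t}) ≤ dimH (slice d K t) := by
  have h1 : K ∩ {x | x 0 = t} ⊆ (EuclideanSpace.equiv (Fin (d + 1)) ℝ).symm ''
      ((fun y : Fin d → ℝ => (Fin.cons t y : Fin (d + 1) → ℝ)) '' slice d K t) := by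
    rintro x ⟨hx, hx0⟩
    have h2 : pt d t (tl d x) = x := by
      have h3 : x 0 = t := hx0
      rw [← h3]
      exact pt_tl d x
    refine ⟨_, ⟨tl d x, ?_, rfl⟩, h2⟩
    change pt d t (tl d x) ∈ K
    rw [h2]
    exact hx
  refine (dimH_mono h1).trans ?_
  rw [ContinuousLinearEquiv.dimH_image]
  have h2 : LipschitzWith 1 (fun y : Fin d → ℝ => (Fin.cons t y : Fin (d + 1) → ℝ)) := by
    refine LipschitzWith.of_dist_le_mul fun x y => ?_
    rw [NNReal.coe_one, one_mul, dist_pi_le_iff dist_nonneg]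
    intro l
    refine Fin.cases ?_ (fun i => ?_) l
    · rw [Fin.cons_zero, Fin.cons_zero, dist_self]
      exact dist_nonneg
    · rw [Fin.cons_succ, Fin.cons_succ]
      exact dist_le_pi_dist x y i
  exact h2.dimH_image_le _

end Pool.Agent.H951.KS
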