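import Pool.Agent.H951.KS.Shp1

/-!
# A compact set of segments with small slices at many heights: the heights
-/

set_option autoImplicit false
set_option maxHeartbeats 1000000

open MeasureTheory Filter Topology
open scoped Classical ENNReal NNReal

namespace Pool.Agent.H951.KS

/-- the numbers of children -/
structure Hts (q κ Y m : ℕ → ℕ) : Prop extends Seqs q κ Y where
  m2 : ∀ k, 2 ≤ m k
  my : ∀ k, m k * (8 * κ k * q k) = Y k

/-- the number of intervals of level `k` -/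
def MM (m : ℕ → ℕ) : ℕ → ℕ
  | 0 => 1
  | k + 1 => MM m k * m k

/-- the special heights of level `k` -/
noncomputable def pos (κ Y : ℕ → ℕ) (k x : ℕ) : ℝ := κ k * x / ((Y k : ℝ) - x)

/-- the least index with a special height above `τ` -/
noncomputable def xi (κ Y : ℕ → ℕ) (k : ℕ) (τ : ℝ) : ℕ := ⌈τ * Y k / (κ k + τ)⌉₊

/-- the approximations of the height with the address `a` -/
noncomputable def TT (κ Y m : ℕ → ℕ) (a : ℝ) : ℕ → ℝ
  | 0 => 0
  | k + 1 => pos κ Y k (xi κ Y k (TT κ Y m a k) + ⌊(MM m (k + 1) : ℝ) * a⌋₊ % m k)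

variable {q κ Y m : ℕ → ℕ}

theorem Hts.mR (h : Hts q κ Y m) (k : ℕ) : (2 : ℝ) ≤ m k := by exact_mod_cast h.m2 k

theorem Hts.myR (h : Hts q κ Y m) (k : ℕ) : (m k : ℝ) * (8 * κ k * q k) = Y k := by
  exact_mod_cast h.my k

/-- one step -/
theorem Hts.one (h : Hts q κ Y m) (k : ℕ) (τ : ℝ) (hτ0 : 0 ≤ τ) (hτ1 : τ + 1 / q k ≤ 1) (c : ℕ)
    (hc : c < m k) :
    xi κ Y k τ + c < Y k ∧ (κ k : ℝ) * (xi κ Y k τ + c : ℕ) ≤ (Y k : ℝ) - (xi κ Y k τ + c : ℕ) ∧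
    τ ≤ pos κ Y k (xi κ Y k τ + c) ∧ pos κ Y k (xi κ Y k τ + c) ≤ τ + 1 / (2 * q k) := by
  have hκ := h.kR k
  have hY := h.yR k
  have hq := h.qR k
  have hq1 : (1 : ℝ) ≤ q k := by exact_mod_cast h.qpos k
  have hm := h.mR k
  have hmy := h.myR k
  obtain ⟨X, hX⟩ : ∃ X : ℕ, X = xi κ Y k τ + c := ⟨_, rfl⟩
  rw [← hX]
  obtain ⟨θ, hθ⟩ : ∃ θ : ℝ, θ = τ * Y k / (κ k + τ) := ⟨_, rfl⟩
  have hκτ : (0 : ℝ) < κ k + τ := by linarith
  have hθ0 : 0 ≤ θ := by rw [hθ]; positivity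
  have hτle : τ ≤ 1 := by
    have : (0 : ℝ) < 1 / q k := by positivity
    linarith
  have h1 : θ ≤ xi κ Y k τ := by
    unfold xi
    rw [← hθ]
    exact Nat.le_ceil _
  have h2 : (xi κ Y k τ : ℝ) < θ + 1 := by
    unfold xi
    rw [← hθ]
    exact Nat.ceil_lt_add_one hθ0
  have hc' : (c : ℝ) + 1 ≤ m k := by exact_mod_cast hc
  have hXR : (X : ℝ) = xi κ Y k τ + c := by rw [hX]; push_cast; rfl
  have hX1 : θ ≤ X := by
    rw [hXR]
    have : (0 : ℝ) ≤ c := Nat.cast_nonneg _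
    linarith
  have hX2 : (X : ℝ) ≤ θ + m k := by
    rw [hXR]
    linarith
  have hθm : θ * (κ k + τ) = τ * Y k := by
    rw [hθ]
    field_simp
  -- upper bounds for `θ` and `m`
  have hθ3 : 3 * θ ≤ Y k := by
    have h3 : θ * (2 + τ) ≤ τ * Y k := by
      rw [← hθm]
      exact mul_le_mul_of_nonneg_left (by linarith) hθ0
    nlinarith
  have hm16 : 16 * (m k : ℝ) ≤ Y k := by
    rw [← hmy]
    have h4 : (16 : ℝ) ≤ 8 * κ k * q k := by nlinarith
    nlinarith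
  have hYX : (Y k : ℝ) / 2 ≤ (Y k : ℝ) - X := by linarith
  have hYX0 : (0 : ℝ) < (Y k : ℝ) - X := by linarith
  have hlow : τ * ((Y k : ℝ) - X) ≤ κ k * X := by nlinarith
  have hup : κ k * X ≤ (τ + 1 / (2 * q k)) * ((Y k : ℝ) - X) := by
    have h5 : κ k * X - τ * ((Y k : ℝ) - X) = (κ k + τ) * (X - θ) := by
      linear_combination hθm
    have h6 : (κ k + τ) * (X - θ) ≤ (κ k + 1) * m k :=
      mul_le_mul (by linarith) (by linarith) (by linarith) (by linarith)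
    have h7 : 1 / (2 * (q k : ℝ)) * (Y k : ℝ) = 4 * κ k * m k := by
      rw [← hmy]
      field_simp
      norm_num
    have h8 : 1 / (2 * (q k : ℝ)) * ((Y k : ℝ) / 2) ≤ 1 / (2 * (q k : ℝ)) * ((Y k : ℝ) - X) :=
      mul_le_mul_of_nonneg_left hYX (by positivity)
    nlinarith
  have hXlt : X < Y k := by
    have : (X : ℝ) < Y k := by linarith
    exact_mod_cast this
  have hpos1 : τ ≤ pos κ Y k X := by
    unfold pos
    rw [le_div_iff₀ hYX0]
    exact hlow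
  have hpos2 : pos κ Y k X ≤ τ + 1 / (2 * q k) := by
    unfold pos
    rw [div_le_iff₀ hYX0]
    exact hup
  refine ⟨hXlt, ?_, hpos1, hpos2⟩
  have h9 : τ + 1 / (2 * (q k : ℝ)) ≤ 1 := by
    have : 1 / (2 * (q k : ℝ)) ≤ 1 / q k := one_div_le_one_div_of_le hq (by linarith)
    linarith
  refine hup.trans ?_
  calc (τ + 1 / (2 * (q k : ℝ))) * ((Y k : ℝ) - X) ≤ 1 * ((Y k : ℝ) - X) :=
        mul_le_mul_of_nonneg_right h9 hYX0.le
    _ = (Y k : ℝ) - X := one_mul _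

theorem Hts.bd (h : Hts q κ Y m) (a : ℝ) (k : ℕ) :
    0 ≤ TT κ Y m a k ∧ TT κ Y m a k + 1 / q k ≤ 1 := by
  induction k with
  | zero =>
    refine ⟨le_rfl, ?_⟩
    change (0 : ℝ) + 1 / q 0 ≤ 1
    rw [zero_add, div_le_one (h.qR 0)]
    exact_mod_cast h.q0
  | succ k ih =>
    obtain ⟨-, -, h3, h4⟩ := h.one k _ ih.1 ih.2 (⌊(MM m (k + 1) : ℝ) * a⌋₊ % m k)
      (Nat.mod_lt _ (by have := h.m2 k; omega))
    have h5 : (2 : ℝ) * q k ≤ q (k + 1) := by exact_mod_cast h.dbl k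
    have h6 := one_div_le_one_div_of_le (by have := h.qR k; positivity) h5
    have h7 : 1 / (q k : ℝ) = 1 / (2 * q k) + 1 / (2 * q k) := by
      have := h.qR k
      field_simp
      norm_num
    change 0 ≤ pos κ Y k _ ∧ pos κ Y k _ + 1 / (q (k + 1) : ℝ) ≤ 1
    constructor
    · exact ih.1.trans h3
    · linarith [ih.2]

theorem Hts.stp (h : Hts q κ Y m) (a : ℝ) (k : ℕ) :
    TT κ Y m a k ≤ TT κ Y m a (k + 1) ∧
      TT κ Y m a (k + 1) + 1 / q (k + 1) ≤ TT κ Y m a k + 1 / q k := by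
  obtain ⟨-, -, h3, h4⟩ := h.one k _ (h.bd a k).1 (h.bd a k).2 (⌊(MM m (k + 1) : ℝ) * a⌋₊ % m k)
    (Nat.mod_lt _ (by have := h.m2 k; omega))
  have h5 : (2 : ℝ) * q k ≤ q (k + 1) := by exact_mod_cast h.dbl k
  have h6 := one_div_le_one_div_of_le (by have := h.qR k; positivity) h5
  have h7 : 1 / (q k : ℝ) = 1 / (2 * q k) + 1 / (2 * q k) := by
    have := h.qR k
    field_simp
    norm_num
  refine ⟨h3, ?_⟩
  change pos κ Y k _ + 1 / (q (k + 1) : ℝ) ≤ TT κ Y m a k + 1 / q k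
  linarith

/-- the height with the address `a` -/
noncomputable def gg' (κ Y m : ℕ → ℕ) (a : ℝ) : ℝ := ⨆ k, TT κ Y m a k

theorem Hts.gb (h : Hts q κ Y m) (a : ℝ) (k : ℕ) :
    TT κ Y m a k ≤ gg' κ Y m a ∧ gg' κ Y m a ≤ TT κ Y m a k + 1 / q k := by
  have hmono : Monotone (TT κ Y m a) := monotone_nat_of_le_succ fun k => (h.stp a k).1
  have hanti : Antitone fun k => TT κ Y m a k + 1 / (q k : ℝ) :=
    antitone_nat_of_succ_le fun k => (h.stp a k).2
  have hle : ∀ i j, TT κ Y m a i ≤ TT κ Y m a j + 1 / q j := by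
    intro i j
    rcases le_total i j with hij | hij
    · refine (hmono hij).trans ?_
      have : (0 : ℝ) < 1 / q j := by have := h.qR j; positivity
      linarith
    · refine le_trans ?_ (hanti hij)
      have : (0 : ℝ) < 1 / q i := by have := h.qR i; positivity
      linarith
  constructor
  · exact le_ciSup ⟨TT κ Y m a 0 + 1 / q 0, by rintro _ ⟨i, rfl⟩; exact hle i 0⟩ k
  · exact ciSup_le fun i => hle i k

theorem Hts.near (h : Hts q κ Y m) (a : ℝ) (k : ℕ) : ∃ x : ℕ, x < Y k ∧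
    (κ k : ℝ) * x ≤ (Y k : ℝ) - x ∧
      |gg' κ Y m a - κ k * x / ((Y k : ℝ) - x)| ≤ 1 / q (k + 1) := by
  obtain ⟨h1, h2, -, -⟩ := h.one k _ (h.bd a k).1 (h.bd a k).2
    (⌊(MM m (k + 1) : ℝ) * a⌋₊ % m k) (Nat.mod_lt _ (by have := h.m2 k; omega))
  refine ⟨_, h1, h2, ?_⟩
  have h3 := h.gb a (k + 1)
  have h4 : TT κ Y m a (k + 1) =
      κ k * ((xi κ Y k (TT κ Y m a k) + ⌊(MM m (k + 1) : ℝ) * a⌋₊ % m k : ℕ) : ℝ) /
        ((Y k : ℝ) - ((xi κ Y k (TT κ Y m a k) + ⌊(MM m (k + 1) : ℝ) * a⌋₊ % m k : ℕ) : ℝ)) := rfl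
  rw [← h4, abs_of_nonneg (by linarith [h3.1])]
  linarith [h3.2]

theorem Hts.floor_eq (h : Hts q κ Y m) (a : ℝ) (k : ℕ) :
    ⌊(MM m k : ℝ) * a⌋₊ = ⌊(MM m (k + 1) : ℝ) * a⌋₊ / m k := by
  rw [← Nat.floor_div_natCast]
  congr 1
  have h1 : (m k : ℝ) ≠ 0 := by have := h.mR k; linarith
  change (MM m k : ℝ) * a = ((MM m k * m k : ℕ) : ℝ) * a / m k
  push_cast
  field_simp

theorem Hts.same (h : Hts q κ Y m) (a a' : ℝ) (k : ℕ)
    (hk : ⌊(MM m k : ℝ) * a⌋₊ = ⌊(MM m k : ℝ) * a'⌋₊) : TT κ Y m a k = TT κ Y m a' k := by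
  induction k with
  | zero => rfl
  | succ k ih =>
    have h1 := ih (by rw [h.floor_eq a k, h.floor_eq a' k, hk])
    change pos κ Y k _ = pos κ Y k _
    rw [h1, hk]

theorem pos_sep (h : Hts q κ Y m) (k x x' : ℕ) (hx : x < x') (hx' : x' < Y k) :
    ((x' : ℝ) - x) * (κ k / Y k) ≤ pos κ Y k x' - pos κ Y k x := by
  have hκ := h.kR k
  have hY := h.yR k
  have h1 : (x : ℝ) < x' := by exact_mod_cast hx
  have h2 : (x' : ℝ) < Y k := by exact_mod_cast hx'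
  have h3 : (0 : ℝ) ≤ x := Nat.cast_nonneg _
  have h4 : (0 : ℝ) < (Y k : ℝ) - x' := by linarith
  have h5 : (0 : ℝ) < (Y k : ℝ) - x := by linarith
  have e1 : pos κ Y k x' - pos κ Y k x =
      ((x' : ℝ) - x) * (κ k * Y k / (((Y k : ℝ) - x') * ((Y k : ℝ) - x))) := by
    unfold pos
    field_simp
    ring
  rw [e1]
  refine mul_le_mul_of_nonneg_left ?_ (by linarith)
  rw [div_le_div_iff₀ hY (mul_pos h4 h5)]
  have h6 : ((Y k : ℝ) - x') * ((Y k : ℝ) - x) ≤ Y k * Y k :=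
    mul_le_mul (by linarith) (by linarith) h5.le hY.le
  have h7 : (0 : ℝ) ≤ κ k := by linarith
  calc (κ k : ℝ) * (((Y k : ℝ) - x') * ((Y k : ℝ) - x)) ≤ κ k * (Y k * Y k) :=
        mul_le_mul_of_nonneg_left h6 h7
    _ = κ k * Y k * Y k := by ring

theorem Hts.Mpos (h : Hts q κ Y m) (k : ℕ) : 2 ^ k ≤ MM m k := by
  induction k with
  | zero => exact le_rfl
  | succ k ih => exact Nat.mul_le_mul ih (h.m2 k)

/-- the Hölder property of the address -/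
theorem Hts.holder (h : Hts q κ Y m) (r : ℝ) (hr0 : 0 < r) (hr1 : r ≤ 1)
    (hM : ∀ k, ((q k : ℝ) / q 0) ^ r ≤ MM m k) (a a' : ℝ) (ha : 0 ≤ a) (haa : a < a')
    (ha' : a' < 1) :
    a' - a ≤ 2 * (16 * (q 0 : ℝ)) ^ r * (gg' κ Y m a' - gg' κ Y m a) ^ r ∧
      gg' κ Y m a < gg' κ Y m a' := by
  have hex : ∃ k, ⌊(MM m k : ℝ) * a⌋₊ ≠ ⌊(MM m k : ℝ) * a'⌋₊ := by
    obtain ⟨k, hk⟩ := exists_nat_gt (1 / (a' - a))
    refine ⟨k, fun heq => ?_⟩
    have h1 : (k : ℝ) < 2 ^ k := by exact_mod_cast Nat.lt_two_pow_self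
    have h2 : (2 : ℝ) ^ k ≤ MM m k := by exact_mod_cast h.Mpos k
    have h3 : 1 / (a' - a) < MM m k := by linarith
    rw [div_lt_iff₀ (by linarith)] at h3
    have h4 := Nat.floor_le (a := (MM m k : ℝ) * a) (by positivity)
    have h5 := Nat.lt_floor_add_one ((MM m k : ℝ) * a')
    rw [heq] at h4
    linarith
  obtain ⟨k, hk, hmin⟩ : ∃ k, ⌊(MM m k : ℝ) * a⌋₊ ≠ ⌊(MM m k : ℝ) * a'⌋₊ ∧
      ∀ j < k, ⌊(MM m j : ℝ) * a⌋₊ = ⌊(MM m j : ℝ) * a'⌋₊ :=
    ⟨Nat.find hex, Nat.find_spec hex, fun j hj => not_not.1 (Nat.find_min hex hj)⟩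
  have hk0 : k ≠ 0 := by
    rintro rfl
    apply hk
    have e1 : ⌊(MM m 0 : ℝ) * a⌋₊ = 0 := by
      change ⌊((1 : ℕ) : ℝ) * a⌋₊ = 0
      rw [Nat.cast_one, one_mul, Nat.floor_eq_zero]
      linarith
    have e2 : ⌊(MM m 0 : ℝ) * a'⌋₊ = 0 := by
      change ⌊((1 : ℕ) : ℝ) * a'⌋₊ = 0
      rw [Nat.cast_one, one_mul, Nat.floor_eq_zero]
      linarith
    rw [e1, e2]
  obtain ⟨j, rfl⟩ := Nat.exists_eq_succ_of_ne_zero hk0
  rw [Nat.succ_eq_add_one] at hk hmin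
  have hj := hmin j (by omega)
  have hT := h.same a a' j hj
  obtain ⟨N, hN⟩ : ∃ N : ℕ, N = ⌊(MM m (j + 1) : ℝ) * a⌋₊ := ⟨_, rfl⟩
  obtain ⟨N', hN'⟩ : ∃ N' : ℕ, N' = ⌊(MM m (j + 1) : ℝ) * a'⌋₊ := ⟨_, rfl⟩
  have hM0 : (0 : ℝ) < MM m (j + 1) := by
    have := h.Mpos (j + 1)
    have h1 : 0 < 2 ^ (j + 1) := by positivity
    exact_mod_cast h1.trans_le this
  have hNN : N < N' := by
    refine lt_of_le_of_ne ?_ (by rw [hN, hN']; exact hk)
    rw [hN, hN']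
    exact Nat.floor_le_floor (mul_le_mul_of_nonneg_left haa.le hM0.le)
  have hdiv : N / m j = N' / m j := by
    rw [hN, hN', ← h.floor_eq a j, ← h.floor_eq a' j]
    exact hj
  have hm0 : 0 < m j := by have := h.m2 j; omega
  have hmod1 := Nat.div_add_mod N (m j)
  have hmod2 := Nat.div_add_mod N' (m j)
  rw [hdiv] at hmod1
  have hlt1 := Nat.mod_lt N hm0
  have hlt2 := Nat.mod_lt N' hm0
  have hcc : N % m j < N' % m j := by omega
  have hdiff : N' % m j - N % m j = N' - N := by omega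
  have hl : (N' : ℝ) - N = ((N' % m j : ℕ) : ℝ) - ((N % m j : ℕ) : ℝ) := by
    have h1 : N' + N % m j = N + N' % m j := by omega
    have h2 : (N' : ℝ) + ((N % m j : ℕ) : ℝ) = N + ((N' % m j : ℕ) : ℝ) := by exact_mod_cast h1
    linarith
  obtain ⟨l, hldef⟩ : ∃ l : ℝ, l = (N' : ℝ) - N := ⟨_, rfl⟩
  have hl1 : 1 ≤ l := by
    have : (N : ℝ) + 1 ≤ N' := by exact_mod_cast hNN
    rw [hldef]
    linarith
  have hlm : l ≤ m j := by
    rw [hldef, hl]
    have h1 : ((N' % m j : ℕ) : ℝ) < m j := by exact_mod_cast hlt2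
    have h2 : (0 : ℝ) ≤ ((N % m j : ℕ) : ℝ) := Nat.cast_nonneg _
    linarith
  -- the separation of the heights
  have hκ := h.kR j
  have hY := h.yR j
  have hq := h.qR j
  have hq1 : (1 : ℝ) ≤ q j := by exact_mod_cast h.qpos j
  have hmR := h.mR j
  have hmy := h.myR j
  obtain ⟨hb1, -, -, -⟩ := h.one j _ (h.bd a' j).1 (h.bd a' j).2 (N' % m j) hlt2
  have hsep := pos_sep h j (xi κ Y j (TT κ Y m a' j) + N % m j)
    (xi κ Y j (TT κ Y m a' j) + N' % m j) (by omega) hb1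
  have e1 : TT κ Y m a (j + 1) = pos κ Y j (xi κ Y j (TT κ Y m a' j) + N % m j) := by
    rw [hN, ← hT]
    rfl
  have e2 : TT κ Y m a' (j + 1) = pos κ Y j (xi κ Y j (TT κ Y m a' j) + N' % m j) := by
    rw [hN']
    rfl
  rw [← e1, ← e2] at hsep
  push_cast at hsep
  have hsep2 : l * (κ j / Y j) ≤ TT κ Y m a' (j + 1) - TT κ Y m a (j + 1) := by
    refine le_trans (le_of_eq ?_) hsep
    rw [hldef, hl]
    ring
  have hg1 := (h.gb a (j + 1)).2
  have hg2 := (h.gb a' (j + 1)).1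
  have hq2 : 1 / (q (j + 1) : ℝ) ≤ (κ j / Y j) / 2 := by
    rw [h.stepR j, div_div, div_le_div_iff₀ (by positivity) (by positivity)]
    have h1 : (1 : ℝ) * (Y j * 2) ≤ (q j * (κ j * κ j)) * Y j := by
      have h2 : (2 : ℝ) ≤ q j * (κ j * κ j) := by nlinarith
      nlinarith
    calc (1 : ℝ) * (Y j * 2) ≤ (q j * (κ j * κ j)) * Y j := h1
      _ = κ j * (q j * (κ j * Y j)) := by ring
  have hκY : 0 < (κ j : ℝ) / Y j := by positivity
  have hdg : l * ((κ j / Y j) / 2) ≤ gg' κ Y m a' - gg' κ Y m a := by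
    have h1 : (κ j : ℝ) / Y j / 2 ≤ l * ((κ j / Y j) / 2) := by nlinarith
    linarith
  have hpos : 0 < l * (((κ j : ℝ) / Y j) / 2) := by positivity
  refine ⟨?_, by linarith⟩
  -- the difference of the addresses
  have hda : a' - a ≤ 2 * l / MM m (j + 1) := by
    rw [le_div_iff₀ hM0]
    have h1 := Nat.floor_le (a := (MM m (j + 1) : ℝ) * a) (by positivity)
    have h2 := Nat.lt_floor_add_one ((MM m (j + 1) : ℝ) * a')
    rw [← hN] at h1
    rw [← hN'] at h2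
    rw [hldef] at hl1 ⊢
    linarith
  have hMj := hM j
  have hMj0 : 0 < ((q j : ℝ) / q 0) ^ r := Real.rpow_pos_of_pos (div_pos hq (h.qR 0)) r
  have hMM : (MM m (j + 1) : ℝ) = MM m j * m j := by
    change ((MM m j * m j : ℕ) : ℝ) = _
    push_cast
    rfl
  have hratio : l / m j ≤ 1 := by rw [div_le_one (by linarith)]; exact hlm
  have hratio0 : 0 < l / m j := div_pos (by linarith) (by linarith)
  have hpow : l / m j ≤ (l / m j) ^ r := by
    calc l / m j = (l / m j) ^ (1 : ℝ) := (Real.rpow_one _).symm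
      _ ≤ (l / m j) ^ r := Real.rpow_le_rpow_of_exponent_ge hratio0 hratio hr1
  have hκm : l * ((κ j / Y j) / 2) = (l / m j) * (1 / (16 * q j)) := by
    rw [← hmy]
    have : (m j : ℝ) ≠ 0 := by linarith
    have : (κ j : ℝ) ≠ 0 := by linarith
    field_simp
    norm_num
  calc a' - a ≤ 2 * l / MM m (j + 1) := hda
    _ = 2 * (l / m j) / MM m j := by
        rw [hMM]
        have : (m j : ℝ) ≠ 0 := by linarith
        field_simp
    _ ≤ 2 * (l / m j) ^ r / ((q j : ℝ) / q 0) ^ r := by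
        apply div_le_div₀ (by positivity) (by linarith) hMj0 hMj
    _ = 2 * (16 * (q 0 : ℝ)) ^ r * ((l / m j) * (1 / (16 * q j))) ^ r := by
        rw [Real.div_rpow hq.le (h.qR 0).le, Real.mul_rpow hratio0.le (by positivity),
          Real.mul_rpow (by norm_num) (h.qR 0).le, Real.div_rpow zero_le_one (by positivity),
          Real.mul_rpow (by norm_num) hq.le, Real.one_rpow]
        have h1 : (0 : ℝ) < (16 : ℝ) ^ r := by positivity
        have h2 : (0 : ℝ) < (q j : ℝ) ^ r := Real.rpow_pos_of_pos hq r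
        have h3 : (0 : ℝ) < (q 0 : ℝ) ^ r := Real.rpow_pos_of_pos (h.qR 0) r
        field_simp
    _ ≤ 2 * (16 * (q 0 : ℝ)) ^ r * (gg' κ Y m a' - gg' κ Y m a) ^ r := by
        refine mul_le_mul_of_nonneg_left ?_ (by positivity)
        rw [← hκm]
        exact Real.rpow_le_rpow hpos.le hdg hr0.le

end Pool.Agent.H951.KS
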