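import Pool.Agent.H951.KS.Shp2
import Pool.Agent.H951.KS.Shp3

/-!
# A compact set of segments with small slices at many heights: the result
-/

set_option autoImplicit false
set_option maxHeartbeats 1000000

open MeasureTheory Filter Topology
open scoped Classical ENNReal NNReal

namespace Pool.Agent.H951.KS

open Pool.Agent.W605.HD

theorem Hts.dimE {q κ Y m : ℕ → ℕ} (h : Hts q κ Y m) (r : ℝ) (hr0 : 0 < r) (hr1 : r ≤ 1)
    (hM : ∀ k, ((q k : ℝ) / q 0) ^ r ≤ MM m k) :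
    ENNReal.ofReal r ≤ dimH (gg' κ Y m '' Set.Ico (0 : ℝ) 1) := by
  obtain ⟨C, hC⟩ : ∃ C : ℝ, C = 2 * (16 * (q 0 : ℝ)) ^ r := ⟨_, rfl⟩
  have hC0 : 0 ≤ C := by rw [hC]; positivity
  let g := gg' κ Y m
  let f : ℝ → ℝ := Function.invFunOn g (Set.Ico (0 : ℝ) 1)
  have hkey : ∀ a ∈ Set.Ico (0 : ℝ) 1, ∀ a' ∈ Set.Ico (0 : ℝ) 1,
      |a - a'| ≤ C * |g a - g a'| ^ r := by
    intro a ha a' ha'
    rcases lt_trichotomy a a' with hlt | heq | hgt
    · obtain ⟨h1, h2⟩ := h.holder r hr0 hr1 hM a a' ha.1 hlt ha'.2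
      rw [abs_sub_comm a a', abs_sub_comm (g a), abs_of_pos (by linarith),
        abs_of_pos (by change 0 < gg' κ Y m a' - gg' κ Y m a; linarith), hC]
      exact h1
    · rw [heq, sub_self, abs_zero, sub_self, abs_zero]
      positivity
    · obtain ⟨h1, h2⟩ := h.holder r hr0 hr1 hM a' a ha'.1 hgt ha.2
      rw [abs_of_pos (by linarith),
        abs_of_pos (by change 0 < gg' κ Y m a - gg' κ Y m a'; linarith), hC]
      exact h1
  have hinj : Set.InjOn g (Set.Ico (0 : ℝ) 1) := by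
    intro a ha a' ha' heq
    have h1 := hkey a ha a' ha'
    rw [heq, sub_self, abs_zero, Real.zero_rpow hr0.ne', mul_zero] at h1
    have h2 := abs_nonneg (a - a')
    have h3 : |a - a'| = 0 := le_antisymm h1 h2
    linarith [abs_eq_zero.1 h3]
  have hf : ∀ a ∈ Set.Ico (0 : ℝ) 1, f (g a) = a := fun a ha => hinj.leftInvOn_invFunOn ha
  have hhol : HolderOnWith (Real.toNNReal C) (Real.toNNReal r) f (g '' Set.Ico (0 : ℝ) 1) := by
    rintro _ ⟨a, ha, rfl⟩ _ ⟨a', ha', rfl⟩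
    rw [hf a ha, hf a' ha', edist_dist, edist_dist, Real.dist_eq, Real.dist_eq,
      Real.coe_toNNReal _ hr0.le, ENNReal.ofReal_rpow_of_nonneg (abs_nonneg _) hr0.le]
    change ENNReal.ofReal _ ≤ ENNReal.ofReal C * _
    rw [← ENNReal.ofReal_mul hC0]
    exact ENNReal.ofReal_le_ofReal (hkey a ha a' ha')
  have h1 := hhol.dimH_image_le (Real.toNNReal_pos.2 hr0)
  have h2 : Set.Ico (0 : ℝ) 1 ⊆ f '' (g '' Set.Ico (0 : ℝ) 1) := by
    intro a ha
    exact ⟨g a, ⟨a, ha, rfl⟩, hf a ha⟩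
  have h3 : dimH (Set.Ico (0 : ℝ) 1) = 1 := by
    have h0 : (interior (Set.Ico (0 : ℝ) 1)).Nonempty := by
      rw [interior_Ico]
      exact ⟨1 / 2, by norm_num, by norm_num⟩
    have h00 := Real.dimH_of_nonempty_interior (E := ℝ) (s := Set.Ico (0 : ℝ) 1) h0
    rw [h00, Module.finrank_self]
    norm_num
  have h4 := (dimH_mono h2).trans h1
  rw [h3] at h4
  have h5 : (Real.toNNReal r : ℝ≥0∞) ≠ 0 := by
    rw [Ne, ENNReal.coe_eq_zero, Real.toNNReal_eq_zero, not_le]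
    exact hr0
  rw [ENNReal.le_div_iff_mul_le (Or.inl h5) (Or.inl ENNReal.coe_ne_top), one_mul] at h4
  exact h4

/-- the sequences with given parameters -/
theorem exists_seqs (u w L G : ℕ) (hu : 1 ≤ u) (hw : 1 ≤ w) (hL : 1 ≤ L) (hG : 4 ≤ G)
    (hGL : G + u * L + (u + w) = w * L) (r : ℝ)
    (hrG : 3 ≤ (G : ℝ) - r * (u + w) * L) (d : ℕ) (σ : ℝ)
    (hσ2 : (d : ℝ) * ((u + w) + w * L) ≤ σ * ((u + w) * (L + 1))) :
    ∃ q κ Y m : ℕ → ℕ, Hts q κ Y m ∧ (∀ k, ((q k : ℝ) / q 0) ^ r ≤ MM m k) ∧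
      (∀ k, ((q k * (2 * Y k + 1) : ℕ) : ℝ) ^ d * (10 / q (k + 1)) ^ σ ≤ 3 ^ d * 10 ^ σ) ∧
      4 ≤ q 0 := by
  let P : ℕ → ℕ := fun k => (L + 1) ^ k
  have hP : ∀ k, 1 ≤ P k := fun k => Nat.one_le_pow _ _ (by omega)
  have hP1 : ∀ k, P (k + 1) = P k * (L + 1) := fun k => pow_succ _ _
  let q : ℕ → ℕ := fun k => 2 ^ ((u + w) * P k)
  let κ : ℕ → ℕ := fun k => 2 ^ (u * L * P k)
  let Y : ℕ → ℕ := fun k => 2 ^ (w * L * P k)
  let m : ℕ → ℕ := fun k => 2 ^ (G * P k - 3)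
  have hGP : ∀ k, 4 ≤ G * P k := fun k => by
    calc 4 = 4 * 1 := rfl
      _ ≤ G * P k := Nat.mul_le_mul hG (hP k)
  have hstep : ∀ k, q (k + 1) = q k * (κ k * Y k) := by
    intro k
    change 2 ^ ((u + w) * P (k + 1)) = 2 ^ ((u + w) * P k) * (2 ^ (u * L * P k) * 2 ^ (w * L * P k))
    rw [← pow_add, ← pow_add, hP1]
    congr 1
    ring
  have hS : Hts q κ Y m := by
    refine ⟨⟨Nat.one_le_two_pow, fun k => ?_, fun k => Nat.one_le_two_pow, hstep⟩, fun k => ?_,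
      fun k => ?_⟩
    · change 2 ≤ 2 ^ (u * L * P k)
      calc 2 = 2 ^ 1 := rfl
        _ ≤ 2 ^ (u * L * P k) := Nat.pow_le_pow_right (by norm_num)
            (Nat.mul_pos (Nat.mul_pos hu hL) (hP k))
    · change 2 ≤ 2 ^ (G * P k - 3)
      calc 2 = 2 ^ 1 := rfl
        _ ≤ 2 ^ (G * P k - 3) := Nat.pow_le_pow_right (by norm_num) (by have := hGP k; omega)
    · change 2 ^ (G * P k - 3) * (8 * 2 ^ (u * L * P k) * 2 ^ ((u + w) * P k)) = 2 ^ (w * L * P k)
      have e8 : (8 : ℕ) = 2 ^ 3 := rfl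
      rw [e8, ← pow_add, ← pow_add, ← pow_add]
      congr 1
      have h1 : w * L * P k = G * P k + u * L * P k + (u + w) * P k := by
        rw [← hGL]
        ring
      have := hGP k
      omega
  refine ⟨q, κ, Y, m, hS, ?_, ?_, ?_⟩
  · intro k
    induction k with
    | zero =>
      rw [div_self (hS.qR 0).ne', Real.one_rpow]
      change (1 : ℝ) ≤ ((1 : ℕ) : ℝ)
      norm_num
    | succ k ih =>
      have hq := hS.qR k
      have hq0 := hS.qR 0
      have e1 : (q (k + 1) : ℝ) / q 0 = (q k : ℝ) / q 0 * (κ k * Y k) := by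
        rw [hS.stepR k]
        ring
      have hκY : (0 : ℝ) < (κ k : ℝ) * Y k := by
        have := hS.kR k
        have := hS.yR k
        positivity
      rw [e1, Real.mul_rpow (by positivity) hκY.le]
      have e2 : (MM m (k + 1) : ℝ) = MM m k * m k := by
        change ((MM m k * m k : ℕ) : ℝ) = _
        push_cast
        rfl
      rw [e2]
      refine mul_le_mul ih ?_ (Real.rpow_nonneg hκY.le r) (Nat.cast_nonneg _)
      have e3 : (κ k : ℝ) * Y k = (2 : ℝ) ^ (((u + w) * L * P k : ℕ) : ℝ) := by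
        rw [Real.rpow_natCast]
        change ((2 ^ (u * L * P k) : ℕ) : ℝ) * ((2 ^ (w * L * P k) : ℕ) : ℝ) = _
        push_cast
        rw [← pow_add]
        congr 1
        ring
      have e4 : (m k : ℝ) = (2 : ℝ) ^ ((G : ℝ) * P k - 3) := by
        have h1 : ((G : ℝ) * P k - 3) = ((G * P k - 3 : ℕ) : ℝ) := by
          rw [Nat.cast_sub (by have := hGP k; omega)]
          push_cast
          ring
        rw [h1, Real.rpow_natCast]
        change ((2 ^ (G * P k - 3) : ℕ) : ℝ) = _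
        push_cast
        rfl
      rw [e3, e4, ← Real.rpow_mul (by norm_num)]
      refine Real.rpow_le_rpow_of_exponent_le (by norm_num) ?_
      have h2 : (1 : ℝ) ≤ P k := by exact_mod_cast hP k
      push_cast
      nlinarith [mul_le_mul_of_nonneg_left h2 (by linarith : (0 : ℝ) ≤ (G : ℝ) - r * (u + w) * L)]
  · intro k
    have hq := hS.qR k
    have hq' := hS.qR (k + 1)
    have hY := hS.yR k
    have h1 : ((q k * (2 * Y k + 1) : ℕ) : ℝ) ≤ 3 * (q k * Y k) := by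
      push_cast
      have h2 : (1 : ℝ) ≤ Y k := by exact_mod_cast hS.y1 k
      nlinarith
    have h2 : ((q k * (2 * Y k + 1) : ℕ) : ℝ) ^ d ≤ (3 * (q k * Y k)) ^ d :=
      pow_le_pow_left₀ (Nat.cast_nonneg _) h1 d
    have e1 : (q k : ℝ) * Y k = (2 : ℝ) ^ (((u + w + w * L) * P k : ℕ) : ℝ) := by
      rw [Real.rpow_natCast]
      change ((2 ^ ((u + w) * P k) : ℕ) : ℝ) * ((2 ^ (w * L * P k) : ℕ) : ℝ) = _
      push_cast
      rw [← pow_add]
      congr 1
      ring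
    have e2 : (q (k + 1) : ℝ) = (2 : ℝ) ^ (((u + w) * (P k * (L + 1)) : ℕ) : ℝ) := by
      rw [Real.rpow_natCast]
      change ((2 ^ ((u + w) * P (k + 1)) : ℕ) : ℝ) = _
      rw [hP1]
      push_cast
      rfl
    have h3 : (10 / (q (k + 1) : ℝ)) ^ σ = 10 ^ σ * ((q (k + 1) : ℝ) ^ σ)⁻¹ := by
      rw [Real.div_rpow (by norm_num) hq'.le, div_eq_mul_inv]
    have h4 : ((q k : ℝ) * Y k) ^ d ≤ (q (k + 1) : ℝ) ^ σ := by
      rw [e1, e2, ← Real.rpow_natCast, ← Real.rpow_mul (by norm_num), ← Real.rpow_mul (by norm_num)]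
      refine Real.rpow_le_rpow_of_exponent_le (by norm_num) ?_
      push_cast
      have h5 : (0 : ℝ) ≤ P k := Nat.cast_nonneg _
      nlinarith [mul_le_mul_of_nonneg_right hσ2 h5]
    have h5 : 0 < (q (k + 1) : ℝ) ^ σ := Real.rpow_pos_of_pos hq' σ
    rw [h3]
    calc ((q k * (2 * Y k + 1) : ℕ) : ℝ) ^ d * (10 ^ σ * ((q (k + 1) : ℝ) ^ σ)⁻¹) ≤
        (3 * (q k * Y k)) ^ d * (10 ^ σ * ((q (k + 1) : ℝ) ^ σ)⁻¹) :=
          mul_le_mul_of_nonneg_right h2 (by positivity)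
      _ = 3 ^ d * 10 ^ σ * (((q k : ℝ) * Y k) ^ d * ((q (k + 1) : ℝ) ^ σ)⁻¹) := by
          rw [mul_pow]
          ring
      _ ≤ 3 ^ d * 10 ^ σ * 1 := by
          refine mul_le_mul_of_nonneg_left ?_ (by positivity)
          rw [← div_eq_mul_inv, div_le_one h5]
          exact h4
      _ = 3 ^ d * 10 ^ σ := mul_one _
  · change 4 ≤ 2 ^ ((u + w) * P 0)
    calc 4 = 2 ^ 2 := rfl
      _ ≤ 2 ^ ((u + w) * P 0) := Nat.pow_le_pow_right (by norm_num) (by
          have h1 := hP 0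
          nlinarith)

end Pool.Agent.H951.KS
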