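import Pool.Agent.H951.KS.Shp4

/-!
# A compact set of segments with small slices at many heights: the parameters
-/

set_option autoImplicit false
set_option maxHeartbeats 1000000

open MeasureTheory Filter Topology
open scoped Classical ENNReal NNReal

namespace Pool.Agent.H951.KS

open Pool.Agent.W605.HD

theorem exists_params (d : ℕ) (hd : 1 ≤ d) (s ρ : ℝ) (h1 : (d : ℝ) < 2 * s) (h2 : s ≤ d)
    (h3 : ρ < 2 * s / d - 1) :
    ∃ (u w L G : ℕ) (r σ : ℝ), 1 ≤ u ∧ 1 ≤ w ∧ 1 ≤ L ∧ 4 ≤ G ∧ G + u * L + (u + w) = w * L ∧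
      0 < r ∧ r ≤ 1 ∧ ρ ≤ r ∧ 3 ≤ (G : ℝ) - r * (u + w) * L ∧ 0 ≤ σ ∧ σ < s ∧
      (d : ℝ) * ((u + w) + w * L) ≤ σ * ((u + w) * (L + 1)) := by
  have hd0 : (0 : ℝ) < d := by exact_mod_cast hd
  obtain ⟨s1, hs1⟩ : ∃ s1 : ℝ, s1 = s / d := ⟨_, rfl⟩
  have hs : s = d * s1 := by rw [hs1]; field_simp
  have a1 : 1 < 2 * s1 := by
    rw [hs] at h1
    by_contra hno
    push Not at hno
    nlinarith
  have a2 : s1 ≤ 1 := by
    rw [hs1, div_le_one hd0]
    exact h2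
  have a3 : ρ < 2 * s1 - 1 := by
    have : 2 * s / d = 2 * s1 := by rw [hs1, mul_div_assoc]
    rwa [this] at h3
  obtain ⟨r, hr⟩ : ∃ r : ℝ, r = max ρ ((2 * s1 - 1) / 2) := ⟨_, rfl⟩
  have hr0 : 0 < r := by
    rw [hr]
    exact lt_max_of_lt_right (by linarith)
  have hr1 : r < 2 * s1 - 1 := by
    rw [hr]
    exact max_lt a3 (by linarith)
  have hρr : ρ ≤ r := by
    rw [hr]
    exact le_max_left _ _
  obtain ⟨lam, hl1, hl2⟩ := exists_rat_btwn (show (1 + r) / 2 < s1 by linarith)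
  have hlpos : (0 : ℝ) < lam := by linarith
  have hlpos' : (0 : ℚ) < lam := by exact_mod_cast hlpos
  obtain ⟨w, hw⟩ : ∃ w : ℕ, w = lam.num.toNat := ⟨_, rfl⟩
  obtain ⟨D, hD⟩ : ∃ D : ℕ, D = lam.den := ⟨_, rfl⟩
  have hnum : 0 < lam.num := Rat.num_pos.2 hlpos'
  have hD0 : 0 < D := by rw [hD]; exact lam.den_pos
  have hDR : (0 : ℝ) < D := by exact_mod_cast hD0
  have hwD : (lam : ℝ) = w / D := by
    have e1 : ((w : ℕ) : ℤ) = lam.num := by
      rw [hw]
      exact Int.toNat_of_nonneg hnum.le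
    have e2 : (lam : ℝ) = (lam.num : ℝ) / (lam.den : ℝ) := Rat.cast_def lam
    rw [e2, ← e1, hD]
    push_cast
    rfl
  have hw' : (w : ℝ) = lam * D := by
    rw [hwD]
    field_simp
  have hw1 : 1 ≤ w := by
    rw [hw]
    omega
  have hwltR : (w : ℝ) < D := by
    rw [hw']
    nlinarith
  have hwlt : w < D := by exact_mod_cast hwltR
  obtain ⟨u, hu⟩ : ∃ u : ℕ, u = D - w := ⟨_, rfl⟩
  have hu1 : 1 ≤ u := by omega
  have huw : u + w = D := by omega
  have huR : (u : ℝ) = D - w := by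
    have : ((u + w : ℕ) : ℝ) = D := by rw [huw]
    push_cast at this
    linarith
  obtain ⟨g, hg⟩ : ∃ g : ℝ, g = (w : ℝ) - u - r * D := ⟨_, rfl⟩
  have hg0 : 0 < g := by
    rw [hg, huR, hw']
    nlinarith
  obtain ⟨g', hg'⟩ : ∃ g' : ℝ, g' = s1 * D - w := ⟨_, rfl⟩
  have hg'0 : 0 < g' := by
    rw [hg', hw']
    nlinarith
  obtain ⟨L, hL⟩ := exists_nat_ge (max ((D + 3) / g) ((D + 3) / g') + 1)
  have hL1 : (D + 3) / g ≤ L := by linarith [le_max_left ((D + 3) / g) ((D + 3) / g')]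
  have hL2 : (D + 3) / g' ≤ L := by linarith [le_max_right ((D + 3) / g) ((D + 3) / g')]
  have hLg : (D : ℝ) + 3 ≤ L * g := (div_le_iff₀ hg0).1 hL1
  have hLg' : (D : ℝ) + 3 ≤ L * g' := (div_le_iff₀ hg'0).1 hL2
  have hLR : (1 : ℝ) ≤ L := by
    have : 0 < (D + 3) / g := by positivity
    linarith [le_max_left ((D + 3) / g) ((D + 3) / g')]
  have hLN : 1 ≤ L := by exact_mod_cast hLR
  have hkey : (u : ℝ) * L + D + 3 < w * L := by
    have e1 : (L : ℝ) * g = w * L - u * L - r * D * L := by rw [hg]; ring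
    have e2 : 0 < r * D * L := by positivity
    linarith
  have hkeyN : u * L + D + 3 < w * L := by exact_mod_cast hkey
  obtain ⟨G, hG⟩ : ∃ G : ℕ, G = w * L - (u * L + D) := ⟨_, rfl⟩
  have hGR : (G : ℝ) = w * L - u * L - D := by
    have e1 : G + (u * L + D) = w * L := by omega
    have e2 : ((G + (u * L + D) : ℕ) : ℝ) = ((w * L : ℕ) : ℝ) := by rw [e1]
    push_cast at e2
    linarith
  have hGL : G + u * L + (u + w) = w * L := by
    rw [huw]
    omega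
  have hLL : (0 : ℝ) < D * (L + 1) := by positivity
  obtain ⟨σ, hσ⟩ : ∃ σ : ℝ, σ = d * (D + w * L) / (D * (L + 1)) := ⟨_, rfl⟩
  have huwR : (u : ℝ) + w = D := by exact_mod_cast huw
  refine ⟨u, w, L, G, r, σ, hu1, hw1, hLN, by omega, hGL, hr0, by linarith, hρr, ?_, ?_, ?_, ?_⟩
  · rw [huwR, hGR]
    have e1 : (L : ℝ) * g = w * L - u * L - r * D * L := by rw [hg]; ring
    linarith
  · rw [hσ]
    positivity
  · rw [hσ, hs, div_lt_iff₀ hLL]
    have e1 : (L : ℝ) * g' = s1 * D * L - w * L := by rw [hg']; ring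
    have e2 : 0 < s1 * D := by nlinarith
    have e3 : (D : ℝ) + w * L < s1 * (D * (L + 1)) := by
      have : s1 * (D * (L + 1)) = s1 * D * L + s1 * D := by ring
      linarith
    calc (d : ℝ) * (D + w * L) < d * (s1 * (D * (L + 1))) := mul_lt_mul_of_pos_left e3 hd0
      _ = d * s1 * (D * (L + 1)) := by ring
  · rw [huwR, hσ, div_mul_cancel₀ _ hLL.ne']

end Pool.Agent.H951.KS
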