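import Pool.Agent.H951.KS.Shp5

/-!
# A Kakeya set with small slices at many heights of every segment
-/

set_option autoImplicit false
set_option maxHeartbeats 1000000

open MeasureTheory Filter Topology
open scoped Classical ENNReal NNReal

namespace Pool.Agent.H951.KS

open Pool.Agent.W605.HD

/-- the scales -/
noncomputable def sc (j : ℕ) : ℝ := (1 / 4) ^ j

theorem sc_pos (j : ℕ) : 0 < sc j := by
  unfold sc
  positivity

theorem sc_succ (j : ℕ) : sc (j + 1) = sc j / 4 := by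
  unfold sc
  rw [pow_succ]
  ring

theorem sc_le_one (j : ℕ) : sc j ≤ 1 := pow_le_one₀ (by norm_num) (by norm_num)

theorem sc_anti {i j : ℕ} (h : i < j) : 4 * sc j ≤ sc i := by
  have h1 : sc j ≤ sc (i + 1) := pow_le_pow_of_le_one (by norm_num) (by norm_num) h
  have h2 := sc_succ i
  linarith

/-- the affine images -/
noncomputable def Tm (d j : ℕ) (x : EuclideanSpace ℝ (Fin (d + 1))) :
    EuclideanSpace ℝ (Fin (d + 1)) :=
  pt d (sc j * (1 + x 0)) (fun i => 16 * x i.succ - 8 * x 0)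

theorem continuous_Tm (d j : ℕ) : Continuous (Tm d j) := by
  have hp : ∀ l : Fin (d + 1), Continuous fun x : EuclideanSpace ℝ (Fin (d + 1)) => x l :=
    fun l => (EuclideanSpace.proj (𝕜 := ℝ) l).continuous
  refine (EuclideanSpace.equiv (Fin (d + 1)) ℝ).symm.continuous.comp (continuous_pi fun l => ?_)
  refine Fin.cases ?_ (fun i => ?_) l
  · exact continuous_const.mul (continuous_const.add (hp 0))
  · exact (continuous_const.mul (hp i.succ)).sub (continuous_const.mul (hp 0))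

/-- the compact set with segments in all directions -/
def KF (q Y : ℕ → ℕ) (d : ℕ) : Set (EuclideanSpace ℝ (Fin (d + 1))) :=
  {x | x 0 = 0 ∧ ∀ i : Fin d, |x i.succ| ≤ 48} ∪ ⋃ j, Tm d j '' KK q Y d

variable {q κ Y m : ℕ → ℕ}

theorem Seqs.KK_bd (h : Seqs q κ Y) (d : ℕ) (x : EuclideanSpace ℝ (Fin (d + 1)))
    (hx : x ∈ KK q Y d) : (0 ≤ x 0 ∧ x 0 ≤ 1) ∧ ∀ i : Fin d, 0 ≤ x i.succ ∧ x i.succ ≤ 3 := by
  have hp : ∀ l : Fin (d + 1), Continuous fun x : EuclideanSpace ℝ (Fin (d + 1)) => x l :=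
    fun l => (EuclideanSpace.proj (𝕜 := ℝ) l).continuous
  have hcl : IsClosed {x : EuclideanSpace ℝ (Fin (d + 1)) | (0 ≤ x 0 ∧ x 0 ≤ 1) ∧
      ∀ i : Fin d, 0 ≤ x i.succ ∧ x i.succ ≤ 3} := by
    have e : {x : EuclideanSpace ℝ (Fin (d + 1)) | (0 ≤ x 0 ∧ x 0 ≤ 1) ∧
        ∀ i : Fin d, 0 ≤ x i.succ ∧ x i.succ ≤ 3} =
        ({x | 0 ≤ x 0} ∩ {x | x 0 ≤ 1}) ∩
          ⋂ i : Fin d, ({x | 0 ≤ x i.succ} ∩ {x | x i.succ ≤ 3}) := by
      ext x
      constructor
      · rintro ⟨h1, h2⟩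
        exact ⟨h1, Set.mem_iInter.2 fun i => h2 i⟩
      · rintro ⟨h1, h2⟩
        exact ⟨h1, fun i => Set.mem_iInter.1 h2 i⟩
    rw [e]
    refine IsClosed.inter (IsClosed.inter ?_ ?_) (isClosed_iInter fun i => IsClosed.inter ?_ ?_)
    · exact isClosed_le continuous_const (hp 0)
    · exact isClosed_le (hp 0) continuous_const
    · exact isClosed_le continuous_const (hp i.succ)
    · exact isClosed_le (hp i.succ) continuous_const
  refine closure_minimal ?_ hcl hx
  rintro x ⟨t, v, ht, hv, rfl⟩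
  refine ⟨⟨ht.1, ht.2⟩, fun i => ?_⟩
  rw [pt_succ]
  have h2 := h.bb_bd (v i)
  have h3 := hv i
  have h4 : 0 ≤ t * v i := mul_nonneg ht.1 h3.1
  have h5 : t * v i ≤ 1 * 1 := mul_le_mul ht.2 h3.2.le h3.1 (by norm_num)
  constructor <;> linarith [h2.1, h2.2]

theorem Seqs.Tm_bd (h : Seqs q κ Y) (d j : ℕ) (x : EuclideanSpace ℝ (Fin (d + 1)))
    (hx : x ∈ Tm d j '' KK q Y d) : (sc j ≤ x 0 ∧ x 0 ≤ 2 * sc j) ∧
      ∀ i : Fin d, |x i.succ| ≤ 48 := by
  obtain ⟨y, hy, rfl⟩ := hx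
  obtain ⟨h1, h2⟩ := h.KK_bd d y hy
  have h3 := sc_pos j
  refine ⟨⟨?_, ?_⟩, fun i => ?_⟩
  · change sc j ≤ sc j * (1 + y 0)
    nlinarith [h1.1]
  · change sc j * (1 + y 0) ≤ 2 * sc j
    nlinarith [h1.2]
  · change |16 * y i.succ - 8 * y 0| ≤ 48
    rw [abs_le]
    constructor <;> linarith [h1.1, h1.2, (h2 i).1, (h2 i).2]

theorem Seqs.KF_bd (h : Seqs q κ Y) (d : ℕ) (x : EuclideanSpace ℝ (Fin (d + 1)))
    (hx : x ∈ KF q Y d) : 0 ≤ x 0 ∧ x 0 ≤ 2 ∧ ∀ i : Fin d, |x i.succ| ≤ 48 := by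
  rcases hx with ⟨h1, h2⟩ | hx
  · exact ⟨h1.ge, by linarith, h2⟩
  · obtain ⟨j, hj⟩ := Set.mem_iUnion.1 hx
    obtain ⟨⟨h1, h2⟩, h3⟩ := h.Tm_bd d j x hj
    have h4 := sc_pos j
    have h5 := sc_le_one j
    exact ⟨by linarith, by linarith, h3⟩

theorem Seqs.KF_compact (h : Seqs q κ Y) (d : ℕ) : IsCompact (KF q Y d) := by
  have hp : ∀ l : Fin (d + 1), Continuous fun x : EuclideanSpace ℝ (Fin (d + 1)) => x l :=
    fun l => (EuclideanSpace.proj (𝕜 := ℝ) l).continuous
  refine Metric.isCompact_of_isClosed_isBounded ?_ ?_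
  · refine isClosed_of_closure_subset fun x hx => ?_
    have hbox : IsClosed {x : EuclideanSpace ℝ (Fin (d + 1)) | 0 ≤ x 0 ∧
        ∀ i : Fin d, |x i.succ| ≤ 48} := by
      have e : {x : EuclideanSpace ℝ (Fin (d + 1)) | 0 ≤ x 0 ∧ ∀ i : Fin d, |x i.succ| ≤ 48} =
          {x | 0 ≤ x 0} ∩ ⋂ i : Fin d, {x | |x i.succ| ≤ 48} := by
        ext x
        constructor
        · rintro ⟨h1, h2⟩
          exact ⟨h1, Set.mem_iInter.2 fun i => h2 i⟩
        · rintro ⟨h1, h2⟩
          exact ⟨h1, fun i => Set.mem_iInter.1 h2 i⟩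
      rw [e]
      exact (isClosed_le continuous_const (hp 0)).inter
        (isClosed_iInter fun i => isClosed_le (hp i.succ).abs continuous_const)
    obtain ⟨hx0, hx1⟩ := closure_minimal (fun y hy => by
      obtain ⟨h1, -, h2⟩ := h.KF_bd d y hy
      exact ⟨h1, h2⟩ : KF q Y d ⊆ {x | 0 ≤ x 0 ∧ ∀ i : Fin d, |x i.succ| ≤ 48}) hbox hx
    rcases hx0.eq_or_lt with h0 | h0
    · exact Or.inl ⟨h0.symm, hx1⟩
    · obtain ⟨J, hJ⟩ := exists_pow_lt_of_lt_one (show (0 : ℝ) < x 0 / 4 by linarith)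
        (show (1 / 4 : ℝ) < 1 by norm_num)
      have hcl : IsClosed ({y : EuclideanSpace ℝ (Fin (d + 1)) | y 0 ≤ x 0 / 2} ∪
          ⋃ j ∈ Finset.range J, Tm d j '' KK q Y d) := by
        refine (isClosed_le (hp 0) continuous_const).union ?_
        exact (Finset.range J).isCompact_biUnion (fun j _ =>
          (h.KK_compact d).image (continuous_Tm d j)) |>.isClosed
      have hsub : KF q Y d ⊆ {y : EuclideanSpace ℝ (Fin (d + 1)) | y 0 ≤ x 0 / 2} ∪
          ⋃ j ∈ Finset.range J, Tm d j '' KK q Y d := by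
        rintro y (⟨h1, -⟩ | hy)
        · left
          change y 0 ≤ x 0 / 2
          linarith
        · obtain ⟨j, hj⟩ := Set.mem_iUnion.1 hy
          rcases lt_or_ge j J with hjJ | hjJ
          · right
            exact Set.mem_iUnion₂.2 ⟨j, Finset.mem_range.2 hjJ, hj⟩
          · left
            change y 0 ≤ x 0 / 2
            obtain ⟨⟨-, h2⟩, -⟩ := h.Tm_bd d j y hj
            have h3 : sc j ≤ (1 / 4) ^ J := pow_le_pow_of_le_one (by norm_num) (by norm_num) hjJ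
            linarith
      rcases closure_minimal hsub hcl hx with h1 | h1
      · have : x 0 ≤ x 0 / 2 := h1
        linarith
      · obtain ⟨j, -, hj⟩ := Set.mem_iUnion₂.1 h1
        exact Or.inr (Set.mem_iUnion.2 ⟨j, hj⟩)
  · rw [isBounded_iff_forall_norm_le]
    refine ⟨Real.sqrt ((d + 1 : ℕ) * 48 ^ 2), ?_⟩
    intro x hx
    obtain ⟨h1, h2, h3⟩ := h.KF_bd d x hx
    apply Real.le_sqrt_of_sq_le
    rw [EuclideanSpace.norm_sq_eq]
    have h4 : ∀ l : Fin (d + 1), ‖x l‖ ^ 2 ≤ 48 ^ 2 := by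
      intro l
      rw [Real.norm_eq_abs]
      refine pow_le_pow_left₀ (abs_nonneg _) ?_ 2
      revert l
      refine Fin.cases ?_ (fun i => ?_)
      · rw [abs_of_nonneg h1]
        linarith
      · exact h3 i
    refine (Finset.sum_le_sum fun l _ => h4 l).trans (le_of_eq ?_)
    rw [Finset.sum_const, Finset.card_univ, Fintype.card_fin, nsmul_eq_mul]

theorem Seqs.KF_slice (h : Seqs q κ Y) (d j : ℕ) (t : ℝ) (ht0 : 0 ≤ t) (ht1 : t ≤ 1 / 4) :
    dimH (slice d (KF q Y d) (sc j * (1 + t))) ≤ dimH (slice d (KK q Y d) t) := by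
  have hj := sc_pos j
  have hsub : slice d (KF q Y d) (sc j * (1 + t)) ⊆
      (fun (y : Fin d → ℝ) (i : Fin d) => 16 * y i - 8 * t) '' slice d (KK q Y d) t := by
    intro y hy
    rcases hy with ⟨h1, -⟩ | hy
    · rw [pt_zero] at h1
      have : 0 < sc j * (1 + t) := by positivity
      linarith
    · obtain ⟨i, hi⟩ := Set.mem_iUnion.1 hy
      obtain ⟨⟨h2, h3⟩, -⟩ := h.Tm_bd d i _ hi
      rw [pt_zero] at h2 h3
      have hij : i = j := by
        by_contra hne
        rcases lt_or_gt_of_ne hne with hlt | hgt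
        · have := sc_anti hlt
          nlinarith
        · have := sc_anti hgt
          have := sc_pos i
          nlinarith
      subst hij
      obtain ⟨x, hx, hxy⟩ := hi
      have h4 : sc i * (1 + x 0) = sc i * (1 + t) := by
        have := congrArg (fun z : EuclideanSpace ℝ (Fin (d + 1)) => z 0) hxy
        exact this
      have h5 : x 0 = t := by
        have := mul_left_cancel₀ hj.ne' h4
        linarith
      refine ⟨tl d x, ?_, ?_⟩
      · change pt d t (tl d x) ∈ KK q Y d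
        rw [← h5, pt_tl]
        exact hx
      · funext l
        have := congrArg (fun z : EuclideanSpace ℝ (Fin (d + 1)) => z l.succ) hxy
        change 16 * x l.succ - 8 * x 0 = y l at this
        change 16 * x l.succ - 8 * t = y l
        rw [← h5]
        exact this
  refine (dimH_mono hsub).trans ?_
  have hlip : LipschitzWith 16 (fun (y : Fin d → ℝ) (i : Fin d) => 16 * y i - 8 * t) := by
    refine LipschitzWith.of_dist_le_mul fun x y => ?_
    rw [dist_pi_le_iff (by positivity)]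
    intro i
    rw [Real.dist_eq]
    have e1 : 16 * x i - 8 * t - (16 * y i - 8 * t) = 16 * (x i - y i) := by ring
    rw [e1, abs_mul, abs_of_pos (by norm_num : (0 : ℝ) < 16), ← Real.dist_eq]
    have := dist_le_pi_dist x y i
    have e2 : ((16 : ℝ≥0) : ℝ) = 16 := rfl
    rw [e2]
    linarith
  exact hlip.dimH_image_le _

end Pool.Agent.H951.KS
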