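import Pool.Agent.H951.KS.Shp6

/-!
# A Kakeya set with small slices at many heights of every segment: the result
-/

set_option autoImplicit false
set_option maxHeartbeats 1000000

open MeasureTheory Filter Topology
open scoped Classical ENNReal NNReal

namespace Pool.Agent.H951.KS

open Pool.Agent.W605.HD

variable {q κ Y m : ℕ → ℕ}

theorem mem_seg {d : ℕ} (a e x : EuclideanSpace ℝ (Fin (d + 1))) :
    x ∈ segment ℝ a (a + e) ↔ ∃ θ ∈ Set.Icc (0 : ℝ) 1, a + θ • e = x := by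
  rw [segment_eq_image']
  simp only [add_sub_cancel_left]
  exact Iff.rfl

theorem Hts.pos_dir (h : Hts q κ Y m) (hq4 : 4 ≤ q 0) (d : ℕ) (s ρ : ℝ)
    (hE : ENNReal.ofReal ρ ≤ dimH (gg' κ Y m '' Set.Ico (0 : ℝ) 1))
    (hS : ∀ t ∈ gg' κ Y m '' Set.Ico (0 : ℝ) 1,
      dimH (slice d (KK q Y d) t) < ENNReal.ofReal s)
    (e : EuclideanSpace ℝ (Fin (d + 1))) (he : ‖e‖ = 1) (he0 : 0 < e 0) :
    ∃ a, segment ℝ a (a + e) ⊆ KF q Y d ∧ ENNReal.ofReal ρ ≤
      dimH {x ∈ segment ℝ a (a + e) |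
        dimH (KF q Y d ∩ {y | y 0 = x 0}) < ENNReal.ofReal s} := by
  have hle : ∀ l, |e l| ≤ 1 := by
    intro l
    have := PiLp.norm_apply_le e l
    rwa [he, Real.norm_eq_abs] at this
  have he1 : e 0 ≤ 1 := (le_abs_self _).trans (hle 0)
  obtain ⟨j, hj1, hj2⟩ := exists_nat_pow_near_of_lt_one he0 he1
    (show (0 : ℝ) < 1 / 4 by norm_num) (show (1 / 4 : ℝ) < 1 by norm_num)
  change sc (j + 1) < e 0 at hj1
  change e 0 ≤ sc j at hj2
  have hj := sc_pos j
  rw [sc_succ] at hj1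
  obtain ⟨v, hv⟩ : ∃ v : Fin d → ℝ, v = fun i => 1 / 2 + sc j * e i.succ / (16 * e 0) := ⟨_, rfl⟩
  have hv1 : ∀ i, 0 ≤ v i ∧ v i < 1 := by
    intro i
    have h1 : |sc j * e i.succ / (16 * e 0)| ≤ 1 / 4 := by
      rw [abs_div, abs_mul, abs_of_pos hj, abs_of_pos (by positivity : 0 < 16 * e 0),
        div_le_iff₀ (by positivity)]
      calc sc j * |e i.succ| ≤ sc j * 1 := mul_le_mul_of_nonneg_left (hle _) hj.le
        _ ≤ 1 / 4 * (16 * e 0) := by linarith
    have h2 := abs_le.1 h1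
    have h3 : v i = 1 / 2 + sc j * e i.succ / (16 * e 0) := by rw [hv]
    constructor <;> linarith [h2.1, h2.2]
  have hv2 : ∀ i, 16 * v i - 8 = sc j * e i.succ / e 0 := by
    intro i
    have h3 : v i = 1 / 2 + sc j * e i.succ / (16 * e 0) := by rw [hv]
    rw [h3]
    field_simp
    ring
  obtain ⟨a, ha⟩ : ∃ a : EuclideanSpace ℝ (Fin (d + 1)),
    a = pt d (sc j) (fun i => 16 * bb q Y (v i)) := ⟨_, rfl⟩
  have hpt : ∀ t ∈ Set.Icc (0 : ℝ) 1,
      a + (t * sc j / e 0) • e = Tm d j (pt d t (fun i => bb q Y (v i) + t * v i)) := by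
    intro t _
    ext l
    refine Fin.cases ?_ (fun i => ?_) l
    · rw [PiLp.add_apply, PiLp.smul_apply, ha, pt_zero, smul_eq_mul]
      change _ = sc j * (1 + t)
      field_simp
    · rw [PiLp.add_apply, PiLp.smul_apply, ha, pt_succ, smul_eq_mul]
      change _ = 16 * (bb q Y (v i) + t * v i) - 8 * t
      have h4 := hv2 i
      have h5 : t * sc j / e 0 * e i.succ = t * (sc j * e i.succ / e 0) := by ring
      rw [h5, ← h4]
      ring
  refine ⟨a, ?_, ?_⟩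
  · intro x hx
    obtain ⟨θ, hθ, rfl⟩ := (mem_seg a e x).1 hx
    have ht : θ * e 0 / sc j ∈ Set.Icc (0 : ℝ) 1 := by
      refine ⟨div_nonneg (mul_nonneg hθ.1 he0.le) hj.le, ?_⟩
      rw [div_le_one hj]
      nlinarith [hθ.1, hθ.2]
    have h1 := hpt _ ht
    have e1 : θ * e 0 / sc j * sc j / e 0 = θ := by field_simp
    rw [e1] at h1
    rw [h1]
    refine Or.inr (Set.mem_iUnion.2 ⟨j, _, subset_closure ?_, rfl⟩)
    exact ⟨_, v, ht, hv1, rfl⟩
  · refine hE.trans ?_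
    have hsub : gg' κ Y m '' Set.Ico (0 : ℝ) 1 ⊆
        (fun x : EuclideanSpace ℝ (Fin (d + 1)) => x 0 / sc j - 1) ''
          {x ∈ segment ℝ a (a + e) |
            dimH (KF q Y d ∩ {y | y 0 = x 0}) < ENNReal.ofReal s} := by
      intro t ht
      have ht2 := hS t ht
      obtain ⟨b, hb, rfl⟩ := ht
      obtain ⟨h1, h2⟩ := h.gb b 0
      have h3 : TT κ Y m b 0 = 0 := rfl
      rw [h3] at h1 h2
      have h4 : (1 : ℝ) / q 0 ≤ 1 / 4 :=
        one_div_le_one_div_of_le (by norm_num) (by exact_mod_cast hq4)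
      have h5 : gg' κ Y m b ≤ 1 / 4 := by linarith
      obtain ⟨t, ht⟩ : ∃ t : ℝ, t = gg' κ Y m b := ⟨_, rfl⟩
      rw [← ht] at h1 h2 h5 ht2 ⊢
      have h6 := hpt t ⟨h1, by linarith⟩
      have h7 : (a + (t * sc j / e 0) • e) 0 = sc j * (1 + t) := by
        rw [h6]
        rfl
      refine ⟨a + (t * sc j / e 0) • e, ⟨?_, ?_⟩, ?_⟩
      · refine (mem_seg a e _).2 ⟨_, ⟨by positivity, ?_⟩, rfl⟩
        rw [div_le_one he0]
        nlinarith
      · refine lt_of_le_of_lt ?_ ht2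
        rw [h7]
        exact (dimH_le_slice d _ _).trans (h.toSeqs.KF_slice d j t h1 h5)
      · change (a + (t * sc j / e 0) • e) 0 / sc j - 1 = t
        rw [h7]
        field_simp
        ring
    refine (dimH_mono hsub).trans ?_
    have hlip : LipschitzWith (Real.toNNReal (1 / sc j))
        (fun x : EuclideanSpace ℝ (Fin (d + 1)) => x 0 / sc j - 1) := by
      refine LipschitzWith.of_dist_le_mul fun x y => ?_
      rw [Real.dist_eq, Real.coe_toNNReal _ (by positivity)]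
      have e1 : x 0 / sc j - 1 - (y 0 / sc j - 1) = 1 / sc j * (x 0 - y 0) := by ring
      rw [e1, abs_mul, abs_of_pos (by positivity : 0 < 1 / sc j)]
      refine mul_le_mul_of_nonneg_left ?_ (by positivity)
      have := PiLp.norm_apply_le (x - y) 0
      rw [Real.norm_eq_abs, PiLp.sub_apply] at this
      rwa [dist_eq_norm]
    exact hlip.dimH_image_le _

/-- the threshold is sharp -/
theorem sharp (d : ℕ) (hd : 1 ≤ d) (s ρ : ℝ) (h1 : (d : ℝ) < 2 * s) (h2 : s ≤ d)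
    (h3 : ρ < 2 * s / d - 1) :
    ∃ (K : Set (EuclideanSpace ℝ (Fin (d + 1)))) (ν : EuclideanSpace ℝ (Fin (d + 1))),
      IsCompact K ∧ ‖ν‖ = 1 ∧ ∀ e : EuclideanSpace ℝ (Fin (d + 1)), ‖e‖ = 1 →
        ∃ a : EuclideanSpace ℝ (Fin (d + 1)), segment ℝ a (a + e) ⊆ K ∧
          (inner ℝ e ν ≠ 0 → ENNReal.ofReal ρ ≤ dimH {x ∈ segment ℝ a (a + e) |
            dimH (K ∩ {y | inner ℝ y ν = inner ℝ x ν}) < ENNReal.ofReal s}) := by
  obtain ⟨u, w, L, G, r, σ, hu, hw, hL, hG, hGL, hr0, hr1, hρr, hrG, hσ0, hσs, hσ2⟩ :=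
    exists_params d hd s ρ h1 h2 h3
  obtain ⟨q, κ, Y, m, h, hM, hB, hq4⟩ := exists_seqs u w L G hu hw hL hG hGL r hrG d σ hσ2
  have hE : ENNReal.ofReal ρ ≤ dimH (gg' κ Y m '' Set.Ico (0 : ℝ) 1) :=
    (ENNReal.ofReal_le_ofReal hρr).trans (h.dimE r hr0 hr1 hM)
  have hS : ∀ t ∈ gg' κ Y m '' Set.Ico (0 : ℝ) 1,
      dimH (slice d (KK q Y d) t) < ENNReal.ofReal s := by
    rintro _ ⟨b, hb, rfl⟩
    refine lt_of_le_of_lt (h.toSeqs.dim_slice d σ hσ0 _ hB _ fun k0 => ?_)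
      ((ENNReal.ofReal_lt_ofReal_iff (by linarith)).2 hσs)
    obtain ⟨x, hx1, hx2, hx3⟩ := h.near b k0
    exact ⟨k0, le_rfl, x, hx1, hx2, hx3⟩
  have hν : ∀ y : EuclideanSpace ℝ (Fin (d + 1)),
      inner ℝ y (EuclideanSpace.single 0 (1 : ℝ)) = y 0 := by
    intro y
    rw [EuclideanSpace.inner_single_right]
    simp
  refine ⟨KF q Y d, EuclideanSpace.single 0 1, h.toSeqs.KF_compact d, by simp, fun e he => ?_⟩
  simp only [hν]
  rcases lt_trichotomy (e 0) 0 with hlt | heq | hgt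
  · have he' : ‖-e‖ = 1 := by rw [norm_neg, he]
    have hpos : 0 < (-e) 0 := by
      rw [PiLp.neg_apply]
      linarith
    obtain ⟨a, ha1, ha2⟩ := h.pos_dir hq4 d s ρ hE hS (-e) he' hpos
    have e1 : segment ℝ (a + -e) (a + -e + e) = segment ℝ a (a + -e) := by
      rw [neg_add_cancel_right, segment_symm]
    refine ⟨a + -e, ?_, fun _ => ?_⟩
    · rw [e1]
      exact ha1
    · rw [e1]
      exact ha2
  · refine ⟨0, ?_, fun hne => absurd heq hne⟩
    intro x hx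
    obtain ⟨θ, hθ, rfl⟩ := (mem_seg 0 e x).1 hx
    left
    have hle : ∀ l, |e l| ≤ 1 := by
      intro l
      have := PiLp.norm_apply_le e l
      rwa [he, Real.norm_eq_abs] at this
    constructor
    · rw [zero_add, PiLp.smul_apply, heq, smul_zero]
    · intro i
      rw [zero_add, PiLp.smul_apply, smul_eq_mul, abs_mul, abs_of_nonneg hθ.1]
      have := hle i.succ
      nlinarith [hθ.1, hθ.2, abs_nonneg (e i.succ)]
  · obtain ⟨a, ha1, ha2⟩ := h.pos_dir hq4 d s ρ hE hS e he hgt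
    exact ⟨a, ha1, fun _ => ha2⟩

end Pool.Agent.H951.KS
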