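import Pool.Agent.H951.KS.Shp7

/-!
# Sharpness for the directions of a subspace
-/

set_option autoImplicit false
set_option maxHeartbeats 1000000

open MeasureTheory Filter Topology
open scoped Classical ENNReal NNReal

namespace Pool.Agent.H951.KS

theorem sharpW (n m : ℕ) (hm : 2 ≤ m) (W : Submodule ℝ (EuclideanSpace ℝ (Fin n)))
    (hW : Module.finrank ℝ W = m) (s ρ : ℝ) (h1 : (m : ℝ) - 1 < 2 * s) (h2 : s ≤ (m : ℝ) - 1)
    (h3 : ρ < 2 * s / ((m : ℝ) - 1) - 1) :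
    ∃ (K : Set (EuclideanSpace ℝ (Fin n))) (ν : EuclideanSpace ℝ (Fin n)),
      IsCompact K ∧ ‖ν‖ = 1 ∧ ∀ e ∈ W, ‖e‖ = 1 →
        ∃ a : EuclideanSpace ℝ (Fin n), segment ℝ a (a + e) ⊆ K ∧
          (inner ℝ e ν ≠ 0 → ENNReal.ofReal ρ ≤ dimH {x ∈ segment ℝ a (a + e) |
            dimH (K ∩ {y | inner ℝ y ν = inner ℝ x ν}) < ENNReal.ofReal s}) := by
  obtain ⟨d, rfl⟩ : ∃ d, m = d + 1 := ⟨m - 1, by omega⟩
  have hd : 1 ≤ d := by omega
  have e1 : (((d + 1 : ℕ) : ℝ) - 1) = d := by push_cast; ring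
  rw [e1] at h1 h2 h3
  obtain ⟨K', ν', hK', hν', hex⟩ := sharp d hd s ρ h1 h2 h3
  let R : W ≃ₗᵢ[ℝ] EuclideanSpace ℝ (Fin (d + 1)) :=
    ((stdOrthonormalBasis ℝ W).reindex (finCongr hW)).repr
  let J : EuclideanSpace ℝ (Fin (d + 1)) →ₗᵢ[ℝ] EuclideanSpace ℝ (Fin n) :=
    W.subtypeₗᵢ.comp R.symm.toLinearIsometry
  refine ⟨J '' K', J ν', hK'.image J.continuous, by rw [J.norm_map]; exact hν', ?_⟩
  intro e he hne
  obtain ⟨e', he'⟩ : ∃ e', J e' = e := ⟨R ⟨e, he⟩, by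
    change ((R.symm (R ⟨e, he⟩) : W) : EuclideanSpace ℝ (Fin n)) = e
    rw [LinearIsometryEquiv.symm_apply_apply]⟩
  subst he'
  rw [J.norm_map] at hne
  obtain ⟨a', hseg, hdim⟩ := hex e' hne
  have himg : segment ℝ (J a') (J a' + J e') = J '' segment ℝ a' (a' + e') := by
    have h4 := image_segment ℝ (J.toLinearMap.toAffineMap) a' (a' + e')
    have h5 : (J.toLinearMap.toAffineMap) (a' + e') = J a' + J e' := by
      change J (a' + e') = J a' + J e'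
      rw [map_add]
    rw [h5] at h4
    exact h4.symm
  refine ⟨J a', ?_, fun hν => ?_⟩
  · rw [himg]
    exact Set.image_mono hseg
  · rw [J.inner_map_map] at hν
    refine (hdim hν).trans ?_
    rw [← J.isometry.dimH_image]
    refine dimH_mono ?_
    rintro _ ⟨x, ⟨hx, hxd⟩, rfl⟩
    refine ⟨by rw [himg]; exact ⟨x, hx, rfl⟩, lt_of_le_of_lt ?_ hxd⟩
    have h6 : J '' K' ∩ {y | inner ℝ y (J ν') = inner ℝ (J x) (J ν')} ⊆
        J '' (K' ∩ {y | inner ℝ y ν' = inner ℝ x ν'}) := by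
      rintro _ ⟨⟨y, hy, rfl⟩, hy2⟩
      refine ⟨y, ⟨hy, ?_⟩, rfl⟩
      change inner ℝ (J y) (J ν') = inner ℝ (J x) (J ν') at hy2
      rw [J.inner_map_map, J.inner_map_map] at hy2
      exact hy2
    refine (dimH_mono h6).trans ?_
    rw [J.isometry.dimH_image]

end Pool.Agent.H951.KS
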