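import Pool.Graph.R_seed8.Y674.HK.Haus
import Pool.Agent.H951.KS.Main

/-!
# Lines and the slices of small dimension of a compact set
-/

set_option autoImplicit false

open MeasureTheory
open scoped Classical ENNReal NNReal

namespace Pool.Agent.H951.KS

open Pool.Agent.W605.HD Pool.Agent.W46.HD Pool.Agent.Y254HK Pool.Agent.Y674.HK

/-- The slopes `v` of the lines which meet the union of the slices of dimension less than `α` of
`K` in positive length. -/
def NN (d : ℕ) (K : Set (EuclideanSpace ℝ (Fin (d + 1)))) (α : ℝ≥0) : Set (Fin d → ℝ) :=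
  {v | ∃ b : Fin d → ℝ, volume {t : ℝ | dimH (slice d K t) < α ∧
    pt d t (fun i => b i + t * v i) ∈ K} ≠ 0}

theorem continuous_line (d : ℕ) (b v : Fin d → ℝ) :
    Continuous fun t : ℝ => pt d t (fun i => b i + t * v i) := by
  have h : (fun t : ℝ => pt d t (fun i => b i + t * v i)) = fun t : ℝ =>
      (WithLp.toLp 2 (Fin.cons t (fun i => b i + t * v i) : Fin (d + 1) → ℝ)) := rfl
  rw [h]
  refine (PiLp.continuous_toLp 2 _).comp (continuous_pi fun l => ?_)
  refine Fin.cases ?_ (fun i => ?_) l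
  · simp only [Fin.cons_zero]
    exact continuous_id
  · simp only [Fin.cons_succ]
    fun_prop

theorem A0 (d : ℕ) (c : ℝ) (hc : 1 ≤ c) (hD : ∀ c' : ℝ, c < c' → DenseG d c')
    (K : Set (EuclideanSpace ℝ (Fin (d + 1)))) (hK : IsCompact K) (α : ℝ≥0)
    (hα : (α : ℝ) < d / c) :
    volume (NN d K α ∩ {v | ∀ i, 0 ≤ v i ∧ v i ≤ 1}) = 0 := by
  by_contra hcon
  have hex : ∀ v : Fin d → ℝ, ∃ b : Fin d → ℝ, v ∈ NN d K α →
      volume {t : ℝ | dimH (slice d K t) < α ∧ pt d t (fun i => b i + t * v i) ∈ K} ≠ 0 := by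
    intro v
    by_cases hv : v ∈ NN d K α
    · obtain ⟨b, hb⟩ := hv
      exact ⟨b, fun _ => hb⟩
    · exact ⟨0, fun h => absurd h hv⟩
  choose b hb using hex
  let T' : (Fin d → ℝ) → Set ℝ := fun v => {t | t ∈ Bad d K α ∧
    pt d t (fun i => b v i + t * v i) ∈ K}
  have hT'm : ∀ v, MeasurableSet (T' v) := by
    intro v
    refine (measurable_bad d K hK α).inter ?_
    exact (hK.isClosed.preimage (continuous_line d (b v) v)).measurableSet
  have hT'0 : ∀ v ∈ NN d K α, volume (T' v) ≠ 0 := by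
    intro v hv h0
    refine hb v hv (measure_mono_null ?_ h0)
    rintro t ⟨h1, h2⟩
    exact ⟨bad_of_dim d K hK α t h1, h2⟩
  let W : ℤ × ℕ → Set (Fin d → ℝ) := fun p => {v | (v ∈ NN d K α ∧ ∀ i, 0 ≤ v i ∧ v i ≤ 1) ∧
    ENNReal.ofReal (1 / ((p.2 : ℝ) + 1)) ≤ volume (T' v ∩ Set.Ico (p.1 : ℝ) (p.1 + 1))}
  have hcov : NN d K α ∩ {v | ∀ i, 0 ≤ v i ∧ v i ≤ 1} ⊆ ⋃ p, W p := by
    rintro v ⟨hv, hv1⟩
    have h1 : ∃ m : ℤ, volume (T' v ∩ Set.Ico (m : ℝ) (m + 1)) ≠ 0 := by
      by_contra hno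
      push Not at hno
      refine hT'0 v hv (measure_mono_null ?_ (measure_iUnion_null hno))
      intro t ht
      exact Set.mem_iUnion.2 ⟨⌊t⌋, ht, Int.floor_le t, Int.lt_floor_add_one t⟩
    obtain ⟨m, hm⟩ := h1
    have hfin : volume (T' v ∩ Set.Ico (m : ℝ) (m + 1)) ≠ ⊤ := by
      refine ne_top_of_le_ne_top ?_ (measure_mono Set.inter_subset_right)
      rw [Real.volume_Ico]
      exact ENNReal.ofReal_ne_top
    have hpos := ENNReal.toReal_pos hm hfin
    obtain ⟨q, hq⟩ := exists_nat_one_div_lt hpos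
    refine Set.mem_iUnion.2 ⟨(m, q), ⟨hv, hv1⟩, ?_⟩
    exact (ENNReal.ofReal_le_ofReal hq.le).trans ENNReal.ofReal_toReal_le
  have hex2 : ∃ p, volume (W p) ≠ 0 := by
    by_contra hno
    push Not at hno
    exact hcon (measure_mono_null hcov (measure_iUnion_null hno))
  obtain ⟨⟨m, q⟩, hp⟩ := hex2
  have hfin : volume (W (m, q)) ≠ ⊤ := by
    have h1 : W (m, q) ⊆ Set.Icc (0 : Fin d → ℝ) 1 := fun v hv =>
      ⟨fun i => (hv.1.2 i).1, fun i => (hv.1.2 i).2⟩
    refine ne_top_of_le_ne_top ?_ (measure_mono h1)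
    rw [Real.volume_Icc_pi]
    simp
  refine core d c hc hD α α.2 hα (volume (W (m, q))).toReal (1 / ((q : ℝ) + 1))
    (ENNReal.toReal_pos hp hfin) (by positivity) ?_
  intro k0
  obtain ⟨Dd, e, hDm, hDdis, hDgood, hDcov⟩ := choice d K hK α k0
  have hpre : ∀ S : Set ℝ, volume ((fun τ : ℝ => (m : ℝ) + τ) ⁻¹' S) = volume S := fun S =>
    measure_preimage_add _ _ _
  have hmm : Measurable fun τ : ℝ => (m : ℝ) + τ := measurable_const.add measurable_id
  refine ⟨W (m, q), fun v i => b v i + m * v i,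
    fun v => (fun τ : ℝ => (m : ℝ) + τ) ⁻¹' (T' v ∩ Set.Ico (m : ℝ) (m + 1)),
    fun j => (fun τ : ℝ => (m : ℝ) + τ) ⁻¹' (Dd j), e, fun v hv => hv.1.2,
    ENNReal.ofReal_toReal_le, fun v _ => hmm ((hT'm v).inter measurableSet_Ico), ?_, ?_,
    fun j => hmm (hDm j), ?_, fun j t ht => (hDgood j _ ht).1, ?_⟩
  · rintro v - τ ⟨-, h1, h2⟩
    exact ⟨by linarith, by linarith⟩
  · intro v hv
    rw [hpre]
    exact hv.2
  · intro i j hij
    exact Disjoint.preimage _ (hDdis hij)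
  · rintro v - τ ⟨⟨h1, h2⟩, -⟩
    obtain ⟨j, hj⟩ := hDcov _ (h1 k0)
    refine ⟨j, hj, ?_⟩
    have h3 := (hDgood j _ hj).2 h2
    have h4 : (fun i => b v i + m * v i + τ * v i) = fun i => b v i + ((m : ℝ) + τ) * v i := by
      funext i
      ring
    rw [h4]
    exact h3

theorem shr_pt (d : ℕ) (g : Fin d → ℤ) (t : ℝ) (y : Fin d → ℝ) :
    shr d g (pt d t y) = pt d t (fun i => y i - t * g i) := rfl

theorem continuous_shr (d : ℕ) (g : Fin d → ℤ) : Continuous (shr d g) :=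
  LinearMap.continuous_of_finiteDimensional _

theorem shr_inj (d : ℕ) (g : Fin d → ℤ) (x x' : EuclideanSpace ℝ (Fin (d + 1)))
    (h : shr d g x = shr d g x') : x = x' := by
  have h0 : shr d g x 0 = shr d g x' 0 := by rw [h]
  change x 0 = x' 0 at h0
  ext l
  refine Fin.cases h0 (fun i => ?_) l
  have h1 : shr d g x (Fin.succ i) = shr d g x' (Fin.succ i) := by rw [h]
  change x (Fin.succ i) - x 0 * g i = x' (Fin.succ i) - x' 0 * g i at h1
  rw [h0] at h1
  linarith

theorem slice_shr (d : ℕ) (g : Fin d → ℤ) (K : Set (EuclideanSpace ℝ (Fin (d + 1)))) (t : ℝ) :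
    slice d (shr d g '' K) t = (fun y : Fin d → ℝ => y + fun i => -(t * g i)) '' slice d K t := by
  ext y
  constructor
  · rintro ⟨x, hx, hxy⟩
    refine ⟨fun i => y i + t * g i, ?_, ?_⟩
    · change pt d t (fun i => y i + t * g i) ∈ K
      have h1 : shr d g (pt d t (fun i => y i + t * g i)) = shr d g x := by
        rw [hxy, shr_pt]
        congr 1
        funext i
        ring
      rw [shr_inj d g _ _ h1]
      exact hx
    · funext i
      simp
  · rintro ⟨z, hz, rfl⟩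
    refine ⟨pt d t z, hz, ?_⟩
    rw [shr_pt]
    congr 1

theorem dimH_slice_shr (d : ℕ) (g : Fin d → ℤ) (K : Set (EuclideanSpace ℝ (Fin (d + 1))))
    (t : ℝ) : dimH (slice d (shr d g '' K) t) = dimH (slice d K t) := by
  rw [slice_shr]
  exact (IsometryEquiv.addRight (fun i => -(t * (g i : ℝ)))).isometry.dimH_image _

theorem A1 (d : ℕ) (c : ℝ) (hc : 1 ≤ c) (hD : ∀ c' : ℝ, c < c' → DenseG d c')
    (K : Set (EuclideanSpace ℝ (Fin (d + 1)))) (hK : IsCompact K) (α : ℝ≥0)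
    (hα : (α : ℝ) < d / c) : volume (NN d K α) = 0 := by
  have hcov : NN d K α ⊆ ⋃ g : Fin d → ℤ, (fun v : Fin d → ℝ => v + fun i => -(g i : ℝ)) ⁻¹'
      (NN d (shr d g '' K) α ∩ {v | ∀ i, 0 ≤ v i ∧ v i ≤ 1}) := by
    rintro v ⟨b, hb⟩
    refine Set.mem_iUnion.2 ⟨fun i => ⌊v i⌋, ⟨b, ?_⟩, ?_⟩
    · intro h0
      apply hb
      refine measure_mono_null ?_ h0
      rintro t ⟨h1, h2⟩
      refine ⟨?_, ?_⟩
      · rw [dimH_slice_shr]
        exact h1
      · refine ⟨_, h2, ?_⟩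
        rw [shr_pt]
        congr 1
        funext i
        simp only [Pi.add_apply]
        ring
    · intro i
      simp only [Pi.add_apply]
      have h1 := Int.floor_le (v i)
      have h2 := Int.lt_floor_add_one (v i)
      constructor <;> linarith
  refine measure_mono_null hcov (measure_iUnion_null fun g => ?_)
  rw [measure_preimage_add_right]
  exact A0 d c hc hD _ (hK.image (continuous_shr d g)) α hα

end Pool.Agent.H951.KS
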